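import Mathlib

open MvPolynomial

namespace Pool.Agent.H93RH

set_option linter.all false

variable {K : Type*} [Field K]

/-- differential polynomials in `w` with constant coefficients, `X k = w_k`. -/
abbrev AA (K : Type*) [Field K] := MvPolynomial ℕ K

noncomputable def Sh (j : ℕ) : Derivation K (AA K) (AA K) := mkDerivation K (fun k => X (k + j))

noncomputable def D : Derivation K (AA K) (AA K) := Sh 1

noncomputable def ell (x : K) : Derivation K (AA K) (AA K) := mkDerivation K (fun k => C (x ^ k))

noncomputable def Dx (x : K) (G : AA K) : AA K := D G + C x * G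

noncomputable def E (x : K) (Q : AA K) : Derivation K (AA K) (AA K) :=
  mkDerivation K (fun k => (Dx x)^[k] Q)

noncomputable def br (F G : AA K) : AA K := E 0 (D F) G - E 0 (D G) F

@[simp] theorem Sh_X (j i : ℕ) : (Sh j : Derivation K (AA K) (AA K)) (X i) = X (i + j) := by
  simp [Sh, mkDerivation_X]
@[simp] theorem D_X (i : ℕ) : (D : Derivation K (AA K) (AA K)) (X i) = X (i + 1) := by
  simp [D]
@[simp] theorem ell_X (x : K) (i : ℕ) : ell x (X i) = C (x ^ i) := by
  simp [ell, mkDerivation_X]
@[simp] theorem E_X (x : K) (Q : AA K) (i : ℕ) : E x Q (X i) = (Dx x)^[i] Q := by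
  simp [E, mkDerivation_X]
@[simp] theorem der_C (d : Derivation K (AA K) (AA K)) (c : K) : d (C c) = 0 := by
  have := d.map_algebraMap c
  simpa using this

theorem der_ext {d e : Derivation K (AA K) (AA K)} (h : ∀ i, d (X i) = e (X i)) : d = e :=
  derivation_ext h

theorem ell_Sh (x : K) (j : ℕ) (G : AA K) : ell x (Sh j G) = Sh j (ell x G) + C (x ^ j) * ell x G := by
  have h : ⁅ell x, (Sh j : Derivation K (AA K) (AA K))⁆ = (C (x ^ j) : AA K) • ell x := by
    apply der_ext
    intro i
    simp [Derivation.commutator_apply, pow_add, mul_comm]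
  have := congrArg (fun d : Derivation K (AA K) (AA K) => d G) h
  simp only [Derivation.commutator_apply, Derivation.smul_apply, smul_eq_mul] at this
  linear_combination this

theorem ell_D (x : K) (G : AA K) : ell x (D G) = Dx x (ell x G) := by
  have := ell_Sh x 1 G
  simpa [D, Dx] using this

theorem ell_Dx (x y : K) (G : AA K) : ell y (Dx x G) = Dx (x + y) (ell y G) := by
  unfold Dx
  rw [map_add, Derivation.leibniz, der_C, ell_D, Dx]
  simp only [smul_eq_mul, mul_zero, add_zero, C_add]
  ring

theorem ell_Dx_iter (x y : K) (k : ℕ) (G : AA K) :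
    ell y ((Dx x)^[k] G) = (Dx (x + y))^[k] (ell y G) := by
  induction k generalizing G with
  | zero => rfl
  | succ k ih => rw [Function.iterate_succ_apply, Function.iterate_succ_apply, ih, ell_Dx]

theorem ell_E (x y : K) (Q G : AA K) : ell y (E x Q G) = E x Q (ell y G) + E (x + y) (ell y Q) G := by
  have h : ⁅ell y, E x Q⁆ = E (x + y) (ell y Q) := by
    apply der_ext
    intro i
    simp [Derivation.commutator_apply, ell_Dx_iter]
  have := congrArg (fun d : Derivation K (AA K) (AA K) => d G) h
  simp only [Derivation.commutator_apply] at this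
  linear_combination this

theorem Dx_zero (G : AA K) : Dx 0 G = D G := by simp [Dx]

theorem Dx_zero_fun : (Dx 0 : AA K → AA K) = D := by
  funext G; exact Dx_zero G

theorem E_D (Q G : AA K) : E 0 Q (D G) = D (E 0 Q G) := by
  have h : ⁅E 0 Q, (D : Derivation K (AA K) (AA K))⁆ = 0 := by
    apply der_ext
    intro i
    simp [Derivation.commutator_apply, Dx_zero_fun, Function.iterate_succ_apply']
  have := congrArg (fun d : Derivation K (AA K) (AA K) => d G) h
  simp only [Derivation.commutator_apply, Derivation.zero_apply] at this
  linear_combination this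

theorem E_Diter (Q G : AA K) (k : ℕ) : E 0 Q ((⇑(D : Derivation K (AA K) (AA K)))^[k] G) = (⇑(D : Derivation K (AA K) (AA K)))^[k] (E 0 Q G) := by
  induction k generalizing G with
  | zero => rfl
  | succ k ih => rw [Function.iterate_succ_apply, Function.iterate_succ_apply, ih, E_D]

theorem Diter_sub (F G : AA K) (k : ℕ) : (⇑(D : Derivation K (AA K) (AA K)))^[k] (F - G) = (⇑(D : Derivation K (AA K) (AA K)))^[k] F - (⇑(D : Derivation K (AA K) (AA K)))^[k] G := by
  induction k generalizing F G with
  | zero => rfl
  | succ k ih => rw [Function.iterate_succ_apply, map_sub, ih]; rfl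

theorem E_E (Q S G : AA K) : E 0 Q (E 0 S G) - E 0 S (E 0 Q G) = E 0 (E 0 Q S - E 0 S Q) G := by
  have h : ⁅E 0 Q, E 0 S⁆ = E 0 (E 0 Q S - E 0 S Q) := by
    apply der_ext
    intro i
    simp [Derivation.commutator_apply, Dx_zero_fun, E_Diter, Diter_sub]
  have := congrArg (fun d : Derivation K (AA K) (AA K) => d G) h
  simpa only [Derivation.commutator_apply] using this

theorem D_br (F G : AA K) : D (br F G) = E 0 (D F) (D G) - E 0 (D G) (D F) := by
  unfold br
  rw [map_sub, E_D, E_D]

theorem E_sub_left (x : K) (Q S G : AA K) : E x (Q - S) G = E x Q G - E x S G := by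
  have h : E x (Q - S) = E x Q - E x S := by
    apply der_ext
    intro i
    simp only [E_X, Derivation.sub_apply]
    induction i generalizing Q S with
    | zero => rfl
    | succ k ih =>
      rw [Function.iterate_succ_apply, Function.iterate_succ_apply, Function.iterate_succ_apply]
      have : Dx x (Q - S) = Dx x Q - Dx x S := by unfold Dx; rw [map_sub]; ring
      rw [this, ih]
  rw [h]; rfl

theorem E_add_left (x : K) (Q S G : AA K) : E x (Q + S) G = E x Q G + E x S G := by
  have h : E x (Q + S) = E x Q + E x S := by
    apply der_ext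
    intro i
    simp only [E_X, Derivation.add_apply]
    induction i generalizing Q S with
    | zero => rfl
    | succ k ih =>
      rw [Function.iterate_succ_apply, Function.iterate_succ_apply, Function.iterate_succ_apply]
      have : Dx x (Q + S) = Dx x Q + Dx x S := by unfold Dx; rw [map_add]; ring
      rw [this, ih]
  rw [h]; rfl

theorem E_smul_left (x c : K) (Q G : AA K) : E x (C c * Q) G = C c * E x Q G := by
  have h : E x (C c * Q) = (C c : AA K) • E x Q := by
    apply der_ext
    intro i
    simp only [E_X, Derivation.smul_apply, smul_eq_mul]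
    induction i generalizing Q with
    | zero => rfl
    | succ k ih =>
      rw [Function.iterate_succ_apply, Function.iterate_succ_apply]
      have : Dx x (C c * Q) = C c * Dx x Q := by
        unfold Dx; rw [Derivation.leibniz, der_C]; simp only [smul_eq_mul, mul_zero, add_zero]; ring
      rw [this, ih]
  rw [h]; rfl

theorem E_zero_left (x : K) (G : AA K) : E x 0 G = 0 := by
  have := E_sub_left x 0 0 G
  simpa using this

theorem br_add_left (F F' G : AA K) : br (F + F') G = br F G + br F' G := by
  unfold br; simp only [map_add, E_add_left]; ring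
theorem br_add_right (F G G' : AA K) : br F (G + G') = br F G + br F G' := by
  unfold br; simp only [map_add, E_add_left]; ring
theorem br_sub_right (F G G' : AA K) : br F (G - G') = br F G - br F G' := by
  unfold br; simp only [map_sub, E_sub_left]; ring
theorem br_smul_left (c : K) (F G : AA K) : br (C c * F) G = C c * br F G := by
  unfold br
  rw [Derivation.leibniz, der_C, Derivation.leibniz, der_C]
  simp only [smul_eq_mul, mul_zero, add_zero, E_smul_left]; ring
theorem br_smul_right (c : K) (F G : AA K) : br F (C c * G) = C c * br F G := by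
  unfold br
  rw [Derivation.leibniz, der_C, Derivation.leibniz, der_C]
  simp only [smul_eq_mul, mul_zero, add_zero, E_smul_left]; ring
theorem br_zero_left (G : AA K) : br 0 G = 0 := by
  unfold br; simp [E_zero_left]
theorem br_zero_right (G : AA K) : br G 0 = 0 := by
  unfold br; simp [E_zero_left]
theorem br_swap (F G : AA K) : br F G = - br G F := by
  unfold br; ring

theorem jacobi (P R F : AA K) : br P (br R F) - br R (br P F) = br (br P R) F := by
  have h1 := E_E (D P) (D R) F
  have e1 : br (br P R) F = E 0 (E 0 (D P) (D R) - E 0 (D R) (D P)) F - E 0 (D F) (E 0 (D P) R - E 0 (D R) P) := by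
    conv_lhs => unfold br
    rw [map_sub, E_D, E_D]
  have e2 : br P (br R F) = E 0 (D P) (E 0 (D R) F - E 0 (D F) R) - E 0 (E 0 (D R) (D F) - E 0 (D F) (D R)) P := by
    conv_lhs => unfold br
    rw [map_sub, map_sub, E_D, E_D]
  have e3 : br R (br P F) = E 0 (D R) (E 0 (D P) F - E 0 (D F) P) - E 0 (E 0 (D P) (D F) - E 0 (D F) (D P)) R := by
    conv_lhs => unfold br
    rw [map_sub, map_sub, E_D, E_D]
  rw [e1, e2, e3, ← E_E, ← E_E, ← E_E]
  simp only [map_sub]
  ring

/-! symbols -/

noncomputable def sy : List K → AA K → K
  | [], G => constantCoeff G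
  | (x :: l), G => sy l (ell x G)

@[simp] theorem sy_nil (G : AA K) : sy [] G = constantCoeff G := rfl
theorem sy_cons (x : K) (l : List K) (G : AA K) : sy (x :: l) G = sy l (ell x G) := rfl

@[simp] theorem sy_add (l : List K) (F G : AA K) : sy l (F + G) = sy l F + sy l G := by
  induction l generalizing F G with
  | nil => simp
  | cons x l ih => simp [sy_cons, ih]
@[simp] theorem sy_sub (l : List K) (F G : AA K) : sy l (F - G) = sy l F - sy l G := by
  induction l generalizing F G with
  | nil => simp
  | cons x l ih => simp [sy_cons, ih]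
@[simp] theorem sy_neg (l : List K) (F : AA K) : sy l (-F) = -sy l F := by
  induction l generalizing F with
  | nil => simp
  | cons x l ih => simp [sy_cons, ih]
@[simp] theorem sy_zero (l : List K) : sy l (0 : AA K) = 0 := by
  induction l with
  | nil => simp
  | cons x l ih => simp [sy_cons, ih]
theorem sy_C_mul (l : List K) (c : K) (F : AA K) : sy l (C c * F) = c * sy l F := by
  induction l generalizing F with
  | nil => simp
  | cons x l ih =>
    rw [sy_cons, Derivation.leibniz, der_C]
    simp [ih, sy_cons]
theorem sy_sum {ι : Type*} (s : Finset ι) (f : ι → AA K) (l : List K) :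
    sy l (∑ i ∈ s, f i) = ∑ i ∈ s, sy l (f i) := by
  classical
  induction s using Finset.induction_on with
  | empty => simp
  | insert a s ha ih => rw [Finset.sum_insert ha, Finset.sum_insert ha, sy_add, ih]

theorem cc_Sh (j : ℕ) (G : AA K) : constantCoeff (Sh j G) = 0 := by
  induction G using MvPolynomial.induction_on with
  | C a => simp
  | add p q hp hq => simp [hp, hq]
  | mul_X p i hp => simp [Derivation.leibniz, hp]

theorem sy_Sh (l : List K) (j : ℕ) (G : AA K) : sy l (Sh j G) = (l.map (· ^ j)).sum * sy l G := by
  induction l generalizing G with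
  | nil => simp [cc_Sh]
  | cons x l ih =>
    rw [sy_cons, ell_Sh, sy_add, ih, sy_C_mul, sy_cons]
    simp only [List.map_cons, List.sum_cons]; ring

theorem sy_D (l : List K) (G : AA K) : sy l (D G) = l.sum * sy l G := by
  have := sy_Sh l 1 G
  simpa [D] using this

theorem cc_Dx_iter (x : K) (k : ℕ) (Q : AA K) : constantCoeff ((Dx x)^[k] Q) = x ^ k * constantCoeff Q := by
  induction k generalizing Q with
  | zero => simp
  | succ k ih =>
    rw [Function.iterate_succ_apply, ih]
    have : constantCoeff (D Q) = 0 := cc_Sh 1 Q
    simp [Dx, this, pow_succ]; ring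

theorem cc_E (x : K) (Q G : AA K) : constantCoeff (E x Q G) = constantCoeff Q * constantCoeff (ell x G) := by
  induction G using MvPolynomial.induction_on with
  | C a => simp
  | add p q hp hq => simp [hp, hq, mul_add]
  | mul_X p i hp =>
    simp only [Derivation.leibniz, smul_eq_mul, map_add, map_mul, hp, E_X, ell_X, cc_Dx_iter, constantCoeff_C, constantCoeff_X, zero_mul, mul_zero, add_zero]
    ring

/-- all ways to split a list. -/
def splits {R : Type*} [Add R] : List R → R → List (List R × List R)
  | [], x => [([], [x])]
  | (y :: l), x => (splits l x).map (fun ab => (ab.1, y :: ab.2)) ++ (splits l (x + y)).map (fun ab => (y :: ab.1, ab.2))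

theorem splits_length {R : Type*} [Add R] (l : List R) (x : R) : ∀ ab ∈ splits l x, ab.1.length + ab.2.length = l.length + 1 := by
  induction l generalizing x with
  | nil => intro ab h; simp [splits] at h; subst h; simp
  | cons y l ih =>
    intro ab h
    simp only [splits, List.mem_append, List.mem_map] at h
    rcases h with ⟨cd, h1, rfl⟩ | ⟨cd, h1, rfl⟩
    · have := ih x cd h1; simp; omega
    · have := ih (x + y) cd h1; simp; omega

theorem splits_snd {R : Type*} [Add R] (l : List R) (x : R) : ∀ ab ∈ splits l x, 1 ≤ ab.2.length := by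
  induction l generalizing x with
  | nil => intro ab h; simp [splits] at h; subst h; simp
  | cons y l ih =>
    intro ab h
    simp only [splits, List.mem_append, List.mem_map] at h
    rcases h with ⟨cd, h1, rfl⟩ | ⟨cd, h1, rfl⟩
    · simp
    · exact ih (x + y) cd h1

theorem sy_E (l : List K) (x : K) (Q G : AA K) :
    sy l (E x Q G) = ((splits l x).map (fun ab => sy ab.1 Q * sy ab.2 G)).sum := by
  induction l generalizing x Q G with
  | nil => simp [splits, cc_E, sy_cons]
  | cons y l ih =>
    rw [sy_cons, ell_E, sy_add, ih, ih]
    simp only [splits, List.map_append, List.map_map, List.sum_append]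
    rfl

theorem sum_map_sub' {α : Type*} (l : List α) (f g : α → K) :
    (l.map f).sum - (l.map g).sum = (l.map (fun a => f a - g a)).sum := by
  induction l with
  | nil => simp
  | cons a l ih => simp only [List.map_cons, List.sum_cons, ← ih]; ring

theorem sy_br (l : List K) (F G : AA K) :
    sy l (br F G) = ((splits l 0).map (fun ab => ab.1.sum * (sy ab.1 F * sy ab.2 G - sy ab.1 G * sy ab.2 F))).sum := by
  unfold br
  rw [sy_sub, sy_E, sy_E]
  simp only [sy_D]
  rw [sum_map_sub']
  congr 1
  apply List.map_congr_left
  intro ab _
  ring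

end Pool.Agent.H93RH
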