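import Mathlib

/-!
# Deformations of the Riemann hierarchy: definitions

`𝒜_u = ℂ[[u]][u_1, u_2, …]` is `MvPolynomial ℕ (PowerSeries ℂ)`, the variable `X k` being `u_{k+1}`.
-/

open MvPolynomial

namespace Pool.Agent.H93RH

set_option linter.all false

/-- differential polynomials `ℂ[[u]][u_1, u_2, …]`; the variable `X k` is `u_{k+1}`. -/
abbrev DP := MvPolynomial ℕ (PowerSeries ℂ)

/-- `∂/∂u`: differentiate every coefficient. -/
noncomputable def dU (G : DP) : DP :=
  ∑ s ∈ G.support, monomial s (PowerSeries.derivative ℂ (coeff s G))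

/-- `∂/∂u_k`, `k ≥ 0` (`u_0 = u`). -/
noncomputable def pd (k : ℕ) (G : DP) : DP :=
  match k with
  | 0 => dU G
  | k + 1 => pderiv k G

/-- the total `x`-derivative `∂_x = ∑_{k ≥ 0} u_{k+1} ∂/∂u_k`. -/
noncomputable def dx (G : DP) : DP := ∑ᶠ k : ℕ, X k * pd k G

/-- the expression `∑_{k ≥ 0} (∂_x^k Q ∂R/∂u_k − ∂_x^k R ∂Q/∂u_k)` for `Q, R ∈ 𝒜_u`. -/
noncomputable def brk (Q R : DP) : DP := ∑ᶠ k : ℕ, (dx^[k] Q * pd k R - dx^[k] R * pd k Q)

/-- elements of `𝒜_u[[ε]]`. -/
abbrev EDP := PowerSeries DP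

/-- homogeneous of degree `0` for `deg u = 0`, `deg u_k = k`, `deg ε = -1`: the coefficient of
`ε^n` is homogeneous of degree `n`. -/
def Deg0 (F : EDP) : Prop :=
  ∀ n, (PowerSeries.coeff n F).IsWeightedHomogeneous (fun k : ℕ => k + 1) n

/-- the evolutionary equations `u_t = ∂_x F` and `u_s = ∂_x G` (with `∂_x` acting on
`𝒜_u[[ε]]` coefficientwise) commute: the coefficient of every `ε^n` in
`∑_k (∂_x^k(∂_x F) ∂(∂_x G)/∂u_k − ∂_x^k(∂_x G) ∂(∂_x F)/∂u_k)` vanishes. -/
def FlowsCommute (F G : EDP) : Prop :=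
  ∀ n, ∑ ij ∈ Finset.HasAntidiagonal.antidiagonal n, brk (dx (PowerSeries.coeff ij.1 F)) (dx (PowerSeries.coeff ij.2 G)) = 0

/-- A deformation of the Riemann hierarchy: `u_{t_d} = ∂_x P_d`, `d = 0, 1, 2, …`, with
`P_d ∈ 𝒜_u[[ε]]` homogeneous of degree `0`, `P_d = u^{d+1}/(d+1)! + O(ε)`, pairwise commuting. -/
structure IsDeformation (P : ℕ → EDP) : Prop where
  deg : ∀ d, Deg0 (P d)
  lead : ∀ d, PowerSeries.coeff 0 (P d) = C (PowerSeries.monomial (d + 1) (((d + 1).factorial : ℂ)⁻¹))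
  comm : ∀ d e, FlowsCommute (P d) (P e)

/-- The flow `u_t = ∂_x F` is in normal form with `a(u) = 0`: the coefficient of `ε` vanishes and
no coefficient of `ε^k`, `k ≥ 2`, involves `u_1`. -/
def NormalForm (F : EDP) : Prop :=
  PowerSeries.coeff 1 F = 0 ∧ ∀ k, 2 ≤ k → ∀ s : ℕ →₀ ℕ, coeff s (PowerSeries.coeff k F) ≠ 0 → s 0 = 0

/-- the coefficient `c_2(u)` of `ε² u_2` (`u_2` is the variable `X 1`). -/
noncomputable def c2 (F : EDP) : PowerSeries ℂ := coeff (Finsupp.single 1 1) (PowerSeries.coeff 2 F)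

/-! ### basic lemmas -/

theorem coeff_dU (s : ℕ →₀ ℕ) (G : DP) : coeff s (dU G) = PowerSeries.derivative ℂ (coeff s G) := by
  classical
  unfold dU
  rw [coeff_sum]
  simp only [coeff_monomial]
  rw [Finset.sum_ite_eq']
  split_ifs with h
  · rfl
  · rw [notMem_support_iff.1 h, map_zero]

theorem dU_add (F G : DP) : dU (F + G) = dU F + dU G := by
  ext1 s; rw [coeff_dU, coeff_add, coeff_add, coeff_dU, coeff_dU, map_add]
theorem dU_C (a : PowerSeries ℂ) : dU (C a) = C (PowerSeries.derivative ℂ a) := by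
  classical
  ext1 s; rw [coeff_dU, coeff_C, coeff_C]; split_ifs <;> simp
theorem dU_mul_X (G : DP) (k : ℕ) : dU (G * X k) = dU G * X k := by
  classical
  ext1 s; rw [coeff_dU, coeff_mul_X', coeff_mul_X', coeff_dU]; split_ifs <;> simp

theorem pd_add (k : ℕ) (F G : DP) : pd k (F + G) = pd k F + pd k G := by
  cases k with
  | zero => exact dU_add F G
  | succ k => exact map_add _ _ _
theorem pd_mul_X (k j : ℕ) (G : DP) : pd k (G * X j) = pd k G * X j + (if k = j + 1 then G else 0) := by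
  classical
  cases k with
  | zero =>
    rw [if_neg (by omega)]
    show dU (G * X j) = _
    rw [dU_mul_X, add_zero]; rfl
  | succ k =>
    show pderiv k (G * X j) = pderiv k G * X j + _
    rw [Derivation.leibniz, pderiv_X]
    by_cases hk : k = j
    · subst hk; rw [Pi.single_eq_same, if_pos rfl]; simp only [smul_eq_mul, mul_one]; ring
    · rw [Pi.single_eq_of_ne (Ne.symm hk), if_neg (by omega)]; simp only [smul_eq_mul]; ring
theorem pd_C (k : ℕ) (a : PowerSeries ℂ) : pd k (C a) = if k = 0 then C (PowerSeries.derivative ℂ a) else 0 := by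
  cases k with
  | zero => rw [if_pos rfl]; exact dU_C a
  | succ k => rw [if_neg (by omega)]; exact pderiv_C

theorem pd_fin (G : DP) : ∃ N, ∀ k, N ≤ k → pd k G = 0 := by
  induction G using MvPolynomial.induction_on with
  | C a => exact ⟨1, fun k hk => by rw [pd_C, if_neg (by omega)]⟩
  | add p q hp hq =>
    obtain ⟨N1, h1⟩ := hp
    obtain ⟨N2, h2⟩ := hq
    exact ⟨max N1 N2, fun k hk => by rw [pd_add, h1 k (by omega), h2 k (by omega), add_zero]⟩
  | mul_X p i hp =>
    obtain ⟨N1, h1⟩ := hp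
    exact ⟨max N1 (i + 2), fun k hk => by rw [pd_mul_X, h1 k (by omega), if_neg (by omega)]; simp⟩

/-- generic sum -/
noncomputable def EE (f : ℕ → DP) (G : DP) : DP := ∑ᶠ k : ℕ, f k * pd k G

theorem EE_sum (f : ℕ → DP) (G : DP) (N : ℕ) (hN : ∀ k, N ≤ k → pd k G = 0) :
    EE f G = ∑ k ∈ Finset.range N, f k * pd k G := by
  unfold EE
  apply finsum_eq_sum_of_support_subset
  intro k hk
  simp only [Finset.coe_range, Set.mem_Iio]
  by_contra h
  apply hk
  simp only
  rw [hN k (by omega), mul_zero]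

theorem EE_add (f : ℕ → DP) (F G : DP) : EE f (F + G) = EE f F + EE f G := by
  obtain ⟨N1, h1⟩ := pd_fin F
  obtain ⟨N2, h2⟩ := pd_fin G
  rw [EE_sum f F (max N1 N2) (fun k hk => h1 k (by omega)), EE_sum f G (max N1 N2) (fun k hk => h2 k (by omega)),
    EE_sum f (F + G) (max N1 N2) (fun k hk => by rw [pd_add, h1 k (by omega), h2 k (by omega), add_zero]), ← Finset.sum_add_distrib]
  exact Finset.sum_congr rfl fun k _ => by rw [pd_add, mul_add]

theorem EE_C (f : ℕ → DP) (a : PowerSeries ℂ) : EE f (C a) = f 0 * C (PowerSeries.derivative ℂ a) := by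
  rw [EE_sum f (C a) 1 (fun k hk => by rw [pd_C, if_neg (by omega)])]
  simp [pd_C]

theorem EE_mul_X (f : ℕ → DP) (G : DP) (j : ℕ) : EE f (G * X j) = EE f G * X j + G * f (j + 1) := by
  obtain ⟨N1, h1⟩ := pd_fin G
  rw [EE_sum f G (max N1 (j + 2)) (fun k hk => h1 k (by omega)),
    EE_sum f (G * X j) (max N1 (j + 2)) (fun k hk => by rw [pd_mul_X, h1 k (by omega), if_neg (by omega)]; simp), Finset.sum_mul]
  have : ∀ k ∈ Finset.range (max N1 (j + 2)), f k * pd k (G * X j) = f k * pd k G * X j + (if k = j + 1 then G * f (j + 1) else 0) := by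
    intro k _
    rw [pd_mul_X]
    split_ifs with h
    · subst h; ring
    · ring
  rw [Finset.sum_congr rfl this, Finset.sum_add_distrib, Finset.sum_ite_eq', if_pos (by simp)]

theorem dx_eq (G : DP) : dx G = EE (fun k => X k) G := rfl

theorem brk_eq (Q R : DP) : brk Q R = EE (fun k => dx^[k] Q) R - EE (fun k => dx^[k] R) Q := by
  obtain ⟨N1, h1⟩ := pd_fin Q
  obtain ⟨N2, h2⟩ := pd_fin R
  rw [EE_sum _ R (max N1 N2) (fun k hk => h2 k (by omega)), EE_sum _ Q (max N1 N2) (fun k hk => h1 k (by omega)), ← Finset.sum_sub_distrib]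
  unfold brk
  apply finsum_eq_sum_of_support_subset
  intro k hk
  simp only [Finset.coe_range, Set.mem_Iio]
  by_contra h
  apply hk
  simp only
  rw [h1 k (by omega), h2 k (by omega), mul_zero, mul_zero, sub_zero]

theorem dx_C (a : PowerSeries ℂ) : dx (C a) = X 0 * C (PowerSeries.derivative ℂ a) := by rw [dx_eq, EE_C]
theorem dx_add (F G : DP) : dx (F + G) = dx F + dx G := by rw [dx_eq, EE_add]; rfl
theorem dx_mul_X (G : DP) (j : ℕ) : dx (G * X j) = dx G * X j + G * X (j + 1) := by rw [dx_eq, EE_mul_X]; rfl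

end Pool.Agent.H93RH
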