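import Pool.Agent.H93RH.Pol

open MvPolynomial

namespace Pool.Agent.H93RH

set_option linter.all false

open Polynomial in
theorem prim_dvd {R : Type*} [CommRing R] [IsDomain R] [UniqueFactorizationMonoid R] (p q : R[X]) (r : R) (hr : r ≠ 0)
    (hp : p.IsPrimitive) (h : p ∣ Polynomial.C r * q) : p ∣ q := by
  classical
  obtain ⟨inst⟩ : Nonempty (NormalizedGCDMonoid R) := inferInstance
  by_cases hq : q = 0
  · rw [hq]; exact dvd_zero _
  have hrq : Polynomial.C r * q ≠ 0 := mul_ne_zero (by rwa [Ne, Polynomial.C_eq_zero]) hq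
  have h1 := (hp.dvd_primPart_iff_dvd hrq).2 h
  replace h1 := h1.trans (Polynomial.associated_primPart_mul hrq).dvd
  have hu := Polynomial.isUnit_primPart_C r
  have h2 : p ∣ q.primPart := (hu.dvd_mul_left).1 h1
  exact (hp.dvd_primPart_iff_dvd hq).1 h2

open Polynomial in
theorem core_dvd {R : Type*} [CommRing R] [IsDomain R] [UniqueFactorizationMonoid R] (s c e : R)
    (h3 : IsUnit (3 : R)) (hs : ∀ r : R, r ∣ s → r ∣ c → IsUnit r)
    (hrho : 5 * c ^ 2 + 5 * c * s ^ 3 - s ^ 6 - 9 * s * e ≠ 0) (F : R[X])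
    (h : ((Polynomial.X + Polynomial.C s) ^ 3 - (Polynomial.X ^ 3 + Polynomial.C c)) ∣ ((Polynomial.X + Polynomial.C s) ^ 5 - (Polynomial.X ^ 5 + Polynomial.C e)) * F) :
    ((Polynomial.X + Polynomial.C s) ^ 3 - (Polynomial.X ^ 3 + Polynomial.C c)) ∣ F := by
  set k : R[X] := (Polynomial.X + Polynomial.C s) ^ 3 - (Polynomial.X ^ 3 + Polynomial.C c) with hk
  have hprim : k.IsPrimitive := by
    intro r hr
    rw [Polynomial.C_dvd_iff_dvd_coeff] at hr
    have hk2 : k = Polynomial.C (3 * s) * Polynomial.X ^ 2 + Polynomial.C (3 * s ^ 2) * Polynomial.X + Polynomial.C (s ^ 3 - c) := by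
      rw [hk]; simp only [Polynomial.C_mul, Polynomial.C_pow, Polynomial.C_sub]
      have : (Polynomial.C (3 : R)) = 3 := rfl
      rw [this]; ring
    have c2 := hr 2
    have c0 := hr 0
    rw [hk2] at c2 c0
    simp only [Polynomial.coeff_add, Polynomial.coeff_C_mul, Polynomial.coeff_X_pow, Polynomial.coeff_X, Polynomial.coeff_C] at c2 c0
    norm_num at c2 c0
    have hsr : r ∣ s := (h3.dvd_mul_left).1 c2
    apply hs r hsr
    have : c = s ^ 3 - (s ^ 3 - c) := by ring
    rw [this]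
    exact dvd_sub (hsr.trans (dvd_pow_self s (by norm_num))) c0
  apply prim_dvd k F _ hrho hprim
  have key : Polynomial.C (5 * c ^ 2 + 5 * c * s ^ 3 - s ^ 6 - 9 * s * e) =
      Polynomial.C (9 * s) * ((Polynomial.X + Polynomial.C s) ^ 5 - (Polynomial.X ^ 5 + Polynomial.C e)) - (5 * k + 10 * Polynomial.C (c - s ^ 3) + 15 * Polynomial.C (s ^ 3)) * k := by
    rw [hk]; simp only [Polynomial.C_mul, Polynomial.C_pow, Polynomial.C_sub, Polynomial.C_add]
    have e5 : (Polynomial.C (5 : R)) = 5 := rfl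
    have e9 : (Polynomial.C (9 : R)) = 9 := rfl
    rw [e5, e9]; ring
  rw [key, sub_mul]
  refine dvd_sub ?_ ?_
  · rw [mul_assoc]; exact Dvd.dvd.mul_left h _
  · rw [mul_assoc, mul_comm k, ← mul_assoc]; exact Dvd.intro_left _ rfl

variable {K : Type*} [Field K]

theorem gcd_unit [CharZero K] (n : ℕ) (hn : 3 ≤ n) (r : MvPolynomial (Fin n) K) (h1 : r ∣ ∑ i, X i) (h2 : r ∣ ∑ i, X i ^ 3) :
    IsUnit r := by
  classical
  obtain ⟨a, ha⟩ := h1
  have hev : ∀ ξ : Fin n → K, ∑ i, ξ i = eval ξ r * eval ξ a := by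
    intro ξ
    have := congrArg (eval ξ) ha
    simpa using this
  have i0 : Fin n := ⟨0, by omega⟩
  -- the sum is nonzero
  have hne : (∑ i : Fin n, X i : MvPolynomial (Fin n) K) ≠ 0 := by
    intro h0
    have := congrArg (eval (fun _ => (1:K))) h0
    simp at this
    omega
  have hr0 : r ≠ 0 := by rintro rfl; exact hne (by rw [ha, zero_mul])
  have ha0 : a ≠ 0 := by rintro rfl; exact hne (by rw [ha, mul_zero])
  have hdeg : (∑ i : Fin n, X i : MvPolynomial (Fin n) K).totalDegree ≤ 1 := by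
    refine (totalDegree_finset_sum _ _).trans ?_
    refine Finset.sup_le fun i _ => ?_
    rw [totalDegree_X]
  rw [ha, totalDegree_mul_of_isDomain hr0 ha0] at hdeg
  rcases Nat.eq_zero_or_pos r.totalDegree with hd | hd
  · rw [totalDegree_eq_zero_iff_eq_C] at hd
    rw [hd]
    have : coeff 0 r ≠ 0 := by intro h; apply hr0; rw [hd, h, C_0]
    exact (isUnit_iff_ne_zero.2 this).map C
  · have hd2 : a.totalDegree = 0 := by omega
    rw [totalDegree_eq_zero_iff_eq_C] at hd2
    exfalso
    set α := coeff 0 a with hα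
    have hα0 : α ≠ 0 := by intro h; apply ha0; rw [hd2, h, C_0]
    obtain ⟨b, hb⟩ := h2
    -- point (1,1,-2,0,...)
    let ξ : Fin n → K := fun i => if i.1 = 0 then 1 else if i.1 = 1 then 1 else if i.1 = 2 then -2 else 0
    have hsum : ∀ g : K → K, g 0 = 0 → ∑ i, g (ξ i) = g 1 + g 1 + g (-2) := by
      intro g g0
      obtain ⟨m, rfl⟩ : ∃ m, n = m + 3 := ⟨n - 3, by omega⟩
      rw [Fin.sum_univ_succ, Fin.sum_univ_succ, Fin.sum_univ_succ]
      have : ∑ i : Fin m, g (ξ (Fin.succ (Fin.succ (Fin.succ i)))) = 0 := by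
        refine Finset.sum_eq_zero fun i _ => ?_
        have : ξ (Fin.succ (Fin.succ (Fin.succ i))) = 0 := by simp [ξ]
        rw [this, g0]
      rw [this]
      have v0 : ξ 0 = 1 := by
        have : (0 : Fin (m + 3)).1 = 0 := rfl
        simp only [ξ, this]; norm_num
      have v1 : ξ (Fin.succ 0) = 1 := by
        have : (Fin.succ (0 : Fin (m + 2))).1 = 1 := rfl
        simp only [ξ, this]; norm_num
      have v2 : ξ (Fin.succ (Fin.succ 0)) = -2 := by
        have : (Fin.succ (Fin.succ (0 : Fin (m + 1)))).1 = 2 := rfl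
        simp only [ξ, this]; norm_num
      rw [v0, v1, v2]; ring
    have e1 := hev ξ
    have e2 : ∑ i, ξ i = 0 := by
      have := hsum id rfl
      simp only [id] at this
      rw [this]; norm_num
    rw [e2, hd2, eval_C] at e1
    have e3 : eval ξ r = 0 := by
      rcases mul_eq_zero.1 e1.symm with h | h
      · exact h
      · exact absurd h hα0
    have e4 := congrArg (eval ξ) hb
    rw [map_mul, e3, zero_mul] at e4
    simp only [map_sum, map_pow, eval_X] at e4
    have e5 : ∑ i, ξ i ^ 3 = 1 ^ 3 + 1 ^ 3 + (-2) ^ 3 := hsum (fun x => x ^ 3) (by norm_num)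
    rw [e5] at e4
    norm_num at e4

theorem K3p_dvd [CharZero K] (m : ℕ) (hm : 4 ≤ m) (F : MvPolynomial (Fin m) K) (h : K3p m ∣ K5p m * F) : K3p m ∣ F := by
  classical
  obtain ⟨n, rfl⟩ : ∃ n, m = n + 1 := ⟨m - 1, by omega⟩
  have hn : 3 ≤ n := by omega
  let e := finSuccEquiv K n
  have e3 : e (K3p (n + 1)) = (Polynomial.X + Polynomial.C (∑ i, X i)) ^ 3 - (Polynomial.X ^ 3 + Polynomial.C (∑ i, X i ^ 3)) := by
    unfold K3p
    simp only [e, Fin.sum_univ_succ, map_sub, map_pow, map_add, map_sum, finSuccEquiv_X_zero, finSuccEquiv_X_succ]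
  have e5 : e (K5p (n + 1)) = (Polynomial.X + Polynomial.C (∑ i, X i)) ^ 5 - (Polynomial.X ^ 5 + Polynomial.C (∑ i, X i ^ 5)) := by
    unfold K5p
    simp only [e, Fin.sum_univ_succ, map_sub, map_pow, map_add, map_sum, finSuccEquiv_X_zero, finSuccEquiv_X_succ]
  have h1 : e (K3p (n + 1)) ∣ e (K5p (n + 1)) * e F := by
    rw [← map_mul]; exact map_dvd e h
  rw [e3, e5] at h1
  have hu3 : IsUnit (3 : MvPolynomial (Fin n) K) := by
    have : (3 : MvPolynomial (Fin n) K) = C 3 := (map_ofNat C 3).symm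
    rw [this]
    exact (isUnit_iff_ne_zero.2 (by norm_num : (3 : K) ≠ 0)).map C
  have hrho : 5 * (∑ i : Fin n, X i ^ 3) ^ 2 + 5 * (∑ i : Fin n, X i ^ 3) * (∑ i : Fin n, X i) ^ 3 - (∑ i : Fin n, X i) ^ 6 - 9 * (∑ i : Fin n, X i) * (∑ i : Fin n, X i ^ 5) ≠ (0 : MvPolynomial (Fin n) K) := by
    intro h0
    let ξ : Fin n → K := fun i => if i.1 < 3 then 1 else 0
    have hsum : ∀ k : ℕ, k ≠ 0 → ∑ i, ξ i ^ k = 3 := by
      intro k hk
      obtain ⟨m, rfl⟩ : ∃ m, n = m + 3 := ⟨n - 3, by omega⟩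
      rw [Fin.sum_univ_succ, Fin.sum_univ_succ, Fin.sum_univ_succ]
      have : ∑ i : Fin m, (ξ (Fin.succ (Fin.succ (Fin.succ i)))) ^ k = 0 := by
        refine Finset.sum_eq_zero fun i _ => ?_
        have : ξ (Fin.succ (Fin.succ (Fin.succ i))) = 0 := by simp [ξ]
        rw [this, zero_pow hk]
      rw [this]
      have v0 : ξ 0 = 1 := by
        have : (0 : Fin (m + 3)).1 = 0 := rfl
        simp only [ξ, this]; norm_num
      have v1 : ξ (Fin.succ 0) = 1 := by
        have : (Fin.succ (0 : Fin (m + 2))).1 = 1 := rfl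
        simp only [ξ, this]; norm_num
      have v2 : ξ (Fin.succ (Fin.succ 0)) = 1 := by
        have : (Fin.succ (Fin.succ (0 : Fin (m + 1)))).1 = 2 := rfl
        simp only [ξ, this]; norm_num
      rw [v0, v1, v2]; norm_num
    have h1 := congrArg (eval ξ) h0
    have s1 : ∑ i, ξ i = 3 := by have := hsum 1 (by norm_num); simpa using this
    have ne5 : eval ξ (5 : MvPolynomial (Fin n) K) = 5 := map_ofNat (eval ξ) 5
    have ne9 : eval ξ (9 : MvPolynomial (Fin n) K) = 9 := map_ofNat (eval ξ) 9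
    simp only [map_sub, map_add, map_mul, map_pow, map_sum, eval_X, map_zero, ne5, ne9, s1, hsum 3 (by norm_num), hsum 5 (by norm_num)] at h1
    norm_num at h1
  have h2 := core_dvd _ _ _ hu3 (fun r hr1 hr2 => gcd_unit n hn r hr1 hr2) hrho (e F) h1
  rw [← e3] at h2
  have h3 := map_dvd e.symm h2
  simpa using h3

/-- linear factors. -/
theorem lin_dvd {m : ℕ} (i : Fin m) (g : MvPolynomial (Fin m) K) (p : MvPolynomial (Fin m) K) :
    (X i - g) ∣ p - aeval (Function.update (fun j => (X j : MvPolynomial (Fin m) K)) i g) p := by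
  classical
  induction p using MvPolynomial.induction_on with
  | C a => simp
  | add p q hp hq =>
    have : p + q - aeval (Function.update (fun j => (X j : MvPolynomial (Fin m) K)) i g) (p + q) =
        (p - aeval (Function.update (fun j => (X j : MvPolynomial (Fin m) K)) i g) p) + (q - aeval (Function.update (fun j => (X j : MvPolynomial (Fin m) K)) i g) q) := by
      rw [map_add]; ring
    rw [this]; exact dvd_add hp hq
  | mul_X p k hp =>
    have : p * X k - aeval (Function.update (fun j => (X j : MvPolynomial (Fin m) K)) i g) (p * X k) =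
        (p - aeval (Function.update (fun j => (X j : MvPolynomial (Fin m) K)) i g) p) * X k +
        aeval (Function.update (fun j => (X j : MvPolynomial (Fin m) K)) i g) p * (X k - Function.update (fun j => (X j : MvPolynomial (Fin m) K)) i g k) := by
      rw [map_mul, aeval_X]; ring
    rw [this]
    refine dvd_add (Dvd.dvd.mul_right hp _) (Dvd.dvd.mul_left ?_ _)
    by_cases hk : k = i
    · subst hk; rw [Function.update_self]
    · rw [Function.update_of_ne hk, sub_self]; exact dvd_zero _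

end Pool.Agent.H93RH
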