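import Pool.Agent.H93RH.Rig4

open MvPolynomial

namespace Pool.Agent.H93RH

set_option linter.all false

open Finset.HasAntidiagonal (antidiagonal)

variable {K : Type*} [Field K] [CharZero K]

theorem coeff_R_pure (κ : K) (j : ℕ) : coeff (Finsupp.single 0 j) (R κ) = if j = 3 then 5 else 0 := by
  classical
  unfold R
  have e02 : (X 0 * X 2 : AA K) = monomial (Finsupp.single 0 1 + Finsupp.single 2 1) 1 := by
    rw [← mul_one (1:K), ← monomial_mul]; rfl
  rw [coeff_add, coeff_add, coeff_add, coeff_C_mul, coeff_C_mul, coeff_C_mul, coeff_C_mul, coeff_X_pow, coeff_X_pow, coeff_X', e02, coeff_monomial]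
  have h1 : ¬ (Finsupp.single 0 1 + Finsupp.single 2 1 = (Finsupp.single 0 j : ℕ →₀ ℕ)) := by
    intro h
    have := DFunLike.congr_fun h 2
    simp at this
  have h2 : ¬ (Finsupp.single 1 2 = (Finsupp.single 0 j : ℕ →₀ ℕ)) := by
    intro h
    have := DFunLike.congr_fun h 1
    simp at this
  have h3 : ¬ (Finsupp.single 4 1 = (Finsupp.single 0 j : ℕ →₀ ℕ)) := by
    intro h
    have := DFunLike.congr_fun h 4
    simp at this
  rw [if_neg h1, if_neg h2, if_neg h3]
  by_cases hj : j = 3
  · subst hj; rw [if_pos rfl, if_pos rfl]; ring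
  · rw [if_neg, if_neg hj]
    · ring
    · intro h
      have := DFunLike.congr_fun h 0
      simp at this
      exact hj this.symm

theorem final_alg (κ : K) (hκ : κ ≠ 0) (p r : ℕ → AA K)
    (hp : ∀ v : ℕ, Hm (v : ℤ) (p v)) (hr : ∀ v : ℕ, Hm (v : ℤ) (r v))
    (hE : ∀ N, ∑ vw ∈ antidiagonal N, br (p vw.1) (r vw.2) = 0)
    (hp0 : ∀ G, br (p 0) G = 0) (hp2 : ∀ G, br (p 2) G = 0) (hp1 : p 1 = 0) (hp3 : p 3 = 0) (hp4 : p 4 = C (1 / 2) * P κ)
    (hr0 : ∀ G, br G (r 0) = 0) (hr2 : ∀ G, br G (r 2) = 0)
    (hr4 : ∀ j, coeff (Finsupp.single 0 j) (r 4) = 0)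
    (hr6 : ∀ j, coeff (Finsupp.single 0 j) (r 6) = if j = 3 then 1 / 6 else 0)
    (hn : ∀ v, pderiv 1 (p v) = 0)
    (hell : ∀ q, Odd q → (∀ w, w < q → Odd w → p w = 0) → ell 0 (p q) = 0) :
    ∀ q, Odd q → p q = 0 := by
  classical
  intro q
  induction q using Nat.strong_induction_on with
  | _ q ih =>
  intro hq
  by_cases hq5 : q < 5
  · obtain ⟨k, hk⟩ := hq
    have : q = 1 ∨ q = 3 := by omega
    rcases this with h | h
    · rw [h, hp1]
    · rw [h, hp3]
  push Not at hq5
  have single_term : ∀ v0 w0 : ℕ, (∀ v w, v + w = v0 + w0 → (v ≠ v0) → br (p v) (r w) = 0) → br (p v0) (r w0) = 0 := by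
    intro v0 w0 hz
    have h1 := hE (v0 + w0)
    rw [Finset.sum_eq_single (v0, w0)] at h1
    · exact h1
    · intro vw hvw hne
      rw [Finset.HasAntidiagonal.mem_antidiagonal] at hvw
      apply hz vw.1 vw.2 hvw
      intro h
      apply hne
      ext
      · exact h
      · show vw.2 = w0
        omega
    · intro h
      exfalso; apply h
      rw [Finset.HasAntidiagonal.mem_antidiagonal]
  have half : ∀ G : AA K, br (p 4) G = 0 → br (P κ) G = 0 := by
    intro G h
    rw [hp4, br_smul_left] at h
    refine (mul_eq_zero.1 h).resolve_left ?_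
    rw [C_eq_zero]; norm_num
  have podd : ∀ v, Odd v → v < q → p v = 0 := fun v hv hvq => ih v hvq hv
  have A1 : ∀ w, Odd w → w < q → r w = 0 := by
    intro w
    induction w using Nat.strong_induction_on with
    | _ w ihw =>
    intro hw hwq
    apply cent κ
    · apply half
      apply single_term
      intro v w' hvw hv4
      rcases Nat.even_or_odd v with hv | hv
      · obtain ⟨a, ha⟩ := hv
        obtain ⟨b, hb⟩ := hw
        by_cases h0 : v = 0
        · rw [h0, hp0]
        by_cases h2 : v = 2
        · rw [h2, hp2]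
        rw [ihw w' (by omega) ⟨b + 2 - a, by omega⟩ (by omega), br_zero_right]
      · by_cases hvq : v < q
        · rw [podd v hv hvq, br_zero_left]
        · obtain ⟨a, ha⟩ := hv
          obtain ⟨b, hb⟩ := hw
          obtain ⟨c, hc⟩ := hq
          have : w' = 0 ∨ w' = 2 := by omega
          rcases this with h | h
          · rw [h, hr0]
          · rw [h, hr2]
    · intro j
      exact Hm_pure (by exact_mod_cast hw) (hr w) j
  have A2 : r 4 = 0 := by
    apply cent κ _ _ hr4
    apply half
    apply single_term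
    intro v w hvw hv4
    rcases Nat.even_or_odd v with hv | hv
    · obtain ⟨a, ha⟩ := hv
      have : v = 0 ∨ v = 2 ∨ w = 2 ∨ w = 0 := by omega
      rcases this with h | h | h | h
      · rw [h, hp0]
      · rw [h, hp2]
      · rw [h, hr2]
      · rw [h, hr0]
    · by_cases hvq : v < q
      · rw [podd v hv hvq, br_zero_left]
      · obtain ⟨a, ha⟩ := hv
        rw [A1 w ⟨3 - a, by omega⟩ (by omega), br_zero_right]
  have A3 : r q = 0 := by
    apply cent κ
    · apply half
      apply single_term
      intro v w hvw hv4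
      rcases Nat.even_or_odd v with hv | hv
      · obtain ⟨a, ha⟩ := hv
        obtain ⟨b, hb⟩ := hq
        by_cases h0 : v = 0
        · rw [h0, hp0]
        by_cases h2 : v = 2
        · rw [h2, hp2]
        rw [A1 w ⟨b + 2 - a, by omega⟩ (by omega), br_zero_right]
      · by_cases hvq : v < q
        · rw [podd v hv hvq, br_zero_left]
        · obtain ⟨a, ha⟩ := hv
          obtain ⟨b, hb⟩ := hq
          have : w = 4 ∨ w = 2 ∨ w = 0 := by omega
          rcases this with h | h | h
          · rw [h, A2, br_zero_right]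
          · rw [h, hr2]
          · rw [h, hr0]
    · intro j
      exact Hm_pure (by exact_mod_cast hq) (hr q) j
  have A13 : ∀ w, Odd w → w ≤ q → r w = 0 := by
    intro w hw hwq
    rcases Nat.lt_or_ge w q with h | h
    · exact A1 w hw h
    · rw [show w = q by omega, A3]
  have B1 : br (P κ) (r 6) = 0 := by
    apply half
    apply single_term
    intro v w hvw hv4
    rcases Nat.even_or_odd v with hv | hv
    · obtain ⟨a, ha⟩ := hv
      have : v = 0 ∨ v = 2 ∨ w = 4 ∨ w = 2 ∨ w = 0 := by omega
      rcases this with h | h | h | h | h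
      · rw [h, hp0]
      · rw [h, hp2]
      · rw [h, A2, br_zero_right]
      · rw [h, hr2]
      · rw [h, hr0]
    · by_cases hvq : v < q
      · rw [podd v hv hvq, br_zero_left]
      · obtain ⟨a, ha⟩ := hv
        rw [A13 w ⟨4 - a, by omega⟩ (by omega), br_zero_right]
  have B : r 6 = C (1 / 30) * R κ := by
    apply sub_eq_zero.1
    apply cent κ
    · rw [br_sub_right, B1, br_smul_right, br_P_R]; simp
    · intro j
      rw [coeff_sub, hr6, coeff_C_mul, coeff_R_pure]
      split_ifs <;> norm_num
  have L : br (p 4) (r (q + 2)) + br (p q) (r 6) = 0 := by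
    have h1 := hE (q + 6)
    rw [Finset.sum_eq_add (4, q + 2) (q, 6)] at h1
    · exact h1
    · intro h
      have := congrArg Prod.fst h
      simp only at this
      obtain ⟨b, hb⟩ := hq
      omega
    · rintro ⟨v, w⟩ hvw ⟨hne1, hne2⟩
      rw [Finset.HasAntidiagonal.mem_antidiagonal] at hvw
      simp only at hvw ⊢
      have hv4 : v ≠ 4 := by
        intro h; apply hne1
        rw [Prod.mk.injEq]; omega
      have hvq' : v ≠ q := by
        intro h; apply hne2
        rw [Prod.mk.injEq]; omega
      rcases Nat.even_or_odd v with hv | hv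
      · obtain ⟨a, ha⟩ := hv
        obtain ⟨b, hb⟩ := hq
        by_cases h0 : v = 0
        · rw [h0, hp0]
        by_cases h2 : v = 2
        · rw [h2, hp2]
        rw [A13 w ⟨b + 3 - a, by omega⟩ (by omega), br_zero_right]
      · by_cases hvq : v < q
        · rw [podd v hv hvq, br_zero_left]
        · obtain ⟨a, ha⟩ := hv
          obtain ⟨b, hb⟩ := hq
          have : w = 4 ∨ w = 2 ∨ w = 0 := by omega
          rcases this with h | h | h
          · rw [h, A2, br_zero_right]
          · rw [h, hr2]
          · rw [h, hr0]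
    · intro h; exfalso; apply h; rw [Finset.HasAntidiagonal.mem_antidiagonal]; omega
    · intro h; exfalso; apply h; rw [Finset.HasAntidiagonal.mem_antidiagonal]
  rw [hp4, B, br_smul_left, br_smul_right] at L
  have hqz : Odd (q : ℤ) := by exact_mod_cast hq
  apply kdv_rigid κ hκ hqz (p q) (C 15 * r (q + 2)) (hp q)
  · have := (hr (q + 2)).smul (15 : K)
    push_cast at this
    exact this
  · rw [br_smul_right, br_swap (R κ) (p q)]
    have h30 : (C 30 : AA K) * C (1 / 30) = 1 := by rw [← C_mul]; norm_num
    have h15 : (C 30 : AA K) * C (1 / 2) = C 15 := by rw [← C_mul]; norm_num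
    have := congrArg (fun Z => C 30 * Z) L
    simp only [mul_add, mul_zero, ← mul_assoc, h30, h15, one_mul] at this
    linear_combination this
  · exact hell q hq (fun w hw hwo => podd w hwo hw)
  · exact hn q

end Pool.Agent.H93RH
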