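import Pool.Agent.H93RH.Tay2
import Pool.Agent.H93RH.FinAlg

open MvPolynomial

namespace Pool.Agent.H93RH

set_option linter.all false

open Finset.HasAntidiagonal (antidiagonal)


theorem dd_monomial (n : ℕ) (a : ℂ) : (PowerSeries.derivative ℂ) (PowerSeries.monomial (n + 1) a) = PowerSeries.monomial n (a * (n + 1)) := by
  ext k
  rw [PowerSeries.coeff_derivative, PowerSeries.coeff_monomial, PowerSeries.coeff_monomial]
  by_cases h : k = n
  · subst h; simp
  · rw [if_neg (by omega), if_neg h]; ring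

theorem low_form (s : ℕ →₀ ℕ) (h : wt s ≤ 4) : s = Finsupp.single 0 (s 0) + Finsupp.single 1 (s 1) + Finsupp.single 2 (s 2) := by
  have h1 : ∀ k, 3 ≤ k → s k = 0 := by
    intro k hk
    by_contra hs
    have hk2 : k ∈ s.support := Finsupp.mem_support_iff.2 hs
    have h2 : s k * (k + 2) ≤ wt s := by
      unfold wt Finsupp.sum
      exact Finset.single_le_sum (f := fun k => s k * (k + 2)) (fun _ _ => Nat.zero_le _) hk2
    have h3 : 1 ≤ s k := Nat.one_le_iff_ne_zero.2 hs
    have h4 : 1 * 5 ≤ s k * (k + 2) := Nat.mul_le_mul h3 (by omega)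
    omega
  ext k
  simp only [Finsupp.add_apply]
  match k with
  | 0 => simp
  | 1 => simp
  | 2 => simp
  | k + 3 =>
    rw [h1 (k + 3) (by omega), Finsupp.single_eq_of_ne (by omega), Finsupp.single_eq_of_ne (by omega), Finsupp.single_eq_of_ne (by omega)]
    rfl

theorem wt_low (s : ℕ →₀ ℕ) (h : wt s ≤ 4) : wt s = 2 * s 0 + 3 * s 1 + 4 * s 2 := by
  conv_lhs => rw [low_form s h]
  rw [wt_add, wt_add, wt_single, wt_single, wt_single]; ring

variable {K : Type*} [Field K] [CharZero K] (ι : PowerSeries ℂ →+* K)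

omit [CharZero K] in
theorem Hm_of_supp (G : AA K) (v : ℕ) (h : ∀ s, coeff s G ≠ 0 → wt s = v) : Hm (v : ℤ) G := by
  intro t ht
  ext s
  rw [coeff_rho, coeff_C_mul]
  by_cases hs : coeff s G = 0
  · rw [hs]; ring
  · have := h s hs
    unfold wt at this
    rw [this, zpow_natCast]

omit [CharZero K] in
theorem br_C_left (c : K) (G : AA K) : br (C c) G = 0 := by
  unfold br
  rw [der_C, E_zero_left, der_C, sub_zero]

theorem main_thm (hι : Function.Injective ι) (P' : ℕ → EDP) (hP : IsDeformation P') (hN : NormalForm (P' 1)) (hc : c2 (P' 1) ≠ 0) :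
    ∀ k, Odd k → PowerSeries.coeff k (P' 1) = 0 := by
  classical
  have hF := hP.deg 1
  have hG := hP.deg 2
  set F := P' 1 with hFdef
  set G := P' 2 with hGdef
  have hF0 : PowerSeries.coeff 0 F = C (PowerSeries.monomial 2 ((2 : ℂ)⁻¹)) := by
    have := hP.lead 1
    simpa [Nat.factorial] using this
  have hG0 : PowerSeries.coeff 0 G = C (PowerSeries.monomial 3 ((6 : ℂ)⁻¹)) := by
    have := hP.lead 2
    simpa [Nat.factorial] using this
  set p : ℕ → AA K := fun v => pp ι F v with hp
  set r : ℕ → AA K := fun v => pp ι G v - C (ι PowerSeries.X) * pp ι F v with hr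
  have cp : ∀ s v, coeff s (p v) = if wt s = v then tc ι (s 0) (coeff (dn s) (PowerSeries.coeff (dg s) F)) else 0 := fun s v => coeff_pp ι hF s v
  have cr : ∀ s v, coeff s (r v) = if wt s = v then tc ι (s 0) (coeff (dn s) (PowerSeries.coeff (dg s) G)) -
      ι PowerSeries.X * tc ι (s 0) (coeff (dn s) (PowerSeries.coeff (dg s) F)) else 0 := by
    intro s v
    show coeff s (pp ι G v - C (ι PowerSeries.X) * pp ι F v) = _
    rw [coeff_sub, coeff_C_mul, coeff_pp ι hF, coeff_pp ι hG]
    split_ifs <;> ring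
  have sp : ∀ v s, coeff s (p v) ≠ 0 → wt s = v := by
    intro v s h; by_contra hh; apply h; rw [cp, if_neg hh]
  have sr : ∀ v s, coeff s (r v) ≠ 0 → wt s = v := by
    intro v s h; by_contra hh; apply h; rw [cr, if_neg hh]
  -- low weights
  have c0 : ∀ (A : AA K), (∀ s, coeff s A ≠ 0 → wt s = 0) → A = C (coeff 0 A) := by
    intro A hA
    ext s
    rw [coeff_C]
    split_ifs with h
    · rw [h]
    · by_contra hs
      have h1 := hA s hs
      have h2 := low_form s (by omega)
      have h3 := wt_low s (by omega)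
      rw [show s 0 = 0 by omega, show s 1 = 0 by omega, show s 2 = 0 by omega] at h2
      apply h; rw [h2]; simp
  have c2' : ∀ (A : AA K), (∀ s, coeff s A ≠ 0 → wt s = 2) → A = C (coeff (Finsupp.single 0 1) A) * X 0 := by
    intro A hA
    ext s
    rw [coeff_C_mul, coeff_X']
    split_ifs with h
    · rw [h, mul_one]
    · rw [mul_zero]
      by_contra hs
      have h1 := hA s hs
      have h2 := low_form s (by omega)
      have h3 := wt_low s (by omega)
      rw [show s 0 = 1 by omega, show s 1 = 0 by omega, show s 2 = 0 by omega] at h2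
      apply h; rw [h2]; simp
  have hp0 : ∀ G, br (p 0) G = 0 := by
    intro G; rw [c0 (p 0) (sp 0), br_C_left]
  have hp2 : ∀ G, br (p 2) G = 0 := by
    intro G; rw [c2' (p 2) (sp 2), br_smul_left, br_X0, mul_zero]
  have hr0 : ∀ G, br G (r 0) = 0 := by
    intro G; rw [c0 (r 0) (sr 0), br_swap, br_C_left, neg_zero]
  have hr2 : ∀ G, br G (r 2) = 0 := by
    intro G; rw [c2' (r 2) (sr 2), br_swap, br_smul_left, br_X0, mul_zero, neg_zero]
  have hp1 : p 1 = 0 := by
    ext s
    rw [coeff_zero]
    by_contra hs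
    have h1 := sp 1 s hs
    have h3 := wt_low s (by omega)
    omega
  -- no u_1
  have nou : ∀ s : ℕ →₀ ℕ, s 1 ≠ 0 → coeff (dn s) (PowerSeries.coeff (dg s) F) = 0 := by
    intro s hs
    have hd : 1 ≤ dg s := by
      have h1 : 1 ∈ s.support := Finsupp.mem_support_iff.2 hs
      have h2 : s 1 * 1 ≤ dg s := by
        unfold dg Finsupp.sum
        exact Finset.single_le_sum (f := fun k => s k * k) (fun _ _ => Nat.zero_le _) h1
      omega
    by_cases hd1 : dg s = 1
    · rw [hd1, hN.1, coeff_zero]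
    · by_contra hc
      exact hs (hN.2 (dg s) (by omega) (dn s) hc)
  have hp3 : p 3 = 0 := by
    ext s
    rw [coeff_zero]
    by_contra hs
    have h1 := sp 3 s hs
    have h3 := wt_low s (by omega)
    apply hs
    rw [cp, nou s (by omega), tc_zero, ite_self]
  have hn : ∀ v, pderiv 1 (p v) = 0 := by
    intro v
    ext s
    rw [coeff_pderiv, cp, nou (s + Finsupp.single 1 1) (by simp), tc_zero, ite_self, zero_mul, coeff_zero]
  -- pure coefficients
  have e1 : coeff (0 : ℕ →₀ ℕ) (C (PowerSeries.monomial 2 ((2 : ℂ)⁻¹)) : DP) = PowerSeries.monomial 2 ((2 : ℂ)⁻¹) := by simp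
  have e2 : coeff (0 : ℕ →₀ ℕ) (C (PowerSeries.monomial 3 ((6 : ℂ)⁻¹)) : DP) = PowerSeries.monomial 3 ((6 : ℂ)⁻¹) := by simp
  have m1 : (PowerSeries.monomial 0 (1 : ℂ)) = 1 := by ext k; simp [PowerSeries.coeff_monomial, PowerSeries.coeff_one]
  have mX : (PowerSeries.monomial 1 (1 : ℂ)) = PowerSeries.X := by rfl
  have d2F : (⇑(PowerSeries.derivative ℂ))^[2] (PowerSeries.monomial 2 ((2 : ℂ)⁻¹)) = 1 := by
    rw [Function.iterate_succ_apply, Function.iterate_succ_apply, Function.iterate_zero, id, dd_monomial, dd_monomial, ← m1]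
    congr 1; norm_num
  have d3F : (⇑(PowerSeries.derivative ℂ))^[3] (PowerSeries.monomial 2 ((2 : ℂ)⁻¹)) = 0 := by
    rw [Function.iterate_succ_apply', d2F]; simp
  have d2G : (⇑(PowerSeries.derivative ℂ))^[2] (PowerSeries.monomial 3 ((6 : ℂ)⁻¹)) = PowerSeries.X := by
    rw [Function.iterate_succ_apply, Function.iterate_succ_apply, Function.iterate_zero, id, dd_monomial, dd_monomial, ← mX]
    congr 1; norm_num
  have d3G : (⇑(PowerSeries.derivative ℂ))^[3] (PowerSeries.monomial 3 ((6 : ℂ)⁻¹)) = 1 := by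
    rw [Function.iterate_succ_apply', d2G, ← mX]
    rw [show (1 : ℕ) = 0 + 1 from rfl, dd_monomial, ← m1]
    congr 1; norm_num
  have pureF : ∀ j v, coeff (Finsupp.single 0 j) (r v) = if j * 2 = v then tc ι j (PowerSeries.monomial 3 ((6 : ℂ)⁻¹)) -
      ι PowerSeries.X * tc ι j (PowerSeries.monomial 2 ((2 : ℂ)⁻¹)) else 0 := by
    intro j v
    rw [cr, wt_single, dn_single0, dg_single, mul_zero, hF0, hG0, e1, e2, Finsupp.single_eq_same]
  have hr4 : ∀ j, coeff (Finsupp.single 0 j) (r 4) = 0 := by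
    intro j
    rw [pureF]
    split_ifs with h
    · have hj : j = 2 := by omega
      subst hj
      unfold tc
      rw [d2F, d2G, map_one]; ring
    · rfl
  have hr6 : ∀ j, coeff (Finsupp.single 0 j) (r 6) = if j = 3 then 1 / 6 else 0 := by
    intro j
    rw [pureF]
    by_cases hj : j = 3
    · subst hj
      rw [if_pos (by norm_num), if_pos rfl]
      unfold tc
      rw [d3F, d3G, map_one, map_zero]
      simp [Nat.factorial]
    · rw [if_neg (by omega), if_neg hj]
  set κ := ι (c2 F) with hκdef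
  have hκ : κ ≠ 0 := by
    rw [hκdef]
    intro h
    apply hc
    apply hι
    rw [h, map_zero]
  have hp4 : p 4 = C (1 / 2) * P κ := by
    ext s
    have hPc : coeff s (P κ) = (if Finsupp.single 0 2 = s then 1 else 0) + 2 * κ * (if Finsupp.single 2 1 = s then 1 else 0) := by
      unfold P
      rw [coeff_add, coeff_X_pow, coeff_C_mul, coeff_X']
    rw [coeff_C_mul, hPc, cp]
    by_cases hw : wt s = 4
    · rw [if_pos hw]
      have h2 := low_form s (by omega)
      have h3 := wt_low s (by omega)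
      have hcase : (s 0 = 2 ∧ s 1 = 0 ∧ s 2 = 0) ∨ (s 0 = 0 ∧ s 1 = 0 ∧ s 2 = 1) := by omega
      rcases hcase with ⟨a0, a1, a2⟩ | ⟨a0, a1, a2⟩
      · rw [a0, a1, a2] at h2
        have hs : s = Finsupp.single 0 2 := by rw [h2]; simp
        have hne : ¬ (Finsupp.single 2 1 = s) := by
          intro h; rw [← h] at a2; simp at a2
        rw [if_neg hne, if_pos hs.symm, hs, dn_single0, dg_single, mul_zero, hF0, e1, Finsupp.single_eq_same]
        unfold tc
        rw [d2F, map_one]; simp [Nat.factorial]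
      · rw [a0, a1, a2] at h2
        have hs : s = Finsupp.single 2 1 := by rw [h2]; simp
        have hne : ¬ (Finsupp.single 0 2 = s) := by
          intro h; rw [← h] at a0; simp at a0
        have hdn : dn (Finsupp.single 2 1) = Finsupp.single 1 1 := by
          ext k
          rw [dn_apply]
          by_cases hk : k = 1
          · subst hk; simp
          · rw [Finsupp.single_eq_of_ne (by omega), Finsupp.single_eq_of_ne hk]
        rw [if_neg hne, if_pos hs.symm, a0, tc_zero_idx, hs, hdn, dg_single]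
        show κ = _
        ring
    · rw [if_neg hw, if_neg, if_neg]
      · ring
      · intro h; apply hw; rw [← h, wt_single]
      · intro h; apply hw; rw [← h, wt_single]
  -- coefficients vanish when `p` vanishes
  have pz : ∀ s w, p w = 0 → wt s = w → s 0 = 0 → coeff (dn s) (PowerSeries.coeff (dg s) F) = 0 := by
    intro s w hw hs h0
    have h1 := cp s w
    rw [hw, coeff_zero, if_pos hs, h0, tc_zero_idx] at h1
    apply hι
    rw [← h1, map_zero]
  have hell : ∀ q, Odd q → (∀ w, w < q → Odd w → p w = 0) → ell 0 (p q) = 0 := by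
    intro q hq hmin
    rw [ell0_eq]
    ext s
    rw [coeff_pderiv, cp, coeff_zero]
    split_ifs with h
    · -- the shifted exponent
      set s' : ℕ →₀ ℕ := s + Finsupp.single 0 1 with hs'
      have hs0 : s' 0 = s 0 + 1 := by rw [hs']; simp
      set s0 : ℕ →₀ ℕ := (dn s').mapDomain Nat.succ with hs0'
      have hdec : s' = Finsupp.single 0 (s' 0) + s0 := dn_decomp s'
      have hz : s0 0 = 0 := by
        rw [hs0', Finsupp.mapDomain_notin_range]
        rintro ⟨i, hi⟩; exact Nat.succ_ne_zero i hi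
      have hdn0 : dn s0 = dn s' := by
        ext k
        rw [dn_apply, hs0']
        exact Finsupp.mapDomain_apply Nat.succ_injective (dn s') k
      have hdg0 : dg s0 = dg s' := by rw [dg_decomp, dg_decomp, hdn0]
      have hwt0 : wt s' = s' 0 * 2 + wt s0 := by
        conv_lhs => rw [hdec]
        rw [wt_add, wt_single]
      have hodd : Odd (wt s0) := by
        obtain ⟨a, ha⟩ := hq
        exact ⟨a - s' 0, by omega⟩
      have := pz s0 (wt s0) (hmin (wt s0) (by omega) hodd) rfl hz
      rw [hdn0, hdg0] at this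
      rw [this, tc_zero, zero_mul]
    · rw [zero_mul]
  have hE : ∀ N, ∑ vw ∈ antidiagonal N, br (p vw.1) (r vw.2) = 0 := by
    intro N
    have h1 := main_eq ι F G hF hG (hP.comm 1 2) N
    have h2 := main_eq ι F F hF hF (hP.comm 1 1) N
    have h3 : ∑ vw ∈ antidiagonal N, br (p vw.1) (r vw.2) =
        ∑ vw ∈ antidiagonal N, br (pp ι F vw.1) (pp ι G vw.2) - C (ι PowerSeries.X) * ∑ vw ∈ antidiagonal N, br (pp ι F vw.1) (pp ι F vw.2) := by
      rw [Finset.mul_sum, ← Finset.sum_sub_distrib]
      refine Finset.sum_congr rfl fun vw _ => ?_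
      show br (pp ι F vw.1) (pp ι G vw.2 - C (ι PowerSeries.X) * pp ι F vw.2) = _
      rw [br_sub_right, br_smul_right]
    rw [h3, h1, h2]; simp
  have fin := final_alg κ hκ p r (fun v => Hm_of_supp _ v (sp v)) (fun v => Hm_of_supp _ v (sr v)) hE hp0 hp2 hp1 hp3 hp4 hr0 hr2 hr4 hr6 hn hell
  intro k hk
  ext1 s
  rw [coeff_zero]
  by_contra hs
  set s0 : ℕ →₀ ℕ := s.mapDomain Nat.succ with hs0
  have hz : s0 0 = 0 := by
    rw [hs0, Finsupp.mapDomain_notin_range]
    rintro ⟨i, hi⟩; exact Nat.succ_ne_zero i hi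
  have hdn0 : dn s0 = s := by
    ext k
    rw [dn_apply, hs0]
    exact Finsupp.mapDomain_apply Nat.succ_injective s k
  have hdk : k = dg s0 := deg0_coeff hF s0 k (by rw [hdn0]; exact hs)
  have hodd : Odd (wt s0) := by
    have h1 : wt s0 = dg s0 + 2 * (s0.sum fun _ n => n) := by
      unfold wt dg Finsupp.sum
      rw [Finset.mul_sum, ← Finset.sum_add_distrib]
      exact Finset.sum_congr rfl fun _ _ => by ring
    rw [h1, ← hdk]
    obtain ⟨a, ha⟩ := hk
    exact ⟨a + (s0.sum fun _ n => n), by omega⟩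
  have := pz s0 (wt s0) (fin _ hodd) rfl hz
  rw [hdn0, ← hdk] at this
  exact hs this

end Pool.Agent.H93RH
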