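import Pool.Agent.H93RH.Even

open MvPolynomial

namespace Pool.Agent.H93RH

set_option linter.all false

/-- the variational derivative `δ/δu ∫ f dx = ∑_{k ≥ 0} (-∂_x)^k ∂f/∂u_k` of a density `f ∈ 𝒜_u`. -/
noncomputable def vd (f : DP) : DP := ∑ᶠ k : ℕ, (-1) ^ k * dx^[k] (pd k f)

/-- `δ/δu` on `𝒜_u[[ε]]`, coefficientwise. -/
noncomputable def vdE (F : EDP) : EDP := PowerSeries.mk (fun n => vd (PowerSeries.coeff n F))

/-- A Hamiltonian deformation of the Riemann hierarchy with Poisson operator `K = ∂_x`: densities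
`h_d = u^{d+2}/(d+2)! + O(ε)`, homogeneous of degree `0`, such that the flows
`u_{t_d} = ∂_x δh_d/δu` commute pairwise. -/
structure IsHamDeformation (h : ℕ → EDP) : Prop where
  deg : ∀ d, Deg0 (h d)
  lead : ∀ d, PowerSeries.coeff 0 (h d) = C (PowerSeries.monomial (d + 2) (((d + 2).factorial : ℂ)⁻¹))
  comm : ∀ d e, FlowsCommute (vdE (h d)) (vdE (h e))

/-- The exponent `s` (`s k` = multiplicity of `u_{k+1}`) is a partition in `𝒫'`: the largest part
occurs at least twice and no part equals `1`. -/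
def InP' (s : ℕ →₀ ℕ) : Prop := s 0 = 0 ∧ ∃ k, 2 ≤ s k ∧ ∀ j, k < j → s j = 0

/-- `f` is a generalized standard form with constant `a`: `f = u³/6 + a ε² u_1² + ∑_{k ≥ 4} ε^k f_k`, where
`f_k = ∑_{λ ∈ 𝒫'_k} a_λ u_λ` with complex constants `a_λ`. -/
structure GenStd (a : ℂ) (f : EDP) : Prop where
  deg : Deg0 f
  c0 : PowerSeries.coeff 0 f = C (PowerSeries.monomial 3 ((6 : ℂ)⁻¹))
  c1 : PowerSeries.coeff 1 f = 0
  c2 : PowerSeries.coeff 2 f = C (PowerSeries.C a) * X 0 ^ 2
  c3 : PowerSeries.coeff 3 f = 0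
  cst : ∀ k, 4 ≤ k → ∀ s, coeff s (PowerSeries.coeff k f) ≠ 0 →
    InP' s ∧ ∃ z : ℂ, coeff s (PowerSeries.coeff k f) = PowerSeries.C z

/-- two densities define the same local functional modulo `∂_x`-exact terms. -/
def SameFunctional (h f : EDP) : Prop := ∀ n, ∃ g : DP, PowerSeries.coeff n h = PowerSeries.coeff n f + dx g

/-! ### commutation of `∂/∂u_k` and `∂_x` -/

theorem ind_lin (F G : DP → DP) (hadd : ∀ p q, F (p + q) = F p + F q) (hadd' : ∀ p q, G (p + q) = G p + G q)
    (hC : ∀ a, F (C a) = G (C a)) (hX : ∀ p i, F p = G p → F (p * X i) = G (p * X i)) (p : DP) : F p = G p := by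
  induction p using MvPolynomial.induction_on with
  | C a => exact hC a
  | add p q hp hq => rw [hadd, hadd', hp, hq]
  | mul_X p i hp => exact hX p i hp

theorem pd_zero (k : ℕ) : pd k (0 : DP) = 0 := by
  have := pd_add k 0 0
  rw [add_zero] at this
  exact left_eq_add.1 this
theorem dx_zero' : dx (0 : DP) = 0 := by
  have := dx_add 0 0
  rw [add_zero] at this
  exact left_eq_add.1 this

theorem pd_dx_succ (j : ℕ) (G : DP) : pd (j + 1) (dx G) = dx (pd (j + 1) G) + pd j G := by
  induction G using MvPolynomial.induction_on with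
  | C a =>
    rw [dx_C, pd_C, if_neg (Nat.succ_ne_zero j), dx_zero', mul_comm, pd_mul_X, pd_C, if_neg (Nat.succ_ne_zero j), pd_C]
    by_cases hj : j = 0
    · subst hj; simp
    · rw [if_neg (by omega), if_neg hj]; simp
  | add p q hp hq => rw [dx_add, pd_add, hp, hq, pd_add, dx_add, pd_add]; ring
  | mul_X p i hp =>
    rw [dx_mul_X, pd_add, pd_mul_X, pd_mul_X, hp, pd_mul_X, dx_add, dx_mul_X, pd_mul_X]
    by_cases h1 : j = i
    · subst h1
      simp only [if_true, Nat.add_right_cancel_iff, if_neg (show ¬ (j = j + 1) by omega), dx_zero', add_zero]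
      ring
    · by_cases h2 : j = i + 1
      · subst h2
        simp only [if_true, if_neg (show ¬ (i + 1 + 1 = i + 1) by omega), dx_zero', add_zero]
        ring
      · rw [if_neg (show ¬ (j + 1 = i + 1) by omega), if_neg (show ¬ (j + 1 = i + 1 + 1) by omega), if_neg h2, if_neg (show ¬ (j + 1 = i + 1) by omega), dx_zero']
        ring

theorem pd_dx_zero (G : DP) : pd 0 (dx G) = dx (pd 0 G) := by
  induction G using MvPolynomial.induction_on with
  | C a =>
    rw [dx_C, pd_C, if_pos rfl, dx_C, mul_comm, pd_mul_X, pd_C, if_pos rfl, if_neg (by omega), add_zero, mul_comm]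
  | add p q hp hq => rw [dx_add, pd_add, hp, hq, pd_add, dx_add]
  | mul_X p i hp =>
    rw [dx_mul_X, pd_add, pd_mul_X, pd_mul_X, hp, pd_mul_X, if_neg (show ¬ (0 = i + 1) by omega), if_neg (show ¬ (0 = i + 1 + 1) by omega), if_neg (show ¬ (0 = i + 1) by omega), add_zero, add_zero, add_zero, dx_mul_X]

theorem pd_comm (i j : ℕ) (G : DP) : pd i (pd j G) = pd j (pd i G) := by
  induction G using MvPolynomial.induction_on with
  | C a =>
    rw [pd_C, pd_C]
    split_ifs with h1 h2 h2
    · rw [pd_C, pd_C, if_pos h2, if_pos h1]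
    · rw [pd_C, if_neg h2, pd_zero]
    · rw [pd_zero, pd_C, if_neg h1]
    · rw [pd_zero, pd_zero]
  | add p q hp hq => rw [pd_add, pd_add, hp, hq, pd_add, pd_add]
  | mul_X p k hp =>
    rw [pd_mul_X, pd_mul_X, pd_add, pd_add, pd_mul_X, pd_mul_X, hp]
    split_ifs <;> (try simp only [pd_zero]) <;> ring

theorem dx_iter_zero (k : ℕ) : dx^[k] (0 : DP) = 0 := by
  induction k with
  | zero => rfl
  | succ k ih => rw [Function.iterate_succ_apply, dx_zero', ih]
theorem dx_iter_add (k : ℕ) (F G : DP) : dx^[k] (F + G) = dx^[k] F + dx^[k] G := by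
  induction k generalizing F G with
  | zero => rfl
  | succ k ih => rw [Function.iterate_succ_apply, dx_add, ih]; rfl

theorem vd_sum (f : DP) (N : ℕ) (hN : ∀ k, N ≤ k → pd k f = 0) :
    vd f = ∑ k ∈ Finset.range N, (-1) ^ k * dx^[k] (pd k f) := by
  unfold vd
  apply finsum_eq_sum_of_support_subset
  intro k hk
  simp only [Finset.coe_range, Set.mem_Iio]
  by_contra h
  apply hk
  simp only
  rw [hN k (by omega), dx_iter_zero, mul_zero]

theorem vd_add (f g : DP) : vd (f + g) = vd f + vd g := by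
  obtain ⟨N1, h1⟩ := pd_fin f
  obtain ⟨N2, h2⟩ := pd_fin g
  rw [vd_sum f (max N1 N2) (fun k hk => h1 k (by omega)), vd_sum g (max N1 N2) (fun k hk => h2 k (by omega)),
    vd_sum (f + g) (max N1 N2) (fun k hk => by rw [pd_add, h1 k (by omega), h2 k (by omega), add_zero]), ← Finset.sum_add_distrib]
  refine Finset.sum_congr rfl fun k _ => ?_
  rw [pd_add, dx_iter_add]; ring

theorem vd_zero : vd (0 : DP) = 0 := by
  have := vd_add 0 0
  rw [add_zero] at this
  exact left_eq_add.1 this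

theorem vd_dx (g : DP) : vd (dx g) = 0 := by
  obtain ⟨N, hN⟩ := pd_fin g
  have hN' : ∀ k, N + 1 ≤ k → pd k (dx g) = 0 := by
    intro k hk
    obtain ⟨j, rfl⟩ : ∃ j, k = j + 1 := ⟨k - 1, by omega⟩
    rw [pd_dx_succ, hN (j + 1) (by omega), hN j (by omega), dx_zero', add_zero]
  rw [vd_sum _ (N + 1) hN']
  have key : ∀ M : ℕ, ∑ k ∈ Finset.range (M + 1), (-1) ^ k * dx^[k] (pd k (dx g)) = (-1) ^ M * dx^[M + 1] (pd M g) := by
    intro M
    induction M with
    | zero => rw [Finset.sum_range_one, pd_dx_zero]; simp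
    | succ M ih =>
      rw [Finset.sum_range_succ, ih, pd_dx_succ, dx_iter_add, ← Function.iterate_succ_apply]
      rw [pow_succ]; ring
  rw [key N, hN N le_rfl, dx_iter_zero, mul_zero]

theorem vd_C (a : PowerSeries ℂ) : vd (C a) = C (PowerSeries.derivative ℂ a) := by
  rw [vd_sum (C a) 1 (fun k hk => by rw [pd_C, if_neg (by omega)])]
  simp [pd_C]

end Pool.Agent.H93RH
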