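import Pool.Agent.H93RH.Ham

open MvPolynomial

namespace Pool.Agent.H93RH

set_option linter.all false

/-- `ℂ[u_2, u_3, …]` inside `𝒜_u`. -/
def NoLow (G : DP) : Prop := pd 0 G = 0 ∧ pd 1 G = 0

theorem NoLow.dx {G : DP} (h : NoLow G) : NoLow (dx G) := by
  refine ⟨?_, ?_⟩
  · rw [pd_dx_zero, h.1, dx_zero']
  · rw [pd_dx_succ, h.2, h.1, dx_zero', add_zero]

theorem NoLow.dx_iter {G : DP} (h : NoLow G) (k : ℕ) : NoLow (Pool.Agent.H93RH.dx^[k] G) := by
  induction k generalizing G with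
  | zero => exact h
  | succ k ih => exact ih h.dx

theorem NoLow.pd {G : DP} (h : NoLow G) (k : ℕ) : NoLow (pd k G) := by
  refine ⟨?_, ?_⟩
  · rw [pd_comm, h.1, pd_zero]
  · rw [pd_comm, h.2, pd_zero]

theorem pd_sum {α : Type*} (t : Finset α) (f : α → DP) (k : ℕ) : pd k (∑ i ∈ t, f i) = ∑ i ∈ t, pd k (f i) := by
  classical
  induction t using Finset.induction_on with
  | empty => simp [pd_zero]
  | insert a s ha ih => rw [Finset.sum_insert ha, Finset.sum_insert ha, pd_add, ih]

theorem pd_neg (k : ℕ) (G : DP) : pd k (-G) = - pd k G := by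
  have h := pd_add k G (-G)
  rw [add_neg_cancel, pd_zero] at h
  exact (neg_eq_of_add_eq_zero_right h.symm).symm

theorem pd_sign (k n : ℕ) (G : DP) : pd k ((-1) ^ n * G) = (-1) ^ n * pd k G := by
  induction n with
  | zero => rw [pow_zero, one_mul, one_mul]
  | succ n ih =>
    have e : ((-1 : DP)) ^ (n + 1) * G = -((-1) ^ n * G) := by ring
    rw [e, pd_neg, ih]; ring

theorem NoLow.vd {G : DP} (h : NoLow G) : NoLow (vd G) := by
  obtain ⟨N, hN⟩ := pd_fin G
  rw [vd_sum G N hN]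
  refine ⟨?_, ?_⟩
  · rw [pd_sum]
    exact Finset.sum_eq_zero fun k _ => by rw [pd_sign, ((h.pd k).dx_iter k).1, mul_zero]
  · rw [pd_sum]
    exact Finset.sum_eq_zero fun k _ => by rw [pd_sign, ((h.pd k).dx_iter k).2, mul_zero]

/-- order bound -/
def Ord (M : ℕ) (G : DP) : Prop := ∀ j, M < j → pd j G = 0

theorem ord_dx_iter {M : ℕ} {G : DP} (h : Ord M G) (k : ℕ) : Ord (M + k) (dx^[k] G) ∧ pd (M + k) (dx^[k] G) = pd M G := by
  induction k with
  | zero => exact ⟨h, rfl⟩
  | succ k ih =>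
    rw [Function.iterate_succ_apply']
    refine ⟨?_, ?_⟩
    · intro j hj
      obtain ⟨i, rfl⟩ : ∃ i, j = i + 1 := ⟨j - 1, by omega⟩
      rw [pd_dx_succ, ih.1 (i + 1) (by omega), ih.1 i (by omega), dx_zero', add_zero]
    · rw [← add_assoc, pd_dx_succ, ih.1 (M + k + 1) (by omega), ih.2, dx_zero', zero_add]

theorem ord_pd {M : ℕ} {G : DP} (h : Ord M G) (k : ℕ) : Ord M (pd k G) := by
  intro j hj
  rw [pd_comm, h j hj, pd_zero]

theorem vd_top {M : ℕ} {G : DP} (h : Ord M G) (h0 : vd G = 0) : pd M (pd M G) = 0 := by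
  have h1 := vd_sum G (M + 1) (fun k hk => h k (by omega))
  rw [h0] at h1
  have h2 := congrArg (pd (M + M)) h1
  rw [pd_zero, pd_sum, Finset.sum_range_succ, Finset.sum_eq_zero] at h2
  · rw [pd_sign, (ord_dx_iter (ord_pd h M) M).2, zero_add] at h2
    have e : ((-1 : DP)) ^ M * (-1) ^ M = 1 := by
      rw [← mul_pow, show ((-1 : DP)) * (-1) = 1 by ring, one_pow]
    have e3 : pd M (pd M G) = (-1) ^ M * ((-1) ^ M * pd M (pd M G)) := by
      rw [← mul_assoc, e, one_mul]
    rw [e3, ← h2, mul_zero]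
  · intro k hk
    rw [Finset.mem_range] at hk
    rw [pd_sign, (ord_dx_iter (ord_pd h k) k).1 (M + M) (by omega), mul_zero]

theorem coeff_pd_succ (k : ℕ) (s : ℕ →₀ ℕ) (G : DP) : coeff s (pd (k + 1) G) = coeff (s + Finsupp.single k 1) G * (s k + 1) := by
  show coeff s (pderiv k G) = _
  rw [coeff_pderiv]

/-- a combination of `u_λ`, `λ ∈ 𝒫'`, with zero variational derivative vanishes. -/
theorem vd_inj (G : DP) (hG : ∀ s, coeff s G ≠ 0 → InP' s) (h0 : vd G = 0) : G = 0 := by
  classical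
  by_contra hne
  have hS : G.support.Nonempty := by
    rw [Finset.nonempty_iff_ne_empty]
    intro h; exact hne (support_eq_empty.1 h)
  -- top index
  have hex : ∃ K, ∀ s ∈ G.support, ∀ j, K ≤ j → s j = 0 := by
    obtain ⟨N, hN⟩ := pd_fin G
    refine ⟨N, fun s hs j hj => ?_⟩
    by_contra hsj
    have h1 : coeff (s - Finsupp.single j 1) (pd (j + 1) G) = 0 := by rw [hN (j + 1) (by omega), coeff_zero]
    rw [coeff_pd_succ] at h1
    have h2 : s - Finsupp.single j 1 + Finsupp.single j 1 = s := by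
      ext i
      rw [Finsupp.add_apply, Finsupp.tsub_apply]
      by_cases hi : i = j
      · subst hi; rw [Finsupp.single_eq_same]; omega
      · rw [Finsupp.single_eq_of_ne hi]; omega
    rw [h2] at h1
    rcases mul_eq_zero.1 h1 with h | h
    · exact (mem_support_iff.1 hs) h
    · have : (((s - Finsupp.single j 1 : ℕ →₀ ℕ) j + 1 : ℕ) : PowerSeries ℂ) = 0 := by exact_mod_cast h
      have h3 := congrArg (PowerSeries.coeff 0) this
      simp only [PowerSeries.coeff_zero_eq_constantCoeff, map_natCast, map_zero] at h3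
      exact absurd h3 (Nat.cast_ne_zero.2 (Nat.succ_ne_zero _))
  set K := Nat.find hex with hK
  have hKs := Nat.find_spec hex
  obtain ⟨s0, hs0⟩ := hS
  have hKpos : K ≠ 0 := by
    intro h
    obtain ⟨_, k, hk, _⟩ := hG s0 (mem_support_iff.1 hs0)
    have := hKs s0 hs0 k (by omega)
    omega
  obtain ⟨m, hm⟩ : ∃ m, K = m + 1 := ⟨K - 1, by omega⟩
  have hmin := Nat.find_min hex (show m < Nat.find hex by omega)
  push Not at hmin
  obtain ⟨s, hs, j, hj, hsj⟩ := hmin
  have hjm : j = m := by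
    by_contra hne2
    exact hsj (hKs s hs j (by omega))
  subst hjm
  obtain ⟨_, k, hk, hktop⟩ := hG s (mem_support_iff.1 hs)
  have hkj : k = j := by
    rcases Nat.lt_trichotomy k j with h | h | h
    · exact absurd (hktop j h) hsj
    · exact h
    · have := hKs s hs k (by omega)
      omega
  subst hkj
  have hord : Ord (k + 1) G := by
    intro i hi
    obtain ⟨i', rfl⟩ : ∃ i', i = i' + 1 := ⟨i - 1, by omega⟩
    ext1 t
    rw [coeff_pd_succ, coeff_zero]
    by_contra hc
    have h1 : coeff (t + Finsupp.single i' 1) G ≠ 0 := left_ne_zero_of_mul hc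
    have h2 := hKs _ (mem_support_iff.2 h1) i' (by omega)
    rw [Finsupp.add_apply, Finsupp.single_eq_same] at h2
    omega
  have h2 := vd_top hord h0
  have h3 : coeff (s - Finsupp.single k 2) (pd (k + 1) (pd (k + 1) G)) = 0 := by rw [h2, coeff_zero]
  rw [coeff_pd_succ, coeff_pd_succ] at h3
  have h4 : s - Finsupp.single k 2 + Finsupp.single k 1 + Finsupp.single k 1 = s := by
    ext i
    rw [Finsupp.add_apply, Finsupp.add_apply, Finsupp.tsub_apply]
    by_cases hi : i = k
    · subst hi; rw [Finsupp.single_eq_same, Finsupp.single_eq_same]; omega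
    · rw [Finsupp.single_eq_of_ne hi, Finsupp.single_eq_of_ne hi]; omega
  rw [h4] at h3
  have hn : ∀ n : ℕ, (((n + 1 : ℕ)) : PowerSeries ℂ) ≠ 0 := by
    intro n h
    have h3 := congrArg (PowerSeries.coeff 0) h
    simp only [PowerSeries.coeff_zero_eq_constantCoeff, map_natCast, map_zero] at h3
    exact absurd h3 (Nat.cast_ne_zero.2 (Nat.succ_ne_zero _))
  have e1 : (((s - Finsupp.single k 2 + Finsupp.single k 1 : ℕ →₀ ℕ) k : PowerSeries ℂ) + 1) ≠ 0 := by
    have := hn ((s - Finsupp.single k 2 + Finsupp.single k 1 : ℕ →₀ ℕ) k)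
    push_cast at this ⊢
    exact this
  have e2 : (((s - Finsupp.single k 2 : ℕ →₀ ℕ) k : PowerSeries ℂ) + 1) ≠ 0 := by
    have := hn ((s - Finsupp.single k 2 : ℕ →₀ ℕ) k)
    push_cast at this ⊢
    exact this
  exact (mul_ne_zero (mul_ne_zero (mem_support_iff.1 hs) e1) e2) h3

end Pool.Agent.H93RH
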