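import Pool.Agent.H93RH.Ham2

open MvPolynomial

namespace Pool.Agent.H93RH

set_option linter.all false

def WH (G : DP) (n : ℕ) : Prop := ∀ s : ℕ →₀ ℕ, coeff s G ≠ 0 → (s.sum fun k m => m * (k + 1)) = n

theorem WH_iff (G : DP) (n : ℕ) : G.IsWeightedHomogeneous (fun k : ℕ => k + 1) n ↔ WH G n := by
  constructor
  · intro h s hs
    have := h hs
    rw [Finsupp.weight_apply] at this
    simpa using this
  · intro h s hs
    rw [Finsupp.weight_apply]
    simpa using h s hs

theorem phi_add (s t : ℕ →₀ ℕ) : ((s + t).sum fun k m => m * (k + 1)) = (s.sum fun k m => m * (k + 1)) + (t.sum fun k m => m * (k + 1)) := by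
  rw [Finsupp.sum_add_index']
  · intro; simp
  · intro a b c; ring
theorem phi_single (k n : ℕ) : ((Finsupp.single k n : ℕ →₀ ℕ).sum fun k m => m * (k + 1)) = n * (k + 1) := by
  rw [Finsupp.sum_single_index]; simp

theorem WH_zero (n : ℕ) : WH 0 n := by intro s hs; simp at hs
theorem WH.add {F G : DP} {n : ℕ} (h1 : WH F n) (h2 : WH G n) : WH (F + G) n := by
  intro s hs
  rw [coeff_add] at hs
  by_cases h : coeff s F = 0
  · apply h2 s; intro h'; apply hs; rw [h, h', add_zero]
  · exact h1 s h
theorem WH.neg {F : DP} {n : ℕ} (h1 : WH F n) : WH (-F) n := by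
  intro s hs
  apply h1 s
  intro h; apply hs; rw [coeff_neg, h, neg_zero]
theorem WH.sum {α : Type*} (t : Finset α) (f : α → DP) {n : ℕ} (h : ∀ i ∈ t, WH (f i) n) : WH (∑ i ∈ t, f i) n := by
  classical
  induction t using Finset.induction_on with
  | empty => simpa using WH_zero n
  | insert a s ha ih =>
    rw [Finset.sum_insert ha]
    exact (h a (Finset.mem_insert_self _ _)).add (ih fun i hi => h i (Finset.mem_insert_of_mem hi))
theorem WH.X_mul {F : DP} {n : ℕ} (h1 : WH F n) (k : ℕ) : WH (X k * F) (n + (k + 1)) := by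
  classical
  intro s hs
  rw [mul_comm, coeff_mul_X'] at hs
  split_ifs at hs with hk
  · have h2 := h1 _ hs
    have hk1 : 1 ≤ s k := Nat.one_le_iff_ne_zero.2 (Finsupp.mem_support_iff.1 hk)
    have hs' : s = (s - Finsupp.single k 1) + Finsupp.single k 1 := by
      ext j
      rw [Finsupp.add_apply, Finsupp.tsub_apply]
      by_cases hj : j = k
      · subst hj; rw [Finsupp.single_eq_same]; omega
      · rw [Finsupp.single_eq_of_ne hj]; omega
    rw [hs', phi_add, h2, phi_single]; ring
  · exact absurd rfl hs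
theorem WH.sign {F : DP} {n : ℕ} (h1 : WH F n) (k : ℕ) : WH ((-1) ^ k * F) n := by
  induction k with
  | zero => rw [pow_zero, one_mul]; exact h1
  | succ k ih =>
    have e : ((-1 : DP)) ^ (k + 1) * F = -((-1) ^ k * F) := by ring
    rw [e]; exact ih.neg

theorem WH.pd {G : DP} {n : ℕ} (h : WH G n) (k : ℕ) (hk : k ≤ n) : WH (pd k G) (n - k) := by
  intro s hs
  cases k with
  | zero =>
    apply h s
    intro h'
    apply hs
    show coeff s (dU G) = 0
    rw [coeff_dU, h', map_zero]
  | succ k =>
    rw [coeff_pd_succ] at hs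
    have := h _ (left_ne_zero_of_mul hs)
    rw [phi_add, phi_single] at this
    omega
theorem WH.pd_big {G : DP} {n : ℕ} (h : WH G n) (k : ℕ) (hk : n < k) : Pool.Agent.H93RH.pd k G = 0 := by
  cases k with
  | zero => omega
  | succ k =>
    ext1 s
    rw [coeff_pd_succ, coeff_zero]
    by_contra hs
    have := h _ (left_ne_zero_of_mul hs)
    rw [phi_add, phi_single] at this
    omega

theorem WH.dx {G : DP} {n : ℕ} (h : WH G n) : WH (dx G) (n + 1) := by
  rw [dx_eq, EE_sum _ G (n + 1) (fun k hk => h.pd_big k (by omega))]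
  apply WH.sum
  intro k hk
  rw [Finset.mem_range] at hk
  have := (h.pd k (by omega)).X_mul k
  rw [show n - k + (k + 1) = n + 1 by omega] at this
  exact this

theorem WH.dx_iter {G : DP} {n : ℕ} (h : WH G n) (k : ℕ) : WH (Pool.Agent.H93RH.dx^[k] G) (n + k) := by
  induction k generalizing G n with
  | zero => exact h
  | succ k ih =>
    rw [Function.iterate_succ_apply]
    have := ih h.dx
    rw [show n + 1 + k = n + (k + 1) by omega] at this
    exact this

theorem WH.vd {G : DP} {n : ℕ} (h : WH G n) : WH (vd G) n := by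
  rw [vd_sum G (n + 1) (fun k hk => h.pd_big k (by omega))]
  apply WH.sum
  intro k hk
  rw [Finset.mem_range] at hk
  have := ((h.pd k (by omega)).dx_iter k).sign k
  rw [show n - k + k = n by omega] at this
  exact this

theorem coeff_vdE (n : ℕ) (F : EDP) : PowerSeries.coeff n (vdE F) = vd (PowerSeries.coeff n F) := by simp [vdE]

theorem vd_sq (a : ℂ) : vd (C (PowerSeries.C a) * X 0 ^ 2 : DP) = C (PowerSeries.C (-(2 * a))) * X 1 := by
  have e0 : (C (PowerSeries.C a) * X 0 ^ 2 : DP) = C (PowerSeries.C a) * X 0 * X 0 := by ring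
  have hd : PowerSeries.derivative ℂ (PowerSeries.C a) = 0 := by simp
  have hp : ∀ k, pd k (C (PowerSeries.C a) * X 0 * X 0 : DP) = if k = 1 then C (PowerSeries.C (2 * a)) * X 0 else 0 := by
    intro k
    rw [pd_mul_X, pd_mul_X, pd_C, hd, C_0, ite_self]
    by_cases hk : k = 1
    · subst hk
      simp only [if_true, zero_mul, zero_add]
      rw [two_mul, map_add, C_add]; ring
    · simp [hk]
  rw [e0, vd_sum _ 2 (fun k hk => by rw [hp, if_neg (by omega)]), Finset.sum_range_succ, Finset.sum_range_one, hp, hp, if_neg (by omega), if_pos rfl,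
    Function.iterate_zero, id, mul_zero, zero_add, Function.iterate_one, dx_mul_X, dx_C]
  have hd2 : PowerSeries.derivative ℂ (PowerSeries.C (2 * a)) = 0 := by simp
  rw [hd2, C_0, map_neg, C_neg]; ring

theorem ham_even (h : ℕ → EDP) (hh : IsHamDeformation h) (f : EDP) (a : ℂ) (hf : GenStd a f)
    (hfunc : SameFunctional (h 1) f) (ha : a ≠ 0) : ∀ k, Odd k → PowerSeries.coeff k f = 0 := by
  have hvd : ∀ n, PowerSeries.coeff n (vdE (h 1)) = vd (PowerSeries.coeff n f) := by
    intro n
    obtain ⟨g, hg⟩ := hfunc n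
    rw [coeff_vdE, hg, vd_add, vd_dx, add_zero]
  have hnolow : ∀ n, 4 ≤ n → NoLow (PowerSeries.coeff n f) := by
    intro n hn
    refine ⟨?_, ?_⟩
    · ext1 s
      show coeff s (dU _) = _
      rw [coeff_dU, coeff_zero]
      by_cases hs : coeff s (PowerSeries.coeff n f) = 0
      · rw [hs, map_zero]
      · obtain ⟨_, z, hz⟩ := hf.cst n hn s hs
        rw [hz]; simp
    · ext1 s
      rw [coeff_pd_succ, coeff_zero]
      by_contra hs
      have h1 := (hf.cst n hn _ (left_ne_zero_of_mul hs)).1.1
      simp at h1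
  have hdef : IsDeformation (fun d => vdE (h d)) := by
    refine ⟨?_, ?_, ?_⟩
    · intro d n
      rw [WH_iff, coeff_vdE]
      exact ((WH_iff _ _).1 (hh.deg d n)).vd
    · intro d
      rw [coeff_vdE, hh.lead, vd_C, dd_monomial]
      congr 2
      rw [Nat.factorial_succ (d + 1)]
      have h1 : (((d + 1).factorial : ℕ) : ℂ) ≠ 0 := by exact_mod_cast Nat.factorial_ne_zero _
      have h2 : ((d : ℂ) + 1 + 1) ≠ 0 := by exact_mod_cast Nat.succ_ne_zero (d + 1)
      push_cast
      field_simp
    · intro d e; exact hh.comm d e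
  have hnorm : NormalForm (vdE (h 1)) := by
    refine ⟨?_, ?_⟩
    · rw [hvd, hf.c1, vd_zero]
    · intro k hk s hs
      rw [hvd] at hs
      by_cases hk2 : k = 2
      · subst hk2
        rw [hf.c2, vd_sq, coeff_C_mul, coeff_X'] at hs
        split_ifs at hs with h1
        · rw [← h1]; simp
        · simp at hs
      by_cases hk3 : k = 3
      · subst hk3
        rw [hf.c3, vd_zero] at hs
        simp at hs
      have h1 := (hnolow k (by omega)).vd.2
      by_contra hs0
      have h2 := congrArg (coeff (s - Finsupp.single 0 1)) h1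
      rw [coeff_pd_succ, coeff_zero] at h2
      have h4 : s - Finsupp.single 0 1 + Finsupp.single 0 1 = s := by
        ext i
        rw [Finsupp.add_apply, Finsupp.tsub_apply]
        by_cases hi : i = 0
        · subst hi; rw [Finsupp.single_eq_same]; omega
        · rw [Finsupp.single_eq_of_ne hi]; omega
      rw [h4] at h2
      rcases mul_eq_zero.1 h2 with h3 | h3
      · exact hs h3
      · have h5 : (((s - Finsupp.single 0 1 : ℕ →₀ ℕ) 0 + 1 : ℕ) : PowerSeries ℂ) = 0 := by exact_mod_cast h3
        have h6 := congrArg (PowerSeries.coeff 0) h5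
        simp only [PowerSeries.coeff_zero_eq_constantCoeff, map_natCast, map_zero] at h6
        exact absurd h6 (Nat.cast_ne_zero.2 (Nat.succ_ne_zero _))
  have hc2 : c2 (vdE (h 1)) ≠ 0 := by
    unfold c2
    rw [hvd, hf.c2, vd_sq, coeff_C_mul, coeff_X', if_pos rfl, mul_one]
    intro h0
    have h1 := congrArg (PowerSeries.coeff 0) h0
    simp at h1
    exact ha h1
  have : CharZero (FractionRing (PowerSeries ℂ)) :=
    charZero_of_injective_ringHom
      (((algebraMap (PowerSeries ℂ) (FractionRing (PowerSeries ℂ))).comp (PowerSeries.C (R := ℂ))).injective)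
  have key := main_thm (K := FractionRing (PowerSeries ℂ)) (algebraMap (PowerSeries ℂ) (FractionRing (PowerSeries ℂ)))
    (IsFractionRing.injective (PowerSeries ℂ) (FractionRing (PowerSeries ℂ))) (fun d => vdE (h d)) hdef hnorm hc2
  intro k hk
  have h1 : PowerSeries.coeff k (vdE (h 1)) = 0 := key k hk
  rw [hvd] at h1
  rcases Nat.lt_or_ge k 4 with h4 | h4
  · obtain ⟨j, hj⟩ := hk
    have : k = 1 ∨ k = 3 := by omega
    rcases this with h | h
    · rw [h, hf.c1]
    · rw [h, hf.c3]
  · exact vd_inj _ (fun s hs => (hf.cst k h4 s hs).1) h1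

end Pool.Agent.H93RH
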