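import Pool.Agent.H93RH.Quad1
import Pool.Agent.H93RH.Even

open MvPolynomial

namespace Pool.Agent.H93RH

set_option linter.all false

open Finset.HasAntidiagonal (antidiagonal)

theorem decomp1 (s : ℕ →₀ ℕ) (h : s ≠ 0) : ∃ k s', s = s' + Finsupp.single k 1 := by
  obtain ⟨k, hk⟩ := Finsupp.ne_iff.1 h
  refine ⟨k, s - Finsupp.single k 1, ?_⟩
  ext j
  rw [Finsupp.add_apply, Finsupp.tsub_apply]
  by_cases hj : j = k
  · subst hj
    have : s j ≠ 0 := hk
    rw [Finsupp.single_eq_same]; omega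
  · rw [Finsupp.single_eq_of_ne hj]; omega

theorem wt_zero (ρ : ℕ) : Rho.wt ρ 0 = 0 := by simp [Rho.wt]

theorem low_supp (ρ : ℕ) [NeZero ρ] (s : ℕ →₀ ℕ) (h : Rho.wt ρ s < 2 * ρ) : s = 0 ∨ ∃ k, k < ρ ∧ s = Finsupp.single k 1 := by
  by_cases h0 : s = 0
  · exact Or.inl h0
  right
  obtain ⟨k, s', rfl⟩ := decomp1 s h0
  rw [Rho.wt_add, Rho.wt_single] at h
  by_cases h1 : s' = 0
  · subst h1
    rw [wt_zero] at h
    exact ⟨k, by omega, by simp⟩
  · obtain ⟨k', s'', rfl⟩ := decomp1 s' h1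
    rw [Rho.wt_add, Rho.wt_single] at h
    omega

theorem two_supp (ρ : ℕ) [NeZero ρ] (s : ℕ →₀ ℕ) (h : Rho.wt ρ s = 2 * ρ) : s = Finsupp.single 0 2 ∨ s = Finsupp.single ρ 1 := by
  have hρ : ρ ≠ 0 := NeZero.ne ρ
  by_cases h0 : s = 0
  · subst h0; rw [wt_zero] at h; omega
  obtain ⟨k, s', rfl⟩ := decomp1 s h0
  rw [Rho.wt_add, Rho.wt_single] at h
  by_cases h1 : s' = 0
  · subst h1
    rw [wt_zero] at h
    right
    have : k = ρ := by omega
    subst this; simp
  · obtain ⟨k', s'', rfl⟩ := decomp1 s' h1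
    rw [Rho.wt_add, Rho.wt_single] at h
    by_cases h2 : s'' = 0
    · subst h2
      left
      have e1 : k = 0 := by omega
      have e2 : k' = 0 := by omega
      subst e1; subst e2
      rw [zero_add, ← Finsupp.single_add]
    · obtain ⟨k'', s3, rfl⟩ := decomp1 s'' h2
      rw [Rho.wt_add, Rho.wt_single] at h
      omega

theorem dn_single_succ (k : ℕ) : dn (Finsupp.single (k + 1) 1) = Finsupp.single k 1 := by
  ext j
  rw [dn_apply]
  by_cases hk : j = k
  · subst hk; simp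
  · rw [Finsupp.single_eq_of_ne (by omega), Finsupp.single_eq_of_ne hk]

variable {K : Type*} [Field K] [CharZero K] (ι : PowerSeries ℂ →+* K)

theorem lin_core (hι : Function.Injective ι) (ρ : ℕ) (hρ : 3 ≤ ρ) (P' : ℕ → EDP) (hP : IsDeformation P')
    (hlow : ∀ j, j + 1 < ρ → coeff (Finsupp.single j 1) (PowerSeries.coeff (j + 1) (P' 1)) = 0) :
    coeff (Finsupp.single (ρ - 1) 1) (PowerSeries.coeff ρ (P' 1)) = 0 := by
  classical
  haveI : NeZero ρ := ⟨by omega⟩
  have hρ0 : ρ ≠ 0 := by omega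
  have hF := hP.deg 1
  have hG := hP.deg 2
  set F := P' 1 with hFdef
  set G := P' 2 with hGdef
  by_contra hcne
  have hF0 : PowerSeries.coeff 0 F = C (PowerSeries.monomial 2 ((2 : ℂ)⁻¹)) := by
    have := hP.lead 1
    simpa [Nat.factorial] using this
  have hG0 : PowerSeries.coeff 0 G = C (PowerSeries.monomial 3 ((6 : ℂ)⁻¹)) := by
    have := hP.lead 2
    simpa [Nat.factorial] using this
  set p : ℕ → AA K := fun v => Rho.pp ρ ι F v with hp
  set r : ℕ → AA K := fun v => Rho.pp ρ ι G v - C (ι PowerSeries.X) * Rho.pp ρ ι F v with hr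
  have cp : ∀ s v, coeff s (p v) = if Rho.wt ρ s = v then tc ι (s 0) (coeff (dn s) (PowerSeries.coeff (dg s) F)) else 0 := fun s v => Rho.coeff_pp ρ ι hF s v
  have cr : ∀ s v, coeff s (r v) = if Rho.wt ρ s = v then tc ι (s 0) (coeff (dn s) (PowerSeries.coeff (dg s) G)) -
      ι PowerSeries.X * tc ι (s 0) (coeff (dn s) (PowerSeries.coeff (dg s) F)) else 0 := by
    intro s v
    show coeff s (Rho.pp ρ ι G v - C (ι PowerSeries.X) * Rho.pp ρ ι F v) = _
    rw [coeff_sub, coeff_C_mul, Rho.coeff_pp ρ ι hF, Rho.coeff_pp ρ ι hG]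
    split_ifs <;> ring
  have sp : ∀ v s, coeff s (p v) ≠ 0 → Rho.wt ρ s = v := by
    intro v s h; by_contra hh; apply h; rw [cp, if_neg hh]
  have sr : ∀ v s, coeff s (r v) ≠ 0 → Rho.wt ρ s = v := by
    intro v s h; by_contra hh; apply h; rw [cr, if_neg hh]
  -- weights `0` and `ρ`
  have c0 : ∀ (A : AA K), (∀ s, coeff s A ≠ 0 → Rho.wt ρ s = 0) → A = C (coeff 0 A) := by
    intro A hA
    ext s
    rw [coeff_C]
    split_ifs with h
    · rw [h]
    · by_contra hs
      have h1 := hA s hs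
      rcases low_supp ρ s (by omega) with h2 | ⟨k, hk, rfl⟩
      · exact h h2.symm
      · rw [Rho.wt_single] at h1; omega
  have c1 : ∀ (A : AA K), (∀ s, coeff s A ≠ 0 → Rho.wt ρ s = ρ) → A = C (coeff (Finsupp.single 0 1) A) * X 0 := by
    intro A hA
    ext s
    rw [coeff_C_mul, coeff_X']
    split_ifs with h
    · rw [h, mul_one]
    · rw [mul_zero]
      by_contra hs
      have h1 := hA s hs
      rcases low_supp ρ s (by omega) with h2 | ⟨k, hk, rfl⟩
      · subst h2; rw [wt_zero] at h1; omega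
      · rw [Rho.wt_single] at h1
        have : k = 0 := by omega
        subst this; exact h rfl
  have hp0 : ∀ G, br (p 0) G = 0 := by
    intro G; rw [c0 (p 0) (sp 0), br_C_left]
  have hp1 : ∀ G, br (p ρ) G = 0 := by
    intro G; rw [c1 (p ρ) (sp ρ), br_smul_left, br_X0, mul_zero]
  have hr0 : ∀ G, br G (r 0) = 0 := by
    intro G; rw [c0 (r 0) (sr 0), br_swap, br_C_left, neg_zero]
  have hr1 : ∀ G, br G (r ρ) = 0 := by
    intro G; rw [c1 (r ρ) (sr ρ), br_swap, br_smul_left, br_X0, mul_zero, neg_zero]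
  have hpz : ∀ v, v < 2 * ρ → v ≠ 0 → v ≠ ρ → p v = 0 := by
    intro v hv h0 h1
    ext s
    rw [coeff_zero]
    by_contra hs
    have h2 := sp v s hs
    rcases low_supp ρ s (by omega) with h3 | ⟨k, hk, h3⟩
    · rw [h3, wt_zero] at h2; omega
    · apply hs
      rw [cp, h3]
      have hk0 : k ≠ 0 := by
        intro hk0
        rw [h3, hk0, Rho.wt_single] at h2; omega
      obtain ⟨j, rfl⟩ : ∃ j, k = j + 1 := ⟨k - 1, by omega⟩
      rw [dn_single_succ, dg_single, one_mul, hlow j hk, tc_zero, ite_self]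
  have hpl : ∀ v, v < 2 * ρ → ∀ G, br (p v) G = 0 := by
    intro v hv G
    by_cases h0 : v = 0
    · rw [h0]; exact hp0 G
    by_cases h1 : v = ρ
    · rw [h1]; exact hp1 G
    rw [hpz v hv h0 h1, br_zero_left]
  -- pure coefficients
  have e1 : coeff (0 : ℕ →₀ ℕ) (C (PowerSeries.monomial 2 ((2 : ℂ)⁻¹)) : DP) = PowerSeries.monomial 2 ((2 : ℂ)⁻¹) := by simp
  have e2 : coeff (0 : ℕ →₀ ℕ) (C (PowerSeries.monomial 3 ((6 : ℂ)⁻¹)) : DP) = PowerSeries.monomial 3 ((6 : ℂ)⁻¹) := by simp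
  have m1 : (PowerSeries.monomial 0 (1 : ℂ)) = 1 := by ext k; simp [PowerSeries.coeff_monomial, PowerSeries.coeff_one]
  have mX : (PowerSeries.monomial 1 (1 : ℂ)) = PowerSeries.X := by rfl
  have d2F : (⇑(PowerSeries.derivative ℂ))^[2] (PowerSeries.monomial 2 ((2 : ℂ)⁻¹)) = 1 := by
    rw [Function.iterate_succ_apply, Function.iterate_succ_apply, Function.iterate_zero, id, dd_monomial, dd_monomial, ← m1]
    congr 1; norm_num
  have d3F : (⇑(PowerSeries.derivative ℂ))^[3] (PowerSeries.monomial 2 ((2 : ℂ)⁻¹)) = 0 := by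
    rw [Function.iterate_succ_apply', d2F]; simp
  have d2G : (⇑(PowerSeries.derivative ℂ))^[2] (PowerSeries.monomial 3 ((6 : ℂ)⁻¹)) = PowerSeries.X := by
    rw [Function.iterate_succ_apply, Function.iterate_succ_apply, Function.iterate_zero, id, dd_monomial, dd_monomial, ← mX]
    congr 1; norm_num
  have d3G : (⇑(PowerSeries.derivative ℂ))^[3] (PowerSeries.monomial 3 ((6 : ℂ)⁻¹)) = 1 := by
    rw [Function.iterate_succ_apply', d2G, ← mX]
    rw [show (1 : ℕ) = 0 + 1 from rfl, dd_monomial, ← m1]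
    congr 1; norm_num
  have pureF : ∀ j v, coeff (Finsupp.single 0 j) (r v) = if j * ρ = v then tc ι j (PowerSeries.monomial 3 ((6 : ℂ)⁻¹)) -
      ι PowerSeries.X * tc ι j (PowerSeries.monomial 2 ((2 : ℂ)⁻¹)) else 0 := by
    intro j v
    rw [cr, Rho.wt_single, dn_single0, dg_single, mul_zero, hF0, hG0, e1, e2, Finsupp.single_eq_same, zero_add]
  have hrlow : ∀ v, v < 3 * ρ → v ≠ 0 → v ≠ ρ → ∀ j, coeff (Finsupp.single 0 j) (r v) = 0 := by
    intro v hv h0 h1 j
    rw [pureF]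
    split_ifs with h
    · have hj : j = 2 := by
        have hj3 : j < 3 := by
          by_contra hh
          have : 3 * ρ ≤ j * ρ := Nat.mul_le_mul_right _ (by omega)
          omega
        have : j ≠ 0 := by rintro rfl; omega
        have : j ≠ 1 := by rintro rfl; omega
        omega
      subst hj
      unfold tc
      rw [d2F, d2G, map_one]; ring
    · rfl
  have hr3 : ∀ j, coeff (Finsupp.single 0 j) (r (3 * ρ)) = if j = 3 then 1 / 6 else 0 := by
    intro j
    rw [pureF]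
    by_cases hj : j = 3
    · subst hj
      rw [if_pos rfl, if_pos rfl]
      unfold tc
      rw [d3F, d3G, map_one, map_zero]
      simp [Nat.factorial]
    · rw [if_neg (fun h => hj (Nat.eq_of_mul_eq_mul_right (Nat.pos_of_ne_zero hρ0) h)), if_neg hj]
  set c := ι (coeff (Finsupp.single (ρ - 1) 1) (PowerSeries.coeff ρ F)) with hcdef
  have hc : c ≠ 0 := by
    rw [hcdef]
    intro h
    apply hcne
    apply hι
    rw [h, map_zero]
  have hp2 : p (2 * ρ) = Pq ρ c := by
    ext s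
    unfold Pq
    rw [coeff_add, coeff_C_mul, coeff_C_mul, coeff_X_pow, coeff_X', cp]
    have hne : ¬ ((Finsupp.single 0 2 : ℕ →₀ ℕ) = Finsupp.single ρ 1) := by
      intro h
      have := congrArg (fun s : ℕ →₀ ℕ => s 0) h
      simp [Finsupp.single_apply, hρ0] at this
    by_cases hw : Rho.wt ρ s = 2 * ρ
    · rw [if_pos hw]
      rcases two_supp ρ s hw with hs | hs
      · rw [hs, if_pos rfl, if_neg (fun h => hne h.symm), dn_single0, dg_single, mul_zero, hF0, e1, Finsupp.single_eq_same]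
        unfold tc
        rw [d2F, map_one]; simp [Nat.factorial]
      · rw [hs, if_pos rfl, if_neg hne]
        obtain ⟨m, hm⟩ : ∃ m, ρ = m + 1 := ⟨ρ - 1, by omega⟩
        have hz : (Finsupp.single ρ 1 : ℕ →₀ ℕ) 0 = 0 := Finsupp.single_eq_of_ne (by omega)
        have hd : dn (Finsupp.single ρ 1) = Finsupp.single (ρ - 1) 1 := by
          rw [hm]; exact dn_single_succ m
        rw [hz, tc_zero_idx, hd, dg_single, one_mul, mul_zero, mul_one, zero_add]
    · rw [if_neg hw, if_neg, if_neg]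
      · ring
      · intro h; apply hw; rw [← h, Rho.wt_single]; omega
      · intro h; apply hw; rw [← h, Rho.wt_single]; omega
  have hE : ∀ N, ∑ vw ∈ antidiagonal N, br (p vw.1) (r vw.2) = 0 := by
    intro N
    have h1 := Rho.main_eq ρ ι F G hF hG (hP.comm 1 2) N
    have h2 := Rho.main_eq ρ ι F F hF hF (hP.comm 1 1) N
    have h3 : ∑ vw ∈ antidiagonal N, br (p vw.1) (r vw.2) =
        ∑ vw ∈ antidiagonal N, br (Rho.pp ρ ι F vw.1) (Rho.pp ρ ι G vw.2) - C (ι PowerSeries.X) * ∑ vw ∈ antidiagonal N, br (Rho.pp ρ ι F vw.1) (Rho.pp ρ ι F vw.2) := by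
      rw [Finset.mul_sum, ← Finset.sum_sub_distrib]
      refine Finset.sum_congr rfl fun vw _ => ?_
      show br (Rho.pp ρ ι F vw.1) (Rho.pp ρ ι G vw.2 - C (ι PowerSeries.X) * Rho.pp ρ ι F vw.2) = _
      rw [br_sub_right, br_smul_right]
    rw [h3, h1, h2]; simp
  have step : ∀ w, (∀ w', w' < w → ∀ Z, br Z (r w') = 0) → br (p (2 * ρ)) (r w) = 0 := by
    intro w ih
    have h1 := hE (2 * ρ + w)
    rw [Finset.sum_eq_single (2 * ρ, w)] at h1
    · exact h1
    · rintro ⟨v, w'⟩ hvw hne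
      rw [Finset.HasAntidiagonal.mem_antidiagonal] at hvw
      simp only at hvw ⊢
      by_cases hv : v < 2 * ρ
      · exact hpl v hv _
      · by_cases hv2 : v = 2 * ρ
        · exfalso; apply hne; rw [hv2]; congr 1; omega
        · exact ih w' (by omega) _
    · intro h
      exfalso; apply h
      rw [Finset.HasAntidiagonal.mem_antidiagonal]
  have hall : ∀ w, w < 3 * ρ → ∀ Z, br Z (r w) = 0 := by
    intro w
    induction w using Nat.strong_induction_on with
    | _ w ih =>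
      intro hw Z
      by_cases h0 : w = 0
      · rw [h0]; exact hr0 Z
      by_cases h1 : w = ρ
      · rw [h1]; exact hr1 Z
      have h2 := step w (fun w' hw' Z => ih w' hw' (by omega) Z)
      rw [hp2] at h2
      rw [cent_q ρ c _ h2 (hrlow w hw h0 h1), br_zero_right]
  have hfin := step (3 * ρ) (fun w' hw' Z => hall w' hw' Z)
  rw [hp2] at hfin
  exact quad_alg ρ hρ c hc _ hfin (sr (3 * ρ)) hr3

end Pool.Agent.H93RH
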