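import Pool.Agent.H93RH.Ham3
import Pool.Agent.H93RH.Quad2

open MvPolynomial

namespace Pool.Agent.H93RH

set_option linter.all false

def lv (s : ℕ →₀ ℕ) : ℕ := s.sum fun _ n => n

theorem lv_add (s t : ℕ →₀ ℕ) : lv (s + t) = lv s + lv t := by
  unfold lv; rw [Finsupp.sum_add_index'] <;> simp
theorem lv_single (k n : ℕ) : lv (Finsupp.single k n) = n := by
  unfold lv; rw [Finsupp.sum_single_index rfl]

def Lv (m : ℕ) (G : DP) : Prop := ∀ s, coeff s G ≠ 0 → m ≤ lv s

theorem Lv_zero (m : ℕ) : Lv m 0 := by intro s hs; simp at hs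
theorem Lv.add {m : ℕ} {F G : DP} (h1 : Lv m F) (h2 : Lv m G) : Lv m (F + G) := by
  intro s hs
  rw [coeff_add] at hs
  by_cases h : coeff s F = 0
  · apply h2 s; intro h'; apply hs; rw [h, h', add_zero]
  · exact h1 s h
theorem Lv.neg {m : ℕ} {F : DP} (h1 : Lv m F) : Lv m (-F) := by
  intro s hs
  apply h1 s
  intro h; apply hs; rw [coeff_neg, h, neg_zero]
theorem Lv.sum {α : Type*} (t : Finset α) (f : α → DP) {m : ℕ} (h : ∀ i ∈ t, Lv m (f i)) : Lv m (∑ i ∈ t, f i) := by
  classical
  induction t using Finset.induction_on with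
  | empty => simpa using Lv_zero m
  | insert a s ha ih =>
    rw [Finset.sum_insert ha]
    exact (h a (Finset.mem_insert_self _ _)).add (ih fun i hi => h i (Finset.mem_insert_of_mem hi))
theorem Lv.sign {m : ℕ} {F : DP} (h1 : Lv m F) (k : ℕ) : Lv m ((-1) ^ k * F) := by
  induction k with
  | zero => rw [pow_zero, one_mul]; exact h1
  | succ k ih =>
    have e : ((-1 : DP)) ^ (k + 1) * F = -((-1) ^ k * F) := by ring
    rw [e]; exact ih.neg
theorem Lv.X_mul {m : ℕ} {F : DP} (h1 : Lv m F) (k : ℕ) : Lv (m + 1) (X k * F) := by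
  classical
  intro s hs
  rw [mul_comm, coeff_mul_X'] at hs
  split_ifs at hs with hk
  · have h2 := h1 _ hs
    have hk1 : 1 ≤ s k := Nat.one_le_iff_ne_zero.2 (Finsupp.mem_support_iff.1 hk)
    have hs' : s = (s - Finsupp.single k 1) + Finsupp.single k 1 := by
      ext j
      rw [Finsupp.add_apply, Finsupp.tsub_apply]
      by_cases hj : j = k
      · subst hj; rw [Finsupp.single_eq_same]; omega
      · rw [Finsupp.single_eq_of_ne hj]; omega
    rw [hs', lv_add, lv_single]; omega
  · exact absurd rfl hs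
theorem Lv.pd {m : ℕ} {G : DP} (h : Lv (m + 1) G) (k : ℕ) : Lv m (pd k G) := by
  intro s hs
  cases k with
  | zero =>
    have : m + 1 ≤ lv s := by
      apply h s
      intro h'
      apply hs
      show coeff s (dU G) = 0
      rw [coeff_dU, h', map_zero]
    omega
  | succ k =>
    rw [coeff_pd_succ] at hs
    have := h _ (left_ne_zero_of_mul hs)
    rw [lv_add, lv_single] at this
    omega
theorem Lv.dx {m : ℕ} {G : DP} (h : Lv m G) : Lv m (dx G) := by
  cases m with
  | zero => intro s _; omega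
  | succ m =>
    obtain ⟨N, hN⟩ := pd_fin G
    rw [dx_eq, EE_sum _ G N hN]
    exact Lv.sum _ _ fun k _ => (h.pd k).X_mul k
theorem Lv.dx_iter {m : ℕ} {G : DP} (h : Lv m G) (k : ℕ) : Lv m (Pool.Agent.H93RH.dx^[k] G) := by
  induction k generalizing G with
  | zero => exact h
  | succ k ih => rw [Function.iterate_succ_apply]; exact ih h.dx
theorem Lv.vd {m : ℕ} {G : DP} (h : Lv (m + 1) G) : Lv m (vd G) := by
  obtain ⟨N, hN⟩ := pd_fin G
  rw [vd_sum G N hN]
  exact Lv.sum _ _ fun k _ => ((h.pd k).dx_iter k).sign k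

theorem dx_iter_lin (w : ℂ) (i n : ℕ) : dx^[n] (C (PowerSeries.C w) * X i : DP) = C (PowerSeries.C w) * X (i + n) := by
  have hd : PowerSeries.derivative ℂ (PowerSeries.C w) = 0 := by simp
  induction n with
  | zero => rfl
  | succ n ih =>
    rw [Function.iterate_succ_apply', ih, dx_mul_X, dx_C, hd, C_0, mul_zero, zero_mul, zero_add, add_assoc]

theorem vd_sq_gen (z : ℂ) (i : ℕ) : vd (C (PowerSeries.C z) * X i ^ 2 : DP) = (-1) ^ (i + 1) * (C (PowerSeries.C (2 * z)) * X (2 * i + 1)) := by
  have e0 : (C (PowerSeries.C z) * X i ^ 2 : DP) = C (PowerSeries.C z) * X i * X i := by ring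
  have hd : PowerSeries.derivative ℂ (PowerSeries.C z) = 0 := by simp
  have hp : ∀ k, pd k (C (PowerSeries.C z) * X i * X i : DP) = if k = i + 1 then C (PowerSeries.C (2 * z)) * X i else 0 := by
    intro k
    rw [pd_mul_X, pd_mul_X, pd_C, hd, C_0, ite_self]
    by_cases hk : k = i + 1
    · subst hk
      simp only [if_true, zero_mul, zero_add]
      rw [two_mul, map_add, C_add]; ring
    · simp [hk]
  rw [e0, vd_sum _ (i + 2) (fun k hk => by rw [hp, if_neg (by omega)]), Finset.sum_range_succ, Finset.sum_eq_zero, zero_add, hp, if_pos rfl, dx_iter_lin]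
  · congr 3; ring
  · intro k hk
    rw [Finset.mem_range] at hk
    rw [hp, if_neg (by omega), dx_iter_zero, mul_zero]

/-- the linear part of `u_{t_1}` vanishes when its first two coefficients do -/
theorem lin_part (P' : ℕ → EDP) (hP : IsDeformation P')
    (h1 : coeff (Finsupp.single 0 1) (PowerSeries.coeff 1 (P' 1)) = 0)
    (h2 : coeff (Finsupp.single 1 1) (PowerSeries.coeff 2 (P' 1)) = 0) (j : ℕ) :
    coeff (Finsupp.single j 1) (PowerSeries.coeff (j + 1) (P' 1)) = 0 := by
  have : CharZero (FractionRing (PowerSeries ℂ)) :=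
    charZero_of_injective_ringHom
      (((algebraMap (PowerSeries ℂ) (FractionRing (PowerSeries ℂ))).comp (PowerSeries.C (R := ℂ))).injective)
  induction j using Nat.strong_induction_on with
  | _ j ih =>
    match j, ih with
    | 0, _ => exact h1
    | 1, _ => exact h2
    | j + 2, ih =>
      exact lin_core (K := FractionRing (PowerSeries ℂ)) (algebraMap (PowerSeries ℂ) (FractionRing (PowerSeries ℂ)))
        (IsFractionRing.injective (PowerSeries ℂ) (FractionRing (PowerSeries ℂ))) (j + 3) (by omega) P' hP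
        (fun i hi => ih i (by omega))

theorem ham_quad (h : ℕ → EDP) (hh : IsHamDeformation h) (f : EDP) (hf : GenStd 0 f)
    (hfunc : SameFunctional (h 1) f) (j : ℕ) (hj : 2 ≤ j) :
    coeff (Finsupp.single (j - 1) 2) (PowerSeries.coeff (2 * j) f) = 0 := by
  classical
  have hvd : ∀ n, PowerSeries.coeff n (vdE (h 1)) = vd (PowerSeries.coeff n f) := by
    intro n
    obtain ⟨g, hg⟩ := hfunc n
    rw [coeff_vdE, hg, vd_add, vd_dx, add_zero]
  have hdef : IsDeformation (fun d => vdE (h d)) := by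
    refine ⟨?_, ?_, ?_⟩
    · intro d n
      rw [WH_iff, coeff_vdE]
      exact ((WH_iff _ _).1 (hh.deg d n)).vd
    · intro d
      rw [coeff_vdE, hh.lead, vd_C, dd_monomial]
      congr 2
      rw [Nat.factorial_succ (d + 1)]
      have h1 : (((d + 1).factorial : ℕ) : ℂ) ≠ 0 := by exact_mod_cast Nat.factorial_ne_zero _
      have h2 : ((d : ℂ) + 1 + 1) ≠ 0 := by exact_mod_cast Nat.succ_ne_zero (d + 1)
      push_cast
      field_simp
    · intro d e; exact hh.comm d e
  have key := lin_part (fun d => vdE (h d)) hdef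
    (by show coeff _ (PowerSeries.coeff 1 (vdE (h 1))) = 0; rw [hvd, hf.c1, vd_zero, coeff_zero])
    (by show coeff _ (PowerSeries.coeff 2 (vdE (h 1))) = 0; rw [hvd, hf.c2, vd_sq]; simp)
    (2 * j - 1)
  have key2 : coeff (Finsupp.single (2 * j - 1) 1) (vd (PowerSeries.coeff (2 * j) f)) = 0 := by
    have e : 2 * j - 1 + 1 = 2 * j := by omega
    rw [e] at key
    rw [← hvd]; exact key
  set G := PowerSeries.coeff (2 * j) f with hG
  have hWH : WH G (2 * j) := (WH_iff _ _).1 (hf.deg (2 * j))
  obtain ⟨z, hz⟩ : ∃ z : ℂ, coeff (Finsupp.single (j - 1) 2) G = PowerSeries.C z := by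
    by_cases h0 : coeff (Finsupp.single (j - 1) 2) G = 0
    · exact ⟨0, by rw [h0, map_zero]⟩
    · exact (hf.cst (2 * j) (by omega) _ h0).2
  set G' : DP := G - C (PowerSeries.C z) * X (j - 1) ^ 2 with hG'
  have hcG' : ∀ s, coeff s G' = if s = Finsupp.single (j - 1) 2 then 0 else coeff s G := by
    intro s
    rw [hG', coeff_sub, coeff_C_mul, coeff_X_pow]
    by_cases hs : s = Finsupp.single (j - 1) 2
    · rw [if_pos hs, if_pos hs.symm, hs, hz, mul_one, sub_self]
    · rw [if_neg hs, if_neg (fun h => hs h.symm), mul_zero, sub_zero]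
  have hL : Lv 3 G' := by
    intro s hs
    rw [hcG'] at hs
    split_ifs at hs with hs1
    · exact absurd rfl hs
    · obtain ⟨⟨_, k, hk, _⟩, _⟩ := hf.cst (2 * j) (by omega) s hs
      have hs' : s = (s - Finsupp.single k 2) + Finsupp.single k 2 := by
        ext i
        rw [Finsupp.add_apply, Finsupp.tsub_apply]
        by_cases hi : i = k
        · subst hi; rw [Finsupp.single_eq_same]; omega
        · rw [Finsupp.single_eq_of_ne hi]; omega
      by_cases hz' : s - Finsupp.single k 2 = 0
      · exfalso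
        rw [hz', zero_add] at hs'
        have hw := hWH s hs
        rw [hs', phi_single] at hw
        apply hs1
        rw [hs']; congr 1; omega
      · obtain ⟨i, s'', hs''⟩ := decomp1 _ hz'
        rw [hs', hs'', lv_add, lv_add, lv_single, lv_single]; omega
  have hGe : G = G' + C (PowerSeries.C z) * X (j - 1) ^ 2 := by rw [hG']; ring
  rw [hGe, vd_add, coeff_add, vd_sq_gen] at key2
  have h3 : coeff (Finsupp.single (2 * j - 1) 1) (vd G') = 0 := by
    by_contra hne
    have := hL.vd _ hne
    rw [lv_single] at this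
    omega
  have e1 : 2 * (j - 1) + 1 = 2 * j - 1 := by omega
  have e2 : j - 1 + 1 = j := by omega
  rw [h3, zero_add, e1, e2] at key2
  have e3 : ((-1 : DP) ^ j) = C ((-1) ^ j) := by rw [map_pow, map_neg, map_one]
  rw [e3, coeff_C_mul, coeff_C_mul, coeff_X', if_pos rfl, mul_one] at key2
  have h4 : ((-1 : PowerSeries ℂ) ^ j) ≠ 0 := pow_ne_zero _ (by norm_num)
  have h5 := (mul_eq_zero.1 key2).resolve_left h4
  have h6 : z = 0 := by
    have h7 := congrArg (PowerSeries.coeff 0) h5
    simp at h7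
    exact h7
  rw [hz, h6, map_zero]

end Pool.Agent.H93RH
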