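import Pool.Agent.H93RH.Div

open MvPolynomial

namespace Pool.Agent.H93RH

set_option linter.all false

variable {K : Type*} [Field K]

noncomputable def P (κ : K) : AA K := X 0 ^ 2 + C (2 * κ) * X 2
noncomputable def R (κ : K) : AA K := C 5 * X 0 ^ 3 + C (30 * κ) * (X 0 * X 2) + C (15 * κ) * X 1 ^ 2 + C (18 * κ ^ 2) * X 4

theorem E_Xj (j : ℕ) (G : AA K) : E 0 (X j) G = Sh j G := by
  have : E 0 (X j : AA K) = Sh j := by
    apply der_ext
    intro i
    rw [E_X, Sh_X, Dx_zero_fun]
    induction i with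
    | zero => simp
    | succ i ih => rw [Function.iterate_succ_apply', ih, D_X]; congr 1; ring
  rw [this]

theorem br_X0 (G : AA K) : br (X 0) G = 0 := by
  unfold br
  rw [D_X, E_Xj, E_X]
  simp [D]
theorem br_X2 (G : AA K) : br (X 2) G = - K3 G := by
  unfold br K3
  rw [D_X, E_Xj, E_X, Dx_zero_fun]
  simp [Function.iterate_succ_apply]
theorem br_X4 (G : AA K) : br (X 4) G = - K5 G := by
  unfold br K5
  rw [D_X, E_Xj, E_X, Dx_zero_fun]
  simp [Function.iterate_succ_apply]

theorem D_P (κ : K) : D (P κ) = C 2 * (X 0 * X 1) + C (2 * κ) * X 3 := by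
  unfold P
  simp only [map_add, Derivation.leibniz, Derivation.leibniz_pow, der_C, D_X, smul_eq_mul, nsmul_eq_mul]
  simp only [C_mul, map_ofNat]
  push_cast; ring
theorem D_R (κ : K) : D (R κ) = C 15 * (X 0 ^ 2 * X 1) + C (30 * κ) * (X 0 * X 3) + C (60 * κ) * (X 1 * X 2) + C (18 * κ ^ 2) * X 5 := by
  unfold R
  simp only [map_add, Derivation.leibniz, Derivation.leibniz_pow, der_C, D_X, smul_eq_mul, nsmul_eq_mul]
  simp only [C_mul, C_pow, map_ofNat]
  push_cast; ring

set_option maxHeartbeats 4000000 in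
theorem br_P_R (κ : K) : br (P κ) (R κ) = 0 := by
  unfold br
  rw [D_P, D_R]
  unfold P R
  simp only [map_add, Derivation.leibniz, Derivation.leibniz_pow, der_C, E_X, smul_eq_mul, nsmul_eq_mul, Dx_zero_fun, Function.iterate_succ_apply, Function.iterate_zero, id, D_X, mul_zero, add_zero]
  simp only [Nat.cast_ofNat]
  simp only [← MvPolynomial.C_eq_coe_nat, C_mul, C_pow, map_ofNat]
  have e (n : ℕ) [n.AtLeastTwo] : (OfNat.ofNat n : AA K) = C (OfNat.ofNat n : K) := (map_ofNat C n).symm
  simp only [e]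
  simp only [map_add, Derivation.leibniz, Derivation.leibniz_pow, der_C, smul_eq_mul, nsmul_eq_mul, D_X, Nat.cast_ofNat, mul_zero, add_zero]
  simp only [map_ofNat, map_one]
  simp only [show (2 - 1 : ℕ) = 1 from rfl, show (3 - 1 : ℕ) = 2 from rfl, Nat.cast_one, map_one]
  push_cast
  ring

/-! symbols of P and R -/
theorem ell_P (κ x : K) : ell x (P κ) = C 2 * X 0 + C (2 * κ * x ^ 2) := by
  unfold P
  simp only [map_add, Derivation.leibniz, Derivation.leibniz_pow, der_C, ell_X, smul_eq_mul, nsmul_eq_mul]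
  simp only [C_mul, C_pow, pow_zero, map_ofNat, map_one]
  push_cast; ring
theorem ell_R (κ x : K) : ell x (R κ) = C 15 * X 0 ^ 2 + C (30 * κ) * X 2 + C (30 * κ * x ^ 2) * X 0 + C (30 * κ * x) * X 1 + C (18 * κ ^ 2 * x ^ 4) := by
  unfold R
  simp only [map_add, Derivation.leibniz, Derivation.leibniz_pow, der_C, ell_X, smul_eq_mul, nsmul_eq_mul]
  simp only [C_mul, C_pow, pow_zero, pow_one, map_ofNat, map_one]
  push_cast; ring
theorem ell2_R (κ x y : K) : ell y (ell x (R κ)) = C 30 * X 0 + C (30 * κ * (x ^ 2 + x * y + y ^ 2)) := by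
  rw [ell_R]
  simp only [map_add, Derivation.leibniz, Derivation.leibniz_pow, der_C, ell_X, smul_eq_mul, nsmul_eq_mul]
  simp only [C_mul, C_pow, C_add, pow_zero, pow_one, map_ofNat, map_one]
  push_cast; ring
theorem ell2_P (κ x y : K) : ell y (ell x (P κ)) = C 2 := by
  rw [ell_P]
  simp only [map_add, Derivation.leibniz, der_C, ell_X, smul_eq_mul, pow_zero, map_one, mul_zero, add_zero, mul_one]
theorem ell3_R (κ x y z : K) : ell z (ell y (ell x (R κ))) = C 30 := by
  rw [ell2_R]
  simp only [map_add, Derivation.leibniz, der_C, ell_X, smul_eq_mul, pow_zero, map_one, mul_zero, add_zero, mul_one]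

@[simp] theorem sy_P0 (κ : K) : sy [] (P κ) = 0 := by simp [P]
@[simp] theorem sy_P1 (κ x : K) : sy [x] (P κ) = 2 * κ * x ^ 2 := by
  rw [sy_cons, ell_P, sy_nil]
  simp only [map_add, map_mul, constantCoeff_C, constantCoeff_X, mul_zero, zero_add]
@[simp] theorem sy_P2 (κ x y : K) : sy [x, y] (P κ) = 2 := by
  rw [sy_cons, sy_cons, ell2_P, sy_nil, constantCoeff_C]
@[simp] theorem sy_P3 (κ x y z : K) (l : List K) : sy (x :: y :: z :: l) (P κ) = 0 := by
  rw [sy_cons, sy_cons, ell2_P, sy_cons, der_C, sy_zero]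

@[simp] theorem sy_R0 (κ : K) : sy [] (R κ) = 0 := by simp [R]
@[simp] theorem sy_R1 (κ x : K) : sy [x] (R κ) = 18 * κ ^ 2 * x ^ 4 := by
  rw [sy_cons, ell_R, sy_nil]
  simp only [map_add, map_mul, map_pow, constantCoeff_C, constantCoeff_X, mul_zero, zero_add, add_zero]
  norm_num
@[simp] theorem sy_R2 (κ x y : K) : sy [x, y] (R κ) = 30 * κ * (x ^ 2 + x * y + y ^ 2) := by
  rw [sy_cons, sy_cons, ell2_R, sy_nil]
  simp only [map_add, map_mul, map_pow, constantCoeff_C, constantCoeff_X, mul_zero, zero_add, add_zero]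
@[simp] theorem sy_R3 (κ x y z : K) : sy [x, y, z] (R κ) = 30 := by
  rw [sy_cons, sy_cons, sy_cons, ell3_R, sy_nil, constantCoeff_C]
@[simp] theorem sy_R4 (κ x y z t : K) (l : List K) : sy (x :: y :: z :: t :: l) (R κ) = 0 := by
  rw [sy_cons, sy_cons, sy_cons, ell3_R, sy_cons, der_C, sy_zero]

/-! levels -/

def Low (m : ℕ) (G : AA K) : Prop := ∀ l : List K, l.length < m → sy l G = 0

theorem low_br (m d : ℕ) (hd : 2 ≤ d) (F G : AA K) (hF : F.IsHomogeneous d) (hG : Low m G) (l : List K) (hl : l.length ≤ m) :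
    sy l (br F G) = 0 := by
  rw [sy_br]
  apply List.sum_eq_zero
  intro c hc
  rw [List.mem_map] at hc
  obtain ⟨ab, h1, rfl⟩ := hc
  have hlen := splits_length l 0 ab h1
  have e1 : sy ab.1 F * sy ab.2 G = 0 := by
    by_cases h : ab.1.length = d
    · rw [hG ab.2 (by omega), mul_zero]
    · rw [sy_hom_ne d F hF _ h, zero_mul]
  have e2 : sy ab.1 G * sy ab.2 F = 0 := by
    by_cases h : ab.2.length = d
    · rw [hG ab.1 (by omega), zero_mul]
    · rw [sy_hom_ne d F hF _ h, mul_zero]
  rw [e1, e2]; simp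

theorem sy_brP_low (κ : K) (m : ℕ) (G : AA K) (hG : Low m G) (l : List K) (hl : l.length ≤ m) :
    sy l (br (P κ) G) = - 2 * κ * k3 l * sy l G := by
  have h1 : P κ = X 0 ^ 2 + C (2 * κ) * X 2 := rfl
  rw [h1, br_add_left, br_smul_left, br_X2, sy_add, sy_C_mul, sy_neg, sy_K3]
  rw [low_br m 2 le_rfl _ G (by simpa using (isHomogeneous_X K 0).pow 2) hG l hl]
  ring

theorem sy_brR_low (κ : K) (m : ℕ) (G : AA K) (hG : Low m G) (l : List K) (hl : l.length ≤ m) :
    sy l (br (R κ) G) = - 18 * κ ^ 2 * k5 l * sy l G := by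
  have h1 : R κ = C 5 * X 0 ^ 3 + C (15 * κ) * (C 2 * (X 0 * X 2) + X 1 ^ 2) + C (18 * κ ^ 2) * X 4 := by
    unfold R; simp only [C_mul, C_pow, map_ofNat]
    ring
  have hh3 : (X 0 ^ 3 : AA K).IsHomogeneous 3 := by simpa using (isHomogeneous_X K 0).pow 3
  have hh2 : (C 2 * (X 0 * X 2) + X 1 ^ 2 : AA K).IsHomogeneous 2 := by
    apply IsHomogeneous.add
    · have := (isHomogeneous_C ℕ (2:K)).mul ((isHomogeneous_X K 0).mul (isHomogeneous_X K 2))
      simpa using this
    · simpa using (isHomogeneous_X K 1).pow 2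
  rw [h1, br_add_left, br_add_left, br_smul_left, br_smul_left, br_smul_left, br_X4, sy_add, sy_add, sy_C_mul, sy_C_mul, sy_C_mul, sy_neg, sy_K5]
  rw [low_br m 3 (by norm_num) _ G hh3 hG l hl, low_br m 2 le_rfl _ G hh2 hG l hl]
  ring

/-- general injectivity. -/
theorem sy_comp (m : ℕ) (G : AA K) (l : List K) (hl : l.length = m) : sy l (homogeneousComponent m G) = sy l G := by
  classical
  have h1 : G = ∑ i ∈ Finset.range (G.totalDegree + 1), homogeneousComponent i G := (sum_homogeneousComponent G).symm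
  conv_rhs => rw [h1]
  rw [sy_sum]
  by_cases hm : m ∈ Finset.range (G.totalDegree + 1)
  · rw [Finset.sum_eq_single m]
    · intro i _ hi
      exact sy_hom_ne i _ (homogeneousComponent_isHomogeneous i G) l (by omega)
    · intro h; exact absurd hm h
  · rw [Finset.sum_eq_zero, homogeneousComponent_eq_zero]
    · simp
    · simp at hm; omega
    · intro i hi
      have : i ≠ m := fun h => hm (h ▸ hi)
      exact sy_hom_ne i _ (homogeneousComponent_isHomogeneous i G) l (by omega)

theorem inj_gen [CharZero K] (T : Set K) (hT : T.Infinite) (G : AA K) (h : ∀ l : List K, (∀ x ∈ l, x ∈ T) → sy l G = 0) : G = 0 := by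
  rw [← sum_homogeneousComponent G]
  refine Finset.sum_eq_zero fun m _ => ?_
  apply inj_hom T hT m _ (homogeneousComponent_isHomogeneous m G)
  intro l hl hlen
  rw [sy_comp m G l hlen, h l hl]

theorem inj_hom' [CharZero K] (m : ℕ) (G : AA K) (hG : G.IsHomogeneous m)
    (h : ∀ l : List K, l.length = m → sy l G = 0) : G = 0 :=
  inj_hom Set.univ (Set.infinite_univ) m G hG (fun l _ hl => h l hl)

theorem inj_all [CharZero K] (G : AA K) (h : ∀ l : List K, sy l G = 0) : G = 0 :=
  inj_gen Set.univ (Set.infinite_univ) G (fun l _ => h l)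

/-! scaling -/
noncomputable def rho (t : K) : AA K →ₐ[K] AA K := aeval (fun k => C (t ^ (k + 2)) * X k)

@[simp] theorem rho_X (t : K) (k : ℕ) : rho t (X k : AA K) = C (t ^ (k + 2)) * X k := by simp [rho]
@[simp] theorem rho_C (t c : K) : rho t (C c : AA K) = C c := by simp [rho]

theorem rho_Sh (t : K) (j : ℕ) (G : AA K) : rho t (Sh j G) = C (t ^ j) * Sh j (rho t G) := by
  induction G using MvPolynomial.induction_on with
  | C a => simp
  | add p q hp hq => simp only [map_add, hp, hq]; ring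
  | mul_X p i hp =>
    simp only [Derivation.leibniz, smul_eq_mul, map_add, map_mul, hp, Sh_X, rho_X, der_C]
    simp only [pow_add, C_mul, C_pow]; ring

theorem rho_D (t : K) (G : AA K) : rho t (D G) = C t * D (rho t G) := by
  have := rho_Sh t 1 G
  simpa [D] using this

theorem rho_Diter (t : K) (k : ℕ) (G : AA K) : rho t ((⇑(D : Derivation K (AA K) (AA K)))^[k] G) = C (t ^ k) * (⇑(D : Derivation K (AA K) (AA K)))^[k] (rho t G) := by
  induction k generalizing G with
  | zero => simp
  | succ k ih =>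
    rw [Function.iterate_succ_apply, ih, Function.iterate_succ_apply, rho_D]
    have : ∀ (H : AA K), (⇑(D : Derivation K (AA K) (AA K)))^[k] (C t * H) = C t * (⇑(D : Derivation K (AA K) (AA K)))^[k] H := by
      intro H
      clear ih
      induction k generalizing H with
      | zero => rfl
      | succ k ih2 => rw [Function.iterate_succ_apply, Function.iterate_succ_apply, ← ih2, Derivation.leibniz, der_C]; simp
    rw [this]; simp only [pow_succ, C_mul, C_pow]; ring

theorem rho_E (t : K) (Q G : AA K) : E 0 (rho t Q) (rho t G) = C (t ^ 2) * rho t (E 0 Q G) := by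
  induction G using MvPolynomial.induction_on with
  | C a => simp
  | add p q hp hq => simp only [map_add, hp, hq]; ring
  | mul_X p i hp =>
    simp only [Derivation.leibniz, smul_eq_mul, map_add, map_mul, hp, E_X, rho_X, der_C, Dx_zero_fun, rho_Diter]
    simp only [pow_add, C_mul, C_pow]; ring

theorem rho_br (t : K) (ht : t ≠ 0) (F G : AA K) : br (rho t F) (rho t G) = C t * rho t (br F G) := by
  have hC : (C t : AA K) ≠ 0 := by rwa [Ne, C_eq_zero]
  apply mul_left_cancel₀ hC
  unfold br
  rw [mul_sub, ← E_smul_left, ← E_smul_left, ← rho_D, ← rho_D, rho_E, rho_E, map_sub]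
  simp only [C_pow]; ring

def Hm (q : ℤ) (G : AA K) : Prop := ∀ t : K, t ≠ 0 → rho t G = C (t ^ q) * G

theorem Hm.sub {q : ℤ} {F G : AA K} (h1 : Hm q F) (h2 : Hm q G) : Hm q (F - G) := by
  intro t ht; rw [map_sub, h1 t ht, h2 t ht]; ring
theorem Hm.add {q : ℤ} {F G : AA K} (h1 : Hm q F) (h2 : Hm q G) : Hm q (F + G) := by
  intro t ht; rw [map_add, h1 t ht, h2 t ht]; ring
theorem Hm.smul {q : ℤ} {G : AA K} (c : K) (h2 : Hm q G) : Hm q (C c * G) := by
  intro t ht; rw [map_mul, rho_C, h2 t ht]; ring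
theorem Hm.zero {q : ℤ} : Hm q (0 : AA K) := by intro t ht; simp
theorem Hm.br {a b : ℤ} {F G : AA K} (h1 : Hm a F) (h2 : Hm b G) : Hm (a + b - 1) (br F G) := by
  intro t ht
  have hC : (C t : AA K) ≠ 0 := by rwa [Ne, C_eq_zero]
  apply mul_left_cancel₀ hC
  rw [← rho_br t ht, h1 t ht, h2 t ht, br_smul_left, br_smul_right, ← mul_assoc, ← mul_assoc, ← C_mul, ← C_mul]
  congr 2
  rw [← zpow_add₀ ht, mul_comm, ← zpow_add_one₀ ht]; congr 1; ring

theorem Hm_P (κ : K) : Hm 4 (P κ) := by
  intro t ht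
  unfold P
  simp only [map_add, map_mul, map_pow, map_ofNat, rho_X, rho_C]
  have : (t ^ (4:ℤ)) = t ^ 4 := by norm_cast
  rw [this]; simp only [C_pow]; ring
theorem Hm_R (κ : K) : Hm 6 (R κ) := by
  intro t ht
  unfold R
  simp only [map_add, map_mul, map_pow, map_ofNat, rho_X, rho_C]
  have : (t ^ (6:ℤ)) = t ^ 6 := by norm_cast
  rw [this]; simp only [C_pow]; ring

theorem ell_rho (t x : K) (G : AA K) : ell x (rho t G) = C (t ^ 2) * rho t (ell (t * x) G) := by
  induction G using MvPolynomial.induction_on with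
  | C a => simp
  | add p q hp hq => simp only [map_add, hp, hq]; ring
  | mul_X p i hp =>
    simp only [Derivation.leibniz, smul_eq_mul, map_add, map_mul, hp, ell_X, rho_X, der_C, rho_C]
    simp only [pow_add, C_mul, mul_pow, C_pow]; ring

theorem sy_rho (t : K) (l : List K) (G : AA K) : sy l (rho t G) = t ^ (2 * l.length) * sy (l.map (t * ·)) G := by
  induction l generalizing G with
  | nil =>
    simp only [sy_nil, List.length_nil, mul_zero, pow_zero, one_mul, List.map_nil]
    induction G using MvPolynomial.induction_on with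
    | C a => simp
    | add p q hp hq => simp only [map_add, hp, hq]
    | mul_X p i hp => simp
  | cons x l ih =>
    rw [sy_cons, ell_rho, sy_C_mul, ih, List.map_cons, sy_cons, List.length_cons]
    ring

theorem Hm_neg {q : ℤ} (hq : Odd q) {G : AA K} (h : Hm q G) (l : List K) : sy (l.map (-1 * ·)) G = - sy l G := by
  have h1 := congrArg (sy l) (h (-1) (by norm_num))
  rw [sy_rho, sy_C_mul, hq.neg_one_zpow] at h1
  rw [pow_mul] at h1
  simpa using h1

theorem coeff_rho (t : K) (G : AA K) (s : ℕ →₀ ℕ) : coeff s (rho t G) = t ^ (s.sum fun k n => n * (k + 2)) * coeff s G := by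
  classical
  induction G using MvPolynomial.induction_on' with
  | monomial u a =>
    have h1 : rho t (monomial u a : AA K) = monomial u (t ^ (u.sum fun k n => n * (k + 2)) * a) := by
      rw [rho, aeval_monomial, monomial_eq]
      have : (u.prod fun i k => (C (t ^ (i + 2)) * X i : AA K) ^ k) = C (t ^ (u.sum fun k n => n * (k + 2))) * u.prod fun i k => (X i : AA K) ^ k := by
        simp only [Finsupp.prod, Finsupp.sum, mul_pow, Finset.prod_mul_distrib]
        congr 1
        rw [← Finset.prod_pow_eq_pow_sum, map_prod]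
        refine Finset.prod_congr rfl fun i _ => ?_
        rw [← C_pow, ← pow_mul]; congr 2; ring
      rw [this, C_mul]
      simp only [algebraMap_eq]; ring
    rw [h1, coeff_monomial, coeff_monomial]
    split_ifs with h
    · subst h; rfl
    · simp
  | add p q hp hq => rw [map_add, coeff_add, coeff_add, hp, hq]; ring

theorem low_big [CharZero K] (q : ℤ) (G : AA K) (hG : Hm q G) (m : ℕ) (hm : q < 2 * m) (hlow : Low m G) : G = 0 := by
  classical
  ext s
  rw [coeff_zero]
  by_contra hs
  set d := s.sum fun _ n => n with hd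
  have h1 : m ≤ d := by
    by_contra hlt
    have h0 : homogeneousComponent d G = 0 := by
      apply inj_hom' d _ (homogeneousComponent_isHomogeneous d G)
      intro l hl
      rw [sy_comp d G l hl]
      exact hlow l (by omega)
    have h2 : coeff s (homogeneousComponent d G) = coeff s G := by
      rw [coeff_homogeneousComponent]
      have : Finsupp.degree s = d := by rw [hd]; rfl
      rw [if_pos this]
    rw [h0, coeff_zero] at h2
    exact hs h2.symm
  have h2 := congrArg (coeff s) (hG 2 two_ne_zero)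
  rw [coeff_rho, coeff_C_mul] at h2
  have h3 := mul_right_cancel₀ hs h2
  have h5 : ((2 : ℚ)) ^ (((s.sum fun k n => n * (k + 2)) : ℕ) : ℤ) = (2 : ℚ) ^ q := by
    have e : (((2:ℚ) ^ (((s.sum fun k n => n * (k + 2)) : ℕ) : ℤ) : ℚ) : K) = (((2:ℚ) ^ q : ℚ) : K) := by
      rw [Rat.cast_zpow, Rat.cast_zpow, zpow_natCast]
      simpa using h3
    exact Rat.cast_injective e
  have h6 := zpow_right_injective₀ (by norm_num : (0:ℚ) < 2) (by norm_num : (2:ℚ) ≠ 1) h5
  have h7 : 2 * d ≤ s.sum fun k n => n * (k + 2) := by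
    rw [hd, Finsupp.sum, Finsupp.sum, Finset.mul_sum]
    refine Finset.sum_le_sum fun k _ => ?_
    nlinarith [Nat.zero_le (s k), Nat.zero_le k, Nat.zero_le (s k * k)]
  omega

end Pool.Agent.H93RH
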