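import Pool.Agent.H93RH.Core

open MvPolynomial

namespace Pool.Agent.H93RH

set_option linter.all false

variable {K : Type*} [Field K]

theorem var_exp (G : AA K) : ∃ t0 : Finset ℕ, ∀ t : Finset ℕ, t0 ⊆ t →
    ∀ d : Derivation K (AA K) (AA K), d G = ∑ k ∈ t, d (X k) * pderiv k G := by
  classical
  induction G using MvPolynomial.induction_on with
  | C a => exact ⟨∅, fun t _ d => by simp⟩
  | add p q hp hq =>
    obtain ⟨t1, h1⟩ := hp
    obtain ⟨t2, h2⟩ := hq
    refine ⟨t1 ∪ t2, fun t ht d => ?_⟩
    rw [map_add, h1 t (Finset.union_subset_left ht), h2 t (Finset.union_subset_right ht), ← Finset.sum_add_distrib]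
    refine Finset.sum_congr rfl fun k _ => ?_
    rw [map_add]; ring
  | mul_X p i hp =>
    obtain ⟨t1, h1⟩ := hp
    refine ⟨insert i t1, fun t ht d => ?_⟩
    have hi : i ∈ t := ht (Finset.mem_insert_self _ _)
    have ht1 : t1 ⊆ t := (Finset.subset_insert _ _).trans ht
    rw [Derivation.leibniz, h1 t ht1]
    have : ∀ k ∈ t, d (X k) * pderiv k (p * X i) = (if k = i then p * d (X i) else 0) + X i * (d (X k) * pderiv k p) := by
      intro k _
      rw [Derivation.leibniz, pderiv_X]
      by_cases hk : k = i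
      · subst hk; simp only [Pi.single_eq_same, smul_eq_mul, mul_one, if_true]; ring
      · rw [Pi.single_eq_of_ne (Ne.symm hk)]; simp only [smul_eq_mul, mul_zero, if_neg hk]; ring
    rw [Finset.sum_congr rfl this, Finset.sum_add_distrib, Finset.sum_ite_eq' t i, if_pos hi, ← Finset.mul_sum]
    simp only [smul_eq_mul]

theorem der_eq_of_pderiv (G : AA K) (d : Derivation K (AA K) (AA K)) (h : ∀ k, d (X k) * pderiv k G = 0) : d G = 0 := by
  obtain ⟨t, ht⟩ := var_exp G
  rw [ht t (le_refl _) d]
  exact Finset.sum_eq_zero fun k _ => h k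

/-- diagonal derivations on monomials. -/
theorem diag_monomial (d : Derivation K (AA K) (AA K)) (c : ℕ → K) (hd : ∀ k, d (X k) = C (c k) * X k)
    (s : ℕ →₀ ℕ) (a : K) : d (monomial s a) = C (s.sum fun k n => (n : K) * c k) * monomial s a := by
  classical
  have key : d (monomial s (1:K)) = C (s.sum fun k n => (n : K) * c k) * monomial s (1:K) := by
    induction s using Finsupp.induction with
    | zero => simp
    | single_add i n s his hn ih =>
      have e : (monomial (Finsupp.single i n + s) (1:K)) = X i ^ n * monomial s (1:K) := by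
        rw [X_pow_eq_monomial, monomial_mul, one_mul]
      rw [e, Derivation.leibniz, ih, Derivation.leibniz_pow, hd]
      have hsum : ((Finsupp.single i n + s).sum fun k n => (n : K) * c k) = (n : K) * c i + s.sum fun k n => (n : K) * c k := by
        rw [Finsupp.sum_add_index']
        · rw [Finsupp.sum_single_index]; simp
        · intro; simp
        · intro k a b; push_cast; ring
      rw [hsum]
      obtain ⟨n', rfl⟩ : ∃ n', n = n' + 1 := ⟨n - 1, by omega⟩
      simp only [smul_eq_mul, nsmul_eq_mul, C_add, C_mul, Nat.add_sub_cancel, map_natCast]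
      ring
  have : (monomial s a : AA K) = C a * monomial s 1 := by rw [C_mul_monomial, mul_one]
  rw [this, Derivation.leibniz, der_C, key]
  simp only [smul_eq_mul, mul_zero, add_zero]; ring

theorem diag_apply (d : Derivation K (AA K) (AA K)) (c : ℕ → K) (hd : ∀ k, d (X k) = C (c k) * X k)
    (G : AA K) (e : K) (h : ∀ s ∈ G.support, (s.sum fun k n => (n : K) * c k) = e) : d G = C e * G := by
  conv_lhs => rw [← support_sum_monomial_coeff G]
  conv_rhs => rw [← support_sum_monomial_coeff G]
  rw [map_sum, Finset.mul_sum]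
  refine Finset.sum_congr rfl fun s hs => ?_
  rw [diag_monomial d c hd, h s hs]

noncomputable def eul : Derivation K (AA K) (AA K) := mkDerivation K (fun k => X k)

theorem hom_sum {G : AA K} {m : ℕ} (hG : G.IsHomogeneous m) (s : ℕ →₀ ℕ) (hs : s ∈ G.support) :
    (s.sum fun _ n => n) = m := by
  have h := hG (mem_support_iff.1 hs)
  rw [Finsupp.weight_apply] at h
  simpa using h

theorem eul_apply {G : AA K} {m : ℕ} (hG : G.IsHomogeneous m) : eul G = C (m : K) * G := by
  apply diag_apply eul (fun _ => 1) (fun k => by simp [eul, mkDerivation_X])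
  intro s hs
  rw [← hom_sum hG s hs]
  simp [Finsupp.sum]

theorem hom_pderiv {G : AA K} {m : ℕ} (hG : G.IsHomogeneous (m + 1)) (k : ℕ) : (pderiv k G).IsHomogeneous m := by
  have := hG.pderiv (i := k)
  simpa using this

theorem sy_ell_exp (G : AA K) (t : Finset ℕ) (ht : ∀ d : Derivation K (AA K) (AA K), d G = ∑ k ∈ t, d (X k) * pderiv k G)
    (l : List K) (x : K) : sy (x :: l) G = ∑ k ∈ t, x ^ k * sy l (pderiv k G) := by
  rw [sy_cons, ht (ell x), sy_sum]
  refine Finset.sum_congr rfl fun k _ => ?_
  rw [ell_X, sy_C_mul]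

theorem inj_hom [CharZero K] (T : Set K) (hT : T.Infinite) (m : ℕ) (G : AA K) (hG : G.IsHomogeneous m)
    (h : ∀ l : List K, (∀ x ∈ l, x ∈ T) → l.length = m → sy l G = 0) : G = 0 := by
  classical
  induction m generalizing G with
  | zero =>
    have h0 : G.totalDegree = 0 := by
      have := hG.totalDegree_le
      omega
    rw [totalDegree_eq_zero_iff_eq_C] at h0
    have := h [] (by simp) rfl
    rw [sy_nil, constantCoeff_eq] at this
    rw [h0, this, C_0]
  | succ m ih =>
    obtain ⟨t0, ht0⟩ := var_exp G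
    have hz : ∀ k, pderiv k G = 0 := by
      intro k
      apply ih _ (hom_pderiv hG k)
      intro l hl hlen
      set t := insert k t0 with ht
      have ht1 := ht0 t (Finset.subset_insert _ _)
      let p : Polynomial K := ∑ k ∈ t, Polynomial.C (sy l (pderiv k G)) * Polynomial.X ^ k
      have hp : p = 0 := by
        apply Polynomial.eq_zero_of_infinite_isRoot
        refine hT.mono ?_
        intro x hx
        have h1 := h (x :: l) (by
          intro y hy
          rcases List.mem_cons.1 hy with rfl | hy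
          · exact hx
          · exact hl y hy) (by simp [hlen])
        rw [sy_ell_exp G t ht1] at h1
        change Polynomial.eval x p = 0
        simp only [p, Polynomial.eval_finsetSum, Polynomial.eval_mul, Polynomial.eval_C, Polynomial.eval_pow, Polynomial.eval_X]
        rw [← h1]
        exact Finset.sum_congr rfl fun k _ => mul_comm _ _
      have hc : p.coeff k = sy l (pderiv k G) := by
        simp only [p, Polynomial.finsetSum_coeff, Polynomial.coeff_C_mul, Polynomial.coeff_X_pow, mul_ite, mul_one, mul_zero]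
        rw [Finset.sum_ite_eq, if_pos (Finset.mem_insert_self _ _)]
      rw [← hc, hp, Polynomial.coeff_zero]
    have h1 := eul_apply hG
    rw [der_eq_of_pderiv G eul (fun k => by rw [hz k, mul_zero])] at h1
    have h2 : (C ((m + 1 : ℕ) : K) : AA K) ≠ 0 := by
      rw [Ne, C_eq_zero]; exact_mod_cast Nat.succ_ne_zero m
    exact (mul_eq_zero.1 h1.symm).resolve_left h2

theorem sy_hom_ne (m : ℕ) (G : AA K) (hG : G.IsHomogeneous m) (l : List K) (hl : l.length ≠ m) : sy l G = 0 := by
  classical
  induction l generalizing m G with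
  | nil =>
    rw [sy_nil]
    by_contra h
    rw [constantCoeff_eq] at h
    have := hG h
    simp at this
    exact hl (by simpa using this)
  | cons x l ih =>
    obtain ⟨t0, ht0⟩ := var_exp G
    rw [sy_ell_exp G t0 (ht0 t0 (le_refl _))]
    refine Finset.sum_eq_zero fun k _ => ?_
    cases m with
    | zero =>
      have h0 : G.totalDegree = 0 := by
        have := hG.totalDegree_le
        omega
      rw [totalDegree_eq_zero_iff_eq_C] at h0
      rw [h0]; simp
    | succ m =>
      rw [ih m _ (hom_pderiv hG k) (by simpa using hl), mul_zero]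

noncomputable def tau (m : ℕ) : MvPolynomial (Fin m) K →ₗ[K] AA K :=
  (basisMonomials (Fin m) K).constr K (fun α => ∏ i, X (α i))

theorem tau_monomial (m : ℕ) (α : Fin m →₀ ℕ) (c : K) : tau m (monomial α c) = C c * ∏ i, (X (α i) : AA K) := by
  have h1 : (monomial α c : MvPolynomial (Fin m) K) = c • basisMonomials (Fin m) K α := by
    rw [coe_basisMonomials, smul_monomial, smul_eq_mul, mul_one]
  rw [h1, map_smul, tau, Module.Basis.constr_basis, MvPolynomial.smul_eq_C_mul]

theorem tau_succ (m k : ℕ) (p : MvPolynomial (Fin m) K) :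
    tau (m + 1) (X 0 ^ k * rename Fin.succ p) = X k * tau m p := by
  induction p using MvPolynomial.induction_on' with
  | monomial u a =>
    rw [rename_monomial, X_pow_eq_monomial, monomial_mul, one_mul, tau_monomial, tau_monomial, Fin.prod_univ_succ]
    have h0 : (Finsupp.single 0 k + Finsupp.mapDomain Fin.succ u : Fin (m+1) →₀ ℕ) 0 = k := by
      rw [Finsupp.add_apply, Finsupp.single_eq_same, Finsupp.mapDomain_notin_range, add_zero]
      rintro ⟨i, hi⟩
      exact Fin.succ_ne_zero i hi
    have h1 : ∀ i : Fin m, (Finsupp.single 0 k + Finsupp.mapDomain Fin.succ u : Fin (m+1) →₀ ℕ) (Fin.succ i) = u i := by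
      intro i
      rw [Finsupp.add_apply, Finsupp.mapDomain_apply (Fin.succ_injective m), Finsupp.single_eq_of_ne (Fin.succ_ne_zero i), zero_add]
    rw [h0]
    simp only [h1]
    ring
  | add p q hp hq => rw [map_add, mul_add, map_add, hp, hq, map_add, mul_add]

theorem der_prod {ι : Type*} [DecidableEq ι] (d : Derivation K (AA K) (AA K)) (s : Finset ι) (f : ι → AA K) :
    d (∏ i ∈ s, f i) = ∑ i ∈ s, (∏ k ∈ s.erase i, f k) * d (f i) := by
  induction s using Finset.induction_on with
  | empty => simp
  | insert a s ha ih =>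
    rw [Finset.prod_insert ha, Derivation.leibniz, ih, Finset.sum_insert ha, Finset.erase_insert ha]
    simp only [smul_eq_mul]
    rw [Finset.mul_sum, add_comm]
    congr 1
    refine Finset.sum_congr rfl fun i hi => ?_
    have hne : i ≠ a := fun h => ha (h ▸ hi)
    rw [Finset.erase_insert_of_ne (Ne.symm hne), Finset.prod_insert (fun h => ha (Finset.mem_of_mem_erase h))]
    ring

theorem tau_pow (m j : ℕ) (p : MvPolynomial (Fin m) K) :
    tau m ((∑ i, X i ^ j) * p) = Sh j (tau m p) := by
  classical
  induction p using MvPolynomial.induction_on' with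
  | monomial u a =>
    rw [tau_monomial, Derivation.leibniz, der_C, der_prod, Finset.sum_mul, map_sum]
    simp only [smul_eq_mul, mul_zero, add_zero, Finset.mul_sum]
    refine Finset.sum_congr rfl fun i _ => ?_
    rw [X_pow_eq_monomial, monomial_mul, one_mul, tau_monomial, Sh_X]
    rw [← Finset.mul_prod_erase Finset.univ _ (Finset.mem_univ i)]
    rw [Finsupp.add_apply, Finsupp.single_eq_same]
    have : ∏ x ∈ Finset.univ.erase i, (X ((Finsupp.single i j + u : Fin m →₀ ℕ) x) : AA K) = ∏ x ∈ Finset.univ.erase i, X (u x) := by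
      refine Finset.prod_congr rfl fun x hx => ?_
      rw [Finsupp.add_apply, Finsupp.single_eq_of_ne (Finset.ne_of_mem_erase hx), zero_add]
    rw [this, add_comm j]
    ring
  | add p q hp hq => rw [mul_add, map_add, hp, hq, map_add, map_add]

theorem tau_hom (m : ℕ) (p : MvPolynomial (Fin m) K) : (tau m p).IsHomogeneous m := by
  induction p using MvPolynomial.induction_on' with
  | monomial u a =>
    rw [tau_monomial]
    have h1 : (∏ i : Fin m, (X (u i) : AA K)).IsHomogeneous (∑ i : Fin m, 1) :=
      IsHomogeneous.prod _ _ _ fun i _ => isHomogeneous_X K (u i)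
    have h2 := (isHomogeneous_C ℕ a).mul h1
    simpa using h2
  | add p q hp hq => rw [map_add]; exact hp.add hq

noncomputable def K3 (G : AA K) : AA K := D (D (D G)) - Sh 3 G
noncomputable def K5 (G : AA K) : AA K := D (D (D (D (D G)))) - Sh 5 G

noncomputable def K3p (m : ℕ) : MvPolynomial (Fin m) K := (∑ i, X i) ^ 3 - ∑ i, X i ^ 3
noncomputable def K5p (m : ℕ) : MvPolynomial (Fin m) K := (∑ i, X i) ^ 5 - ∑ i, X i ^ 5

theorem tau_D (m : ℕ) (p : MvPolynomial (Fin m) K) : tau m ((∑ i, X i) * p) = D (tau m p) := by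
  have := tau_pow m 1 p
  simpa [D] using this

theorem tau_K3 (m : ℕ) (p : MvPolynomial (Fin m) K) : tau m (K3p m * p) = K3 (tau m p) := by
  unfold K3 K3p
  rw [sub_mul, map_sub, tau_pow, ← tau_D, ← tau_D, ← tau_D]
  congr 2
  ring

def k3 (l : List K) : K := l.sum ^ 3 - (l.map (· ^ 3)).sum
def k5 (l : List K) : K := l.sum ^ 5 - (l.map (· ^ 5)).sum

theorem sy_K3 (l : List K) (G : AA K) : sy l (K3 G) = k3 l * sy l G := by
  unfold K3 k3
  rw [sy_sub, sy_D, sy_D, sy_D, sy_Sh]; ring
theorem sy_K5 (l : List K) (G : AA K) : sy l (K5 G) = k5 l * sy l G := by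
  unfold K5 k5
  rw [sy_sub, sy_D, sy_D, sy_D, sy_D, sy_D, sy_Sh]; ring

/-- polarisation. -/
theorem pol [CharZero K] (m : ℕ) (G : AA K) (hG : G.IsHomogeneous m) :
    ∃ p : MvPolynomial (Fin m) K, (∀ ξ : Fin m → K, eval ξ p = sy (List.ofFn ξ) G) ∧
      tau m p = C ((m.factorial : ℕ) : K) * G := by
  classical
  induction m generalizing G with
  | zero =>
    have h0 : G.totalDegree = 0 := by
      have := hG.totalDegree_le
      omega
    rw [totalDegree_eq_zero_iff_eq_C] at h0
    refine ⟨C (coeff 0 G), fun ξ => ?_, ?_⟩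
    · simp [constantCoeff_eq]
    · conv_rhs => rw [h0]
      rw [← monomial_zero', tau_monomial]; simp
  | succ m ih =>
    obtain ⟨t, ht0⟩ := var_exp G
    have ht := ht0 t (le_refl _)
    choose p hp1 hp2 using fun k => ih _ (hom_pderiv hG k)
    refine ⟨∑ k ∈ t, X 0 ^ k * rename Fin.succ (p k), fun ξ => ?_, ?_⟩
    · rw [map_sum, List.ofFn_succ, sy_ell_exp G t ht]
      refine Finset.sum_congr rfl fun k _ => ?_
      rw [map_mul, map_pow, eval_X, eval_rename, hp1]
      rfl
    · rw [map_sum]
      have h1 : ∀ k ∈ t, tau (m + 1) (X 0 ^ k * rename Fin.succ (p k)) = C ((m.factorial : ℕ) : K) * (eul (X k) * pderiv k G) := by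
        intro k _
        rw [tau_succ, hp2]
        simp only [eul, mkDerivation_X]; ring
      rw [Finset.sum_congr rfl h1, ← Finset.mul_sum, ← ht eul, eul_apply hG, Nat.factorial_succ]
      push_cast
      rw [C_mul]; ring

theorem k3_ofFn (m : ℕ) (ξ : Fin m → K) : eval ξ (K3p m) = k3 (List.ofFn ξ) := by
  unfold K3p k3
  simp [List.sum_ofFn, List.map_ofFn, Function.comp_def]
theorem k5_ofFn (m : ℕ) (ξ : Fin m → K) : eval ξ (K5p m) = k5 (List.ofFn ξ) := by
  unfold K5p k5
  simp [List.sum_ofFn, List.map_ofFn, Function.comp_def]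

theorem K3p_ne [CharZero K] (m : ℕ) (hm : 2 ≤ m) : (K3p m : MvPolynomial (Fin m) K) ≠ 0 := by
  intro h
  have h1 := congrArg (eval (fun _ => (1 : K))) h
  unfold K3p at h1
  simp only [map_sub, map_pow, map_sum, eval_X, one_pow, Finset.sum_const, Finset.card_univ, Fintype.card_fin, nsmul_eq_mul, mul_one, map_zero] at h1
  have h2 : (m : K) * (m - 1) * (m + 1) = 0 := by linear_combination h1
  have h3 : (m : K) ≠ 0 := by exact_mod_cast (by omega : m ≠ 0)
  have h4 : (m : K) + 1 ≠ 0 := by exact_mod_cast (by omega : m + 1 ≠ 0)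
  have h5 : (m : K) - 1 ≠ 0 := by
    intro h
    have : (m : K) = ((1 : ℕ) : K) := by push_cast; linear_combination h
    have := Nat.cast_injective this
    omega
  exact (mul_ne_zero (mul_ne_zero h3 h5) h4) h2

theorem K3_sub (F G : AA K) : K3 (F - G) = K3 F - K3 G := by
  unfold K3; simp only [map_sub]; ring
theorem K3_C_mul (c : K) (G : AA K) : K3 (C c * G) = C c * K3 G := by
  unfold K3; simp only [Derivation.leibniz, der_C, smul_eq_mul, mul_zero, add_zero]; ring
theorem K5_C_mul (c : K) (G : AA K) : K5 (C c * G) = C c * K5 G := by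
  unfold K5; simp only [Derivation.leibniz, der_C, smul_eq_mul, mul_zero, add_zero]; ring

theorem K3_inj [CharZero K] (m : ℕ) (hm : 2 ≤ m) (G : AA K) (hG : G.IsHomogeneous m) (h : K3 G = 0) : G = 0 := by
  obtain ⟨p, h1, h2⟩ := pol m G hG
  have h3 : K3p m * p = 0 := by
    apply MvPolynomial.funext
    intro ξ
    rw [map_mul, h1, k3_ofFn, ← sy_K3, h]; simp
  have h4 := (mul_eq_zero.1 h3).resolve_left (K3p_ne m hm)
  rw [h4, map_zero] at h2
  have h5 : (C ((m.factorial : ℕ) : K) : AA K) ≠ 0 := by
    rw [Ne, C_eq_zero]; exact_mod_cast Nat.factorial_ne_zero m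
  exact (mul_eq_zero.1 h2.symm).resolve_left h5

/-- division by `K3`. -/
theorem K3_div [CharZero K] (m : ℕ) (G : AA K) (hG : G.IsHomogeneous m) (p : MvPolynomial (Fin m) K)
    (h1 : ∀ ξ : Fin m → K, eval ξ p = sy (List.ofFn ξ) G) (h2 : tau m p = C ((m.factorial : ℕ) : K) * G)
    (hdvd : K3p m ∣ p) : ∃ F : AA K, F.IsHomogeneous m ∧ K3 F = G := by
  obtain ⟨f, rfl⟩ := hdvd
  have h5 : ((m.factorial : ℕ) : K) ≠ 0 := by exact_mod_cast Nat.factorial_ne_zero m
  refine ⟨C ((m.factorial : ℕ) : K)⁻¹ * tau m f, ?_, ?_⟩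
  · have := (isHomogeneous_C ℕ ((m.factorial : ℕ) : K)⁻¹).mul (tau_hom m f)
    simpa using this
  · rw [K3_C_mul, ← tau_K3, h2, ← mul_assoc, ← C_mul, inv_mul_cancel₀ h5, C_1, one_mul]

end Pool.Agent.H93RH
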