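import Mathlib

namespace Pool.Agent.H93RH

set_option linter.all false
set_option maxRecDepth 4000

theorem c3 {K : Type*} (w : K → K → K → K) {x y z x' y' z' : K} (h1 : x = x') (h2 : y = y') (h3 : z = z') : w x y z = w x' y' z' := by
  rw [h1, h2, h3]
theorem c4 {K : Type*} (w : K → K → K → K → K) {x y z t x' y' z' t' : K} (h1 : x = x') (h2 : y = y') (h3 : z = z') (h4 : t = t') : w x y z t = w x' y' z' t' := by
  rw [h1, h2, h3, h4]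


def E4 {K : Type*} [Field K] (k : K) (w : K → K → K → K) (V W : K → K → K → K → K) : Prop := ∀ x y z t : K, -(2 * k * ((x + y + z + t) ^ 3 - (x ^ 3 + y ^ 3 + z ^ 3 + t ^ 3))) * V x y z t + 18 * k ^ 2 * ((x + y + z + t) ^ 5 - (x ^ 5 + y ^ 5 + z ^ 5 + t ^ 5)) * W x y z t + (15 * k * (x + y) * ((z + t + (x + y)) ^ 2 + (z ^ 2 + t ^ 2 + (x + y) ^ 2)) - 30 * k * (x + y) * (x ^ 2 + x * y + y ^ 2)) * w z t (x + y) + (15 * k * (x + z) * ((y + t + (x + z)) ^ 2 + (y ^ 2 + t ^ 2 + (x + z) ^ 2)) - 30 * k * (x + z) * (x ^ 2 + x * z + z ^ 2)) * w y t (x + z) + (15 * k * (x + t) * ((y + z + (x + t)) ^ 2 + (y ^ 2 + z ^ 2 + (x + t) ^ 2)) - 30 * k * (x + t) * (x ^ 2 + x * t + t ^ 2)) * w y z (x + t) + (15 * k * (y + z) * ((x + t + (y + z)) ^ 2 + (x ^ 2 + t ^ 2 + (y + z) ^ 2)) - 30 * k * (y + z) * (y ^ 2 + y * z + z ^ 2)) * w x t (y + z) + (15 * k * (y +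 t) * ((x + z + (y + t)) ^ 2 + (x ^ 2 + z ^ 2 + (y + t) ^ 2)) - 30 * k * (y + t) * (y ^ 2 + y * t + t ^ 2)) * w x z (y + t) + (15 * k * (z + t) * ((x + y + (z + t)) ^ 2 + (x ^ 2 + y ^ 2 + (z + t) ^ 2)) - 30 * k * (z + t) * (z ^ 2 + z * t + t ^ 2)) * w x y (z + t) + (-(15 * k * (x + y + z) * ((x + y + z) ^ 2 + (x ^ 2 + y ^ 2 + z ^ 2))) + 30 * k * (x + y + z) * (t ^ 2 + t * (x + y + z) + (x + y + z) ^ 2)) * w x y z + (-(15 * k * (x + y + t) * ((x + y + t) ^ 2 + (x ^ 2 + y ^ 2 + t ^ 2))) + 30 * k * (x + y + t) * (z ^ 2 + z * (x + y + t) + (x + y + t) ^ 2)) * w x y t + (-(15 * k * (x + z + t) * ((x + z + t) ^ 2 + (x ^ 2 + z ^ 2 + t ^ 2))) + 30 * k * (x + z + t) * (y ^ 2 + y * (x + z + t) + (x + z + t) ^ 2)) * w x z t + (-(15 * k * (y + z + t) * ((y + z + t) ^ 2 + (y ^ 2 + z ^ 2 + t ^ 2))) + 30 * k * (y + z + t) * (x ^ 2 + x * (y + z + t) + (y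 + z + t) ^ 2)) * w y z t = 0

def E5 {K : Type*} [Field K] (k : K) (w : K → K → K → K) (V W : K → K → K → K → K) (V5 W5 : K → K → K → K → K → K) : Prop := ∀ x y z t s : K, -(2 * k * ((x + y + z + t + s) ^ 3 - (x ^ 3 + y ^ 3 + z ^ 3 + t ^ 3 + s ^ 3))) * V5 x y z t s + 18 * k ^ 2 * ((x + y + z + t + s) ^ 5 - (x ^ 5 + y ^ 5 + z ^ 5 + t ^ 5 + s ^ 5)) * W5 x y z t s + 2 * (x + y) * V z t s (x + y) + -(30 * k * (x + y) * (x ^ 2 + x * y + y ^ 2)) * W z t s (x + y) + 2 * (x + z) * V y t s (x + z) + -(30 * k * (x + z) * (x ^ 2 + x * z + z ^ 2)) * W y t s (x + z) + 2 * (x + t) * V y z s (x + t) + -(30 * k * (x + t) * (x ^ 2 + x * t + t ^ 2)) * W y z s (x + t) + 2 * (x + s) * V y z t (x + s) + -(30 * k * (x + s) * (x ^ 2 + x * s + s ^ 2)) * W y z t (x + s) + 2 * (y + z) * V x t s (y + z) + -(30 * k * (y + z) * (y ^ 2 + y * z + z ^ 2)) * W x t s (y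 + z) + 2 * (y + t) * V x z s (y + t) + -(30 * k * (y + t) * (y ^ 2 + y * t + t ^ 2)) * W x z s (y + t) + 2 * (y + s) * V x z t (y + s) + -(30 * k * (y + s) * (y ^ 2 + y * s + s ^ 2)) * W x z t (y + s) + 2 * (z + t) * V x y s (z + t) + -(30 * k * (z + t) * (z ^ 2 + z * t + t ^ 2)) * W x y s (z + t) + 2 * (z + s) * V x y t (z + s) + -(30 * k * (z + s) * (z ^ 2 + z * s + s ^ 2)) * W x y t (z + s) + 2 * (t + s) * V x y z (t + s) + -(30 * k * (t + s) * (t ^ 2 + t * s + s ^ 2)) * W x y z (t + s) + -(2 * (x + y + z + t)) * V x y z t + 30 * k * (x + y + z + t) * (s ^ 2 + s * (x + y + z + t) + (x + y + z + t) ^ 2) * W x y z t + -(2 * (x + y + z + s)) * V x y z s + 30 * k * (x + y + z + s) * (t ^ 2 + t * (x + y + z + s) + (x + y + z + s) ^ 2) * W x y z s + -(2 * (x + y + t + s)) * V x y t s + 30 * k * (x + y + t + s) * (z ^ 2 + z * (x + y + t + s)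 + (x + y + t + s) ^ 2) * W x y t s + -(2 * (x + z + t + s)) * V x z t s + 30 * k * (x + z + t + s) * (y ^ 2 + y * (x + z + t + s) + (x + z + t + s) ^ 2) * W x z t s + -(2 * (y + z + t + s)) * V y z t s + 30 * k * (y + z + t + s) * (x ^ 2 + x * (y + z + t + s) + (y + z + t + s) ^ 2) * W y z t s + -(30 * (x + y + z)) * w t s (x + y + z) + 30 * (x + y + z) * w x y z + -(30 * (x + y + t)) * w z s (x + y + t) + 30 * (x + y + t) * w x y t + -(30 * (x + y + s)) * w z t (x + y + s) + 30 * (x + y + s) * w x y s + -(30 * (x + z + t)) * w y s (x + z + t) + 30 * (x + z + t) * w x z t + -(30 * (x + z + s)) * w y t (x + z + s) + 30 * (x + z + s) * w x z s + -(30 * (x + t + s)) * w y z (x + t + s) + 30 * (x + t + s) * w x t s + -(30 * (y + z + t)) * w x s (y + z + t) + 30 * (y + z + t) * w y z t + -(30 * (y + z + s)) * w x t (y + z + s) + 30 * (y + z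 + s) * w y z s + -(30 * (y + t + s)) * w x z (y + t + s) + 30 * (y + t + s) * w y t s + -(30 * (z + t + s)) * w x y (z + t + s) + 30 * (z + t + s) * w z t s = 0


theorem T1 {K : Type*} [Field K] (k : K) (w : K → K → K → K) (V W : K → K → K → K → K)
    (ws0 : ∀ x y z, w x y z = w y x z) (ws1 : ∀ x y z, w x y z = w x z y)
    (wz : ∀ y z, w 0 y z = 0) (wo : ∀ {x y z x' y' z'}, x = -x' → y = -y' → z = -z' → w x y z = -(w x' y' z'))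
    (Vs0 : ∀ x y z t, V x y z t = V y x z t) (Vs1 : ∀ x y z t, V x y z t = V x z y t) (Vs2 : ∀ x y z t, V x y z t = V x y t z)
    (Vo : ∀ {x y z t x' y' z' t'}, x = -x' → y = -y' → z = -z' → t = -t' → V x y z t = -(V x' y' z' t'))
    (Ws0 : ∀ x y z t, W x y z t = W y x z t) (Ws1 : ∀ x y z t, W x y z t = W x z y t) (Ws2 : ∀ x y z t, W x y z t = W x y t z)
    (Wz : ∀ y z t, W 0 y z t = 0)
    (Wo : ∀ {x y z t x' y' z' t'}, x = -x' → y = -y' → z = -z' → t = -t' → W x y z t = -(W x' y' z' t'))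
    (h4 : E4 k w V W) (a b : K) : 60 * k * (a * b) * (a * w (a) (b) (-a) + b * w (a) (b) (-b)) = 0 := by
  have h := h4 a (-a) b (-b)
  have n_0 : w b (-b) (a + (-a)) = 0 := ((((c3 w (by ring : b = (b)) (by ring : (-b) = (-b)) (by ring : (a + (-a)) = (0)))).trans (ws1 (b) (-b) (0))).trans (ws0 (b) (0) (-b))).trans (wz (b) (-b))
  have n_1 : w (-a) (-b) (a + b) = w (a + b) (-b) (-a) := ((((c3 w (by ring : (-a) = (-a)) (by ring : (-b) = (-b)) (by ring : (a + b) = (a + b)))).trans (ws1 (-a) (-b) (a + b))).trans (ws0 (-a) (a + b) (-b))).trans (ws1 (a + b) (-a) (-b))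
  have n_2 : w (-a) b (a + (-b)) = -(w (a) (-b) (-a + b)) := ((c3 w (by ring : (-a) = (-a)) (by ring : b = (b)) (by ring : (a + (-b)) = (a - b)))).trans (wo (by ring : (-a) = -(a)) (by ring : (b) = -(-b)) (by ring : (a - b) = -(-a + b)))
  have n_3 : w a (-b) ((-a) + b) = w (a) (-b) (-a + b) := (c3 w (by ring : a = (a)) (by ring : (-b) = (-b)) (by ring : ((-a) + b) = (-a + b)))
  have n_4 : w a b ((-a) + (-b)) = -(w (a + b) (-b) (-a)) := (((((c3 w (by ring : a = (a)) (by ring : b = (b)) (by ring : ((-a) + (-b)) = (-a - b)))).trans (wo (by ring : (a) = -(-a)) (by ring : (b) = -(-b)) (by ring : (-a - b) = -(a + b)))).trans (congrArg Neg.neg (ws1 (-a) (-b) (a + b)))).trans (congrArg Neg.neg (ws0 (-a) (a + b) (-b)))).trans (congrArg Neg.neg (ws1 (a + b) (-a) (-b)))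
  have n_5 : w a (-a) (b + (-b)) = 0 := ((((c3 w (by ring : a = (a)) (by ring : (-a) = (-a)) (by ring : (b + (-b)) = (0)))).trans (ws1 (a) (-a) (0))).trans (ws0 (a) (0) (-a))).trans (wz (a) (-a))
  have n_6 : w a (-a) b = w (a) (b) (-a) := ((c3 w (by ring : a = (a)) (by ring : (-a) = (-a)) (by ring : b = (b)))).trans (ws1 (a) (-a) (b))
  have n_7 : w a (-a) (-b) = -(w (a) (b) (-a)) := ((((c3 w (by ring : a = (a)) (by ring : (-a) = (-a)) (by ring : (-b) = (-b)))).trans (wo (by ring : (a) = -(-a)) (by ring : (-a) = -(a)) (by ring : (-b) = -(b)))).trans (congrArg Neg.neg (ws0 (-a) (a) (b)))).trans (congrArg Neg.neg (ws1 (a) (-a) (b)))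
  have n_8 : w a b (-b) = w (a) (b) (-b) := (c3 w (by ring : a = (a)) (by ring : b = (b)) (by ring : (-b) = (-b)))
  have n_9 : w (-a) b (-b) = -(w (a) (b) (-b)) := (((c3 w (by ring : (-a) = (-a)) (by ring : b = (b)) (by ring : (-b) = (-b)))).trans (wo (by ring : (-a) = -(a)) (by ring : (b) = -(-b)) (by ring : (-b) = -(b)))).trans (congrArg Neg.neg (ws1 (a) (-b) (b)))
  simp only [n_0, n_1, n_2, n_3, n_4, n_5, n_6, n_7, n_8, n_9] at h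
  linear_combination (-1) * h

theorem L4_0 {K : Type*} [Field K] (k : K) (w : K → K → K → K) (V W : K → K → K → K → K)
    (ws0 : ∀ x y z, w x y z = w y x z) (ws1 : ∀ x y z, w x y z = w x z y)
    (wz : ∀ y z, w 0 y z = 0) (wo : ∀ {x y z x' y' z'}, x = -x' → y = -y' → z = -z' → w x y z = -(w x' y' z'))
    (Vs0 : ∀ x y z t, V x y z t = V y x z t) (Vs1 : ∀ x y z t, V x y z t = V x z y t) (Vs2 : ∀ x y z t, V x y z t = V x y t z)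
    (Vo : ∀ {x y z t x' y' z' t'}, x = -x' → y = -y' → z = -z' → t = -t' → V x y z t = -(V x' y' z' t'))
    (Ws0 : ∀ x y z t, W x y z t = W y x z t) (Ws1 : ∀ x y z t, W x y z t = W x z y t) (Ws2 : ∀ x y z t, W x y z t = W x y t z)
    (Wz : ∀ y z t, W 0 y z t = 0)
    (Wo : ∀ {x y z t x' y' z' t'}, x = -x' → y = -y' → z = -z' → t = -t' → W x y z t = -(W x' y' z' t'))
    (h4 : E4 k w V W) (a b c : K) : ((6) * b ^ 1 * c ^ 2 * k ^ 1 + (-6) * b ^ 2 * c ^ 1 * k ^ 1) * V (a) (b - c) (c) (-a) + ((30) * b ^ 1 * c ^ 2 * k ^ 1 + (-30) * b ^ 2 * c ^ 1 * k ^ 1 + (-30) * a ^ 1 * c ^ 2 * k ^ 1 + (30) * a ^ 1 * b ^ 1 * c ^ 1 * k ^ 1) * w (a) (-c) (-b + c) + ((-30) * b ^ 1 * c ^ 2 * k ^ 1 + (30) * b ^ 2 * c ^ 1 * k ^ 1 + (-30) * a ^ 2 * c ^ 1 * k ^ 1) * w (a) (c) (-a) + ((-30) * b ^ 1 * c ^ 2 * k ^ 1 + (30) * b ^ 2 * c ^ 1 * k ^ 1 + (-30) * a ^ 1 * b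 ^ 1 * c ^ 1 * k ^ 1) * w (a) (c) (-a + b - c) + ((-30) * b ^ 1 * c ^ 2 * k ^ 1 + (30) * b ^ 2 * c ^ 1 * k ^ 1 + (30) * a ^ 2 * c ^ 1 * k ^ 1 + (-30) * a ^ 2 * b ^ 1 * k ^ 1) * w (a) (b - c) (-a) + ((-30) * b ^ 1 * c ^ 2 * k ^ 1 + (30) * b ^ 2 * c ^ 1 * k ^ 1 + (30) * a ^ 1 * b ^ 1 * c ^ 1 * k ^ 1 + (-30) * a ^ 1 * b ^ 2 * k ^ 1) * w (a) (b - c) (-a + c) + ((-30) * b ^ 1 * c ^ 2 * k ^ 1 + (30) * b ^ 2 * c ^ 1 * k ^ 1 + (-30) * a ^ 1 * c ^ 2 * k ^ 1 + (30) * a ^ 1 * b ^ 1 * c ^ 1 * k ^ 1) * w (a) (b - c) (c) + ((-90) * b ^ 1 * c ^ 4 * k ^ 2 + (180) * b ^ 2 * c ^ 3 * k ^ 2 + (-180) * b ^ 3 * c ^ 2 * k ^ 2 + (90) * b ^ 4 * c ^ 1 * k ^ 2) * W (a) (b - c) (c) (-a) + ((-30) * b ^ 1 * c ^ 2 * k ^ 1 + (30) * b ^ 2 * c ^ 1 * k ^ 1 + (30) * a ^ 2 * b ^ 1 * k ^ 1) * w (a) (b) (-a) + ((-30) * b ^ 1 * c ^ 2 * k ^ 1 + (30) * b ^ 2 * c ^ 1 * k ^ 1 + (-30)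 * a ^ 1 * b ^ 1 * c ^ 1 * k ^ 1 + (30) * a ^ 1 * b ^ 2 * k ^ 1) * w (a + c) (b - c) (-a) + ((-30) * b ^ 1 * c ^ 2 * k ^ 1 + (30) * b ^ 2 * c ^ 1 * k ^ 1 + (30) * a ^ 1 * b ^ 1 * c ^ 1 * k ^ 1) * w (a + b - c) (c) (-a) = 0 := by
  have h := h4 (a) (b - c) (c) (-a)
  have n_0 : w (c) (-a) ((a) + (b - c)) = w (a + b - c) (c) (-a) := (((c3 w (by ring : (c) = (c)) (by ring : (-a) = (-a)) (by ring : ((a) + (b - c)) = (a + b - c)))).trans (ws1 (c) (-a) (a + b - c))).trans (ws0 (c) (a + b - c) (-a))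
  have n_1 : w (b - c) (-a) ((a) + (c)) = w (a + c) (b - c) (-a) := (((c3 w (by ring : (b - c) = (b - c)) (by ring : (-a) = (-a)) (by ring : ((a) + (c)) = (a + c)))).trans (ws1 (b - c) (-a) (a + c))).trans (ws0 (b - c) (a + c) (-a))
  have n_2 : w (b - c) (c) ((a) + (-a)) = 0 := ((((c3 w (by ring : (b - c) = (b - c)) (by ring : (c) = (c)) (by ring : ((a) + (-a)) = (0)))).trans (ws1 (b - c) (c) (0))).trans (ws0 (b - c) (0) (c))).trans (wz (b - c) (c))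
  have n_3 : w (a) (-a) ((b - c) + (c)) = w (a) (b) (-a) := ((c3 w (by ring : (a) = (a)) (by ring : (-a) = (-a)) (by ring : ((b - c) + (c)) = (b)))).trans (ws1 (a) (-a) (b))
  have n_4 : w (a) (c) ((b - c) + (-a)) = w (a) (c) (-a + b - c) := (c3 w (by ring : (a) = (a)) (by ring : (c) = (c)) (by ring : ((b - c) + (-a)) = (-a + b - c)))
  have n_5 : w (a) (b - c) ((c) + (-a)) = w (a) (b - c) (-a + c) := (c3 w (by ring : (a) = (a)) (by ring : (b - c) = (b - c)) (by ring : ((c) + (-a)) = (-a + c)))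
  have n_6 : w (b - c) (c) (-a) = -(w (a) (-c) (-b + c)) := (((((c3 w (by ring : (b - c) = (b - c)) (by ring : (c) = (c)) (by ring : (-a) = (-a)))).trans (wo (by ring : (b - c) = -(-b + c)) (by ring : (c) = -(-c)) (by ring : (-a) = -(a)))).trans (congrArg Neg.neg (ws1 (-b + c) (-c) (a)))).trans (congrArg Neg.neg (ws0 (-b + c) (a) (-c)))).trans (congrArg Neg.neg (ws1 (a) (-b + c) (-c)))
  simp only [n_0, n_1, n_2, n_3, n_4, n_5, n_6] at h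
  linear_combination h

theorem L4_1 {K : Type*} [Field K] (k : K) (w : K → K → K → K) (V W : K → K → K → K → K)
    (ws0 : ∀ x y z, w x y z = w y x z) (ws1 : ∀ x y z, w x y z = w x z y)
    (wz : ∀ y z, w 0 y z = 0) (wo : ∀ {x y z x' y' z'}, x = -x' → y = -y' → z = -z' → w x y z = -(w x' y' z'))
    (Vs0 : ∀ x y z t, V x y z t = V y x z t) (Vs1 : ∀ x y z t, V x y z t = V x z y t) (Vs2 : ∀ x y z t, V x y z t = V x y t z)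
    (Vo : ∀ {x y z t x' y' z' t'}, x = -x' → y = -y' → z = -z' → t = -t' → V x y z t = -(V x' y' z' t'))
    (Ws0 : ∀ x y z t, W x y z t = W y x z t) (Ws1 : ∀ x y z t, W x y z t = W x z y t) (Ws2 : ∀ x y z t, W x y z t = W x y t z)
    (Wz : ∀ y z t, W 0 y z t = 0)
    (Wo : ∀ {x y z t x' y' z' t'}, x = -x' → y = -y' → z = -z' → t = -t' → W x y z t = -(W x' y' z' t'))
    (h4 : E4 k w V W) (a b c : K) : ((6) * b ^ 1 * c ^ 2 * k ^ 1 + (6) * b ^ 2 * c ^ 1 * k ^ 1) * V (a) (b + c) (-c) (-a) + ((30) * b ^ 1 * c ^ 2 * k ^ 1 + (30) * b ^ 2 * c ^ 1 * k ^ 1 + (-30) * a ^ 1 * b ^ 1 * c ^ 1 * k ^ 1 + (-30) * a ^ 1 * b ^ 2 * k ^ 1) * w (a) (-b - c) (-a + c) + ((-30) * b ^ 1 * c ^ 2 * k ^ 1 + (-30) * b ^ 2 * c ^ 1 * k ^ 1 + (30) * a ^ 1 * b ^ 1 * c ^ 1 * k ^ 1) * w (a) (-c) (-a + b + c) + ((30) * b ^ 1 * c ^ 2 * k ^ 1 + (30) * b ^ 2 * c ^ 1 * k ^ 1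 + (-30) * a ^ 2 * c ^ 1 * k ^ 1) * w (a) (c) (-a) + ((30) * b ^ 1 * c ^ 2 * k ^ 1 + (30) * b ^ 2 * c ^ 1 * k ^ 1 + (-30) * a ^ 1 * c ^ 2 * k ^ 1 + (-30) * a ^ 1 * b ^ 1 * c ^ 1 * k ^ 1) * w (a) (c) (-b - c) + ((-30) * b ^ 1 * c ^ 2 * k ^ 1 + (-30) * b ^ 2 * c ^ 1 * k ^ 1 + (30) * a ^ 2 * b ^ 1 * k ^ 1) * w (a) (b) (-a) + ((-30) * b ^ 1 * c ^ 2 * k ^ 1 + (-30) * b ^ 2 * c ^ 1 * k ^ 1 + (-30) * a ^ 2 * c ^ 1 * k ^ 1 + (-30) * a ^ 2 * b ^ 1 * k ^ 1) * w (a) (b + c) (-a) + ((-30) * b ^ 1 * c ^ 2 * k ^ 1 + (-30) * b ^ 2 * c ^ 1 * k ^ 1 + (-30) * a ^ 1 * c ^ 2 * k ^ 1 + (-30) * a ^ 1 * b ^ 1 * c ^ 1 * k ^ 1) * w (a) (b + c) (-c) + ((-90) * b ^ 1 * c ^ 4 * k ^ 2 + (-180) * b ^ 2 * c ^ 3 * k ^ 2 + (-180) * b ^ 3 * c ^ 2 * k ^ 2 + (-90) * b ^ 4 * c ^ 1 * k ^ 2) * W (a) (b + c) (-c) (-a) + ((30) * b ^ 1 * c ^ 2 * k ^ 1 + (30) * b ^ 2 * c ^ 1 * k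 ^ 1 + (30) * a ^ 1 * b ^ 1 * c ^ 1 * k ^ 1 + (30) * a ^ 1 * b ^ 2 * k ^ 1) * w (a + c) (-b - c) (-a) + ((-30) * b ^ 1 * c ^ 2 * k ^ 1 + (-30) * b ^ 2 * c ^ 1 * k ^ 1 + (-30) * a ^ 1 * b ^ 1 * c ^ 1 * k ^ 1) * w (a + b + c) (-c) (-a) = 0 := by
  have h := h4 (a) (b + c) (-c) (-a)
  have n_0 : w (-c) (-a) ((a) + (b + c)) = w (a + b + c) (-c) (-a) := (((c3 w (by ring : (-c) = (-c)) (by ring : (-a) = (-a)) (by ring : ((a) + (b + c)) = (a + b + c)))).trans (ws1 (-c) (-a) (a + b + c))).trans (ws0 (-c) (a + b + c) (-a))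
  have n_1 : w (b + c) (-a) ((a) + (-c)) = -(w (a) (-b - c) (-a + c)) := (((c3 w (by ring : (b + c) = (b + c)) (by ring : (-a) = (-a)) (by ring : ((a) + (-c)) = (a - c)))).trans (wo (by ring : (b + c) = -(-b - c)) (by ring : (-a) = -(a)) (by ring : (a - c) = -(-a + c)))).trans (congrArg Neg.neg (ws0 (-b - c) (a) (-a + c)))
  have n_2 : w (b + c) (-c) ((a) + (-a)) = 0 := ((((c3 w (by ring : (b + c) = (b + c)) (by ring : (-c) = (-c)) (by ring : ((a) + (-a)) = (0)))).trans (ws1 (b + c) (-c) (0))).trans (ws0 (b + c) (0) (-c))).trans (wz (b + c) (-c))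
  have n_3 : w (a) (-a) ((b + c) + (-c)) = w (a) (b) (-a) := ((c3 w (by ring : (a) = (a)) (by ring : (-a) = (-a)) (by ring : ((b + c) + (-c)) = (b)))).trans (ws1 (a) (-a) (b))
  have n_4 : w (a) (-c) ((b + c) + (-a)) = w (a) (-c) (-a + b + c) := (c3 w (by ring : (a) = (a)) (by ring : (-c) = (-c)) (by ring : ((b + c) + (-a)) = (-a + b + c)))
  have n_5 : w (a) (b + c) ((-c) + (-a)) = -(w (a + c) (-b - c) (-a)) := (((((c3 w (by ring : (a) = (a)) (by ring : (b + c) = (b + c)) (by ring : ((-c) + (-a)) = (-a - c)))).trans (wo (by ring : (a) = -(-a)) (by ring : (b + c) = -(-b - c)) (by ring : (-a - c) = -(a + c)))).trans (congrArg Neg.neg (ws1 (-a) (-b - c) (a + c)))).trans (congrArg Neg.neg (ws0 (-a) (a + c) (-b - c)))).trans (congrArg Neg.neg (ws1 (a + c) (-a) (-b - c)))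
  have n_6 : w (a) (-c) (-a) = -(w (a) (c) (-a)) := (((((c3 w (by ring : (a) = (a)) (by ring : (-c) = (-c)) (by ring : (-a) = (-a)))).trans (wo (by ring : (a) = -(-a)) (by ring : (-c) = -(c)) (by ring : (-a) = -(a)))).trans (congrArg Neg.neg (ws1 (-a) (c) (a)))).trans (congrArg Neg.neg (ws0 (-a) (a) (c)))).trans (congrArg Neg.neg (ws1 (a) (-a) (c)))
  have n_7 : w (b + c) (-c) (-a) = -(w (a) (c) (-b - c)) := (((((c3 w (by ring : (b + c) = (b + c)) (by ring : (-c) = (-c)) (by ring : (-a) = (-a)))).trans (wo (by ring : (b + c) = -(-b - c)) (by ring : (-c) = -(c)) (by ring : (-a) = -(a)))).trans (congrArg Neg.neg (ws1 (-b - c) (c) (a)))).trans (congrArg Neg.neg (ws0 (-b - c) (a) (c)))).trans (congrArg Neg.neg (ws1 (a) (-b - c) (c)))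
  simp only [n_0, n_1, n_2, n_3, n_4, n_5, n_6, n_7] at h
  linear_combination h

theorem L4_2 {K : Type*} [Field K] (k : K) (w : K → K → K → K) (V W : K → K → K → K → K)
    (ws0 : ∀ x y z, w x y z = w y x z) (ws1 : ∀ x y z, w x y z = w x z y)
    (wz : ∀ y z, w 0 y z = 0) (wo : ∀ {x y z x' y' z'}, x = -x' → y = -y' → z = -z' → w x y z = -(w x' y' z'))
    (Vs0 : ∀ x y z t, V x y z t = V y x z t) (Vs1 : ∀ x y z t, V x y z t = V x z y t) (Vs2 : ∀ x y z t, V x y z t = V x y t z)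
    (Vo : ∀ {x y z t x' y' z' t'}, x = -x' → y = -y' → z = -z' → t = -t' → V x y z t = -(V x' y' z' t'))
    (Ws0 : ∀ x y z t, W x y z t = W y x z t) (Ws1 : ∀ x y z t, W x y z t = W x z y t) (Ws2 : ∀ x y z t, W x y z t = W x y t z)
    (Wz : ∀ y z t, W 0 y z t = 0)
    (Wo : ∀ {x y z t x' y' z' t'}, x = -x' → y = -y' → z = -z' → t = -t' → W x y z t = -(W x' y' z' t'))
    (h4 : E4 k w V W) (a b c : K) : ((-6) * a ^ 1 * b ^ 2 * k ^ 1 + (6) * a ^ 2 * b ^ 1 * k ^ 1) * V (a) (c) (-c) (-a + b) + ((30) * b ^ 1 * c ^ 2 * k ^ 1 + (30) * a ^ 1 * b ^ 2 * k ^ 1 + (-30) * a ^ 2 * b ^ 1 * k ^ 1) * w (b) (c) (-c) + ((30) * b ^ 1 * c ^ 2 * k ^ 1 + (-30) * a ^ 1 * c ^ 2 * k ^ 1 + (-30) * a ^ 1 * b ^ 2 * k ^ 1 + (30) * a ^ 2 * b ^ 1 * k ^ 1) * w (a - b) (c) (-c) + ((-30) * b ^ 2 * c ^ 1 * k ^ 1 + (30) * a ^ 1 * b ^ 1 * c ^ 1 * k ^ 1 + (30) * a ^ 1 * b ^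 2 * k ^ 1 + (-30) * a ^ 2 * b ^ 1 * k ^ 1) * w (a - c) (c) (-a + b) + ((-30) * a ^ 1 * b ^ 1 * c ^ 1 * k ^ 1 + (30) * a ^ 1 * b ^ 2 * k ^ 1 + (30) * a ^ 2 * c ^ 1 * k ^ 1 + (-30) * a ^ 2 * b ^ 1 * k ^ 1) * w (a) (-c) (-a + b) + ((30) * a ^ 1 * b ^ 1 * c ^ 1 * k ^ 1 + (30) * a ^ 1 * b ^ 2 * k ^ 1 + (-30) * a ^ 2 * b ^ 1 * k ^ 1) * w (a) (-c) (-a + b + c) + ((-30) * a ^ 1 * b ^ 1 * c ^ 1 * k ^ 1 + (30) * a ^ 1 * b ^ 2 * k ^ 1 + (-30) * a ^ 2 * b ^ 1 * k ^ 1) * w (a) (c) (-a + b - c) + ((30) * a ^ 1 * b ^ 1 * c ^ 1 * k ^ 1 + (30) * a ^ 1 * b ^ 2 * k ^ 1 + (-30) * a ^ 2 * c ^ 1 * k ^ 1 + (-30) * a ^ 2 * b ^ 1 * k ^ 1) * w (a) (c) (-a + b) + ((-30) * a ^ 1 * c ^ 2 * k ^ 1 + (30) * a ^ 1 * b ^ 2 * k ^ 1 + (-30) * a ^ 2 * b ^ 1 * k ^ 1) * w (a) (c) (-c) + ((90) * a ^ 1 * b ^ 4 * k ^ 2 + (-180) * a ^ 2 * b ^ 3 * k ^ 2 + (180) * a ^ 3 * b ^ 2 *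 k ^ 2 + (-90) * a ^ 4 * b ^ 1 * k ^ 2) * W (a) (c) (-c) (-a + b) + ((30) * b ^ 2 * c ^ 1 * k ^ 1 + (-30) * a ^ 1 * b ^ 1 * c ^ 1 * k ^ 1 + (30) * a ^ 1 * b ^ 2 * k ^ 1 + (-30) * a ^ 2 * b ^ 1 * k ^ 1) * w (a + c) (-c) (-a + b) = 0 := by
  have h := h4 (a) (c) (-c) (-a + b)
  have n_0 : w (-c) (-a + b) ((a) + (c)) = w (a + c) (-c) (-a + b) := (((c3 w (by ring : (-c) = (-c)) (by ring : (-a + b) = (-a + b)) (by ring : ((a) + (c)) = (a + c)))).trans (ws1 (-c) (-a + b) (a + c))).trans (ws0 (-c) (a + c) (-a + b))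
  have n_1 : w (c) (-a + b) ((a) + (-c)) = w (a - c) (c) (-a + b) := (((c3 w (by ring : (c) = (c)) (by ring : (-a + b) = (-a + b)) (by ring : ((a) + (-c)) = (a - c)))).trans (ws1 (c) (-a + b) (a - c))).trans (ws0 (c) (a - c) (-a + b))
  have n_2 : w (c) (-c) ((a) + (-a + b)) = w (b) (c) (-c) := (((c3 w (by ring : (c) = (c)) (by ring : (-c) = (-c)) (by ring : ((a) + (-a + b)) = (b)))).trans (ws1 (c) (-c) (b))).trans (ws0 (c) (b) (-c))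
  have n_3 : w (a) (-a + b) ((c) + (-c)) = 0 := ((((c3 w (by ring : (a) = (a)) (by ring : (-a + b) = (-a + b)) (by ring : ((c) + (-c)) = (0)))).trans (ws1 (a) (-a + b) (0))).trans (ws0 (a) (0) (-a + b))).trans (wz (a) (-a + b))
  have n_4 : w (a) (-c) ((c) + (-a + b)) = w (a) (-c) (-a + b + c) := (c3 w (by ring : (a) = (a)) (by ring : (-c) = (-c)) (by ring : ((c) + (-a + b)) = (-a + b + c)))
  have n_5 : w (a) (c) ((-c) + (-a + b)) = w (a) (c) (-a + b - c) := (c3 w (by ring : (a) = (a)) (by ring : (c) = (c)) (by ring : ((-c) + (-a + b)) = (-a + b - c)))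
  have n_6 : w (c) (-c) (-a + b) = -(w (a - b) (c) (-c)) := (((((c3 w (by ring : (c) = (c)) (by ring : (-c) = (-c)) (by ring : (-a + b) = (-a + b)))).trans (wo (by ring : (c) = -(-c)) (by ring : (-c) = -(c)) (by ring : (-a + b) = -(a - b)))).trans (congrArg Neg.neg (ws1 (-c) (c) (a - b)))).trans (congrArg Neg.neg (ws0 (-c) (a - b) (c)))).trans (congrArg Neg.neg (ws1 (a - b) (-c) (c)))
  simp only [n_0, n_1, n_2, n_3, n_4, n_5, n_6] at h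
  linear_combination h

theorem L4_3 {K : Type*} [Field K] (k : K) (w : K → K → K → K) (V W : K → K → K → K → K)
    (ws0 : ∀ x y z, w x y z = w y x z) (ws1 : ∀ x y z, w x y z = w x z y)
    (wz : ∀ y z, w 0 y z = 0) (wo : ∀ {x y z x' y' z'}, x = -x' → y = -y' → z = -z' → w x y z = -(w x' y' z'))
    (Vs0 : ∀ x y z t, V x y z t = V y x z t) (Vs1 : ∀ x y z t, V x y z t = V x z y t) (Vs2 : ∀ x y z t, V x y z t = V x y t z)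
    (Vo : ∀ {x y z t x' y' z' t'}, x = -x' → y = -y' → z = -z' → t = -t' → V x y z t = -(V x' y' z' t'))
    (Ws0 : ∀ x y z t, W x y z t = W y x z t) (Ws1 : ∀ x y z t, W x y z t = W x z y t) (Ws2 : ∀ x y z t, W x y z t = W x y t z)
    (Wz : ∀ y z t, W 0 y z t = 0)
    (Wo : ∀ {x y z t x' y' z' t'}, x = -x' → y = -y' → z = -z' → t = -t' → W x y z t = -(W x' y' z' t'))
    (h4 : E4 k w V W) (a b c : K) : ((6) * a ^ 1 * c ^ 2 * k ^ 1 + (6) * a ^ 2 * c ^ 1 * k ^ 1) * V (a + c) (-c) (-b) (-a) + ((-30) * b ^ 2 * c ^ 1 * k ^ 1 + (30) * a ^ 1 * c ^ 2 * k ^ 1 + (30) * a ^ 2 * c ^ 1 * k ^ 1) * w (b) (c) (-c) + ((30) * a ^ 1 * c ^ 2 * k ^ 1 + (-30) * a ^ 1 * b ^ 1 * c ^ 1 * k ^ 1 + (30) * a ^ 2 * c ^ 1 * k ^ 1) * w (a) (c) (-a + b - c) + ((30) * a ^ 1 * c ^ 2 * k ^ 1 + (-30) * a ^ 1 * b ^ 2 * k ^ 1 + (30) * a ^ 2 * c ^ 1 * k ^ 1) * w (a) (b) (-a)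 + ((30) * a ^ 1 * c ^ 2 * k ^ 1 + (30) * a ^ 1 * b ^ 1 * c ^ 1 * k ^ 1 + (30) * a ^ 2 * c ^ 1 * k ^ 1) * w (a) (b) (c) + ((-30) * a ^ 1 * c ^ 2 * k ^ 1 + (-30) * a ^ 1 * b ^ 1 * c ^ 1 * k ^ 1 + (-30) * a ^ 2 * c ^ 1 * k ^ 1 + (-30) * a ^ 2 * b ^ 1 * k ^ 1) * w (a + c) (-b - c) (-a) + ((-30) * a ^ 1 * c ^ 2 * k ^ 1 + (30) * a ^ 1 * b ^ 1 * c ^ 1 * k ^ 1 + (-30) * a ^ 2 * c ^ 1 * k ^ 1 + (30) * a ^ 2 * b ^ 1 * k ^ 1) * w (a + c) (-b) (-a) + ((30) * b ^ 1 * c ^ 2 * k ^ 1 + (-30) * a ^ 1 * c ^ 2 * k ^ 1 + (30) * a ^ 1 * b ^ 1 * c ^ 1 * k ^ 1 + (-30) * a ^ 2 * c ^ 1 * k ^ 1) * w (a + c) (-c) (-b) + ((-90) * a ^ 1 * c ^ 4 * k ^ 2 + (-180) * a ^ 2 * c ^ 3 * k ^ 2 + (-180) * a ^ 3 * c ^ 2 * k ^ 2 + (-90) * a ^ 4 * c ^ 1 * k ^ 2) * W (a + c) (-c) (-b) (-a) + ((30) * b ^ 2 * c ^ 1 * k ^ 1 + (30) * a ^ 1 * c ^ 2 * k ^ 1 + (30) * a ^ 1 * b ^ 2 * k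 ^ 1 + (30) * a ^ 2 * c ^ 1 * k ^ 1) * w (a + c) (b) (-a - c) + ((30) * b ^ 1 * c ^ 2 * k ^ 1 + (30) * a ^ 1 * c ^ 2 * k ^ 1 + (30) * a ^ 1 * b ^ 1 * c ^ 1 * k ^ 1 + (30) * a ^ 2 * c ^ 1 * k ^ 1) * w (a + b) (c) (-a - c) = 0 := by
  have h := h4 (a + c) (-c) (-b) (-a)
  have n_0 : w (-b) (-a) ((a + c) + (-c)) = -(w (a) (b) (-a)) := (((c3 w (by ring : (-b) = (-b)) (by ring : (-a) = (-a)) (by ring : ((a + c) + (-c)) = (a)))).trans (wo (by ring : (-b) = -(b)) (by ring : (-a) = -(a)) (by ring : (a) = -(-a)))).trans (congrArg Neg.neg (ws0 (b) (a) (-a)))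
  have n_1 : w (-c) (-a) ((a + c) + (-b)) = -(w (a) (c) (-a + b - c)) := (((c3 w (by ring : (-c) = (-c)) (by ring : (-a) = (-a)) (by ring : ((a + c) + (-b)) = (a - b + c)))).trans (wo (by ring : (-c) = -(c)) (by ring : (-a) = -(a)) (by ring : (a - b + c) = -(-a + b - c)))).trans (congrArg Neg.neg (ws0 (c) (a) (-a + b - c)))
  have n_2 : w (-c) (-b) ((a + c) + (-a)) = -(w (b) (c) (-c)) := (((c3 w (by ring : (-c) = (-c)) (by ring : (-b) = (-b)) (by ring : ((a + c) + (-a)) = (c)))).trans (wo (by ring : (-c) = -(c)) (by ring : (-b) = -(b)) (by ring : (c) = -(-c)))).trans (congrArg Neg.neg (ws0 (c) (b) (-c)))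
  have n_3 : w (a + c) (-a) ((-c) + (-b)) = w (a + c) (-b - c) (-a) := ((c3 w (by ring : (a + c) = (a + c)) (by ring : (-a) = (-a)) (by ring : ((-c) + (-b)) = (-b - c)))).trans (ws1 (a + c) (-a) (-b - c))
  have n_4 : w (a + c) (-b) ((-c) + (-a)) = -(w (a + c) (b) (-a - c)) := (((((c3 w (by ring : (a + c) = (a + c)) (by ring : (-b) = (-b)) (by ring : ((-c) + (-a)) = (-a - c)))).trans (wo (by ring : (a + c) = -(-a - c)) (by ring : (-b) = -(b)) (by ring : (-a - c) = -(a + c)))).trans (congrArg Neg.neg (ws1 (-a - c) (b) (a + c)))).trans (congrArg Neg.neg (ws0 (-a - c) (a + c) (b)))).trans (congrArg Neg.neg (ws1 (a + c) (-a - c) (b)))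
  have n_5 : w (a + c) (-c) ((-b) + (-a)) = -(w (a + b) (c) (-a - c)) := (((((c3 w (by ring : (a + c) = (a + c)) (by ring : (-c) = (-c)) (by ring : ((-b) + (-a)) = (-a - b)))).trans (wo (by ring : (a + c) = -(-a - c)) (by ring : (-c) = -(c)) (by ring : (-a - b) = -(a + b)))).trans (congrArg Neg.neg (ws1 (-a - c) (c) (a + b)))).trans (congrArg Neg.neg (ws0 (-a - c) (a + b) (c)))).trans (congrArg Neg.neg (ws1 (a + b) (-a - c) (c)))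
  have n_6 : w (-c) (-b) (-a) = -(w (a) (b) (c)) := (((((c3 w (by ring : (-c) = (-c)) (by ring : (-b) = (-b)) (by ring : (-a) = (-a)))).trans (wo (by ring : (-c) = -(c)) (by ring : (-b) = -(b)) (by ring : (-a) = -(a)))).trans (congrArg Neg.neg (ws1 (c) (b) (a)))).trans (congrArg Neg.neg (ws0 (c) (a) (b)))).trans (congrArg Neg.neg (ws1 (a) (c) (b)))
  simp only [n_0, n_1, n_2, n_3, n_4, n_5, n_6] at h
  linear_combination h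

theorem L4_4 {K : Type*} [Field K] (k : K) (w : K → K → K → K) (V W : K → K → K → K → K)
    (ws0 : ∀ x y z, w x y z = w y x z) (ws1 : ∀ x y z, w x y z = w x z y)
    (wz : ∀ y z, w 0 y z = 0) (wo : ∀ {x y z x' y' z'}, x = -x' → y = -y' → z = -z' → w x y z = -(w x' y' z'))
    (Vs0 : ∀ x y z t, V x y z t = V y x z t) (Vs1 : ∀ x y z t, V x y z t = V x z y t) (Vs2 : ∀ x y z t, V x y z t = V x y t z)
    (Vo : ∀ {x y z t x' y' z' t'}, x = -x' → y = -y' → z = -z' → t = -t' → V x y z t = -(V x' y' z' t'))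
    (Ws0 : ∀ x y z t, W x y z t = W y x z t) (Ws1 : ∀ x y z t, W x y z t = W x z y t) (Ws2 : ∀ x y z t, W x y z t = W x y t z)
    (Wz : ∀ y z t, W 0 y z t = 0)
    (Wo : ∀ {x y z t x' y' z' t'}, x = -x' → y = -y' → z = -z' → t = -t' → W x y z t = -(W x' y' z' t'))
    (h4 : E4 k w V W) (a b c : K) : ((-6) * a ^ 1 * c ^ 2 * k ^ 1 + (6) * a ^ 2 * c ^ 1 * k ^ 1) * V (a) (b) (-c) (-a + c) + ((30) * b ^ 2 * c ^ 1 * k ^ 1 + (30) * a ^ 1 * c ^ 2 * k ^ 1 + (-30) * a ^ 2 * c ^ 1 * k ^ 1) * w (b) (c) (-c) + ((30) * b ^ 1 * c ^ 2 * k ^ 1 + (-30) * a ^ 1 * c ^ 2 * k ^ 1 + (-30) * a ^ 1 * b ^ 1 * c ^ 1 * k ^ 1 + (30) * a ^ 2 * c ^ 1 * k ^ 1) * w (a - c) (c) (-b) + ((-30) * b ^ 2 * c ^ 1 * k ^ 1 + (30) * a ^ 1 * c ^ 2 * k ^ 1 + (30) * a ^ 1 * b ^ 2 * k ^ 1 + (-30) * a ^ 2 * c ^ 1 * k ^ 1) * w (a - c) (b) (-a + c) + ((30) * a ^ 1 * c ^ 2 * k ^ 1 + (30)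 * a ^ 1 * b ^ 1 * c ^ 1 * k ^ 1 + (-30) * a ^ 2 * c ^ 1 * k ^ 1) * w (a) (-c) (-a + b + c) + ((30) * a ^ 1 * c ^ 2 * k ^ 1 + (-30) * a ^ 1 * b ^ 1 * c ^ 1 * k ^ 1 + (-30) * a ^ 2 * c ^ 1 * k ^ 1 + (30) * a ^ 2 * b ^ 1 * k ^ 1) * w (a) (b - c) (-a + c) + ((30) * a ^ 1 * c ^ 2 * k ^ 1 + (-30) * a ^ 1 * b ^ 2 * k ^ 1 + (-30) * a ^ 2 * c ^ 1 * k ^ 1) * w (a) (b) (-a) + ((30) * a ^ 1 * c ^ 2 * k ^ 1 + (30) * a ^ 1 * b ^ 1 * c ^ 1 * k ^ 1 + (-30) * a ^ 2 * c ^ 1 * k ^ 1 + (-30) * a ^ 2 * b ^ 1 * k ^ 1) * w (a) (b) (-a + c) + ((30) * a ^ 1 * c ^ 2 * k ^ 1 + (-30) * a ^ 1 * b ^ 1 * c ^ 1 * k ^ 1 + (-30) * a ^ 2 * c ^ 1 * k ^ 1) * w (a) (b) (-c) + ((90) * a ^ 1 * c ^ 4 * k ^ 2 + (-180) * a ^ 2 * c ^ 3 * k ^ 2 + (180) * a ^ 3 * c ^ 2 * k ^ 2 + (-90) * a ^ 4 * c ^ 1 * k ^ 2) * W (a) (b) (-c) (-a + c) + ((30) * b ^ 1 * c ^ 2 * k ^ 1 + (30) * a ^ 1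 * c ^ 2 * k ^ 1 + (-30) * a ^ 1 * b ^ 1 * c ^ 1 * k ^ 1 + (-30) * a ^ 2 * c ^ 1 * k ^ 1) * w (a + b) (-c) (-a + c) = 0 := by
  have h := h4 (a) (b) (-c) (-a + c)
  have n_0 : w (-c) (-a + c) ((a) + (b)) = w (a + b) (-c) (-a + c) := (((c3 w (by ring : (-c) = (-c)) (by ring : (-a + c) = (-a + c)) (by ring : ((a) + (b)) = (a + b)))).trans (ws1 (-c) (-a + c) (a + b))).trans (ws0 (-c) (a + b) (-a + c))
  have n_1 : w (b) (-a + c) ((a) + (-c)) = w (a - c) (b) (-a + c) := (((c3 w (by ring : (b) = (b)) (by ring : (-a + c) = (-a + c)) (by ring : ((a) + (-c)) = (a - c)))).trans (ws1 (b) (-a + c) (a - c))).trans (ws0 (b) (a - c) (-a + c))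
  have n_2 : w (b) (-c) ((a) + (-a + c)) = w (b) (c) (-c) := ((c3 w (by ring : (b) = (b)) (by ring : (-c) = (-c)) (by ring : ((a) + (-a + c)) = (c)))).trans (ws1 (b) (-c) (c))
  have n_3 : w (a) (-a + c) ((b) + (-c)) = w (a) (b - c) (-a + c) := ((c3 w (by ring : (a) = (a)) (by ring : (-a + c) = (-a + c)) (by ring : ((b) + (-c)) = (b - c)))).trans (ws1 (a) (-a + c) (b - c))
  have n_4 : w (a) (-c) ((b) + (-a + c)) = w (a) (-c) (-a + b + c) := (c3 w (by ring : (a) = (a)) (by ring : (-c) = (-c)) (by ring : ((b) + (-a + c)) = (-a + b + c)))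
  have n_5 : w (a) (b) ((-c) + (-a + c)) = w (a) (b) (-a) := (c3 w (by ring : (a) = (a)) (by ring : (b) = (b)) (by ring : ((-c) + (-a + c)) = (-a)))
  have n_6 : w (b) (-c) (-a + c) = -(w (a - c) (c) (-b)) := (((((c3 w (by ring : (b) = (b)) (by ring : (-c) = (-c)) (by ring : (-a + c) = (-a + c)))).trans (wo (by ring : (b) = -(-b)) (by ring : (-c) = -(c)) (by ring : (-a + c) = -(a - c)))).trans (congrArg Neg.neg (ws1 (-b) (c) (a - c)))).trans (congrArg Neg.neg (ws0 (-b) (a - c) (c)))).trans (congrArg Neg.neg (ws1 (a - c) (-b) (c)))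
  simp only [n_0, n_1, n_2, n_3, n_4, n_5, n_6] at h
  linear_combination h

theorem L4_5 {K : Type*} [Field K] (k : K) (w : K → K → K → K) (V W : K → K → K → K → K)
    (ws0 : ∀ x y z, w x y z = w y x z) (ws1 : ∀ x y z, w x y z = w x z y)
    (wz : ∀ y z, w 0 y z = 0) (wo : ∀ {x y z x' y' z'}, x = -x' → y = -y' → z = -z' → w x y z = -(w x' y' z'))
    (Vs0 : ∀ x y z t, V x y z t = V y x z t) (Vs1 : ∀ x y z t, V x y z t = V x z y t) (Vs2 : ∀ x y z t, V x y z t = V x y t z)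
    (Vo : ∀ {x y z t x' y' z' t'}, x = -x' → y = -y' → z = -z' → t = -t' → V x y z t = -(V x' y' z' t'))
    (Ws0 : ∀ x y z t, W x y z t = W y x z t) (Ws1 : ∀ x y z t, W x y z t = W x z y t) (Ws2 : ∀ x y z t, W x y z t = W x y t z)
    (Wz : ∀ y z t, W 0 y z t = 0)
    (Wo : ∀ {x y z t x' y' z' t'}, x = -x' → y = -y' → z = -z' → t = -t' → W x y z t = -(W x' y' z' t'))
    (h4 : E4 k w V W) (a b c : K) : ((-6) * a ^ 1 * b ^ 2 * k ^ 1 + (6) * a ^ 2 * b ^ 1 * k ^ 1) * V (a) (c) (-c) (-b) + ((-30) * b ^ 1 * c ^ 2 * k ^ 1 + (-30) * a ^ 1 * b ^ 2 * k ^ 1 + (30) * a ^ 2 * b ^ 1 * k ^ 1) * w (b) (c) (-c) + ((-30) * b ^ 1 * c ^ 2 * k ^ 1 + (30) * a ^ 1 * c ^ 2 * k ^ 1 + (30) * a ^ 1 * b ^ 2 * k ^ 1 + (-30) * a ^ 2 * b ^ 1 * k ^ 1) * w (a - b) (c) (-c) + ((-30) * b ^ 2 * c ^ 1 * k ^ 1 + (30) * a ^ 1 * b ^ 1 * c ^ 1 * k ^ 1 + (30) * a ^ 1 * b ^ 2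 * k ^ 1 + (-30) * a ^ 2 * b ^ 1 * k ^ 1) * w (a - c) (c) (-b) + ((30) * a ^ 1 * b ^ 1 * c ^ 1 * k ^ 1 + (30) * a ^ 1 * b ^ 2 * k ^ 1 + (-30) * a ^ 2 * b ^ 1 * k ^ 1) * w (a) (-c) (-b) + ((-30) * a ^ 1 * b ^ 1 * c ^ 1 * k ^ 1 + (30) * a ^ 1 * b ^ 2 * k ^ 1 + (30) * a ^ 2 * c ^ 1 * k ^ 1 + (-30) * a ^ 2 * b ^ 1 * k ^ 1) * w (a) (-c) (-b + c) + ((30) * a ^ 1 * b ^ 1 * c ^ 1 * k ^ 1 + (30) * a ^ 1 * b ^ 2 * k ^ 1 + (-30) * a ^ 2 * c ^ 1 * k ^ 1 + (-30) * a ^ 2 * b ^ 1 * k ^ 1) * w (a) (c) (-b - c) + ((-30) * a ^ 1 * b ^ 1 * c ^ 1 * k ^ 1 + (30) * a ^ 1 * b ^ 2 * k ^ 1 + (-30) * a ^ 2 * b ^ 1 * k ^ 1) * w (a) (c) (-b) + ((-30) * a ^ 1 * c ^ 2 * k ^ 1 + (30) * a ^ 1 * b ^ 2 * k ^ 1 + (-30) * a ^ 2 * b ^ 1 * k ^ 1) * w (a) (c) (-c) + ((90) * a ^ 1 * b ^ 4 * k ^ 2 + (-180) * a ^ 2 * b ^ 3 * k ^ 2 + (180) * a ^ 3 * b ^ 2 * k ^ 2 + (-90) * a ^ 4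 * b ^ 1 * k ^ 2) * W (a) (c) (-c) (-b) + ((30) * b ^ 2 * c ^ 1 * k ^ 1 + (-30) * a ^ 1 * b ^ 1 * c ^ 1 * k ^ 1 + (30) * a ^ 1 * b ^ 2 * k ^ 1 + (-30) * a ^ 2 * b ^ 1 * k ^ 1) * w (a + c) (-c) (-b) = 0 := by
  have h := h4 (a) (c) (-c) (-b)
  have n_0 : w (-c) (-b) ((a) + (c)) = w (a + c) (-c) (-b) := (((c3 w (by ring : (-c) = (-c)) (by ring : (-b) = (-b)) (by ring : ((a) + (c)) = (a + c)))).trans (ws1 (-c) (-b) (a + c))).trans (ws0 (-c) (a + c) (-b))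
  have n_1 : w (c) (-b) ((a) + (-c)) = w (a - c) (c) (-b) := (((c3 w (by ring : (c) = (c)) (by ring : (-b) = (-b)) (by ring : ((a) + (-c)) = (a - c)))).trans (ws1 (c) (-b) (a - c))).trans (ws0 (c) (a - c) (-b))
  have n_2 : w (c) (-c) ((a) + (-b)) = w (a - b) (c) (-c) := (((c3 w (by ring : (c) = (c)) (by ring : (-c) = (-c)) (by ring : ((a) + (-b)) = (a - b)))).trans (ws1 (c) (-c) (a - b))).trans (ws0 (c) (a - b) (-c))
  have n_3 : w (a) (-b) ((c) + (-c)) = 0 := ((((c3 w (by ring : (a) = (a)) (by ring : (-b) = (-b)) (by ring : ((c) + (-c)) = (0)))).trans (ws1 (a) (-b) (0))).trans (ws0 (a) (0) (-b))).trans (wz (a) (-b))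
  have n_4 : w (a) (-c) ((c) + (-b)) = w (a) (-c) (-b + c) := (c3 w (by ring : (a) = (a)) (by ring : (-c) = (-c)) (by ring : ((c) + (-b)) = (-b + c)))
  have n_5 : w (a) (c) ((-c) + (-b)) = w (a) (c) (-b - c) := (c3 w (by ring : (a) = (a)) (by ring : (c) = (c)) (by ring : ((-c) + (-b)) = (-b - c)))
  have n_6 : w (c) (-c) (-b) = -(w (b) (c) (-c)) := (((((c3 w (by ring : (c) = (c)) (by ring : (-c) = (-c)) (by ring : (-b) = (-b)))).trans (wo (by ring : (c) = -(-c)) (by ring : (-c) = -(c)) (by ring : (-b) = -(b)))).trans (congrArg Neg.neg (ws1 (-c) (c) (b)))).trans (congrArg Neg.neg (ws0 (-c) (b) (c)))).trans (congrArg Neg.neg (ws1 (b) (-c) (c)))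
  simp only [n_0, n_1, n_2, n_3, n_4, n_5, n_6] at h
  linear_combination h

theorem L4_6 {K : Type*} [Field K] (k : K) (w : K → K → K → K) (V W : K → K → K → K → K)
    (ws0 : ∀ x y z, w x y z = w y x z) (ws1 : ∀ x y z, w x y z = w x z y)
    (wz : ∀ y z, w 0 y z = 0) (wo : ∀ {x y z x' y' z'}, x = -x' → y = -y' → z = -z' → w x y z = -(w x' y' z'))
    (Vs0 : ∀ x y z t, V x y z t = V y x z t) (Vs1 : ∀ x y z t, V x y z t = V x z y t) (Vs2 : ∀ x y z t, V x y z t = V x y t z)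
    (Vo : ∀ {x y z t x' y' z' t'}, x = -x' → y = -y' → z = -z' → t = -t' → V x y z t = -(V x' y' z' t'))
    (Ws0 : ∀ x y z t, W x y z t = W y x z t) (Ws1 : ∀ x y z t, W x y z t = W x z y t) (Ws2 : ∀ x y z t, W x y z t = W x y t z)
    (Wz : ∀ y z t, W 0 y z t = 0)
    (Wo : ∀ {x y z t x' y' z' t'}, x = -x' → y = -y' → z = -z' → t = -t' → W x y z t = -(W x' y' z' t'))
    (h4 : E4 k w V W) (a b c : K) : ((6) * a ^ 1 * b ^ 2 * k ^ 1 + (6) * a ^ 2 * b ^ 1 * k ^ 1) * V (a + b) (c) (-c) (-a) + ((30) * b ^ 1 * c ^ 2 * k ^ 1 + (-30) * a ^ 1 * b ^ 2 * k ^ 1 + (-30) * a ^ 2 * b ^ 1 * k ^ 1) * w (b) (c) (-c) + ((-30) * a ^ 1 * c ^ 2 * k ^ 1 + (30) * a ^ 1 * b ^ 2 * k ^ 1 + (30) * a ^ 2 * b ^ 1 * k ^ 1) * w (a) (c) (-c) + ((30) * a ^ 1 * b ^ 1 * c ^ 1 * k ^ 1 + (-30) * a ^ 1 * b ^ 2 * k ^ 1 + (-30) * a ^ 2 * b ^ 1 * k ^ 1) * w (a + b - c) (c) (-a)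 + ((30) * a ^ 1 * b ^ 1 * c ^ 1 * k ^ 1 + (-30) * a ^ 1 * b ^ 2 * k ^ 1 + (30) * a ^ 2 * c ^ 1 * k ^ 1 + (-30) * a ^ 2 * b ^ 1 * k ^ 1) * w (a + b) (-c) (-a) + ((30) * b ^ 2 * c ^ 1 * k ^ 1 + (30) * a ^ 1 * b ^ 1 * c ^ 1 * k ^ 1 + (-30) * a ^ 1 * b ^ 2 * k ^ 1 + (-30) * a ^ 2 * b ^ 1 * k ^ 1) * w (a + b) (-c) (-a + c) + ((-30) * b ^ 2 * c ^ 1 * k ^ 1 + (-30) * a ^ 1 * b ^ 1 * c ^ 1 * k ^ 1 + (-30) * a ^ 1 * b ^ 2 * k ^ 1 + (-30) * a ^ 2 * b ^ 1 * k ^ 1) * w (a + b) (c) (-a - c) + ((-30) * a ^ 1 * b ^ 1 * c ^ 1 * k ^ 1 + (-30) * a ^ 1 * b ^ 2 * k ^ 1 + (-30) * a ^ 2 * c ^ 1 * k ^ 1 + (-30) * a ^ 2 * b ^ 1 * k ^ 1) * w (a + b) (c) (-a) + ((-30) * b ^ 1 * c ^ 2 * k ^ 1 + (-30) * a ^ 1 * c ^ 2 * k ^ 1 + (-30) * a ^ 1 * b ^ 2 * k ^ 1 + (-30) * a ^ 2 * b ^ 1 * k ^ 1) * w (a + b) (c) (-c) + ((-90) * a ^ 1 * b ^ 4 * k ^ 2 + (-180) * a ^ 2 * b ^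 3 * k ^ 2 + (-180) * a ^ 3 * b ^ 2 * k ^ 2 + (-90) * a ^ 4 * b ^ 1 * k ^ 2) * W (a + b) (c) (-c) (-a) + ((-30) * a ^ 1 * b ^ 1 * c ^ 1 * k ^ 1 + (-30) * a ^ 1 * b ^ 2 * k ^ 1 + (-30) * a ^ 2 * b ^ 1 * k ^ 1) * w (a + b + c) (-c) (-a) = 0 := by
  have h := h4 (a + b) (c) (-c) (-a)
  have n_0 : w (-c) (-a) ((a + b) + (c)) = w (a + b + c) (-c) (-a) := (((c3 w (by ring : (-c) = (-c)) (by ring : (-a) = (-a)) (by ring : ((a + b) + (c)) = (a + b + c)))).trans (ws1 (-c) (-a) (a + b + c))).trans (ws0 (-c) (a + b + c) (-a))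
  have n_1 : w (c) (-a) ((a + b) + (-c)) = w (a + b - c) (c) (-a) := (((c3 w (by ring : (c) = (c)) (by ring : (-a) = (-a)) (by ring : ((a + b) + (-c)) = (a + b - c)))).trans (ws1 (c) (-a) (a + b - c))).trans (ws0 (c) (a + b - c) (-a))
  have n_2 : w (c) (-c) ((a + b) + (-a)) = w (b) (c) (-c) := (((c3 w (by ring : (c) = (c)) (by ring : (-c) = (-c)) (by ring : ((a + b) + (-a)) = (b)))).trans (ws1 (c) (-c) (b))).trans (ws0 (c) (b) (-c))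
  have n_3 : w (a + b) (-a) ((c) + (-c)) = 0 := ((((c3 w (by ring : (a + b) = (a + b)) (by ring : (-a) = (-a)) (by ring : ((c) + (-c)) = (0)))).trans (ws1 (a + b) (-a) (0))).trans (ws0 (a + b) (0) (-a))).trans (wz (a + b) (-a))
  have n_4 : w (a + b) (-c) ((c) + (-a)) = w (a + b) (-c) (-a + c) := (c3 w (by ring : (a + b) = (a + b)) (by ring : (-c) = (-c)) (by ring : ((c) + (-a)) = (-a + c)))
  have n_5 : w (a + b) (c) ((-c) + (-a)) = w (a + b) (c) (-a - c) := (c3 w (by ring : (a + b) = (a + b)) (by ring : (c) = (c)) (by ring : ((-c) + (-a)) = (-a - c)))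
  have n_6 : w (c) (-c) (-a) = -(w (a) (c) (-c)) := (((((c3 w (by ring : (c) = (c)) (by ring : (-c) = (-c)) (by ring : (-a) = (-a)))).trans (wo (by ring : (c) = -(-c)) (by ring : (-c) = -(c)) (by ring : (-a) = -(a)))).trans (congrArg Neg.neg (ws1 (-c) (c) (a)))).trans (congrArg Neg.neg (ws0 (-c) (a) (c)))).trans (congrArg Neg.neg (ws1 (a) (-c) (c)))
  simp only [n_0, n_1, n_2, n_3, n_4, n_5, n_6] at h
  linear_combination h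

theorem L4_7 {K : Type*} [Field K] (k : K) (w : K → K → K → K) (V W : K → K → K → K → K)
    (ws0 : ∀ x y z, w x y z = w y x z) (ws1 : ∀ x y z, w x y z = w x z y)
    (wz : ∀ y z, w 0 y z = 0) (wo : ∀ {x y z x' y' z'}, x = -x' → y = -y' → z = -z' → w x y z = -(w x' y' z'))
    (Vs0 : ∀ x y z t, V x y z t = V y x z t) (Vs1 : ∀ x y z t, V x y z t = V x z y t) (Vs2 : ∀ x y z t, V x y z t = V x y t z)
    (Vo : ∀ {x y z t x' y' z' t'}, x = -x' → y = -y' → z = -z' → t = -t' → V x y z t = -(V x' y' z' t'))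
    (Ws0 : ∀ x y z t, W x y z t = W y x z t) (Ws1 : ∀ x y z t, W x y z t = W x z y t) (Ws2 : ∀ x y z t, W x y z t = W x y t z)
    (Wz : ∀ y z t, W 0 y z t = 0)
    (Wo : ∀ {x y z t x' y' z' t'}, x = -x' → y = -y' → z = -z' → t = -t' → W x y z t = -(W x' y' z' t'))
    (h4 : E4 k w V W) (a b c : K) : ((-6) * a ^ 1 * c ^ 2 * k ^ 1 + (6) * a ^ 2 * c ^ 1 * k ^ 1) * V (a) (-c) (-b) (-a + c) + ((-30) * b ^ 2 * c ^ 1 * k ^ 1 + (-30) * a ^ 1 * c ^ 2 * k ^ 1 + (30) * a ^ 2 * c ^ 1 * k ^ 1) * w (b) (c) (-c) + ((30) * b ^ 1 * c ^ 2 * k ^ 1 + (-30) * a ^ 1 * c ^ 2 * k ^ 1 + (-30) * a ^ 1 * b ^ 1 * c ^ 1 * k ^ 1 + (30) * a ^ 2 * c ^ 1 * k ^ 1) * w (a - c) (c) (-a + b) + ((30) * b ^ 2 * c ^ 1 * k ^ 1 + (-30) * a ^ 1 * c ^ 2 * k ^ 1 + (-30) * a ^ 1 * b ^ 2 * k ^ 1 + (30) * a ^ 2 * c ^ 1 * k ^ 1) * w (a - c) (b) (-a + c) + ((-30) * b ^ 1 * c ^ 2 * k ^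 1 + (-30) * a ^ 1 * c ^ 2 * k ^ 1 + (30) * a ^ 1 * b ^ 1 * c ^ 1 * k ^ 1 + (30) * a ^ 2 * c ^ 1 * k ^ 1) * w (a - c) (b) (c) + ((30) * a ^ 1 * c ^ 2 * k ^ 1 + (30) * a ^ 1 * b ^ 1 * c ^ 1 * k ^ 1 + (-30) * a ^ 2 * c ^ 1 * k ^ 1 + (-30) * a ^ 2 * b ^ 1 * k ^ 1) * w (a) (-b - c) (-a + c) + ((30) * a ^ 1 * c ^ 2 * k ^ 1 + (-30) * a ^ 1 * b ^ 1 * c ^ 1 * k ^ 1 + (-30) * a ^ 2 * c ^ 1 * k ^ 1 + (30) * a ^ 2 * b ^ 1 * k ^ 1) * w (a) (-b) (-a + c) + ((30) * a ^ 1 * c ^ 2 * k ^ 1 + (30) * a ^ 1 * b ^ 1 * c ^ 1 * k ^ 1 + (-30) * a ^ 2 * c ^ 1 * k ^ 1) * w (a) (-c) (-b) + ((90) * a ^ 1 * c ^ 4 * k ^ 2 + (-180) * a ^ 2 * c ^ 3 * k ^ 2 + (180) * a ^ 3 * c ^ 2 * k ^ 2 + (-90) * a ^ 4 * c ^ 1 * k ^ 2) * W (a) (-c) (-b) (-a + c) + ((-30) * a ^ 1 * c ^ 2 * k ^ 1 + (30) * a ^ 1 * b ^ 2 * k ^ 1 + (30) * a ^ 2 * c ^ 1 * k ^ 1) * w (a) (b) (-a) + ((-30) *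 a ^ 1 * c ^ 2 * k ^ 1 + (30) * a ^ 1 * b ^ 1 * c ^ 1 * k ^ 1 + (30) * a ^ 2 * c ^ 1 * k ^ 1) * w (a + b - c) (c) (-a) = 0 := by
  have h := h4 (a) (-c) (-b) (-a + c)
  have n_0 : w (-b) (-a + c) ((a) + (-c)) = -(w (a - c) (b) (-a + c)) := (((c3 w (by ring : (-b) = (-b)) (by ring : (-a + c) = (-a + c)) (by ring : ((a) + (-c)) = (a - c)))).trans (wo (by ring : (-b) = -(b)) (by ring : (-a + c) = -(a - c)) (by ring : (a - c) = -(-a + c)))).trans (congrArg Neg.neg (ws0 (b) (a - c) (-a + c)))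
  have n_1 : w (-c) (-a + c) ((a) + (-b)) = -(w (a - c) (c) (-a + b)) := (((c3 w (by ring : (-c) = (-c)) (by ring : (-a + c) = (-a + c)) (by ring : ((a) + (-b)) = (a - b)))).trans (wo (by ring : (-c) = -(c)) (by ring : (-a + c) = -(a - c)) (by ring : (a - b) = -(-a + b)))).trans (congrArg Neg.neg (ws0 (c) (a - c) (-a + b)))
  have n_2 : w (-c) (-b) ((a) + (-a + c)) = -(w (b) (c) (-c)) := (((c3 w (by ring : (-c) = (-c)) (by ring : (-b) = (-b)) (by ring : ((a) + (-a + c)) = (c)))).trans (wo (by ring : (-c) = -(c)) (by ring : (-b) = -(b)) (by ring : (c) = -(-c)))).trans (congrArg Neg.neg (ws0 (c) (b) (-c)))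
  have n_3 : w (a) (-a + c) ((-c) + (-b)) = w (a) (-b - c) (-a + c) := ((c3 w (by ring : (a) = (a)) (by ring : (-a + c) = (-a + c)) (by ring : ((-c) + (-b)) = (-b - c)))).trans (ws1 (a) (-a + c) (-b - c))
  have n_4 : w (a) (-b) ((-c) + (-a + c)) = -(w (a) (b) (-a)) := (((((c3 w (by ring : (a) = (a)) (by ring : (-b) = (-b)) (by ring : ((-c) + (-a + c)) = (-a)))).trans (wo (by ring : (a) = -(-a)) (by ring : (-b) = -(b)) (by ring : (-a) = -(a)))).trans (congrArg Neg.neg (ws1 (-a) (b) (a)))).trans (congrArg Neg.neg (ws0 (-a) (a) (b)))).trans (congrArg Neg.neg (ws1 (a) (-a) (b)))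
  have n_5 : w (a) (-c) ((-b) + (-a + c)) = -(w (a + b - c) (c) (-a)) := (((((c3 w (by ring : (a) = (a)) (by ring : (-c) = (-c)) (by ring : ((-b) + (-a + c)) = (-a - b + c)))).trans (wo (by ring : (a) = -(-a)) (by ring : (-c) = -(c)) (by ring : (-a - b + c) = -(a + b - c)))).trans (congrArg Neg.neg (ws1 (-a) (c) (a + b - c)))).trans (congrArg Neg.neg (ws0 (-a) (a + b - c) (c)))).trans (congrArg Neg.neg (ws1 (a + b - c) (-a) (c)))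
  have n_6 : w (-c) (-b) (-a + c) = -(w (a - c) (b) (c)) := (((((c3 w (by ring : (-c) = (-c)) (by ring : (-b) = (-b)) (by ring : (-a + c) = (-a + c)))).trans (wo (by ring : (-c) = -(c)) (by ring : (-b) = -(b)) (by ring : (-a + c) = -(a - c)))).trans (congrArg Neg.neg (ws1 (c) (b) (a - c)))).trans (congrArg Neg.neg (ws0 (c) (a - c) (b)))).trans (congrArg Neg.neg (ws1 (a - c) (c) (b)))
  simp only [n_0, n_1, n_2, n_3, n_4, n_5, n_6] at h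
  linear_combination h

theorem L4_8 {K : Type*} [Field K] (k : K) (w : K → K → K → K) (V W : K → K → K → K → K)
    (ws0 : ∀ x y z, w x y z = w y x z) (ws1 : ∀ x y z, w x y z = w x z y)
    (wz : ∀ y z, w 0 y z = 0) (wo : ∀ {x y z x' y' z'}, x = -x' → y = -y' → z = -z' → w x y z = -(w x' y' z'))
    (Vs0 : ∀ x y z t, V x y z t = V y x z t) (Vs1 : ∀ x y z t, V x y z t = V x z y t) (Vs2 : ∀ x y z t, V x y z t = V x y t z)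
    (Vo : ∀ {x y z t x' y' z' t'}, x = -x' → y = -y' → z = -z' → t = -t' → V x y z t = -(V x' y' z' t'))
    (Ws0 : ∀ x y z t, W x y z t = W y x z t) (Ws1 : ∀ x y z t, W x y z t = W x z y t) (Ws2 : ∀ x y z t, W x y z t = W x y t z)
    (Wz : ∀ y z t, W 0 y z t = 0)
    (Wo : ∀ {x y z t x' y' z' t'}, x = -x' → y = -y' → z = -z' → t = -t' → W x y z t = -(W x' y' z' t'))
    (h4 : E4 k w V W) (a b c : K) : ((6) * a ^ 1 * c ^ 2 * k ^ 1 + (6) * a ^ 2 * c ^ 1 * k ^ 1) * V (a + c) (b) (-c) (-a) + ((30) * b ^ 2 * c ^ 1 * k ^ 1 + (-30) * a ^ 1 * c ^ 2 * k ^ 1 + (-30) * a ^ 2 * c ^ 1 * k ^ 1) * w (b) (c) (-c) + ((30) * a ^ 1 * c ^ 2 * k ^ 1 + (-30) * a ^ 1 * b ^ 1 * c ^ 1 * k ^ 1 + (30) * a ^ 2 * c ^ 1 * k ^ 1) * w (a) (c) (-b) + ((-30) * a ^ 1 * c ^ 2 * k ^ 1 + (30) * a ^ 1 * b ^ 2 * k ^ 1 + (-30) * a ^ 2 * c ^ 1 * k ^ 1) * w (a) (b) (-a) + ((30)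 * b ^ 1 * c ^ 2 * k ^ 1 + (-30) * a ^ 1 * c ^ 2 * k ^ 1 + (30) * a ^ 1 * b ^ 1 * c ^ 1 * k ^ 1 + (-30) * a ^ 2 * c ^ 1 * k ^ 1) * w (a + c) (-c) (-a + b) + ((-30) * a ^ 1 * c ^ 2 * k ^ 1 + (30) * a ^ 1 * b ^ 1 * c ^ 1 * k ^ 1 + (-30) * a ^ 2 * c ^ 1 * k ^ 1 + (30) * a ^ 2 * b ^ 1 * k ^ 1) * w (a + c) (b - c) (-a) + ((-30) * b ^ 2 * c ^ 1 * k ^ 1 + (-30) * a ^ 1 * c ^ 2 * k ^ 1 + (-30) * a ^ 1 * b ^ 2 * k ^ 1 + (-30) * a ^ 2 * c ^ 1 * k ^ 1) * w (a + c) (b) (-a - c) + ((-30) * a ^ 1 * c ^ 2 * k ^ 1 + (-30) * a ^ 1 * b ^ 1 * c ^ 1 * k ^ 1 + (-30) * a ^ 2 * c ^ 1 * k ^ 1 + (-30) * a ^ 2 * b ^ 1 * k ^ 1) * w (a + c) (b) (-a) + ((-30) * b ^ 1 * c ^ 2 * k ^ 1 + (-30) * a ^ 1 * c ^ 2 * k ^ 1 + (-30) * a ^ 1 * b ^ 1 * c ^ 1 * k ^ 1 + (-30) * a ^ 2 * c ^ 1 * k ^ 1) * w (a + c) (b) (-c) + ((-90) * a ^ 1 * c ^ 4 * k ^ 2 + (-180) * a ^ 2 * c ^ 3 *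 k ^ 2 + (-180) * a ^ 3 * c ^ 2 * k ^ 2 + (-90) * a ^ 4 * c ^ 1 * k ^ 2) * W (a + c) (b) (-c) (-a) + ((-30) * a ^ 1 * c ^ 2 * k ^ 1 + (-30) * a ^ 1 * b ^ 1 * c ^ 1 * k ^ 1 + (-30) * a ^ 2 * c ^ 1 * k ^ 1) * w (a + b + c) (-c) (-a) = 0 := by
  have h := h4 (a + c) (b) (-c) (-a)
  have n_0 : w (-c) (-a) ((a + c) + (b)) = w (a + b + c) (-c) (-a) := (((c3 w (by ring : (-c) = (-c)) (by ring : (-a) = (-a)) (by ring : ((a + c) + (b)) = (a + b + c)))).trans (ws1 (-c) (-a) (a + b + c))).trans (ws0 (-c) (a + b + c) (-a))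
  have n_1 : w (b) (-a) ((a + c) + (-c)) = w (a) (b) (-a) := (((c3 w (by ring : (b) = (b)) (by ring : (-a) = (-a)) (by ring : ((a + c) + (-c)) = (a)))).trans (ws1 (b) (-a) (a))).trans (ws0 (b) (a) (-a))
  have n_2 : w (b) (-c) ((a + c) + (-a)) = w (b) (c) (-c) := ((c3 w (by ring : (b) = (b)) (by ring : (-c) = (-c)) (by ring : ((a + c) + (-a)) = (c)))).trans (ws1 (b) (-c) (c))
  have n_3 : w (a + c) (-a) ((b) + (-c)) = w (a + c) (b - c) (-a) := ((c3 w (by ring : (a + c) = (a + c)) (by ring : (-a) = (-a)) (by ring : ((b) + (-c)) = (b - c)))).trans (ws1 (a + c) (-a) (b - c))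
  have n_4 : w (a + c) (-c) ((b) + (-a)) = w (a + c) (-c) (-a + b) := (c3 w (by ring : (a + c) = (a + c)) (by ring : (-c) = (-c)) (by ring : ((b) + (-a)) = (-a + b)))
  have n_5 : w (a + c) (b) ((-c) + (-a)) = w (a + c) (b) (-a - c) := (c3 w (by ring : (a + c) = (a + c)) (by ring : (b) = (b)) (by ring : ((-c) + (-a)) = (-a - c)))
  have n_6 : w (b) (-c) (-a) = -(w (a) (c) (-b)) := (((((c3 w (by ring : (b) = (b)) (by ring : (-c) = (-c)) (by ring : (-a) = (-a)))).trans (wo (by ring : (b) = -(-b)) (by ring : (-c) = -(c)) (by ring : (-a) = -(a)))).trans (congrArg Neg.neg (ws1 (-b) (c) (a)))).trans (congrArg Neg.neg (ws0 (-b) (a) (c)))).trans (congrArg Neg.neg (ws1 (a) (-b) (c)))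
  simp only [n_0, n_1, n_2, n_3, n_4, n_5, n_6] at h
  linear_combination h

theorem L4_9 {K : Type*} [Field K] (k : K) (w : K → K → K → K) (V W : K → K → K → K → K)
    (ws0 : ∀ x y z, w x y z = w y x z) (ws1 : ∀ x y z, w x y z = w x z y)
    (wz : ∀ y z, w 0 y z = 0) (wo : ∀ {x y z x' y' z'}, x = -x' → y = -y' → z = -z' → w x y z = -(w x' y' z'))
    (Vs0 : ∀ x y z t, V x y z t = V y x z t) (Vs1 : ∀ x y z t, V x y z t = V x z y t) (Vs2 : ∀ x y z t, V x y z t = V x y t z)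
    (Vo : ∀ {x y z t x' y' z' t'}, x = -x' → y = -y' → z = -z' → t = -t' → V x y z t = -(V x' y' z' t'))
    (Ws0 : ∀ x y z t, W x y z t = W y x z t) (Ws1 : ∀ x y z t, W x y z t = W x z y t) (Ws2 : ∀ x y z t, W x y z t = W x y t z)
    (Wz : ∀ y z t, W 0 y z t = 0)
    (Wo : ∀ {x y z t x' y' z' t'}, x = -x' → y = -y' → z = -z' → t = -t' → W x y z t = -(W x' y' z' t'))
    (h4 : E4 k w V W) (a b c : K) : ((-6) * a ^ 1 * b ^ 2 * k ^ 1 + (-6) * a ^ 2 * b ^ 1 * k ^ 1) * V (a) (b) (c) (-c) + ((-30) * b ^ 1 * c ^ 2 * k ^ 1 + (30) * a ^ 1 * b ^ 2 * k ^ 1 + (30) * a ^ 2 * b ^ 1 * k ^ 1) * w (b) (c) (-c) + ((-30) * b ^ 2 * c ^ 1 * k ^ 1 + (-30) * a ^ 1 * b ^ 1 * c ^ 1 * k ^ 1 + (30) * a ^ 1 * b ^ 2 * k ^ 1 + (30) * a ^ 2 * b ^ 1 * k ^ 1) * w (a - c) (b) (c) + ((-30) * a ^ 1 * c ^ 2 * k ^ 1 + (30) * a ^ 1 * b ^ 2 * k ^ 1 + (30) * a ^ 2 * b ^ 1 *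 k ^ 1) * w (a) (c) (-c) + ((-30) * a ^ 1 * b ^ 1 * c ^ 1 * k ^ 1 + (30) * a ^ 1 * b ^ 2 * k ^ 1 + (-30) * a ^ 2 * c ^ 1 * k ^ 1 + (30) * a ^ 2 * b ^ 1 * k ^ 1) * w (a) (b - c) (c) + ((-30) * a ^ 1 * b ^ 1 * c ^ 1 * k ^ 1 + (30) * a ^ 1 * b ^ 2 * k ^ 1 + (30) * a ^ 2 * b ^ 1 * k ^ 1) * w (a) (b) (-c) + ((30) * a ^ 1 * b ^ 1 * c ^ 1 * k ^ 1 + (30) * a ^ 1 * b ^ 2 * k ^ 1 + (30) * a ^ 2 * b ^ 1 * k ^ 1) * w (a) (b) (c) + ((90) * a ^ 1 * b ^ 4 * k ^ 2 + (180) * a ^ 2 * b ^ 3 * k ^ 2 + (180) * a ^ 3 * b ^ 2 * k ^ 2 + (90) * a ^ 4 * b ^ 1 * k ^ 2) * W (a) (b) (c) (-c) + ((30) * a ^ 1 * b ^ 1 * c ^ 1 * k ^ 1 + (30) * a ^ 1 * b ^ 2 * k ^ 1 + (30) * a ^ 2 * c ^ 1 * k ^ 1 + (30) * a ^ 2 * b ^ 1 * k ^ 1) * w (a) (b + c) (-c) + ((30) * b ^ 2 * c ^ 1 * k ^ 1 + (30) * a ^ 1 * b ^ 1 * c ^ 1 * k ^ 1 + (30) * a ^ 1 * b ^ 2 * k ^ 1 + (30) * a ^ 2 * b ^ 1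 * k ^ 1) * w (a + c) (b) (-c) + ((30) * b ^ 1 * c ^ 2 * k ^ 1 + (30) * a ^ 1 * c ^ 2 * k ^ 1 + (30) * a ^ 1 * b ^ 2 * k ^ 1 + (30) * a ^ 2 * b ^ 1 * k ^ 1) * w (a + b) (c) (-c) = 0 := by
  have h := h4 (a) (b) (c) (-c)
  have n_0 : w (c) (-c) ((a) + (b)) = w (a + b) (c) (-c) := (((c3 w (by ring : (c) = (c)) (by ring : (-c) = (-c)) (by ring : ((a) + (b)) = (a + b)))).trans (ws1 (c) (-c) (a + b))).trans (ws0 (c) (a + b) (-c))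
  have n_1 : w (b) (-c) ((a) + (c)) = w (a + c) (b) (-c) := (((c3 w (by ring : (b) = (b)) (by ring : (-c) = (-c)) (by ring : ((a) + (c)) = (a + c)))).trans (ws1 (b) (-c) (a + c))).trans (ws0 (b) (a + c) (-c))
  have n_2 : w (b) (c) ((a) + (-c)) = w (a - c) (b) (c) := (((c3 w (by ring : (b) = (b)) (by ring : (c) = (c)) (by ring : ((a) + (-c)) = (a - c)))).trans (ws1 (b) (c) (a - c))).trans (ws0 (b) (a - c) (c))
  have n_3 : w (a) (-c) ((b) + (c)) = w (a) (b + c) (-c) := ((c3 w (by ring : (a) = (a)) (by ring : (-c) = (-c)) (by ring : ((b) + (c)) = (b + c)))).trans (ws1 (a) (-c) (b + c))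
  have n_4 : w (a) (c) ((b) + (-c)) = w (a) (b - c) (c) := ((c3 w (by ring : (a) = (a)) (by ring : (c) = (c)) (by ring : ((b) + (-c)) = (b - c)))).trans (ws1 (a) (c) (b - c))
  have n_5 : w (a) (b) ((c) + (-c)) = 0 := ((((c3 w (by ring : (a) = (a)) (by ring : (b) = (b)) (by ring : ((c) + (-c)) = (0)))).trans (ws1 (a) (b) (0))).trans (ws0 (a) (0) (b))).trans (wz (a) (b))
  simp only [n_0, n_1, n_2, n_3, n_4, n_5] at h
  linear_combination h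

theorem L4_10 {K : Type*} [Field K] (k : K) (w : K → K → K → K) (V W : K → K → K → K → K)
    (ws0 : ∀ x y z, w x y z = w y x z) (ws1 : ∀ x y z, w x y z = w x z y)
    (wz : ∀ y z, w 0 y z = 0) (wo : ∀ {x y z x' y' z'}, x = -x' → y = -y' → z = -z' → w x y z = -(w x' y' z'))
    (Vs0 : ∀ x y z t, V x y z t = V y x z t) (Vs1 : ∀ x y z t, V x y z t = V x z y t) (Vs2 : ∀ x y z t, V x y z t = V x y t z)
    (Vo : ∀ {x y z t x' y' z' t'}, x = -x' → y = -y' → z = -z' → t = -t' → V x y z t = -(V x' y' z' t'))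
    (Ws0 : ∀ x y z t, W x y z t = W y x z t) (Ws1 : ∀ x y z t, W x y z t = W x z y t) (Ws2 : ∀ x y z t, W x y z t = W x y t z)
    (Wz : ∀ y z t, W 0 y z t = 0)
    (Wo : ∀ {x y z t x' y' z' t'}, x = -x' → y = -y' → z = -z' → t = -t' → W x y z t = -(W x' y' z' t'))
    (h4 : E4 k w V W) (a b c : K) : ((-6) * b ^ 1 * c ^ 2 * k ^ 1 + (6) * b ^ 2 * c ^ 1 * k ^ 1) * V (a) (b) (-c) (-a) + ((-30) * b ^ 1 * c ^ 2 * k ^ 1 + (30) * b ^ 2 * c ^ 1 * k ^ 1 + (30) * a ^ 1 * b ^ 1 * c ^ 1 * k ^ 1 + (-30) * a ^ 1 * b ^ 2 * k ^ 1) * w (a) (-b) (-a + c) + ((30) * b ^ 1 * c ^ 2 * k ^ 1 + (-30) * b ^ 2 * c ^ 1 * k ^ 1 + (-30) * a ^ 1 * c ^ 2 * k ^ 1 + (30) * a ^ 1 * b ^ 1 * c ^ 1 * k ^ 1) * w (a) (-c) (-a + b) + ((-30) * b ^ 1 * c ^ 2 * k ^ 1 + (30) * b ^ 2 * c ^ 1 * k ^ 1 + (-30) * a ^ 2 * c ^ 1 * k ^ 1) * w (a) (c) (-a) + ((-30) * b ^ 1 * c ^ 2 * k ^ 1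 + (30) * b ^ 2 * c ^ 1 * k ^ 1 + (-30) * a ^ 1 * b ^ 1 * c ^ 1 * k ^ 1) * w (a) (c) (-b) + ((30) * b ^ 1 * c ^ 2 * k ^ 1 + (-30) * b ^ 2 * c ^ 1 * k ^ 1 + (-30) * a ^ 2 * c ^ 1 * k ^ 1 + (30) * a ^ 2 * b ^ 1 * k ^ 1) * w (a) (b - c) (-a) + ((30) * b ^ 1 * c ^ 2 * k ^ 1 + (-30) * b ^ 2 * c ^ 1 * k ^ 1 + (-30) * a ^ 2 * b ^ 1 * k ^ 1) * w (a) (b) (-a) + ((30) * b ^ 1 * c ^ 2 * k ^ 1 + (-30) * b ^ 2 * c ^ 1 * k ^ 1 + (-30) * a ^ 1 * b ^ 1 * c ^ 1 * k ^ 1) * w (a) (b) (-c) + ((90) * b ^ 1 * c ^ 4 * k ^ 2 + (-180) * b ^ 2 * c ^ 3 * k ^ 2 + (180) * b ^ 3 * c ^ 2 * k ^ 2 + (-90) * b ^ 4 * c ^ 1 * k ^ 2) * W (a) (b) (-c) (-a) + ((-30) * b ^ 1 * c ^ 2 * k ^ 1 + (30) * b ^ 2 * c ^ 1 * k ^ 1 + (-30) * a ^ 1 * b ^ 1 * c ^ 1 * k ^ 1 + (30) * a ^ 1 * b ^ 2 * k ^ 1) * w (a + c) (-b) (-a) + ((30) * b ^ 1 * c ^ 2 * k ^ 1 + (-30) * b ^ 2 * c ^ 1 * k ^ 1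 + (30) * a ^ 1 * c ^ 2 * k ^ 1 + (-30) * a ^ 1 * b ^ 1 * c ^ 1 * k ^ 1) * w (a + b) (-c) (-a) = 0 := by
  have h := h4 (a) (b) (-c) (-a)
  have n_0 : w (-c) (-a) ((a) + (b)) = w (a + b) (-c) (-a) := (((c3 w (by ring : (-c) = (-c)) (by ring : (-a) = (-a)) (by ring : ((a) + (b)) = (a + b)))).trans (ws1 (-c) (-a) (a + b))).trans (ws0 (-c) (a + b) (-a))
  have n_1 : w (b) (-a) ((a) + (-c)) = -(w (a) (-b) (-a + c)) := (((c3 w (by ring : (b) = (b)) (by ring : (-a) = (-a)) (by ring : ((a) + (-c)) = (a - c)))).trans (wo (by ring : (b) = -(-b)) (by ring : (-a) = -(a)) (by ring : (a - c) = -(-a + c)))).trans (congrArg Neg.neg (ws0 (-b) (a) (-a + c)))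
  have n_2 : w (b) (-c) ((a) + (-a)) = 0 := ((((c3 w (by ring : (b) = (b)) (by ring : (-c) = (-c)) (by ring : ((a) + (-a)) = (0)))).trans (ws1 (b) (-c) (0))).trans (ws0 (b) (0) (-c))).trans (wz (b) (-c))
  have n_3 : w (a) (-a) ((b) + (-c)) = w (a) (b - c) (-a) := ((c3 w (by ring : (a) = (a)) (by ring : (-a) = (-a)) (by ring : ((b) + (-c)) = (b - c)))).trans (ws1 (a) (-a) (b - c))
  have n_4 : w (a) (-c) ((b) + (-a)) = w (a) (-c) (-a + b) := (c3 w (by ring : (a) = (a)) (by ring : (-c) = (-c)) (by ring : ((b) + (-a)) = (-a + b)))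
  have n_5 : w (a) (b) ((-c) + (-a)) = -(w (a + c) (-b) (-a)) := (((((c3 w (by ring : (a) = (a)) (by ring : (b) = (b)) (by ring : ((-c) + (-a)) = (-a - c)))).trans (wo (by ring : (a) = -(-a)) (by ring : (b) = -(-b)) (by ring : (-a - c) = -(a + c)))).trans (congrArg Neg.neg (ws1 (-a) (-b) (a + c)))).trans (congrArg Neg.neg (ws0 (-a) (a + c) (-b)))).trans (congrArg Neg.neg (ws1 (a + c) (-a) (-b)))
  have n_6 : w (a) (-c) (-a) = -(w (a) (c) (-a)) := (((((c3 w (by ring : (a) = (a)) (by ring : (-c) = (-c)) (by ring : (-a) = (-a)))).trans (wo (by ring : (a) = -(-a)) (by ring : (-c) = -(c)) (by ring : (-a) = -(a)))).trans (congrArg Neg.neg (ws1 (-a) (c) (a)))).trans (congrArg Neg.neg (ws0 (-a) (a) (c)))).trans (congrArg Neg.neg (ws1 (a) (-a) (c)))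
  have n_7 : w (b) (-c) (-a) = -(w (a) (c) (-b)) := (((((c3 w (by ring : (b) = (b)) (by ring : (-c) = (-c)) (by ring : (-a) = (-a)))).trans (wo (by ring : (b) = -(-b)) (by ring : (-c) = -(c)) (by ring : (-a) = -(a)))).trans (congrArg Neg.neg (ws1 (-b) (c) (a)))).trans (congrArg Neg.neg (ws0 (-b) (a) (c)))).trans (congrArg Neg.neg (ws1 (a) (-b) (c)))
  simp only [n_0, n_1, n_2, n_3, n_4, n_5, n_6, n_7] at h
  linear_combination h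

theorem L4_11 {K : Type*} [Field K] (k : K) (w : K → K → K → K) (V W : K → K → K → K → K)
    (ws0 : ∀ x y z, w x y z = w y x z) (ws1 : ∀ x y z, w x y z = w x z y)
    (wz : ∀ y z, w 0 y z = 0) (wo : ∀ {x y z x' y' z'}, x = -x' → y = -y' → z = -z' → w x y z = -(w x' y' z'))
    (Vs0 : ∀ x y z t, V x y z t = V y x z t) (Vs1 : ∀ x y z t, V x y z t = V x z y t) (Vs2 : ∀ x y z t, V x y z t = V x y t z)
    (Vo : ∀ {x y z t x' y' z' t'}, x = -x' → y = -y' → z = -z' → t = -t' → V x y z t = -(V x' y' z' t'))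
    (Ws0 : ∀ x y z t, W x y z t = W y x z t) (Ws1 : ∀ x y z t, W x y z t = W x z y t) (Ws2 : ∀ x y z t, W x y z t = W x y t z)
    (Wz : ∀ y z t, W 0 y z t = 0)
    (Wo : ∀ {x y z t x' y' z' t'}, x = -x' → y = -y' → z = -z' → t = -t' → W x y z t = -(W x' y' z' t'))
    (h4 : E4 k w V W) (a b c : K) : ((-6) * b ^ 1 * c ^ 2 * k ^ 1 + (-6) * b ^ 2 * c ^ 1 * k ^ 1) * V (a) (b) (c) (-a) + ((-30) * b ^ 1 * c ^ 2 * k ^ 1 + (-30) * b ^ 2 * c ^ 1 * k ^ 1 + (30) * a ^ 1 * b ^ 1 * c ^ 1 * k ^ 1) * w (a) (-c) (-b) + ((30) * b ^ 1 * c ^ 2 * k ^ 1 + (30) * b ^ 2 * c ^ 1 * k ^ 1 + (-30) * a ^ 2 * c ^ 1 * k ^ 1) * w (a) (c) (-a) + ((30) * b ^ 1 * c ^ 2 * k ^ 1 + (30) * b ^ 2 * c ^ 1 * k ^ 1 + (-30) * a ^ 1 * c ^ 2 * k ^ 1 + (-30) * a ^ 1 * b ^ 1 * c ^ 1 * k ^ 1) * w (a) (c) (-a + b) + ((30) * b ^ 1 * c ^ 2 * k ^ 1 + (30) * b ^ 2 * c ^ 1 * k ^ 1 + (-30)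 * a ^ 2 * b ^ 1 * k ^ 1) * w (a) (b) (-a) + ((30) * b ^ 1 * c ^ 2 * k ^ 1 + (30) * b ^ 2 * c ^ 1 * k ^ 1 + (-30) * a ^ 1 * b ^ 1 * c ^ 1 * k ^ 1 + (-30) * a ^ 1 * b ^ 2 * k ^ 1) * w (a) (b) (-a + c) + ((30) * b ^ 1 * c ^ 2 * k ^ 1 + (30) * b ^ 2 * c ^ 1 * k ^ 1 + (30) * a ^ 1 * b ^ 1 * c ^ 1 * k ^ 1) * w (a) (b) (c) + ((90) * b ^ 1 * c ^ 4 * k ^ 2 + (180) * b ^ 2 * c ^ 3 * k ^ 2 + (180) * b ^ 3 * c ^ 2 * k ^ 2 + (90) * b ^ 4 * c ^ 1 * k ^ 2) * W (a) (b) (c) (-a) + ((30) * b ^ 1 * c ^ 2 * k ^ 1 + (30) * b ^ 2 * c ^ 1 * k ^ 1 + (30) * a ^ 2 * c ^ 1 * k ^ 1 + (30) * a ^ 2 * b ^ 1 * k ^ 1) * w (a) (b + c) (-a) + ((30) * b ^ 1 * c ^ 2 * k ^ 1 + (30) * b ^ 2 * c ^ 1 * k ^ 1 + (30) * a ^ 1 * b ^ 1 * c ^ 1 * k ^ 1 + (30) * a ^ 1 * b ^ 2 * k ^ 1) * w (a + c) (b) (-a) + ((30) * b ^ 1 * c ^ 2 * k ^ 1 + (30) * b ^ 2 * c ^ 1 * k ^ 1 + (30) * a ^ 1 *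 c ^ 2 * k ^ 1 + (30) * a ^ 1 * b ^ 1 * c ^ 1 * k ^ 1) * w (a + b) (c) (-a) = 0 := by
  have h := h4 (a) (b) (c) (-a)
  have n_0 : w (c) (-a) ((a) + (b)) = w (a + b) (c) (-a) := (((c3 w (by ring : (c) = (c)) (by ring : (-a) = (-a)) (by ring : ((a) + (b)) = (a + b)))).trans (ws1 (c) (-a) (a + b))).trans (ws0 (c) (a + b) (-a))
  have n_1 : w (b) (-a) ((a) + (c)) = w (a + c) (b) (-a) := (((c3 w (by ring : (b) = (b)) (by ring : (-a) = (-a)) (by ring : ((a) + (c)) = (a + c)))).trans (ws1 (b) (-a) (a + c))).trans (ws0 (b) (a + c) (-a))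
  have n_2 : w (b) (c) ((a) + (-a)) = 0 := ((((c3 w (by ring : (b) = (b)) (by ring : (c) = (c)) (by ring : ((a) + (-a)) = (0)))).trans (ws1 (b) (c) (0))).trans (ws0 (b) (0) (c))).trans (wz (b) (c))
  have n_3 : w (a) (-a) ((b) + (c)) = w (a) (b + c) (-a) := ((c3 w (by ring : (a) = (a)) (by ring : (-a) = (-a)) (by ring : ((b) + (c)) = (b + c)))).trans (ws1 (a) (-a) (b + c))
  have n_4 : w (a) (c) ((b) + (-a)) = w (a) (c) (-a + b) := (c3 w (by ring : (a) = (a)) (by ring : (c) = (c)) (by ring : ((b) + (-a)) = (-a + b)))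
  have n_5 : w (a) (b) ((c) + (-a)) = w (a) (b) (-a + c) := (c3 w (by ring : (a) = (a)) (by ring : (b) = (b)) (by ring : ((c) + (-a)) = (-a + c)))
  have n_6 : w (b) (c) (-a) = -(w (a) (-c) (-b)) := (((((c3 w (by ring : (b) = (b)) (by ring : (c) = (c)) (by ring : (-a) = (-a)))).trans (wo (by ring : (b) = -(-b)) (by ring : (c) = -(-c)) (by ring : (-a) = -(a)))).trans (congrArg Neg.neg (ws1 (-b) (-c) (a)))).trans (congrArg Neg.neg (ws0 (-b) (a) (-c)))).trans (congrArg Neg.neg (ws1 (a) (-b) (-c)))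
  simp only [n_0, n_1, n_2, n_3, n_4, n_5, n_6] at h
  linear_combination h

set_option maxHeartbeats 4000000 in
theorem L5 {K : Type*} [Field K] (k : K) (w : K → K → K → K) (V W : K → K → K → K → K)
    (ws0 : ∀ x y z, w x y z = w y x z) (ws1 : ∀ x y z, w x y z = w x z y)
    (wz : ∀ y z, w 0 y z = 0) (wo : ∀ {x y z x' y' z'}, x = -x' → y = -y' → z = -z' → w x y z = -(w x' y' z'))
    (Vs0 : ∀ x y z t, V x y z t = V y x z t) (Vs1 : ∀ x y z t, V x y z t = V x z y t) (Vs2 : ∀ x y z t, V x y z t = V x y t z)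
    (Vo : ∀ {x y z t x' y' z' t'}, x = -x' → y = -y' → z = -z' → t = -t' → V x y z t = -(V x' y' z' t'))
    (Ws0 : ∀ x y z t, W x y z t = W y x z t) (Ws1 : ∀ x y z t, W x y z t = W x z y t) (Ws2 : ∀ x y z t, W x y z t = W x y t z)
    (Wz : ∀ y z t, W 0 y z t = 0)
    (Wo : ∀ {x y z t x' y' z' t'}, x = -x' → y = -y' → z = -z' → t = -t' → W x y z t = -(W x' y' z' t'))
    (h4 : E4 k w V W)
    (V5 W5 : K → K → K → K → K → K) (h5 : E5 k w V W V5 W5) (a b c : K) : ((2) * c ^ 1 + (-2) * a ^ 1) * V (a) (-c) (-b) (-a + c) + ((2) * b ^ 1 + (-2) * a ^ 1) * V (a) (c) (-c) (-a + b) + ((2) * b ^ 1 + (-2) * a ^ 1) * V (a) (c) (-c) (-b) + ((-2) * c ^ 1 + (2) * b ^ 1) * V (a) (b - c) (c) (-a) + ((2) * c ^ 1 + (-2) * b ^ 1) * V (a) (b) (-c) (-a) + ((2) * c ^ 1 + (-2) * a ^ 1) * V (a) (b) (-c) (-a + c) + ((-2) * c ^ 1 + (-2) * b ^ 1) * V (a) (b) (c) (-a)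 + ((-2) * b ^ 1 + (-2) * a ^ 1) * V (a) (b) (c) (-c) + ((2) * c ^ 1 + (2) * b ^ 1) * V (a) (b + c) (-c) (-a) + ((2) * c ^ 1 + (2) * a ^ 1) * V (a + c) (-c) (-b) (-a) + ((2) * c ^ 1 + (2) * a ^ 1) * V (a + c) (b) (-c) (-a) + ((2) * b ^ 1 + (2) * a ^ 1) * V (a + b) (c) (-c) (-a) + ((-30) * c ^ 1 + (-30) * b ^ 1 + (30) * a ^ 1) * w (a) (-c) (-a + b + c) + ((-30) * c ^ 1 + (-30) * b ^ 1 + (30) * a ^ 1) * w (a) (-c) (-b) + ((-30) * c ^ 3 * k ^ 1 + (60) * a ^ 1 * c ^ 2 * k ^ 1 + (-60) * a ^ 2 * c ^ 1 * k ^ 1 + (30) * a ^ 3 * k ^ 1) * W (a) (-c) (-b) (-a + c) + ((60) * c ^ 1) * w (a) (c) (-a) + ((30) * c ^ 1 + (-30) * b ^ 1 + (30) * a ^ 1) * w (a) (c) (-a + b - c) + ((30) * c ^ 1 + (-30) * b ^ 1 + (30) * a ^ 1) * w (a) (c) (-b) + ((60) * a ^ 1) * w (a) (c) (-c) + ((-30) * b ^ 3 * k ^ 1 + (60) * a ^ 1 * b ^ 2 * k ^ 1 + (-60) * a ^ 2 * b ^ 1 * k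 ^ 1 + (30) * a ^ 3 * k ^ 1) * W (a) (c) (-c) (-a + b) + ((-30) * b ^ 3 * k ^ 1 + (60) * a ^ 1 * b ^ 2 * k ^ 1 + (-60) * a ^ 2 * b ^ 1 * k ^ 1 + (30) * a ^ 3 * k ^ 1) * W (a) (c) (-c) (-b) + ((30) * c ^ 3 * k ^ 1 + (-60) * b ^ 1 * c ^ 2 * k ^ 1 + (60) * b ^ 2 * c ^ 1 * k ^ 1 + (-30) * b ^ 3 * k ^ 1) * W (a) (b - c) (c) (-a) + ((-30) * c ^ 1 + (30) * b ^ 1 + (30) * a ^ 1) * w (a) (b) (-c) + ((-30) * c ^ 3 * k ^ 1 + (60) * b ^ 1 * c ^ 2 * k ^ 1 + (-60) * b ^ 2 * c ^ 1 * k ^ 1 + (30) * b ^ 3 * k ^ 1) * W (a) (b) (-c) (-a) + ((-30) * c ^ 3 * k ^ 1 + (60) * a ^ 1 * c ^ 2 * k ^ 1 + (-60) * a ^ 2 * c ^ 1 * k ^ 1 + (30) * a ^ 3 * k ^ 1) * W (a) (b) (-c) (-a + c) + ((30) * c ^ 1 + (30) * b ^ 1 + (30) * a ^ 1) * w (a) (b) (c) + ((30) * c ^ 3 * k ^ 1 + (60) * b ^ 1 * c ^ 2 * k ^ 1 + (60) * b ^ 2 * c ^ 1 * k ^ 1 + (30) * b ^ 3 * k ^ 1) * W (a) (b) (c)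 (-a) + ((30) * b ^ 3 * k ^ 1 + (60) * a ^ 1 * b ^ 2 * k ^ 1 + (60) * a ^ 2 * b ^ 1 * k ^ 1 + (30) * a ^ 3 * k ^ 1) * W (a) (b) (c) (-c) + ((-30) * c ^ 3 * k ^ 1 + (-60) * b ^ 1 * c ^ 2 * k ^ 1 + (-60) * b ^ 2 * c ^ 1 * k ^ 1 + (-30) * b ^ 3 * k ^ 1) * W (a) (b + c) (-c) (-a) + ((-30) * c ^ 3 * k ^ 1 + (-60) * a ^ 1 * c ^ 2 * k ^ 1 + (-60) * a ^ 2 * c ^ 1 * k ^ 1 + (-30) * a ^ 3 * k ^ 1) * W (a + c) (-c) (-b) (-a) + ((-30) * c ^ 3 * k ^ 1 + (-60) * a ^ 1 * c ^ 2 * k ^ 1 + (-60) * a ^ 2 * c ^ 1 * k ^ 1 + (-30) * a ^ 3 * k ^ 1) * W (a + c) (b) (-c) (-a) + ((30) * c ^ 1 + (-30) * b ^ 1 + (-30) * a ^ 1) * w (a + b - c) (c) (-a) + ((-30) * b ^ 3 * k ^ 1 + (-60) * a ^ 1 * b ^ 2 * k ^ 1 + (-60) * a ^ 2 * b ^ 1 * k ^ 1 + (-30) * a ^ 3 * k ^ 1) * W (a + b) (c) (-c) (-a) + ((-30) * c ^ 1 + (-30) * b ^ 1 + (-30) * a ^ 1) * w (a + b + c) (-c) (-a) =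 0 := by
  have h := h5 a (-a) c (-c) b
  have n_0 : W c (-c) b (a + (-a)) = 0 := (((((c4 W (by ring : c = (c)) (by ring : (-c) = (-c)) (by ring : b = (b)) (by ring : (a + (-a)) = (0)))).trans (Ws2 (c) (-c) (b) (0))).trans (Ws1 (c) (-c) (0) (b))).trans (Ws0 (c) (0) (-c) (b))).trans (Wz (c) (-c) (b))
  have n_1 : V (-a) (-c) b (a + c) = V (a + c) (b) (-c) (-a) := (((((((c4 V (by ring : (-a) = (-a)) (by ring : (-c) = (-c)) (by ring : b = (b)) (by ring : (a + c) = (a + c)))).trans (Vs2 (-a) (-c) (b) (a + c))).trans (Vs1 (-a) (-c) (a + c) (b))).trans (Vs0 (-a) (a + c) (-c) (b))).trans (Vs2 (a + c) (-a) (-c) (b))).trans (Vs1 (a + c) (-a) (b) (-c))).trans (Vs2 (a + c) (b) (-a) (-c))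
  have n_2 : W (-a) (-c) b (a + c) = W (a + c) (b) (-c) (-a) := (((((((c4 W (by ring : (-a) = (-a)) (by ring : (-c) = (-c)) (by ring : b = (b)) (by ring : (a + c) = (a + c)))).trans (Ws2 (-a) (-c) (b) (a + c))).trans (Ws1 (-a) (-c) (a + c) (b))).trans (Ws0 (-a) (a + c) (-c) (b))).trans (Ws2 (a + c) (-a) (-c) (b))).trans (Ws1 (a + c) (-a) (b) (-c))).trans (Ws2 (a + c) (b) (-a) (-c))
  have n_3 : V (-a) c b (a + (-c)) = -(V (a) (-c) (-b) (-a + c)) := ((c4 V (by ring : (-a) = (-a)) (by ring : c = (c)) (by ring : b = (b)) (by ring : (a + (-c)) = (a - c)))).trans (Vo (by ring : (-a) = -(a)) (by ring : (c) = -(-c)) (by ring : (b) = -(-b)) (by ring : (a - c) = -(-a + c)))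
  have n_4 : W (-a) c b (a + (-c)) = -(W (a) (-c) (-b) (-a + c)) := ((c4 W (by ring : (-a) = (-a)) (by ring : c = (c)) (by ring : b = (b)) (by ring : (a + (-c)) = (a - c)))).trans (Wo (by ring : (-a) = -(a)) (by ring : (c) = -(-c)) (by ring : (b) = -(-b)) (by ring : (a - c) = -(-a + c)))
  have n_5 : V (-a) c (-c) (a + b) = V (a + b) (c) (-c) (-a) := ((((((c4 V (by ring : (-a) = (-a)) (by ring : c = (c)) (by ring : (-c) = (-c)) (by ring : (a + b) = (a + b)))).trans (Vs2 (-a) (c) (-c) (a + b))).trans (Vs1 (-a) (c) (a + b) (-c))).trans (Vs0 (-a) (a + b) (c) (-c))).trans (Vs1 (a + b) (-a) (c) (-c))).trans (Vs2 (a + b) (c) (-a) (-c))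
  have n_6 : W (-a) c (-c) (a + b) = W (a + b) (c) (-c) (-a) := ((((((c4 W (by ring : (-a) = (-a)) (by ring : c = (c)) (by ring : (-c) = (-c)) (by ring : (a + b) = (a + b)))).trans (Ws2 (-a) (c) (-c) (a + b))).trans (Ws1 (-a) (c) (a + b) (-c))).trans (Ws0 (-a) (a + b) (c) (-c))).trans (Ws1 (a + b) (-a) (c) (-c))).trans (Ws2 (a + b) (c) (-a) (-c))
  have n_7 : V a (-c) b ((-a) + c) = V (a) (b) (-c) (-a + c) := ((c4 V (by ring : a = (a)) (by ring : (-c) = (-c)) (by ring : b = (b)) (by ring : ((-a) + c) = (-a + c)))).trans (Vs1 (a) (-c) (b) (-a + c))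
  have n_8 : W a (-c) b ((-a) + c) = W (a) (b) (-c) (-a + c) := ((c4 W (by ring : a = (a)) (by ring : (-c) = (-c)) (by ring : b = (b)) (by ring : ((-a) + c) = (-a + c)))).trans (Ws1 (a) (-c) (b) (-a + c))
  have n_9 : V a c b ((-a) + (-c)) = -(V (a + c) (-c) (-b) (-a)) := (((((((c4 V (by ring : a = (a)) (by ring : c = (c)) (by ring : b = (b)) (by ring : ((-a) + (-c)) = (-a - c)))).trans (Vo (by ring : (a) = -(-a)) (by ring : (c) = -(-c)) (by ring : (b) = -(-b)) (by ring : (-a - c) = -(a + c)))).trans (congrArg Neg.neg (Vs2 (-a) (-c) (-b) (a + c)))).trans (congrArg Neg.neg (Vs1 (-a) (-c) (a + c) (-b)))).trans (congrArg Neg.neg (Vs0 (-a) (a + c) (-c) (-b)))).trans (congrArg Neg.neg (Vs1 (a + c) (-a) (-c) (-b)))).trans (congrArg Neg.neg (Vs2 (a + c) (-c) (-a) (-b)))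
  have n_10 : W a c b ((-a) + (-c)) = -(W (a + c) (-c) (-b) (-a)) := (((((((c4 W (by ring : a = (a)) (by ring : c = (c)) (by ring : b = (b)) (by ring : ((-a) + (-c)) = (-a - c)))).trans (Wo (by ring : (a) = -(-a)) (by ring : (c) = -(-c)) (by ring : (b) = -(-b)) (by ring : (-a - c) = -(a + c)))).trans (congrArg Neg.neg (Ws2 (-a) (-c) (-b) (a + c)))).trans (congrArg Neg.neg (Ws1 (-a) (-c) (a + c) (-b)))).trans (congrArg Neg.neg (Ws0 (-a) (a + c) (-c) (-b)))).trans (congrArg Neg.neg (Ws1 (a + c) (-a) (-c) (-b)))).trans (congrArg Neg.neg (Ws2 (a + c) (-c) (-a) (-b)))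
  have n_11 : V a c (-c) ((-a) + b) = V (a) (c) (-c) (-a + b) := (c4 V (by ring : a = (a)) (by ring : c = (c)) (by ring : (-c) = (-c)) (by ring : ((-a) + b) = (-a + b)))
  have n_12 : W a c (-c) ((-a) + b) = W (a) (c) (-c) (-a + b) := (c4 W (by ring : a = (a)) (by ring : c = (c)) (by ring : (-c) = (-c)) (by ring : ((-a) + b) = (-a + b)))
  have n_13 : W a (-a) b (c + (-c)) = 0 := (((((c4 W (by ring : a = (a)) (by ring : (-a) = (-a)) (by ring : b = (b)) (by ring : (c + (-c)) = (0)))).trans (Ws2 (a) (-a) (b) (0))).trans (Ws1 (a) (-a) (0) (b))).trans (Ws0 (a) (0) (-a) (b))).trans (Wz (a) (-a) (b))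
  have n_14 : V a (-a) (-c) (c + b) = V (a) (b + c) (-c) (-a) := ((((c4 V (by ring : a = (a)) (by ring : (-a) = (-a)) (by ring : (-c) = (-c)) (by ring : (c + b) = (b + c)))).trans (Vs2 (a) (-a) (-c) (b + c))).trans (Vs1 (a) (-a) (b + c) (-c))).trans (Vs2 (a) (b + c) (-a) (-c))
  have n_15 : W a (-a) (-c) (c + b) = W (a) (b + c) (-c) (-a) := ((((c4 W (by ring : a = (a)) (by ring : (-a) = (-a)) (by ring : (-c) = (-c)) (by ring : (c + b) = (b + c)))).trans (Ws2 (a) (-a) (-c) (b + c))).trans (Ws1 (a) (-a) (b + c) (-c))).trans (Ws2 (a) (b + c) (-a) (-c))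
  have n_16 : V a (-a) c ((-c) + b) = V (a) (b - c) (c) (-a) := ((((c4 V (by ring : a = (a)) (by ring : (-a) = (-a)) (by ring : c = (c)) (by ring : ((-c) + b) = (b - c)))).trans (Vs2 (a) (-a) (c) (b - c))).trans (Vs1 (a) (-a) (b - c) (c))).trans (Vs2 (a) (b - c) (-a) (c))
  have n_17 : W a (-a) c ((-c) + b) = W (a) (b - c) (c) (-a) := ((((c4 W (by ring : a = (a)) (by ring : (-a) = (-a)) (by ring : c = (c)) (by ring : ((-c) + b) = (b - c)))).trans (Ws2 (a) (-a) (c) (b - c))).trans (Ws1 (a) (-a) (b - c) (c))).trans (Ws2 (a) (b - c) (-a) (c))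
  have n_18 : V a (-a) c (-c) = V (a) (c) (-c) (-a) := (((c4 V (by ring : a = (a)) (by ring : (-a) = (-a)) (by ring : c = (c)) (by ring : (-c) = (-c)))).trans (Vs1 (a) (-a) (c) (-c))).trans (Vs2 (a) (c) (-a) (-c))
  have n_19 : W a (-a) c (-c) = W (a) (c) (-c) (-a) := (((c4 W (by ring : a = (a)) (by ring : (-a) = (-a)) (by ring : c = (c)) (by ring : (-c) = (-c)))).trans (Ws1 (a) (-a) (c) (-c))).trans (Ws2 (a) (c) (-a) (-c))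
  have n_20 : V a (-a) c b = V (a) (b) (c) (-a) := ((((c4 V (by ring : a = (a)) (by ring : (-a) = (-a)) (by ring : c = (c)) (by ring : b = (b)))).trans (Vs2 (a) (-a) (c) (b))).trans (Vs1 (a) (-a) (b) (c))).trans (Vs2 (a) (b) (-a) (c))
  have n_21 : W a (-a) c b = W (a) (b) (c) (-a) := ((((c4 W (by ring : a = (a)) (by ring : (-a) = (-a)) (by ring : c = (c)) (by ring : b = (b)))).trans (Ws2 (a) (-a) (c) (b))).trans (Ws1 (a) (-a) (b) (c))).trans (Ws2 (a) (b) (-a) (c))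
  have n_22 : V a (-a) (-c) b = V (a) (b) (-c) (-a) := ((((c4 V (by ring : a = (a)) (by ring : (-a) = (-a)) (by ring : (-c) = (-c)) (by ring : b = (b)))).trans (Vs2 (a) (-a) (-c) (b))).trans (Vs1 (a) (-a) (b) (-c))).trans (Vs2 (a) (b) (-a) (-c))
  have n_23 : W a (-a) (-c) b = W (a) (b) (-c) (-a) := ((((c4 W (by ring : a = (a)) (by ring : (-a) = (-a)) (by ring : (-c) = (-c)) (by ring : b = (b)))).trans (Ws2 (a) (-a) (-c) (b))).trans (Ws1 (a) (-a) (b) (-c))).trans (Ws2 (a) (b) (-a) (-c))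
  have n_24 : V a c (-c) b = V (a) (b) (c) (-c) := (((c4 V (by ring : a = (a)) (by ring : c = (c)) (by ring : (-c) = (-c)) (by ring : b = (b)))).trans (Vs2 (a) (c) (-c) (b))).trans (Vs1 (a) (c) (b) (-c))
  have n_25 : W a c (-c) b = W (a) (b) (c) (-c) := (((c4 W (by ring : a = (a)) (by ring : c = (c)) (by ring : (-c) = (-c)) (by ring : b = (b)))).trans (Ws2 (a) (c) (-c) (b))).trans (Ws1 (a) (c) (b) (-c))
  have n_26 : V (-a) c (-c) b = -(V (a) (c) (-c) (-b)) := (((c4 V (by ring : (-a) = (-a)) (by ring : c = (c)) (by ring : (-c) = (-c)) (by ring : b = (b)))).trans (Vo (by ring : (-a) = -(a)) (by ring : (c) = -(-c)) (by ring : (-c) = -(c)) (by ring : (b) = -(-b)))).trans (congrArg Neg.neg (Vs1 (a) (-c) (c) (-b)))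
  have n_27 : W (-a) c (-c) b = -(W (a) (c) (-c) (-b)) := (((c4 W (by ring : (-a) = (-a)) (by ring : c = (c)) (by ring : (-c) = (-c)) (by ring : b = (b)))).trans (Wo (by ring : (-a) = -(a)) (by ring : (c) = -(-c)) (by ring : (-c) = -(c)) (by ring : (b) = -(-b)))).trans (congrArg Neg.neg (Ws1 (a) (-c) (c) (-b)))
  have n_28 : w (-c) b (a + (-a) + c) = w (b) (c) (-c) := (((c3 w (by ring : (-c) = (-c)) (by ring : b = (b)) (by ring : (a + (-a) + c) = (c)))).trans (ws0 (-c) (b) (c))).trans (ws1 (b) (-c) (c))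
  have n_29 : w a (-a) c = w (a) (c) (-a) := ((c3 w (by ring : a = (a)) (by ring : (-a) = (-a)) (by ring : c = (c)))).trans (ws1 (a) (-a) (c))
  have n_30 : w c b (a + (-a) + (-c)) = w (b) (c) (-c) := ((c3 w (by ring : c = (c)) (by ring : b = (b)) (by ring : (a + (-a) + (-c)) = (-c)))).trans (ws0 (c) (b) (-c))
  have n_31 : w a (-a) (-c) = -(w (a) (c) (-a)) := ((((c3 w (by ring : a = (a)) (by ring : (-a) = (-a)) (by ring : (-c) = (-c)))).trans (wo (by ring : (a) = -(-a)) (by ring : (-a) = -(a)) (by ring : (-c) = -(c)))).trans (congrArg Neg.neg (ws0 (-a) (a) (c)))).trans (congrArg Neg.neg (ws1 (a) (-a) (c)))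
  have n_32 : w c (-c) (a + (-a) + b) = w (b) (c) (-c) := (((c3 w (by ring : c = (c)) (by ring : (-c) = (-c)) (by ring : (a + (-a) + b) = (b)))).trans (ws1 (c) (-c) (b))).trans (ws0 (c) (b) (-c))
  have n_33 : w a (-a) b = w (a) (b) (-a) := ((c3 w (by ring : a = (a)) (by ring : (-a) = (-a)) (by ring : b = (b)))).trans (ws1 (a) (-a) (b))
  have n_34 : w (-a) b (a + c + (-c)) = w (a) (b) (-a) := ((((c3 w (by ring : (-a) = (-a)) (by ring : b = (b)) (by ring : (a + c + (-c)) = (a)))).trans (ws1 (-a) (b) (a))).trans (ws0 (-a) (a) (b))).trans (ws1 (a) (-a) (b))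
  have n_35 : w a c (-c) = w (a) (c) (-c) := (c3 w (by ring : a = (a)) (by ring : c = (c)) (by ring : (-c) = (-c)))
  have n_36 : w (-a) (-c) (a + c + b) = w (a + b + c) (-c) (-a) := ((((c3 w (by ring : (-a) = (-a)) (by ring : (-c) = (-c)) (by ring : (a + c + b) = (a + b + c)))).trans (ws1 (-a) (-c) (a + b + c))).trans (ws0 (-a) (a + b + c) (-c))).trans (ws1 (a + b + c) (-a) (-c))
  have n_37 : w a c b = w (a) (b) (c) := ((c3 w (by ring : a = (a)) (by ring : c = (c)) (by ring : b = (b)))).trans (ws1 (a) (c) (b))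
  have n_38 : w (-a) c (a + (-c) + b) = w (a + b - c) (c) (-a) := ((((c3 w (by ring : (-a) = (-a)) (by ring : c = (c)) (by ring : (a + (-c) + b) = (a + b - c)))).trans (ws1 (-a) (c) (a + b - c))).trans (ws0 (-a) (a + b - c) (c))).trans (ws1 (a + b - c) (-a) (c))
  have n_39 : w a (-c) b = w (a) (b) (-c) := ((c3 w (by ring : a = (a)) (by ring : (-c) = (-c)) (by ring : b = (b)))).trans (ws1 (a) (-c) (b))
  have n_40 : w a b ((-a) + c + (-c)) = w (a) (b) (-a) := (c3 w (by ring : a = (a)) (by ring : b = (b)) (by ring : ((-a) + c + (-c)) = (-a)))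
  have n_41 : w (-a) c (-c) = -(w (a) (c) (-c)) := (((c3 w (by ring : (-a) = (-a)) (by ring : c = (c)) (by ring : (-c) = (-c)))).trans (wo (by ring : (-a) = -(a)) (by ring : (c) = -(-c)) (by ring : (-c) = -(c)))).trans (congrArg Neg.neg (ws1 (a) (-c) (c)))
  have n_42 : w a (-c) ((-a) + c + b) = w (a) (-c) (-a + b + c) := (c3 w (by ring : a = (a)) (by ring : (-c) = (-c)) (by ring : ((-a) + c + b) = (-a + b + c)))
  have n_43 : w (-a) c b = -(w (a) (-c) (-b)) := ((c3 w (by ring : (-a) = (-a)) (by ring : c = (c)) (by ring : b = (b)))).trans (wo (by ring : (-a) = -(a)) (by ring : (c) = -(-c)) (by ring : (b) = -(-b)))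
  have n_44 : w a c ((-a) + (-c) + b) = w (a) (c) (-a + b - c) := (c3 w (by ring : a = (a)) (by ring : c = (c)) (by ring : ((-a) + (-c) + b) = (-a + b - c)))
  have n_45 : w (-a) (-c) b = -(w (a) (c) (-b)) := ((c3 w (by ring : (-a) = (-a)) (by ring : (-c) = (-c)) (by ring : b = (b)))).trans (wo (by ring : (-a) = -(a)) (by ring : (-c) = -(c)) (by ring : (b) = -(-b)))
  have n_46 : w a (-a) (c + (-c) + b) = w (a) (b) (-a) := ((c3 w (by ring : a = (a)) (by ring : (-a) = (-a)) (by ring : (c + (-c) + b) = (b)))).trans (ws1 (a) (-a) (b))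
  have n_47 : w c (-c) b = w (b) (c) (-c) := (((c3 w (by ring : c = (c)) (by ring : (-c) = (-c)) (by ring : b = (b)))).trans (ws1 (c) (-c) (b))).trans (ws0 (c) (b) (-c))
  simp only [n_0, n_1, n_2, n_3, n_4, n_5, n_6, n_7, n_8, n_9, n_10, n_11, n_12, n_13, n_14, n_15, n_16, n_17, n_18, n_19, n_20, n_21, n_22, n_23, n_24, n_25, n_26, n_27, n_28, n_29, n_30, n_31, n_32, n_33, n_34, n_35, n_36, n_37, n_38, n_39, n_40, n_41, n_42, n_43, n_44, n_45, n_46, n_47] at h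
  linear_combination h

set_option maxHeartbeats 4000000 in
theorem T2 {K : Type*} [Field K] (k : K) (w : K → K → K → K) (V W : K → K → K → K → K)
    (ws0 : ∀ x y z, w x y z = w y x z) (ws1 : ∀ x y z, w x y z = w x z y)
    (wz : ∀ y z, w 0 y z = 0) (wo : ∀ {x y z x' y' z'}, x = -x' → y = -y' → z = -z' → w x y z = -(w x' y' z'))
    (Vs0 : ∀ x y z t, V x y z t = V y x z t) (Vs1 : ∀ x y z t, V x y z t = V x z y t) (Vs2 : ∀ x y z t, V x y z t = V x y t z)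
    (Vo : ∀ {x y z t x' y' z' t'}, x = -x' → y = -y' → z = -z' → t = -t' → V x y z t = -(V x' y' z' t'))
    (Ws0 : ∀ x y z t, W x y z t = W y x z t) (Ws1 : ∀ x y z t, W x y z t = W x z y t) (Ws2 : ∀ x y z t, W x y z t = W x y t z)
    (Wz : ∀ y z t, W 0 y z t = 0)
    (Wo : ∀ {x y z t x' y' z' t'}, x = -x' → y = -y' → z = -z' → t = -t' → W x y z t = -(W x' y' z' t'))
    (h4 : E4 k w V W)
    (V5 W5 : K → K → K → K → K → K) (h5 : E5 k w V W V5 W5) (a b c : K) :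
    60 * k * (a * b * c) * (c * w (a) (c) (-a) + a * w (a) (c) (-c)) = 0 := by
  have g0 := L4_0 k w V W ws0 ws1 wz wo Vs0 Vs1 Vs2 Vo Ws0 Ws1 Ws2 Wz Wo h4 a b c
  have g1 := L4_1 k w V W ws0 ws1 wz wo Vs0 Vs1 Vs2 Vo Ws0 Ws1 Ws2 Wz Wo h4 a b c
  have g2 := L4_2 k w V W ws0 ws1 wz wo Vs0 Vs1 Vs2 Vo Ws0 Ws1 Ws2 Wz Wo h4 a b c
  have g3 := L4_3 k w V W ws0 ws1 wz wo Vs0 Vs1 Vs2 Vo Ws0 Ws1 Ws2 Wz Wo h4 a b c
  have g4 := L4_4 k w V W ws0 ws1 wz wo Vs0 Vs1 Vs2 Vo Ws0 Ws1 Ws2 Wz Wo h4 a b c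
  have g5 := L4_5 k w V W ws0 ws1 wz wo Vs0 Vs1 Vs2 Vo Ws0 Ws1 Ws2 Wz Wo h4 a b c
  have g6 := L4_6 k w V W ws0 ws1 wz wo Vs0 Vs1 Vs2 Vo Ws0 Ws1 Ws2 Wz Wo h4 a b c
  have g7 := L4_7 k w V W ws0 ws1 wz wo Vs0 Vs1 Vs2 Vo Ws0 Ws1 Ws2 Wz Wo h4 a b c
  have g8 := L4_8 k w V W ws0 ws1 wz wo Vs0 Vs1 Vs2 Vo Ws0 Ws1 Ws2 Wz Wo h4 a b c
  have g9 := L4_9 k w V W ws0 ws1 wz wo Vs0 Vs1 Vs2 Vo Ws0 Ws1 Ws2 Wz Wo h4 a b c
  have g10 := L4_10 k w V W ws0 ws1 wz wo Vs0 Vs1 Vs2 Vo Ws0 Ws1 Ws2 Wz Wo h4 a b c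
  have g11 := L4_11 k w V W ws0 ws1 wz wo Vs0 Vs1 Vs2 Vo Ws0 Ws1 Ws2 Wz Wo h4 a b c
  have hh := L5 k w V W ws0 ws1 wz wo Vs0 Vs1 Vs2 Vo Ws0 Ws1 Ws2 Wz Wo h4 V5 W5 h5 a b c
  linear_combination 3 * a * b * c * k * hh + (a) * g0 + (-a) * g1 + (c) * g2 + (-b) * g3 + (b) * g4 + (c) * g5 + (-c) * g6 + (b) * g7 + (-b) * g8 + (-c) * g9 + (a) * g10 + (-a) * g11

end Pool.Agent.H93RH
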