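import Pool.Agent.H93RH.TayR

open MvPolynomial

namespace Pool.Agent.H93RH

set_option linter.all false

variable {K : Type*} [Field K]

noncomputable def Pq (ρ : ℕ) (c : K) : AA K := C (1 / 2) * X 0 ^ 2 + C c * X ρ

theorem br_Xj (j : ℕ) (G : AA K) : br (X j) G = Sh (j + 1) G - (⇑(D : Derivation K (AA K) (AA K)))^[j + 1] G := by
  unfold br
  rw [D_X, E_Xj, E_X, Dx_zero_fun, Function.iterate_succ_apply]

theorem sy_Diter (l : List K) (k : ℕ) (G : AA K) : sy l ((⇑(D : Derivation K (AA K) (AA K)))^[k] G) = l.sum ^ k * sy l G := by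
  induction k generalizing G with
  | zero => simp
  | succ k ih => rw [Function.iterate_succ_apply, ih, sy_D]; ring

theorem br_Pq (ρ : ℕ) (c : K) (G : AA K) : br (Pq ρ c) G = C (1 / 2) * Lam G + C c * (Sh (ρ + 1) G - (⇑(D : Derivation K (AA K) (AA K)))^[ρ + 1] G) := by
  unfold Pq
  rw [br_add_left, br_smul_left, br_smul_left, br_Xj, br_sq]

theorem cent_q [CharZero K] (ρ : ℕ) (c : K) (G : AA K) (h : br (Pq ρ c) G = 0) (hp : ∀ j, coeff (Finsupp.single 0 j) G = 0) : G = 0 := by
  classical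
  have key : ∀ j : ℕ, ∀ l : List K, G.totalDegree + 1 ≤ l.length + j → sy l G = 0 := by
    intro j
    induction j with
    | zero => intro l hl; exact sy_top G l (by omega)
    | succ j ih =>
      intro l hl
      by_cases hl2 : G.totalDegree + 1 ≤ l.length + j
      · exact ih l hl2
      set M := l.length with hM
      have h1 : Lam (homogeneousComponent M G) = 0 := by
        apply inj_all
        intro l'
        rw [sy_sq_comp]
        split_ifs with hl'
        · have e := congrArg (sy l') h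
          rw [br_Pq, sy_add, sy_C_mul, sy_C_mul, sy_sub, sy_Sh, sy_Diter, ih l' (by omega), sy_zero] at e
          rw [br_sq]
          have e2 : (1 / 2 : K) * sy l' (Lam G) = 0 := by linear_combination e
          exact (mul_eq_zero.1 e2).resolve_left (by norm_num)
        · rfl
      have h2 : homogeneousComponent M G = 0 := by
        apply Lam_inj M _ (homogeneousComponent_isHomogeneous M G)
        · rw [h1, map_zero]
        · intro j'; exact coeff_comp_single M j' G (hp j')
      rw [← sy_comp M G l rfl, h2, sy_zero]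
  exact inj_all G (fun l => key (G.totalDegree + 1) l (by omega))

noncomputable def WW (ρ : ℕ) : Derivation K (AA K) (AA K) := mkDerivation K (fun k => C ((k : K) + ρ) * X k)

theorem WW_X (ρ k : ℕ) : (WW ρ : Derivation K (AA K) (AA K)) (X k) = C ((k : K) + ρ) * X k := by
  simp [WW, mkDerivation_X]

theorem coeff_WW (ρ : ℕ) (G : AA K) (s : ℕ →₀ ℕ) : coeff s (WW ρ G) = ((Rho.wt ρ s : ℕ) : K) * coeff s G := by
  classical
  induction G using MvPolynomial.induction_on' with
  | monomial u a =>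
    rw [diag_monomial (WW ρ) (fun k => (k:K) + ρ) (fun k => by rw [WW_X]), coeff_C_mul, coeff_monomial]
    split_ifs with h
    · subst h
      unfold Rho.wt
      simp only [Finsupp.sum]; push_cast; rfl
    · simp
  | add p q hp hq => rw [map_add, coeff_add, coeff_add, hp, hq]; ring

theorem WW_hom (ρ w : ℕ) (G : AA K) (h : ∀ s, coeff s G ≠ 0 → Rho.wt ρ s = w) : WW ρ G = C (w : K) * G := by
  ext s
  rw [coeff_WW, coeff_C_mul]
  by_cases hs : coeff s G = 0
  · rw [hs]; ring
  · rw [h s hs]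

theorem ee_eq (ρ : ℕ) (G : AA K) : ee G = WW ρ G - C ((ρ : K) - 1) * Sh 0 G - X 0 * pderiv 0 G := by
  have h : (ee : Derivation K (AA K) (AA K)) = WW ρ - (C ((ρ : K) - 1) : AA K) • Sh 0 - (X 0 : AA K) • pderiv 0 := by
    apply der_ext
    intro i
    rw [ee_X, Derivation.sub_apply, Derivation.sub_apply, WW_X, Derivation.smul_apply, Derivation.smul_apply, Sh_X, pderiv_X, smul_eq_mul, smul_eq_mul, add_zero]
    by_cases hi : i = 0
    · subst hi
      simp only [if_true, Pi.single_eq_same, Nat.cast_zero, zero_add, C_sub, C_1]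
      ring
    · rw [if_neg hi, Pi.single_eq_of_ne hi]
      simp only [C_sub, C_add, C_1]
      ring
  have := congrArg (fun d : Derivation K (AA K) (AA K) => d G) h
  simpa only [Derivation.sub_apply, Derivation.smul_apply, smul_eq_mul] using this

theorem sy_ee (ρ w : ℕ) (G : AA K) (h : ∀ s, coeff s G ≠ 0 → Rho.wt ρ s = w) (l : List K) :
    sy l (ee G) = ((w : K) - ((ρ : K) - 1) * l.length) * sy l G - sy l (X 0 * pderiv 0 G) := by
  rw [ee_eq ρ, WW_hom ρ w G h, sy_sub, sy_sub, sy_C_mul, sy_C_mul, sy_Sh]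
  simp only [pow_zero, List.map_const', List.sum_replicate, nsmul_eq_mul, mul_one]
  ring

theorem p1_Diter_gen (n : ℕ) (G : AA K) : pderiv 1 ((⇑(D : Derivation K (AA K) (AA K)))^[n + 1] G) =
    (⇑(D : Derivation K (AA K) (AA K)))^[n + 1] (pderiv 1 G) + C ((n : K) + 1) * (⇑(D : Derivation K (AA K) (AA K)))^[n] (pderiv 0 G) := by
  induction n generalizing G with
  | zero => simp [p1_D]
  | succ n ih =>
    rw [Function.iterate_succ_apply, ih, p1_D, p0_D, ← Function.iterate_succ_apply (⇑(D : Derivation K (AA K) (AA K))) n (pderiv 0 G)]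
    have e : ∀ (m : ℕ) (A B : AA K), (⇑(D : Derivation K (AA K) (AA K)))^[m] (A + B) = (⇑(D : Derivation K (AA K) (AA K)))^[m] A + (⇑(D : Derivation K (AA K) (AA K)))^[m] B := by
      intro m
      induction m with
      | zero => intro A B; rfl
      | succ m ih => intro A B; rw [Function.iterate_succ_apply, map_add, ih]; rfl
    rw [e, ← Function.iterate_succ_apply (⇑(D : Derivation K (AA K) (AA K))) (n + 1) (pderiv 1 G)]
    push_cast
    simp only [C_add, C_1]; ring

theorem p1_Sh_gen (n : ℕ) (hn : 2 ≤ n) (G : AA K) : pderiv 1 (Sh n G) = Sh n (pderiv 1 G) := by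
  have h : ⁅(pderiv 1 : Derivation K (AA K) (AA K)), (Sh n : Derivation K (AA K) (AA K))⁆ = 0 := by
    apply der_ext
    intro i
    rw [Derivation.commutator_apply, Sh_X, pderiv_X, pderiv_X, Derivation.zero_apply, Pi.single_eq_of_ne (by omega)]
    by_cases h1 : i = 1
    · subst h1
      rw [Pi.single_eq_same]
      have : (1 : AA K) = C 1 := by simp
      rw [this, der_C]; simp
    · rw [Pi.single_eq_of_ne (by simpa [eq_comm] using h1), map_zero, sub_zero]
  have := congrArg (fun d : Derivation K (AA K) (AA K) => d G) h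
  simp only [Derivation.commutator_apply, Derivation.zero_apply] at this
  linear_combination this

theorem sy_Lam1 (x : K) (G : AA K) : sy [x] (Lam G) = 0 := by
  rw [← br_sq, sy_br]
  simp only [splits, List.map_cons, List.map_nil, List.map_append, List.cons_append, List.nil_append, List.sum_cons, List.sum_nil, zero_add, add_zero, zero_mul]
  rw [sy_hom_ne 2 _ hom_sq [x] (by simp)]
  ring

theorem sy_Lam2 (x y : K) (G : AA K) : sy [x, y] (Lam G) = 2 * ((x + y) * sy [x + y] G - x * sy [x] G - y * sy [y] G) := by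
  have h1 := lev2P (0 : K) x y G
  have h2 : (P (0 : K)) = X 0 ^ 2 := by unfold P; simp
  rw [h2, br_sq] at h1
  rw [h1]; ring

theorem ell_Pq (ρ : ℕ) (c x : K) (h2 : (2 : K) ≠ 0) : ell x (Pq ρ c) = X 0 + C (c * x ^ ρ) := by
  unfold Pq
  simp only [map_add, Derivation.leibniz, Derivation.leibniz_pow, der_C, ell_X, smul_eq_mul, nsmul_eq_mul, mul_zero, add_zero, pow_zero, map_one, mul_one]
  have e : (C (1 / 2 : K) : AA K) * 2 = 1 := by
    have : (2 : AA K) = C 2 := (map_ofNat C 2).symm
    rw [this, ← C_mul]; rw [one_div, inv_mul_cancel₀ h2, C_1]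
  rw [C_mul]; push_cast
  linear_combination (X 0) * e


theorem quad_alg [CharZero K] (ρ : ℕ) (hρ : 3 ≤ ρ) (c : K) (hc : c ≠ 0) (G : AA K) (hG : br (Pq ρ c) G = 0)
    (hw : ∀ s, coeff s G ≠ 0 → Rho.wt ρ s = 3 * ρ)
    (hp : ∀ j, coeff (Finsupp.single 0 j) G = if j = 3 then 1 / 6 else 0) : False := by
  have h2ne : (2 : K) ≠ 0 := two_ne_zero
  have hρ0 : ρ ≠ 0 := by omega
  haveI : NeZero ρ := ⟨hρ0⟩
  have ell0P : ell 0 (Pq ρ c) = X 0 := by rw [ell_Pq ρ c 0 h2ne, zero_pow hρ0]; simp
  -- ∂₀ G = P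
  have hd0 : pderiv 0 G = Pq ρ c := by
    have h1 := congrArg (ell 0) hG
    rw [ell0_br, ell0P, br_X0, zero_add, map_zero] at h1
    have h2 : br (Pq ρ c) (Pq ρ c) = 0 := by unfold br; ring
    have h3 : br (Pq ρ c) (ell 0 G - Pq ρ c) = 0 := by rw [br_sub_right, h1, h2, sub_zero]
    have h4 := cent_q ρ c _ h3 (by
      intro j
      rw [ell0_eq, coeff_sub, coeff_pderiv]
      have e1 : (Finsupp.single 0 j + Finsupp.single 0 1 : ℕ →₀ ℕ) = Finsupp.single 0 (j + 1) := by rw [← Finsupp.single_add]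
      rw [e1, hp]
      unfold Pq
      rw [coeff_add, coeff_C_mul, coeff_C_mul, coeff_X_pow, coeff_X', Finsupp.single_eq_same]
      have e2 : ¬ (Finsupp.single ρ 1 = (Finsupp.single 0 j : ℕ →₀ ℕ)) := by
        intro h
        have := congrArg (fun s : ℕ →₀ ℕ => s ρ) h
        simp [Finsupp.single_apply, hρ0.symm] at this
      rw [if_neg e2]
      by_cases hj : j = 2
      · subst hj; rw [if_pos rfl, if_pos rfl]; push_cast; norm_num
      · rw [if_neg (by omega), if_neg]
        · ring
        · intro h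
          have := congrArg (fun s : ℕ →₀ ℕ => s 0) h
          simp at this
          exact hj this.symm)
    rw [ell0_eq] at h4
    exact sub_eq_zero.1 h4
  set H := pderiv 1 G with hH
  have hd01 : pderiv 0 H = 0 := by
    have e : pderiv 0 H = pderiv 1 (pderiv 0 G) := by
      rw [hH]
      have h : ⁅(pderiv 0 : Derivation K (AA K) (AA K)), (pderiv 1 : Derivation K (AA K) (AA K))⁆ = 0 := by
        apply der_ext
        intro i
        rw [Derivation.commutator_apply, pderiv_X, pderiv_X, Derivation.zero_apply]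
        by_cases h0 : i = 0 <;> by_cases h1 : i = 1 <;> simp [Pi.single_apply, h0, h1] 
        all_goals (split_ifs <;> simp)
      have := congrArg (fun d : Derivation K (AA K) (AA K) => d G) h
      simp only [Derivation.commutator_apply, Derivation.zero_apply] at this
      linear_combination this
    rw [e, hd0]
    unfold Pq
    rw [map_add, pderiv_C_mul, pderiv_C_mul, Derivation.leibniz_pow, pderiv_X, pderiv_X, Pi.single_eq_of_ne (by omega), Pi.single_eq_of_ne (by omega)]
    simp
  have hP1 : pderiv 1 (Pq ρ c) = 0 := by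
    unfold Pq
    rw [map_add, pderiv_C_mul, pderiv_C_mul, Derivation.leibniz_pow, pderiv_X, pderiv_X, Pi.single_eq_of_ne (by omega), Pi.single_eq_of_ne (by omega)]
    simp
  have hP0 : pderiv 0 (Pq ρ c) = X 0 := by rw [← ell0_eq, ell0P]
  have hwH : ∀ s, coeff s H ≠ 0 → Rho.wt ρ s = 2 * ρ - 1 := by
    intro s hs
    rw [hH, coeff_pderiv] at hs
    have := hw _ (left_ne_zero_of_mul hs)
    rw [Rho.wt_add, Rho.wt_single] at this
    omega
  -- the equation (**)
  have hss : C (1 / 2) * (Lam H + C 2 * ee G) + C c * (Sh (ρ + 1) H - ((⇑(D : Derivation K (AA K) (AA K)))^[ρ + 1] H + C ((ρ : K) + 1) * (⇑(D : Derivation K (AA K) (AA K)))^[ρ] (Pq ρ c))) = 0 := by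
    have h1 := congrArg (pderiv 1) hG
    rw [br_Pq, map_zero, map_add, pderiv_C_mul, pderiv_C_mul, map_sub, p1_Lam, p1_Sh_gen _ (by omega), p1_Diter_gen, hd0] at h1
    exact h1
  have hss2 : C (1 / 2) * ((Lam (pderiv 1 H) + C 2 * ee H) + C 2 * (ee H + C 2 * H)) + C c * (Sh (ρ + 1) (pderiv 1 H) - ((⇑(D : Derivation K (AA K) (AA K)))^[ρ + 1] (pderiv 1 H) + C ((ρ : K) + 1) * (C ((ρ - 1 : ℕ) + 1 : K) * (⇑(D : Derivation K (AA K) (AA K)))^[ρ - 1] (X 0)))) = 0 := by
    have h1 := congrArg (pderiv 1) hss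
    obtain ⟨m, hm⟩ : ∃ m, ρ = m + 1 := ⟨ρ - 1, by omega⟩
    rw [map_zero, map_add, pderiv_C_mul, pderiv_C_mul, map_add, pderiv_C_mul, map_sub, map_add, pderiv_C_mul, p1_Lam, p1_ee, p1_Sh_gen _ (by omega), p1_Diter_gen ρ H, hd01] at h1
    have e3 : pderiv 1 ((⇑(D : Derivation K (AA K) (AA K)))^[ρ] (Pq ρ c)) = C ((ρ - 1 : ℕ) + 1 : K) * (⇑(D : Derivation K (AA K) (AA K)))^[ρ - 1] (X 0) := by
      have := p1_Diter_gen m (Pq ρ c)
      rw [hP1, hP0] at this
      have hz : ∀ n, (⇑(D : Derivation K (AA K) (AA K)))^[n] 0 = (0 : AA K) := by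
        intro n
        induction n with
        | zero => rfl
        | succ n ih => rw [Function.iterate_succ_apply, map_zero, ih]
      rw [hz, zero_add] at this
      have hm1 : ρ - 1 = m := by omega
      rw [hm1]
      have hm2 : (⇑(D : Derivation K (AA K) (AA K)))^[ρ] (Pq ρ c) = (⇑(D : Derivation K (AA K) (AA K)))^[m + 1] (Pq ρ c) := by rw [← hm]
      rw [hm2, this]
    have hz : ∀ n, (⇑(D : Derivation K (AA K) (AA K)))^[n] 0 = (0 : AA K) := by
      intro n
      induction n with
      | zero => rfl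
      | succ n ih => rw [Function.iterate_succ_apply, map_zero, ih]
    rw [e3, hz, mul_zero, add_zero] at h1
    exact h1
  have c0H : sy [] H = 0 := by
    rw [sy_nil]
    by_contra h
    have := hwH 0 h
    simp [Rho.wt] at this
    omega
  have hlv2 : ∀ x y, sy [x, y] H = 0 := by
    intro x y
    rw [← sy_comp 2 H [x, y] rfl]
    have : homogeneousComponent 2 H = 0 := by
      ext s
      rw [coeff_homogeneousComponent, coeff_zero]
      split_ifs with h
      · by_contra hs
        have h1 := hwH s hs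
        have h2 : ρ * s.degree ≤ Rho.wt ρ s := by
          rw [Finsupp.degree_apply]
          unfold Rho.wt Finsupp.sum
          rw [Finset.mul_sum]
          exact Finset.sum_le_sum fun k _ => by nlinarith
        rw [h] at h2
        omega
      · rfl
    rw [this, sy_zero]
  have syP1 : ∀ x, sy [x] (Pq ρ c) = c * x ^ ρ := by
    intro x
    rw [sy_cons, ell_Pq ρ c x h2ne, sy_nil, map_add, constantCoeff_X, constantCoeff_C, zero_add]
  have syP2 : ∀ x y, sy [x, y] (Pq ρ c) = 1 := by
    intro x y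
    rw [sy_cons, sy_cons, ell_Pq ρ c x h2ne, map_add, ell_X, der_C, add_zero, pow_zero, sy_nil, constantCoeff_C]
  have syP0 : constantCoeff (Pq ρ c) = 0 := by unfold Pq; simp
  have syX0P1 : ∀ x, sy [x] (X 0 * Pq ρ c) = 0 := by
    intro x
    rw [sy_cons, Derivation.leibniz, ell_X, sy_nil, map_add, smul_eq_mul, smul_eq_mul, map_mul, map_mul, constantCoeff_X, syP0]
    ring
  have syX0P2 : ∀ x y, sy [x, y] (X 0 * Pq ρ c) = c * x ^ ρ + c * y ^ ρ := by
    intro x y
    rw [sy_cons, sy_cons, Derivation.leibniz, ell_X, smul_eq_mul, smul_eq_mul, map_add, Derivation.leibniz, Derivation.leibniz, ell_X, der_C, ell_Pq ρ c x h2ne, ell_Pq ρ c y h2ne, sy_nil]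
    simp only [smul_eq_mul, map_add, map_mul, constantCoeff_X, constantCoeff_C, syP0, ell_X, der_C, pow_zero]
    simp
  -- level one
  have g1 : ∀ x, (2 * (ρ : K) + 1) * sy [x] G = c * (((ρ : K) + 1) * (x ^ ρ * (c * x ^ ρ))) := by
    intro x
    have h1 := congrArg (sy [x]) hss
    rw [sy_add, sy_C_mul, sy_C_mul, sy_add, sy_C_mul, sy_sub, sy_add, sy_C_mul, sy_Sh, sy_Diter, sy_Diter, sy_Lam1, syP1, sy_ee ρ (3 * ρ) G hw, hd0, syX0P1, sy_zero] at h1
    simp only [List.map_cons, List.map_nil, List.sum_cons, List.sum_nil, add_zero, List.length_cons, List.length_nil] at h1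
    push_cast at h1
    linear_combination h1
  have h1 : ∀ x, 2 * ((ρ : K) + 1) * sy [x] H = c * (((ρ : K) + 1) * (ρ * x ^ (ρ - 1))) := by
    intro x
    have h1 := congrArg (sy [x]) hss2
    have hX : sy [x] (X 0 : AA K) = 1 := by rw [sy_cons, ell_X, sy_nil, constantCoeff_C, pow_zero]
    rw [sy_add, sy_C_mul, sy_C_mul, sy_add, sy_C_mul, sy_add, sy_C_mul, sy_add, sy_C_mul, sy_sub, sy_add, sy_C_mul, sy_C_mul, sy_Sh, sy_Diter, sy_Diter, sy_Lam1, hX, sy_ee ρ (2 * ρ - 1) H hwH, hd01, mul_zero, sy_zero] at h1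
    simp only [List.map_cons, List.map_nil, List.sum_cons, List.sum_nil, add_zero, List.length_cons, List.length_nil] at h1
    have e1 : ((2 * ρ - 1 : ℕ) : K) = 2 * ρ - 1 := by rw [Nat.cast_sub (by omega)]; push_cast; ring
    have e2 : ((ρ - 1 : ℕ) : K) = ρ - 1 := by rw [Nat.cast_sub (by omega)]; push_cast; ring
    rw [e1, e2] at h1
    push_cast at h1
    linear_combination h1
  have hρ1 : ((ρ : K) + 1) ≠ 0 := by exact_mod_cast Nat.succ_ne_zero ρ
  have h1' : ∀ x, 2 * (x * sy [x] H) = c * (ρ * x ^ ρ) := by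
    intro x
    apply mul_left_cancel₀ hρ1
    have e : x ^ ρ = x * x ^ (ρ - 1) := by rw [← pow_succ']; congr 1; omega
    rw [e]
    linear_combination x * h1 x
  have g2 : 2 * sy [1, 1] G = c * (2 ^ ρ + 2) := by
    have hh := congrArg (sy [1, 1]) hss
    rw [sy_add, sy_C_mul, sy_C_mul, sy_add, sy_C_mul, sy_sub, sy_add, sy_C_mul, sy_Sh, sy_Diter, sy_Diter, sy_Lam2, syP2, sy_ee ρ (3 * ρ) G hw, hd0, syX0P2, hlv2, sy_zero] at hh
    simp only [List.map_cons, List.map_nil, List.sum_cons, List.sum_nil, add_zero, List.length_cons, List.length_nil, mul_zero, one_pow, mul_one] at hh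
    have e1 := h1' 1
    have e2 := h1' (1 + 1)
    rw [one_pow] at e1
    have hρ2 : ((ρ : K) + 2) ≠ 0 := by exact_mod_cast Nat.succ_ne_zero (ρ + 1)
    apply mul_left_cancel₀ hρ2
    have e3 : ((1 : K) + 1) ^ ρ = 2 ^ ρ := by norm_num
    rw [e3] at hh e2
    push_cast at hh
    linear_combination 2 * hh - e2 + 2 * e1
  have g3 : 2 * sy [1 + 1] G - 2 * sy [1] G = c * (2 ^ (ρ + 1) - 2) * sy [1, 1] G := by
    have hh := congrArg (sy [1, 1]) hG
    rw [br_Pq, sy_add, sy_C_mul, sy_C_mul, sy_sub, sy_Sh, sy_Diter, sy_Lam2, sy_zero] at hh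
    simp only [List.map_cons, List.map_nil, List.sum_cons, List.sum_nil, add_zero, one_pow] at hh
    have e3 : ((1 : K) + 1) ^ (ρ + 1) = 2 ^ (ρ + 1) := by norm_num
    rw [e3] at hh
    linear_combination hh
  have k1 := g1 1
  have k2 := g1 (1 + 1)
  have e3 : ((1 : K) + 1) ^ ρ = 2 ^ ρ := by norm_num
  rw [one_pow] at k1
  rw [e3] at k2
  have key : c ^ 2 * ((2 ^ ρ - 1) * (2 ^ ρ - 2 * (ρ : K))) = 0 := by
    have e4 : (2 : K) ^ (ρ + 1) = 2 * 2 ^ ρ := by ring
    rw [e4] at g3
    linear_combination (2 * (ρ : K) + 1) * g3 - 2 * k2 + 2 * k1 + (2 * (ρ : K) + 1) * c * (2 ^ ρ - 1) * g2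
  have hlt : ∀ n : ℕ, 3 ≤ n → 2 * n < 2 ^ n := by
    intro n hn
    induction n, hn using Nat.le_induction with
    | base => norm_num
    | succ n hn ih => rw [pow_succ]; omega
  rcases mul_eq_zero.1 key with h | h
  · exact hc (pow_eq_zero_iff (two_ne_zero) |>.1 h)
  · rcases mul_eq_zero.1 h with h | h
    · have h5 : ((2 ^ ρ : ℕ) : K) = ((1 : ℕ) : K) := by push_cast; linear_combination h
      have h6 := Nat.cast_injective h5
      have := hlt ρ hρ
      omega
    · have h5 : ((2 ^ ρ : ℕ) : K) = ((2 * ρ : ℕ) : K) := by push_cast; linear_combination h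
      have h6 := Nat.cast_injective h5
      have := hlt ρ hρ
      omega

end Pool.Agent.H93RH
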