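import Pool.Agent.H93RH.KdV

open MvPolynomial

namespace Pool.Agent.H93RH

set_option linter.all false

variable {K : Type*} [Field K]

theorem ell_comm (x y : K) (G : AA K) : ell x (ell y G) = ell y (ell x G) := by
  have h : ⁅ell x, ell y⁆ = (0 : Derivation K (AA K) (AA K)) := by
    apply der_ext; intro i; simp [Derivation.commutator_apply]
  have := congrArg (fun d : Derivation K (AA K) (AA K) => d G) h
  simp only [Derivation.commutator_apply, Derivation.zero_apply] at this
  linear_combination this

theorem sy_perm {l l' : List K} (h : l.Perm l') (G : AA K) : sy l G = sy l' G := by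
  induction h generalizing G with
  | nil => rfl
  | cons x _ ih => exact ih _
  | swap x y l => show sy l (ell x (ell y G)) = sy l (ell y (ell x G)); rw [ell_comm]
  | trans _ _ ih1 ih2 => rw [ih1, ih2]

/-! the operator Λ -/
noncomputable def Lam : Derivation K (AA K) (AA K) := E 0 (C 2 * (X 0 * X 1)) - (C 2 * X 0 : AA K) • D

noncomputable def ee : Derivation K (AA K) (AA K) := mkDerivation K (fun k => if k = 0 then 0 else C ((k : K) + 1) * X k)

theorem ee_X (k : ℕ) : (ee : Derivation K (AA K) (AA K)) (X k) = if k = 0 then 0 else C ((k : K) + 1) * X k := by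
  simp [ee, mkDerivation_X]

theorem br_sq (G : AA K) : br (X 0 ^ 2) G = Lam G := by
  unfold br Lam
  have h1 : D (X 0 ^ 2 : AA K) = C 2 * (X 0 * X 1) := by
    simp only [Derivation.leibniz_pow, D_X, nsmul_eq_mul, smul_eq_mul, map_ofNat]
    push_cast; ring
  rw [h1, Derivation.sub_apply, Derivation.smul_apply]
  congr 1
  simp only [Derivation.leibniz_pow, E_X, nsmul_eq_mul, smul_eq_mul, map_ofNat, Function.iterate_zero, id]
  push_cast; ring

theorem p1_D (G : AA K) : pderiv 1 (D G) = D (pderiv 1 G) + pderiv 0 G := by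
  have h : ⁅(pderiv 1 : Derivation K (AA K) (AA K)), (D : Derivation K (AA K) (AA K))⁆ = pderiv 0 := by
    apply der_ext
    intro i
    simp only [Derivation.commutator_apply, D_X, pderiv_X]
    by_cases hi : i = 0
    · subst hi; simp
    · by_cases h1 : i = 1
      · subst h1; simp [Pi.single_apply]
      · simp [Pi.single_apply, hi, Ne.symm hi, h1, Ne.symm h1]
  have := congrArg (fun d : Derivation K (AA K) (AA K) => d G) h
  simp only [Derivation.commutator_apply] at this
  linear_combination this

theorem p0_D (G : AA K) : pderiv 0 (D G) = D (pderiv 0 G) := by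
  have h : ⁅(pderiv 0 : Derivation K (AA K) (AA K)), (D : Derivation K (AA K) (AA K))⁆ = 0 := by
    apply der_ext
    intro i
    simp only [Derivation.commutator_apply, D_X, pderiv_X, Derivation.zero_apply]
    by_cases hi : i = 0
    · subst hi; simp
    · simp [Pi.single_apply, hi, Ne.symm hi]
  have := congrArg (fun d : Derivation K (AA K) (AA K) => d G) h
  simp only [Derivation.commutator_apply, Derivation.zero_apply] at this
  linear_combination this

/-- `∂₁ D^(k+1)(X0^2) ` -/
theorem p1_Diter (k : ℕ) : pderiv 1 ((⇑(D : Derivation K (AA K) (AA K)))^[k] (C 2 * (X 0 * X 1))) =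
    (if k = 0 then C 2 * X 0 else C (2 * ((k:K) + 1)) * X k : AA K) := by
  induction k with
  | zero =>
    simp only [Function.iterate_zero, id, if_true, Derivation.leibniz, pderiv_X, pderiv_C, smul_eq_mul]
    simp [Pi.single_apply]
  | succ k ih =>
    rw [Function.iterate_succ_apply', p1_D, ih]
    have h0 : ∀ k : ℕ, pderiv 0 ((⇑(D : Derivation K (AA K) (AA K)))^[k] (C 2 * (X 0 * X 1))) = (C 2 * X (k+1) : AA K) := by
      intro k
      induction k with
      | zero =>
        simp only [Function.iterate_zero, id, Derivation.leibniz, pderiv_X, pderiv_C, smul_eq_mul]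
        simp [Pi.single_apply]
      | succ k ih =>
        rw [Function.iterate_succ_apply', p0_D, ih, Derivation.leibniz, der_C, D_X]; simp
    rw [h0, if_neg (Nat.succ_ne_zero k)]
    by_cases hk : k = 0
    · subst hk
      rw [if_pos rfl, Derivation.leibniz, der_C, D_X]
      simp only [smul_eq_mul, mul_zero, add_zero, zero_add, Nat.cast_one]
      rw [← add_mul, ← C_add]; congr 2; norm_num
    · rw [if_neg hk, Derivation.leibniz, der_C, D_X]
      simp only [smul_eq_mul, mul_zero, add_zero]
      rw [← add_mul, ← C_add]; congr 2; push_cast; ring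

theorem p1_Lam (G : AA K) : pderiv 1 (Lam G) = Lam (pderiv 1 G) + C 2 * ee G := by
  have h : ⁅(pderiv 1 : Derivation K (AA K) (AA K)), (Lam : Derivation K (AA K) (AA K))⁆ = (C 2 : AA K) • ee := by
    apply der_ext
    intro i
    have hL : (Lam : Derivation K (AA K) (AA K)) (X i) = (⇑(D : Derivation K (AA K) (AA K)))^[i] (C 2 * (X 0 * X 1)) - C 2 * X 0 * X (i + 1) := by
      unfold Lam
      rw [Derivation.sub_apply, E_X, Derivation.smul_apply, D_X, Dx_zero_fun, smul_eq_mul]
    have hz : Lam (pderiv 1 (X i : AA K)) = 0 := by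
      rw [pderiv_X]
      by_cases h1 : (1 : ℕ) = i
      · subst h1
        rw [Pi.single_eq_same]
        have : (1 : AA K) = C 1 := by simp
        rw [this, der_C]
      · rw [Pi.single_eq_of_ne (by simpa [eq_comm] using h1), map_zero]
    rw [Derivation.commutator_apply, hz, hL, map_sub, p1_Diter, Derivation.smul_apply, ee_X, smul_eq_mul, sub_zero]
    have h2 : pderiv 1 (C 2 * X 0 * X (i + 1) : AA K) = if i = 0 then C 2 * X 0 else 0 := by
      rw [Derivation.leibniz, Derivation.leibniz, pderiv_C, pderiv_X, pderiv_X]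
      by_cases hi : i = 0
      · subst hi; simp [Pi.single_apply]
      · simp [Pi.single_apply, hi]
    rw [h2]
    by_cases hi : i = 0
    · simp [hi]
    · simp only [if_neg hi, sub_zero]; rw [C_mul]; ring
  have := congrArg (fun d : Derivation K (AA K) (AA K) => d G) h
  simp only [Derivation.commutator_apply, Derivation.smul_apply, smul_eq_mul] at this
  linear_combination this

theorem p1_ee (G : AA K) : pderiv 1 (ee G) = ee (pderiv 1 G) + C 2 * pderiv 1 G := by
  have h : ⁅(pderiv 1 : Derivation K (AA K) (AA K)), (ee : Derivation K (AA K) (AA K))⁆ = (C 2 : AA K) • pderiv 1 := by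
    apply der_ext
    intro i
    rw [Derivation.commutator_apply, ee_X, Derivation.smul_apply, pderiv_X, smul_eq_mul]
    by_cases h1 : i = 1
    · subst h1
      simp only [Pi.single_eq_same]
      have : (1 : AA K) = C 1 := by simp
      rw [this, der_C, if_neg one_ne_zero, Derivation.leibniz, pderiv_C, pderiv_X]
      simp only [Pi.single_eq_same, smul_eq_mul, mul_zero, add_zero, sub_zero, ← this, mul_one, Nat.cast_one]
      congr 1; norm_num
    · rw [Pi.single_eq_of_ne (by simpa [eq_comm] using h1), map_zero, sub_zero, mul_zero]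
      by_cases h0 : i = 0
      · simp [h0]
      · rw [if_neg h0, Derivation.leibniz, pderiv_C, pderiv_X, Pi.single_eq_of_ne (by simpa [eq_comm] using h1)]; simp
  have := congrArg (fun d : Derivation K (AA K) (AA K) => d G) h
  simp only [Derivation.commutator_apply, Derivation.smul_apply, smul_eq_mul] at this
  linear_combination this

theorem p1_ee_iter (n : ℕ) (G : AA K) : (⇑(pderiv 1 : Derivation K (AA K) (AA K)))^[n] (ee G) =
    ee ((⇑(pderiv 1 : Derivation K (AA K) (AA K)))^[n] G) + C (2 * n : K) * (⇑(pderiv 1 : Derivation K (AA K) (AA K)))^[n] G := by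
  induction n generalizing G with
  | zero => simp
  | succ n ih =>
    rw [Function.iterate_succ_apply', ih, map_add, p1_ee, pderiv_C_mul, Function.iterate_succ_apply']
    push_cast; rw [mul_add, C_add, mul_one]; ring

theorem p1_Lam_iter (n : ℕ) (G : AA K) : (⇑(pderiv 1 : Derivation K (AA K) (AA K)))^[n + 1] (Lam G) =
    Lam ((⇑(pderiv 1 : Derivation K (AA K) (AA K)))^[n + 1] G) +
      C 2 * (C ((n:K) + 1) * ee ((⇑(pderiv 1 : Derivation K (AA K) (AA K)))^[n] G) + C ((n:K) * (n + 1)) * (⇑(pderiv 1 : Derivation K (AA K) (AA K)))^[n] G) := by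
  induction n generalizing G with
  | zero => simp [p1_Lam]
  | succ n ih =>
    rw [Function.iterate_succ_apply', ih, map_add, p1_Lam, pderiv_C_mul, map_add, pderiv_C_mul, pderiv_C_mul, p1_ee, Function.iterate_succ_apply' _ (n + 1), Function.iterate_succ_apply' _ n]
    push_cast
    simp only [C_add, C_mul, C_1, map_ofNat]; ring

theorem coeff_ee (G : AA K) (s : ℕ →₀ ℕ) : coeff s (ee G) = (s.sum fun k n => (n : K) * (if k = 0 then 0 else (k:K) + 1)) * coeff s G := by
  classical
  induction G using MvPolynomial.induction_on' with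
  | monomial u a =>
    rw [diag_monomial ee (fun k => if k = 0 then 0 else (k:K) + 1) (fun k => by rw [ee_X]; split_ifs <;> simp), coeff_C_mul, coeff_monomial]
    split_ifs with h
    · subst h; rfl
    · simp
  | add p q hp hq => rw [map_add, coeff_add, coeff_add, hp, hq]; ring

theorem Lam_inj [CharZero K] (m : ℕ) (G : AA K) (hG : G.IsHomogeneous m) (h : pderiv 1 (Lam G) = 0)
    (hp : ∀ j, coeff (Finsupp.single 0 j) G = 0) : G = 0 := by
  classical
  by_contra hne
  have hnil : ∀ j : ℕ, j ≤ m → ((⇑(pderiv 1 : Derivation K (AA K) (AA K)))^[j] G).IsHomogeneous (m - j) := by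
    intro j
    induction j with
    | zero => intro _; simpa using hG
    | succ j ih =>
      intro hj
      rw [Function.iterate_succ_apply']
      have h1 := ih (by omega)
      have h2 : m - j = (m - (j+1)) + 1 := by omega
      rw [h2] at h1
      exact hom_pderiv h1 1
  have hex : ∃ N, (⇑(pderiv 1 : Derivation K (AA K) (AA K)))^[N] G = 0 := by
    refine ⟨m + 1, ?_⟩
    rw [Function.iterate_succ_apply']
    have h1 := hnil m le_rfl
    rw [Nat.sub_self] at h1
    have h0 : ((⇑(pderiv 1 : Derivation K (AA K) (AA K)))^[m] G).totalDegree = 0 := by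
      have := h1.totalDegree_le
      omega
    rw [totalDegree_eq_zero_iff_eq_C] at h0
    rw [h0, pderiv_C]
  set N := Nat.find hex with hN
  have hN0 := Nat.find_spec hex
  have hNpos : N ≠ 0 := by
    intro h0
    rw [← hN, h0] at hN0
    exact hne hN0
  obtain ⟨n, hn⟩ : ∃ n, N = n + 1 := ⟨N - 1, by omega⟩
  have hmin : (⇑(pderiv 1 : Derivation K (AA K) (AA K)))^[n] G ≠ 0 := Nat.find_min hex (by omega)
  rw [← hN, hn] at hN0
  have h1 : (⇑(pderiv 1 : Derivation K (AA K) (AA K)))^[n + 1] (Lam G) = 0 := by
    rw [Function.iterate_succ_apply, h]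
    clear hN0 hmin hn
    induction n with
    | zero => rfl
    | succ n ih => rw [Function.iterate_succ_apply, map_zero, ih]
  rw [p1_Lam_iter, hN0, map_zero, zero_add] at h1
  set H := (⇑(pderiv 1 : Derivation K (AA K) (AA K)))^[n] G with hH
  have hex2 : ∃ s, coeff s H ≠ 0 := by
    by_contra hc
    push Not at hc
    exact hmin (by ext s; rw [hc s, coeff_zero])
  obtain ⟨s, hs⟩ := hex2
  have h2 := congrArg (coeff s) h1
  rw [coeff_C_mul, coeff_add, coeff_C_mul, coeff_C_mul, coeff_ee, coeff_zero] at h2
  have h3 : (s.sum fun k n => (n : K) * (if k = 0 then 0 else (k:K) + 1)) = (((s.sum fun k n => n * (if k = 0 then 0 else k + 1)) : ℕ) : K) := by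
    simp only [Finsupp.sum]; push_cast
    refine Finset.sum_congr rfl fun k _ => ?_
    split_ifs <;> simp
  rw [h3] at h2
  set v := s.sum fun k n => n * (if k = 0 then 0 else k + 1) with hv
  have h4 : (2 : K) * ((((n + 1) * (v + n) : ℕ) : K) * coeff s H) = 0 := by
    push_cast; linear_combination h2
  have h5 : (((n + 1) * (v + n) : ℕ) : K) = 0 := by
    rcases mul_eq_zero.1 h4 with h | h
    · exact absurd h two_ne_zero
    · exact (mul_eq_zero.1 h).resolve_right hs
  have h6 : v + n = 0 := by
    have : (n + 1) * (v + n) = 0 := by exact_mod_cast h5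
    rcases Nat.mul_eq_zero.1 this with h | h
    · omega
    · exact h
  have hn0 : n = 0 := by omega
  have hv0 : v = 0 := by omega
  have h7 : ∀ k, k ≠ 0 → s k = 0 := by
    intro k hk
    by_contra hsk
    have hk2 : k ∈ s.support := Finsupp.mem_support_iff.2 hsk
    rw [hv, Finsupp.sum, Finset.sum_eq_zero_iff] at hv0
    have := hv0 k hk2
    rw [if_neg hk] at this
    rcases Nat.mul_eq_zero.1 this with h | h
    · exact hsk h
    · omega
  have h8 : s = Finsupp.single 0 (s 0) := by
    ext k
    by_cases hk : k = 0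
    · subst hk; simp
    · rw [h7 k hk, Finsupp.single_eq_of_ne hk]
  apply hs
  rw [hH, hn0, h8]
  exact hp _

/-! symbols of brackets with quadratic and with `X 2` -/
theorem sy_brP (κ : K) (l : List K) (G : AA K) : sy l (br (P κ) G) = sy l (br (X 0 ^ 2) G) - 2 * κ * k3 l * sy l G := by
  have h1 : P κ = X 0 ^ 2 + C (2 * κ) * X 2 := rfl
  rw [h1, br_add_left, br_smul_left, br_X2, sy_add, sy_C_mul, sy_neg, sy_K3]
  ring

theorem hom_sq : (X 0 ^ 2 : AA K).IsHomogeneous 2 := by simpa using (isHomogeneous_X K 0).pow 2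

theorem sy_sq_zero (M : ℕ) (G : AA K) (h : ∀ l : List K, l.length = M → sy l G = 0) (l : List K) (hl : l.length = M + 1) :
    sy l (br (X 0 ^ 2) G) = 0 := by
  rw [sy_br]
  apply List.sum_eq_zero
  intro c hc
  rw [List.mem_map] at hc
  obtain ⟨ab, h1, rfl⟩ := hc
  have hlen := splits_length l 0 ab h1
  have e1 : sy ab.1 (X 0 ^ 2) * sy ab.2 G = 0 := by
    by_cases h2 : ab.1.length = 2
    · rw [h ab.2 (by omega), mul_zero]
    · rw [sy_hom_ne 2 _ hom_sq _ h2, zero_mul]
  have e2 : sy ab.1 G * sy ab.2 (X 0 ^ 2) = 0 := by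
    by_cases h2 : ab.2.length = 2
    · rw [h ab.1 (by omega), zero_mul]
    · rw [sy_hom_ne 2 _ hom_sq _ h2, mul_zero]
  rw [e1, e2]; simp

theorem sy_sq_comp (M : ℕ) (G : AA K) (l : List K) :
    sy l (Lam (homogeneousComponent M G)) = if l.length = M + 1 then sy l (br (X 0 ^ 2) G) else 0 := by
  split_ifs with hl
  · rw [← br_sq]
    have h1 : br (X 0 ^ 2) G = br (X 0 ^ 2) (homogeneousComponent M G) + br (X 0 ^ 2) (G - homogeneousComponent M G) := by
      rw [← br_add_right]; congr 1; ring
    rw [h1, sy_add, sy_sq_zero M (G - homogeneousComponent M G) _ l hl, add_zero]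
    intro l' hl'
    rw [sy_sub, sy_comp M G l' hl', sub_self]
  · rw [← br_sq, sy_br]
    apply List.sum_eq_zero
    intro c hc
    rw [List.mem_map] at hc
    obtain ⟨ab, h1, rfl⟩ := hc
    have hlen := splits_length l 0 ab h1
    have hh := homogeneousComponent_isHomogeneous M G
    have e1 : sy ab.1 (X 0 ^ 2) * sy ab.2 (homogeneousComponent M G) = 0 := by
      by_cases h2 : ab.1.length = 2
      · rw [sy_hom_ne M _ hh ab.2 (by omega), mul_zero]
      · rw [sy_hom_ne 2 _ hom_sq _ h2, zero_mul]
    have e2 : sy ab.1 (homogeneousComponent M G) * sy ab.2 (X 0 ^ 2) = 0 := by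
      by_cases h2 : ab.2.length = 2
      · rw [sy_hom_ne M _ hh ab.1 (by omega), zero_mul]
      · rw [sy_hom_ne 2 _ hom_sq _ h2, mul_zero]
    rw [e1, e2]; simp

theorem coeff_comp_single (M j : ℕ) (G : AA K) (h : coeff (Finsupp.single 0 j) G = 0) :
    coeff (Finsupp.single 0 j) (homogeneousComponent M G) = 0 := by
  rw [coeff_homogeneousComponent]; split_ifs <;> simp [h]

theorem pderiv_comp (M k : ℕ) (G : AA K) (h : pderiv k G = 0) : pderiv k (homogeneousComponent M G) = 0 := by
  ext s
  have h1 := congrArg (coeff s) h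
  rw [coeff_pderiv] at h1 ⊢
  rw [coeff_homogeneousComponent]
  split_ifs
  · exact h1
  · simp

theorem sy_top (G : AA K) (l : List K) (hl : G.totalDegree < l.length) : sy l G = 0 := by
  rw [← sy_comp l.length G l rfl, homogeneousComponent_eq_zero _ _ hl, sy_zero]

/-- main top-level lemma -/
theorem top_lemma [CharZero K] (κ : K) (G : AA K) (h : pderiv 1 (br (P κ) G) = 0) (hp : ∀ j, coeff (Finsupp.single 0 j) G = 0) : G = 0 := by
  classical
  have key : ∀ j : ℕ, ∀ l : List K, G.totalDegree + 1 ≤ l.length + j → sy l G = 0 := by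
    intro j
    induction j with
    | zero => intro l hl; exact sy_top G l (by omega)
    | succ j ih =>
      intro l hl
      by_cases hl2 : G.totalDegree + 1 ≤ l.length + j
      · exact ih l hl2
      set M := l.length with hM
      have h1 : Lam (homogeneousComponent M G) = homogeneousComponent (M + 1) (br (P κ) G) := by
        apply sub_eq_zero.1
        apply inj_all
        intro l'
        rw [sy_sub, sy_sq_comp]
        split_ifs with hl'
        · rw [sy_comp (M+1) _ l' hl', sy_brP, ih l' (by omega)]; ring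
        · rw [sy_hom_ne (M+1) _ (homogeneousComponent_isHomogeneous _ _) l' hl']; ring
      have h2 : homogeneousComponent M G = 0 := by
        apply Lam_inj M _ (homogeneousComponent_isHomogeneous M G)
        · rw [h1]; exact pderiv_comp _ _ _ h
        · intro j'; exact coeff_comp_single M j' G (hp j')
      rw [← sy_comp M G l rfl, h2, sy_zero]
  exact inj_all G (fun l => key (G.totalDegree + 1) l (by omega))

theorem cent [CharZero K] (κ : K) (G : AA K) (h : br (P κ) G = 0) (hp : ∀ j, coeff (Finsupp.single 0 j) G = 0) : G = 0 :=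
  top_lemma κ G (by rw [h, map_zero]) hp

theorem Hm_pure [CharZero K] {q : ℤ} (hq : Odd q) {G : AA K} (h : Hm q G) (j : ℕ) : coeff (Finsupp.single 0 j) G = 0 := by
  have h1 := congrArg (coeff (Finsupp.single 0 j)) (h (-1) (by norm_num))
  rw [coeff_rho, coeff_C_mul, hq.neg_one_zpow] at h1
  have h2 : (-1 : K) ^ ((Finsupp.single 0 j : ℕ →₀ ℕ).sum fun k n => n * (k + 2)) = 1 := by
    rw [Finsupp.sum_single_index (by simp)]
    rw [zero_add, mul_comm, pow_mul]; simp
  rw [h2] at h1
  have h3 : (2 : K) * coeff (Finsupp.single 0 j) G = 0 := by linear_combination h1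
  exact (mul_eq_zero.1 h3).resolve_left two_ne_zero

theorem ell0_br (F G : AA K) : ell 0 (br F G) = br (ell 0 F) G + br F (ell 0 G) := by
  unfold br
  rw [map_sub, ell_E, ell_E, ell_D, ell_D, Dx_zero, Dx_zero, add_zero]; ring

theorem Hm_ell0 {q : ℤ} {G : AA K} (h : Hm q G) : Hm (q - 2) (ell 0 G) := by
  intro t ht
  have h1 := ell_rho t 0 G
  rw [h t ht, Derivation.leibniz, der_C, mul_zero] at h1
  simp only [smul_eq_mul, mul_zero, add_zero] at h1
  have hC : (C (t ^ 2) : AA K) ≠ 0 := by rw [Ne, C_eq_zero]; exact pow_ne_zero 2 ht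
  apply mul_left_cancel₀ hC
  rw [← h1, ← mul_assoc, ← C_mul]
  congr 2
  rw [← zpow_natCast, ← zpow_add₀ ht]; congr 1; push_cast; ring

theorem ell0_P (κ : K) : ell 0 (P κ) = C 2 * X 0 := by rw [ell_P]; simp
theorem ell0_R (κ : K) : ell 0 (R κ) = C 15 * P κ := by
  rw [ell_R]; unfold P
  simp only [C_mul, map_ofNat, C_pow, C_0]; ring

theorem S1 [CharZero K] (κ : K) {q : ℤ} (hq : Odd q) {ω η : AA K} (hω : Hm q ω) (hη : Hm (q + 2) η)
    (h : br (P κ) η = br (R κ) ω) (h0 : ell 0 ω = 0) : ell 0 η = C 15 * ω := by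
  have h1 := congrArg (ell 0) h
  rw [ell0_br, ell0_br, ell0_P, ell0_R, h0, br_zero_right, br_smul_left, br_X0, mul_zero, zero_add, add_zero, br_smul_left] at h1
  have h2 : br (P κ) (ell 0 η - C 15 * ω) = 0 := by rw [br_sub_right, h1, br_smul_right, sub_self]
  have h3 : Hm q (ell 0 η) := by have := Hm_ell0 hη; rwa [add_sub_cancel_right] at this
  have h4 := cent κ _ h2 (fun j => Hm_pure hq (h3.sub (hω.smul 15)) j)
  exact sub_eq_zero.1 h4

end Pool.Agent.H93RH
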