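import Pool.Agent.H93RH.Rig1

open MvPolynomial

namespace Pool.Agent.H93RH

set_option linter.all false

variable {K : Type*} [Field K]

theorem sy_swap (x y : K) (l : List K) (G : AA K) : sy (x :: y :: l) G = sy (y :: x :: l) G :=
  sy_perm (List.Perm.swap _ _ _) G

theorem lev2P (κ x y : K) (G : AA K) : sy [x, y] (br (P κ) G) =
    -(6 * κ * (x * y * (x + y))) * sy [x, y] G + 2 * ((x + y) * sy [x + y] G - x * sy [x] G - y * sy [y] G) := by
  rw [sy_br]
  simp only [splits, List.map_cons, List.map_nil, List.map_append, List.cons_append, List.nil_append, List.sum_cons, List.sum_nil, zero_add, add_zero, zero_mul,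
    sy_P1, sy_P2, sy_swap y x []]
  ring

theorem lev2R (κ x y : K) (G : AA K) : sy [x, y] (br (R κ) G) =
    -(90 * κ ^ 2 * (x * y * (x + y)) * (x ^ 2 + x * y + y ^ 2)) * sy [x, y] G +
      30 * κ * (x ^ 2 + x * y + y ^ 2) * ((x + y) * sy [x + y] G - x * sy [x] G - y * sy [y] G) := by
  rw [sy_br]
  simp only [splits, List.map_cons, List.map_nil, List.map_append, List.cons_append, List.nil_append, List.sum_cons, List.sum_nil, zero_add, add_zero, zero_mul,
    sy_R1, sy_R2, sy_swap y x []]
  ring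

theorem polyfun (l : List K) (G : AA K) : ∃ p : Polynomial K, ∀ y, sy (y :: l) G = p.eval y := by
  obtain ⟨t, ht⟩ := var_exp G
  refine ⟨∑ k ∈ t, Polynomial.C (sy l (pderiv k G)) * Polynomial.X ^ k, fun y => ?_⟩
  rw [sy_ell_exp G t (ht t (le_refl _))]
  simp only [Polynomial.eval_finsetSum, Polynomial.eval_mul, Polynomial.eval_C, Polynomial.eval_pow, Polynomial.eval_X]
  exact Finset.sum_congr rfl fun k _ => mul_comm _ _

theorem S2 [CharZero K] (κ : K) (hκ : κ ≠ 0) {q : ℤ} (hq : Odd q) {ω η : AA K} (hω : Hm q ω) (hη : Hm (q + 2) η)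
    (h : br (P κ) η = br (R κ) ω) (h0 : ell 0 ω = 0) : Low 2 ω ∧ Low 2 η := by
  have hs1 := S1 κ hq hω hη h h0
  have hq2 : Odd (q + 2) := by obtain ⟨k, hk⟩ := hq; exact ⟨k + 1, by omega⟩
  have wneg : ∀ x, sy [-x] ω = - sy [x] ω := fun x => by have := Hm_neg hq hω [x]; simpa using this
  have eneg : ∀ x, sy [-x] η = - sy [x] η := fun x => by have := Hm_neg hq2 hη [x]; simpa using this
  have w0 : sy [0] ω = 0 := by rw [sy_cons, h0, sy_zero]
  have e0 : sy [0] η = 0 := by
    have := eneg 0
    rw [neg_zero] at this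
    have h2 : (2 : K) * sy [0] η = 0 := by linear_combination this
    exact (mul_eq_zero.1 h2).resolve_left two_ne_zero
  have ew : ∀ x, x ≠ 0 → sy [x] η = 15 * κ * x ^ 2 * sy [x] ω := by
    intro x hx
    have h1 := congrArg (sy [x, -x]) h
    rw [lev2P, lev2R, wneg, eneg, add_neg_cancel] at h1
    have h2 : (4 * x) * (sy [x] η - 15 * κ * x ^ 2 * sy [x] ω) = 0 := by linear_combination -h1
    have h3 : (4 * x : K) ≠ 0 := mul_ne_zero (by norm_num) hx
    exact sub_eq_zero.1 ((mul_eq_zero.1 h2).resolve_left h3)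
  have hgen : ∀ x y, x ≠ 0 → y ≠ 0 → x + y ≠ 0 →
      sy [x, y] η = 15 * κ * (x ^ 2 + x * y + y ^ 2) * sy [x, y] ω + 5 * (sy [x + y] ω + sy [x] ω + sy [y] ω) := by
    intro x y hx hy hxy
    have h1 := congrArg (sy [x, y]) h
    rw [lev2P, lev2R, ew x hx, ew y hy, ew _ hxy] at h1
    have h2 : (6 * κ * (x * y * (x + y))) * (sy [x, y] η - (15 * κ * (x ^ 2 + x * y + y ^ 2) * sy [x, y] ω + 5 * (sy [x + y] ω + sy [x] ω + sy [y] ω))) = 0 := by
      linear_combination -h1
    have h3 : (6 * κ * (x * y * (x + y)) : K) ≠ 0 :=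
      mul_ne_zero (mul_ne_zero (by norm_num) hκ) (mul_ne_zero (mul_ne_zero hx hy) hxy)
    exact sub_eq_zero.1 ((mul_eq_zero.1 h2).resolve_left h3)
  have wz : ∀ x, sy [x] ω = 0 := by
    intro x
    by_cases hx : x = 0
    · rw [hx, w0]
    obtain ⟨p1, hp1⟩ := polyfun [x] η
    obtain ⟨p2, hp2⟩ := polyfun [x] ω
    obtain ⟨p3, hp3⟩ := polyfun [] ω
    have hpoly : p1 = Polynomial.C (15 * κ) * (Polynomial.C (x ^ 2) + Polynomial.C x * Polynomial.X + Polynomial.X ^ 2) * p2 +
        Polynomial.C 5 * (p3.comp (Polynomial.X + Polynomial.C x) + Polynomial.C (sy [x] ω) + p3) := by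
      apply Polynomial.eq_of_infinite_eval_eq
      have hinf : ({0, -x}ᶜ : Set K).Infinite := (Set.toFinite _).infinite_compl
      refine hinf.mono ?_
      intro y hy
      simp only [Set.mem_compl_iff, Set.mem_insert_iff, Set.mem_singleton_iff, not_or] at hy
      have hxy : x + y ≠ 0 := by
        intro h; apply hy.2; linear_combination h
      change Polynomial.eval y p1 = Polynomial.eval y _
      simp only [Polynomial.eval_add, Polynomial.eval_mul, Polynomial.eval_C, Polynomial.eval_pow, Polynomial.eval_X, Polynomial.eval_comp]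
      rw [← hp1, ← hp2, ← hp3, ← hp3, sy_swap y x, sy_swap y x, hgen x y hx hy.1 hxy, add_comm y x]
    have h1 := congrArg (Polynomial.eval 0) hpoly
    simp only [Polynomial.eval_add, Polynomial.eval_mul, Polynomial.eval_C, Polynomial.eval_pow, Polynomial.eval_X, Polynomial.eval_comp] at h1
    rw [← hp1, ← hp2, ← hp3, ← hp3, sy_cons, hs1, sy_C_mul, sy_cons 0 [x], h0, sy_zero, w0, zero_add] at h1
    have h2 : (5 : K) * sy [x] ω = 0 := by linear_combination h1
    exact (mul_eq_zero.1 h2).resolve_left (by norm_num)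
  have cz : ∀ {q : ℤ} (hq : Odd q) {G : AA K} (hG : Hm q G), sy [] G = 0 := by
    intro q hq G hG
    have := Hm_neg hq hG []
    simp only [List.map_nil] at this
    have h2 : (2 : K) * sy [] G = 0 := by linear_combination this
    exact (mul_eq_zero.1 h2).resolve_left two_ne_zero
  constructor
  · intro l hl
    match l, hl with
    | [], _ => exact cz hq hω
    | [x], _ => exact wz x
  · intro l hl
    match l, hl with
    | [], _ => exact cz hq2 hη
    | [x], _ =>
      by_cases hx : x = 0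
      · rw [hx, e0]
      · rw [ew x hx, wz x, mul_zero]

end Pool.Agent.H93RH
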