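import Pool.Agent.H93RH.Rig2

open MvPolynomial

namespace Pool.Agent.H93RH

set_option linter.all false

variable {K : Type*} [Field K]

theorem ell0_eq (G : AA K) : ell 0 G = pderiv 0 G := by
  have h : (ell 0 : Derivation K (AA K) (AA K)) = pderiv 0 := by
    apply der_ext
    intro i
    rw [ell_X, pderiv_X]
    by_cases hi : i = 0
    · subst hi; simp
    · rw [zero_pow hi, Pi.single_eq_of_ne hi, C_0]
  rw [h]

theorem rho_comp (t : K) (m : ℕ) (G : AA K) : rho t (homogeneousComponent m G) = homogeneousComponent m (rho t G) := by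
  ext s
  rw [coeff_rho, coeff_homogeneousComponent, coeff_homogeneousComponent, coeff_rho]
  split_ifs <;> simp

theorem rho_hom (t : K) {m : ℕ} {G : AA K} (hG : G.IsHomogeneous m) : (rho t G).IsHomogeneous m := by
  intro s hs
  apply hG
  rw [coeff_rho] at hs
  exact right_ne_zero_of_mul hs

theorem D_C_mul (c : K) (G : AA K) : D (C c * G) = C c * D G := by
  rw [Derivation.leibniz, der_C]; simp

theorem rho_K3 (t : K) (G : AA K) : rho t (K3 G) = C (t ^ 3) * K3 (rho t G) := by
  unfold K3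
  rw [map_sub, rho_D, rho_D, rho_D, rho_Sh, D_C_mul, D_C_mul, D_C_mul]
  simp only [C_pow]; ring

theorem ell0_K3 (G : AA K) : ell 0 (K3 G) = K3 (ell 0 G) := by
  unfold K3
  rw [map_sub, ell_D, ell_D, ell_D, ell_Sh, Dx_zero, Dx_zero, Dx_zero]
  simp

theorem p1_Sh3 (G : AA K) : pderiv 1 (Sh 3 G) = Sh 3 (pderiv 1 G) := by
  have h : ⁅(pderiv 1 : Derivation K (AA K) (AA K)), (Sh 3 : Derivation K (AA K) (AA K))⁆ = 0 := by
    apply der_ext
    intro i
    rw [Derivation.commutator_apply, Sh_X, pderiv_X, pderiv_X, Derivation.zero_apply, Pi.single_eq_of_ne (by omega)]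
    by_cases h1 : i = 1
    · subst h1
      rw [Pi.single_eq_same]
      have : (1 : AA K) = C 1 := by simp
      rw [this, der_C]; simp
    · rw [Pi.single_eq_of_ne (by simpa [eq_comm] using h1), map_zero, sub_zero]
  have := congrArg (fun d : Derivation K (AA K) (AA K) => d G) h
  simp only [Derivation.commutator_apply, Derivation.zero_apply] at this
  linear_combination this

theorem ell0_lev2 [CharZero K] (F : AA K) (hF : F.IsHomogeneous 2) (h : pderiv 1 (K3 F) = 0) : ell 0 F = 0 := by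
  have h1 : K3 (pderiv 1 F) = 0 := by
    apply inj_all
    intro l
    rw [sy_K3]
    by_cases hl : l.length = 1
    · obtain ⟨x, rfl⟩ := List.length_eq_one_iff.1 hl
      simp [k3]
    · rw [sy_hom_ne 1 _ (hom_pderiv hF 1) l hl, mul_zero]
  have h2 : pderiv 1 (K3 F) = K3 (pderiv 1 F) + C 3 * D (D (pderiv 0 F)) := by
    unfold K3
    rw [map_sub, p1_D, p1_D, p1_D, p1_Sh3, p0_D, p0_D, map_add, map_add, map_add, p0_D]
    simp only [map_add, map_ofNat]; ring
  rw [h, h1, zero_add] at h2
  rw [ell0_eq]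
  have hT : ({0}ᶜ : Set K).Infinite := (Set.finite_singleton 0).infinite_compl
  apply inj_hom _ hT 1 _ (hom_pderiv hF 0)
  intro l hl hlen
  obtain ⟨x, rfl⟩ := List.length_eq_one_iff.1 hlen
  have hx : x ≠ 0 := hl x (by simp)
  have h3 := congrArg (sy [x]) h2
  rw [sy_zero, sy_C_mul, sy_D, sy_D] at h3
  simp only [List.sum_cons, List.sum_nil, add_zero] at h3
  have h4 : (3 * x * x) * sy [x] (pderiv 0 F) = 0 := by linear_combination -h3
  exact (mul_eq_zero.1 h4).resolve_left (mul_ne_zero (mul_ne_zero (by norm_num) hx) hx)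

theorem step_core [CharZero K] (κ : K) (hκ : κ ≠ 0) {q : ℤ} (m : ℕ) (hm : 2 ≤ m) (ω η : AA K)
    (hω : Hm q ω) (h : br (P κ) η = br (R κ) ω) (h0 : ell 0 ω = 0) (hlω : Low m ω) (hlη : Low m η)
    (hdvd : ∀ p : MvPolynomial (Fin m) K, (∀ ξ : Fin m → K, eval ξ p = sy (List.ofFn ξ) ω) → K3p m ∣ p)
    (h1 : m = 2 → pderiv 1 ω = 0) :
    ∃ F : AA K, F.IsHomogeneous m ∧ (∀ l : List K, l.length = m → k3 l * sy l F = sy l ω) ∧
      (∀ l : List K, l.length = m → sy l η = 9 * κ * k5 l * sy l F) ∧ Hm (q - 3) F ∧ ell 0 F = 0 := by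
  obtain ⟨p, hp1, hp2⟩ := pol m (homogeneousComponent m ω) (homogeneousComponent_isHomogeneous m ω)
  obtain ⟨F, hF, hK⟩ := K3_div m _ (homogeneousComponent_isHomogeneous m ω) p hp1 hp2
    (hdvd p (fun ξ => by rw [hp1]; exact sy_comp m ω _ (by simp)))
  have hk : ∀ l : List K, l.length = m → k3 l * sy l F = sy l ω := by
    intro l hl; rw [← sy_K3, hK, sy_comp m ω l hl]
  refine ⟨F, hF, hk, ?_, ?_, ?_⟩
  · -- eta
    have hz : homogeneousComponent m η - C (9 * κ) * K5 F = 0 := by
      have hK5 : (C (9 * κ) * K5 F).IsHomogeneous m ∨ True := Or.inr trivial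
      -- work with the homogeneous component
      have e0 : homogeneousComponent m (homogeneousComponent m η - C (9 * κ) * K5 F) = 0 := by
        apply K3_inj m hm _ (homogeneousComponent_isHomogeneous _ _)
        apply inj_all
        intro l
        rw [sy_K3]
        by_cases hl : l.length = m
        · rw [sy_comp m _ l hl, sy_sub, sy_comp m η l hl, sy_C_mul, sy_K5]
          have e1 := congrArg (sy l) h
          rw [sy_brP_low κ m η hlη l (by omega), sy_brR_low κ m ω hlω l (by omega), ← hk l hl] at e1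
          have e2 : (2 * κ) * (k3 l * (sy l η - 9 * κ * (k5 l * sy l F))) = 0 := by linear_combination -e1
          exact (mul_eq_zero.1 e2).resolve_left (mul_ne_zero two_ne_zero hκ)
        · rw [sy_hom_ne m _ (homogeneousComponent_isHomogeneous _ _) l hl, mul_zero]
      apply inj_all
      intro l
      by_cases hl : l.length = m
      · rw [← sy_comp m _ l hl, e0, sy_zero]
      · rw [sy_sub, sy_hom_ne m _ (homogeneousComponent_isHomogeneous _ _) l hl, sy_C_mul, sy_K5, sy_hom_ne m F hF l hl]; ring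
    intro l hl
    have e := congrArg (sy l) hz
    rw [sy_sub, sy_comp m η l hl, sy_C_mul, sy_K5, sy_zero] at e
    linear_combination e
  · -- weight
    intro t ht
    have e1 : K3 (C (t ^ 3) * rho t F - C (t ^ q) * F) = 0 := by
      rw [K3_sub, K3_C_mul, K3_C_mul, ← rho_K3, hK, rho_comp, hω t ht]
      apply sub_eq_zero.2
      rw [← MvPolynomial.smul_eq_C_mul, map_smul, MvPolynomial.smul_eq_C_mul]
    have hh : (C (t ^ 3) * rho t F - C (t ^ q) * F).IsHomogeneous m := by
      apply IsHomogeneous.sub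
      · have := (isHomogeneous_C ℕ (t ^ 3)).mul (rho_hom t hF)
        simpa using this
      · have := (isHomogeneous_C ℕ (t ^ q)).mul hF
        simpa using this
    have e2 := sub_eq_zero.1 (K3_inj m hm _ hh e1)
    have hC : (C (t ^ 3) : AA K) ≠ 0 := by rw [Ne, C_eq_zero]; exact pow_ne_zero 3 ht
    apply mul_left_cancel₀ hC
    rw [e2, ← mul_assoc, ← C_mul]
    congr 2
    rw [← zpow_natCast, ← zpow_add₀ ht]; congr 1; push_cast; ring
  · -- ell0
    by_cases hm2 : m = 2
    · subst hm2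
      apply ell0_lev2 F hF
      rw [hK]
      exact pderiv_comp _ _ _ (h1 rfl)
    · obtain ⟨n, rfl⟩ : ∃ n, m = n + 1 := ⟨m - 1, by omega⟩
      have hh : (ell 0 F).IsHomogeneous n := by rw [ell0_eq]; exact hom_pderiv hF 0
      apply K3_inj n (by omega) _ hh
      rw [← ell0_K3, hK, ell0_eq]
      rw [ell0_eq] at h0
      exact pderiv_comp _ _ _ h0

def St (κ : K) (q : ℤ) (ω η : AA K) (m : ℕ) (F : AA K) : Prop :=
  Hm (q - 3) F ∧ Low 2 F ∧ ell 0 F = 0 ∧ Low m (ω - br (P κ) F) ∧ Low m (η - br (R κ) F)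

theorem step [CharZero K] (κ : K) (hκ : κ ≠ 0) {q : ℤ} (m : ℕ) (hm : 2 ≤ m) (ω η F : AA K)
    (hω : Hm q ω) (h : br (P κ) η = br (R κ) ω) (h0 : ell 0 ω = 0)
    (hst : St κ q ω η m F)
    (hdvd : ∀ p : MvPolynomial (Fin m) K, (∀ ξ : Fin m → K, eval ξ p = sy (List.ofFn ξ) (ω - br (P κ) F)) → K3p m ∣ p)
    (h1 : m = 2 → pderiv 1 (ω - br (P κ) F) = 0) : ∃ F', St κ q ω η (m + 1) F' := by
  obtain ⟨hF1, hF2, hF3, hF4, hF5⟩ := hst
  have hh : br (P κ) (η - br (R κ) F) = br (R κ) (ω - br (P κ) F) := by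
    rw [br_sub_right, br_sub_right, h]
    have := jacobi (P κ) (R κ) F
    rw [br_P_R, br_zero_left] at this
    linear_combination -this
  have hHm : Hm q (ω - br (P κ) F) := by
    apply hω.sub
    have := (Hm_P κ).br hF1
    have e : (4 : ℤ) + (q - 3) - 1 = q := by ring
    rwa [e] at this
  have hell : ell 0 (ω - br (P κ) F) = 0 := by
    rw [map_sub, h0, ell0_br, ell0_P, hF3, br_zero_right, br_smul_left, br_X0]; simp
  obtain ⟨F', hF', hk, he, hw, hl0⟩ := step_core κ hκ m hm _ _ hHm hh hell hF4 hF5 hdvd h1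
  have hlow : Low m F' := fun l hl => sy_hom_ne m F' hF' l (by omega)
  refine ⟨F + C (-(2 * κ)⁻¹) * F', hF1.add (hw.smul _), ?_, ?_, ?_, ?_⟩
  · intro l hl
    rw [sy_add, hF2 l hl, sy_C_mul, hlow l (by omega)]; ring
  · rw [map_add, hF3, Derivation.leibniz, der_C, hl0]; simp
  · intro l hl
    have e : ω - br (P κ) (F + C (-(2 * κ)⁻¹) * F') = (ω - br (P κ) F) + C ((2 * κ)⁻¹) * br (P κ) F' := by
      rw [br_add_right, br_smul_right, C_neg]; ring
    rw [e, sy_add, sy_C_mul, sy_brP_low κ m F' hlow l (by omega)]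
    by_cases hlm : l.length = m
    · rw [← hk l hlm]; field_simp; ring
    · rw [hF4 l (by omega), hlow l (by omega)]; ring
  · intro l hl
    have e : η - br (R κ) (F + C (-(2 * κ)⁻¹) * F') = (η - br (R κ) F) + C ((2 * κ)⁻¹) * br (R κ) F' := by
      rw [br_add_right, br_smul_right, C_neg]; ring
    rw [e, sy_add, sy_C_mul, sy_brR_low κ m F' hlow l (by omega)]
    by_cases hlm : l.length = m
    · rw [he l hlm]; field_simp; ring
    · rw [hF5 l (by omega), hlow l (by omega)]; ring

/-! divisibility -/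
theorem lin_dvd2 {m : ℕ} [Infinite K] (i : Fin m) (g a p : MvPolynomial (Fin m) K)
    (hv : ∀ ξ : Fin m → K, eval (Function.update ξ i (eval ξ g)) (a * p) = 0)
    (ha : ∃ ξ : Fin m → K, eval (Function.update ξ i (eval ξ g)) a ≠ 0) : (X i - g) ∣ p := by
  classical
  set σ := aeval (R := K) (Function.update (fun j => (X j : MvPolynomial (Fin m) K)) i g) with hσ
  have key : ∀ (q : MvPolynomial (Fin m) K) (ξ : Fin m → K), eval ξ (σ q) = eval (Function.update ξ i (eval ξ g)) q := by
    intro q ξ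
    rw [hσ, aeval_def, eval₂_eq_eval_map] 
    induction q using MvPolynomial.induction_on with
    | C a => simp
    | add p q hp hq => simp only [map_add, hp, hq]
    | mul_X p k hp =>
      simp only [map_mul, hp, map_X, eval_X]
      congr 1
      by_cases hk : k = i
      · subst hk; simp
      · simp [Function.update_of_ne hk]
  have h1 : σ (a * p) = 0 := by
    apply MvPolynomial.funext
    intro ξ
    rw [key, hv, map_zero]
  have h2 : σ a ≠ 0 := by
    obtain ⟨ξ, hξ⟩ := ha
    intro h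
    apply hξ
    rw [← key, h, map_zero]
  rw [map_mul] at h1
  have h3 := (mul_eq_zero.1 h1).resolve_left h2
  have h4 := lin_dvd i g p
  rw [← hσ, h3, sub_zero] at h4
  exact h4

end Pool.Agent.H93RH
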