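import Pool.Agent.H93RH.Rig4a
import Pool.Agent.H93RH.Psi

open MvPolynomial

namespace Pool.Agent.H93RH

set_option linter.all false

variable {K : Type*} [Field K]

set_option maxHeartbeats 4000000 in
theorem E4_holds [CharZero K] (κ : K) (hκ : κ ≠ 0) (ω η : AA K) (h : br (P κ) η = br (R κ) ω) (hlω : Low 3 ω) (hlη : Low 3 η) :
    E4 κ (fun x y z => sy [x, y, z] ω) (fun x y z t => sy [x, y, z, t] η) (fun x y z t => sy [x, y, z, t] ω) := by
  intro x y z t
  have h3 := lev3rel κ hκ ω η h hlω hlη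
  have w0 : sy [] ω = 0 := hlω [] (by simp)
  have w1 : ∀ x, sy [x] ω = 0 := fun x => hlω [x] (by simp)
  have w2 : ∀ x y, sy [x, y] ω = 0 := fun x y => hlω [x, y] (by simp)
  have e0 : sy [] η = 0 := hlη [] (by simp)
  have e1 : ∀ x, sy [x] η = 0 := fun x => hlη [x] (by simp)
  have e2 : ∀ x y, sy [x, y] η = 0 := fun x y => hlη [x, y] (by simp)
  have h1 := congrArg (sy [x, y, z, t]) h
  rw [sy_br, sy_br] at h1
  simp only [splits, List.map_cons, List.map_nil, List.map_append, List.cons_append, List.nil_append, List.sum_cons, List.sum_nil, zero_add, add_zero, zero_mul,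
    sy_P0, sy_P1, sy_P2, sy_P3, sy_R0, sy_R1, sy_R2, sy_R3, sy_R4, w0, w1, w2, e0, e1, e2, mul_zero, sub_zero, zero_sub, h3,
    pm4a x y z t, pm4b x y z t, pm4c x y z t] at h1
  linear_combination h1

set_option maxHeartbeats 4000000 in
theorem E5_holds [CharZero K] (κ : K) (hκ : κ ≠ 0) (ω η : AA K) (h : br (P κ) η = br (R κ) ω) (hlω : Low 3 ω) (hlη : Low 3 η) :
    E5 κ (fun x y z => sy [x, y, z] ω) (fun x y z t => sy [x, y, z, t] η) (fun x y z t => sy [x, y, z, t] ω)
      (fun x y z t s => sy [x, y, z, t, s] η) (fun x y z t s => sy [x, y, z, t, s] ω) := by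
  intro x y z t s
  have w0 : sy [] ω = 0 := hlω [] (by simp)
  have w1 : ∀ x, sy [x] ω = 0 := fun x => hlω [x] (by simp)
  have w2 : ∀ x y, sy [x, y] ω = 0 := fun x y => hlω [x, y] (by simp)
  have e0 : sy [] η = 0 := hlη [] (by simp)
  have e1 : ∀ x, sy [x] η = 0 := fun x => hlη [x] (by simp)
  have e2 : ∀ x y, sy [x, y] η = 0 := fun x y => hlη [x, y] (by simp)
  have h1 := congrArg (sy [x, y, z, t, s]) h
  rw [sy_br, sy_br] at h1
  simp only [splits, List.map_cons, List.map_nil, List.map_append, List.cons_append, List.nil_append, List.sum_cons, List.sum_nil, zero_add, add_zero, zero_mul,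
    sy_P0, sy_P1, sy_P2, sy_P3, sy_R0, sy_R1, sy_R2, sy_R3, sy_R4, w0, w1, w2, e0, e1, e2, mul_zero, sub_zero, zero_sub,
    pm5a x y z t s, pm5b x y z t s, pm5c x y z t s, pm5d x y z t s] at h1
  linear_combination h1

theorem odd3 {q : ℤ} (hq : Odd q) {G : AA K} (hG : Hm q G) {x y z x' y' z' : K} (hx : x = -x') (hy : y = -y') (hz : z = -z') :
    sy [x, y, z] G = - sy [x', y', z'] G := by
  have := Hm_neg hq hG [x', y', z']
  subst hx; subst hy; subst hz
  simpa using this
theorem odd4 {q : ℤ} (hq : Odd q) {G : AA K} (hG : Hm q G) {x y z t x' y' z' t' : K} (hx : x = -x') (hy : y = -y') (hz : z = -z') (ht : t = -t') :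
    sy [x, y, z, t] G = - sy [x', y', z', t'] G := by
  have := Hm_neg hq hG [x', y', z', t']
  subst hx; subst hy; subst hz; subst ht
  simpa using this

theorem psi_zero [CharZero K] (κ : K) (hκ : κ ≠ 0) {q : ℤ} (hq : Odd q) (ω η : AA K) (hω : Hm q ω) (hη : Hm (q + 2) η)
    (h : br (P κ) η = br (R κ) ω) (h0 : ell 0 ω = 0) (hlω : Low 3 ω) (hlη : Low 3 η) (a c : K) : sy [a, c, -a] ω = 0 := by
  have hq2 : Odd (q + 2) := by obtain ⟨k, hk⟩ := hq; exact ⟨k + 1, by omega⟩
  have h4 := E4_holds κ hκ ω η h hlω hlη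
  have h5 := E5_holds κ hκ ω η h hlω hlη
  have s0 : ∀ (x y z : K) (G : AA K), sy [x, y, z] G = sy [y, x, z] G := fun x y z G => sy_swap x y [z] G
  have s1 : ∀ (x y z : K) (G : AA K), sy [x, y, z] G = sy [x, z, y] G := fun x y z G => sy_swap y z [] (ell x G)
  have t0 : ∀ (x y z t : K) (G : AA K), sy [x, y, z, t] G = sy [y, x, z, t] G := fun x y z t G => sy_swap x y [z, t] G
  have t1 : ∀ (x y z t : K) (G : AA K), sy [x, y, z, t] G = sy [x, z, y, t] G := fun x y z t G => sy_swap y z [t] (ell x G)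
  have t2 : ∀ (x y z t : K) (G : AA K), sy [x, y, z, t] G = sy [x, y, t, z] G := fun x y z t G => sy_swap z t [] (ell y (ell x G))
  have wz : ∀ y z : K, sy [0, y, z] ω = 0 := fun y z => by rw [sy_cons, h0, sy_zero]
  have Wz : ∀ y z t : K, sy [0, y, z, t] ω = 0 := fun y z t => by rw [sy_cons, h0, sy_zero]
  have r1 : ∀ a b : K, 60 * κ * (a * b) * (a * sy [a, b, -a] ω + b * sy [a, b, -b] ω) = 0 :=
    fun a b => T1 κ (fun x y z => sy [x, y, z] ω) (fun x y z t => sy [x, y, z, t] η) (fun x y z t => sy [x, y, z, t] ω)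
      (fun x y z => s0 x y z ω) (fun x y z => s1 x y z ω) wz (fun hx hy hz => odd3 hq hω hx hy hz)
      (fun x y z t => t0 x y z t η) (fun x y z t => t1 x y z t η) (fun x y z t => t2 x y z t η) (fun hx hy hz ht => odd4 hq2 hη hx hy hz ht)
      (fun x y z t => t0 x y z t ω) (fun x y z t => t1 x y z t ω) (fun x y z t => t2 x y z t ω) Wz (fun hx hy hz ht => odd4 hq hω hx hy hz ht)
      h4 a b
  have r2 : ∀ a b c : K, 60 * κ * (a * b * c) * (c * sy [a, c, -a] ω + a * sy [a, c, -c] ω) = 0 :=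
    fun a b c => T2 κ (fun x y z => sy [x, y, z] ω) (fun x y z t => sy [x, y, z, t] η) (fun x y z t => sy [x, y, z, t] ω)
      (fun x y z => s0 x y z ω) (fun x y z => s1 x y z ω) wz (fun hx hy hz => odd3 hq hω hx hy hz)
      (fun x y z t => t0 x y z t η) (fun x y z t => t1 x y z t η) (fun x y z t => t2 x y z t η) (fun hx hy hz ht => odd4 hq2 hη hx hy hz ht)
      (fun x y z t => t0 x y z t ω) (fun x y z t => t1 x y z t ω) (fun x y z t => t2 x y z t ω) Wz (fun hx hy hz ht => odd4 hq hω hx hy hz ht)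
      h4 _ _ h5 a b c
  by_cases ha : a = 0
  · subst ha; exact wz _ _
  by_cases hc : c = 0
  · subst hc; rw [s0, wz]
  have h60 : (60 * κ * (a * c) : K) ≠ 0 := mul_ne_zero (mul_ne_zero (by norm_num) hκ) (mul_ne_zero ha hc)
  have q1 := (mul_eq_zero.1 (r1 a c)).resolve_left h60
  have q2 := r2 a 1 c
  rw [mul_one] at q2
  have q2 := (mul_eq_zero.1 q2).resolve_left h60
  have haa : sy [a, a, -a] ω = 0 := by
    have h601 : (60 * κ * (a * a) : K) ≠ 0 := mul_ne_zero (mul_ne_zero (by norm_num) hκ) (mul_ne_zero ha ha)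
    have := (mul_eq_zero.1 (r1 a a)).resolve_left h601
    have h2 : (2 * a) * sy [a, a, -a] ω = 0 := by linear_combination this
    exact (mul_eq_zero.1 h2).resolve_left (mul_ne_zero two_ne_zero ha)
  by_cases h2 : a = c
  · subst h2; exact haa
  by_cases h3 : a = -c
  · have h4' : c = -a := by rw [h3, neg_neg]
    rw [h4', odd3 hq hω (x' := -a) (y' := a) (z' := a) (by ring) (by ring) (by ring), s0, s1, haa, neg_zero]
  have h5' : (a - c) * (a + c) * sy [a, c, -a] ω = 0 := by linear_combination a * q1 - c * q2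
  have h6 : (a - c) * (a + c) ≠ 0 := mul_ne_zero (sub_ne_zero.2 h2) (by intro h; apply h3; linear_combination h)
  exact (mul_eq_zero.1 h5').resolve_left h6

theorem dvd2 [CharZero K] {q : ℤ} (hq : Odd q) (ω : AA K) (hω : Hm q ω) (h0 : ell 0 ω = 0)
    (p : MvPolynomial (Fin 2) K) (hp : ∀ ξ : Fin 2 → K, eval ξ p = sy (List.ofFn ξ) ω) : K3p 2 ∣ p := by
  have hp' : ∀ ξ : Fin 2 → K, eval ξ p = sy [ξ 0, ξ 1] ω := by intro ξ; rw [hp]; rfl
  have d1 : (X 0 - 0 : MvPolynomial (Fin 2) K) ∣ p := by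
    apply lin_dvd2 0 0 1 p
    · intro ξ
      rw [one_mul, hp', map_zero, Function.update_self, sy_cons, h0, sy_zero]
    · exact ⟨0, by simp⟩
  obtain ⟨p1, rfl⟩ := d1
  have d2 : (X 1 - 0 : MvPolynomial (Fin 2) K) ∣ p1 := by
    apply lin_dvd2 1 0 (X 0 - 0) p1
    · intro ξ
      rw [hp', map_zero, Function.update_self, sy_swap, sy_cons, h0, sy_zero]
    · exact ⟨fun _ => 1, by simp⟩
  obtain ⟨p2, rfl⟩ := d2
  have d3 : (X 1 - (-X 0) : MvPolynomial (Fin 2) K) ∣ p2 := by
    apply lin_dvd2 1 (-X 0) ((X 0 - 0) * (X 1 - 0)) p2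
    · intro ξ
      have e := hp' (Function.update ξ 1 (eval ξ (-X 0)))
      rw [mul_assoc, e, Function.update_self, Function.update_of_ne (by decide)]
      simp only [map_neg, eval_X]
      have h1 := Hm_neg hq hω [ξ 0, -ξ 0]
      simp only [List.map_cons, List.map_nil, neg_mul, one_mul, neg_neg] at h1
      rw [sy_swap] at h1
      have h2 : (2 : K) * sy [ξ 0, -ξ 0] ω = 0 := by linear_combination h1
      exact (mul_eq_zero.1 h2).resolve_left two_ne_zero
    · refine ⟨fun _ => 1, ?_⟩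
      simp [Function.update_of_ne]
  obtain ⟨p3, rfl⟩ := d3
  refine ⟨C (3⁻¹) * p3, ?_⟩
  unfold K3p
  rw [Fin.sum_univ_two, Fin.sum_univ_two]
  have h3 : (C (3⁻¹ : K) : MvPolynomial (Fin 2) K) * 3 = 1 := by
    have : (3 : MvPolynomial (Fin 2) K) = C 3 := (map_ofNat C 3).symm
    rw [this, ← C_mul, inv_mul_cancel₀ (by norm_num), C_1]
  linear_combination (-(X 0 * X 1 * (X 0 + X 1) * p3)) * h3

theorem dvd3 [CharZero K] (ω : AA K) (h : ∀ a c : K, sy [a, c, -a] ω = 0)
    (p : MvPolynomial (Fin 3) K) (hp : ∀ ξ : Fin 3 → K, eval ξ p = sy (List.ofFn ξ) ω) : K3p 3 ∣ p := by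
  have hp' : ∀ ξ : Fin 3 → K, eval ξ p = sy [ξ 0, ξ 1, ξ 2] ω := by intro ξ; rw [hp]; rfl
  have s0 : ∀ (x y z : K) (G : AA K), sy [x, y, z] G = sy [y, x, z] G := fun x y z G => sy_swap x y [z] G
  have s1 : ∀ (x y z : K) (G : AA K), sy [x, y, z] G = sy [x, z, y] G := fun x y z G => sy_swap y z [] (ell x G)
  have d1 : (X 1 - (-X 0) : MvPolynomial (Fin 3) K) ∣ p := by
    apply lin_dvd2 1 (-X 0) 1 p
    · intro ξ
      rw [one_mul, hp', Function.update_self, Function.update_of_ne (by decide), Function.update_of_ne (by decide)]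
      simp only [map_neg, eval_X]
      rw [s1, h]
    · exact ⟨0, by simp⟩
  obtain ⟨p1, rfl⟩ := d1
  have d2 : (X 2 - (-X 0) : MvPolynomial (Fin 3) K) ∣ p1 := by
    apply lin_dvd2 2 (-X 0) (X 1 - (-X 0)) p1
    · intro ξ
      rw [hp', Function.update_self, Function.update_of_ne (by decide), Function.update_of_ne (by decide)]
      simp only [map_neg, eval_X]
      exact h _ _
    · refine ⟨fun _ => 1, ?_⟩
      simp [Function.update_of_ne]
  obtain ⟨p2, rfl⟩ := d2
  have d3 : (X 2 - (-X 1) : MvPolynomial (Fin 3) K) ∣ p2 := by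
    apply lin_dvd2 2 (-X 1) ((X 1 - (-X 0)) * (X 2 - (-X 0))) p2
    · intro ξ
      have e := hp' (Function.update ξ 2 (eval ξ (-X 1)))
      rw [mul_assoc, e, Function.update_self, Function.update_of_ne (by decide), Function.update_of_ne (by decide)]
      simp only [map_neg, eval_X]
      rw [s0]
      exact h _ _
    · refine ⟨fun i => if i = 0 then 2 else 1, ?_⟩
      simp [Function.update_of_ne]
      norm_num
  obtain ⟨p3, rfl⟩ := d3
  refine ⟨C (3⁻¹) * p3, ?_⟩
  unfold K3p
  rw [Fin.sum_univ_three, Fin.sum_univ_three]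
  have h3 : (C (3⁻¹ : K) : MvPolynomial (Fin 3) K) * 3 = 1 := by
    have : (3 : MvPolynomial (Fin 3) K) = C 3 := (map_ofNat C 3).symm
    rw [this, ← C_mul, inv_mul_cancel₀ (by norm_num), C_1]
  linear_combination (-((X 0 + X 1) * (X 0 + X 2) * (X 1 + X 2) * p3)) * h3

theorem dvd4 [CharZero K] (κ : K) (hκ : κ ≠ 0) (m : ℕ) (hm : 4 ≤ m) (ω η : AA K)
    (h : br (P κ) η = br (R κ) ω) (hlω : Low m ω) (hlη : Low m η)
    (p : MvPolynomial (Fin m) K) (hp : ∀ ξ : Fin m → K, eval ξ p = sy (List.ofFn ξ) ω) : K3p m ∣ p := by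
  obtain ⟨p', hp1', hp2'⟩ := pol m (homogeneousComponent m η) (homogeneousComponent_isHomogeneous m η)
  apply K3p_dvd m hm
  refine ⟨C ((9 * κ)⁻¹) * p', ?_⟩
  apply MvPolynomial.funext
  intro ξ
  rw [map_mul, map_mul, map_mul, hp, hp1', eval_C, k5_ofFn, k3_ofFn]
  have hlen : (List.ofFn ξ).length = m := by simp
  rw [sy_comp m η _ hlen]
  have e1 := congrArg (sy (List.ofFn ξ)) h
  rw [sy_brP_low κ m η hlη _ (by omega), sy_brR_low κ m ω hlω _ (by omega)] at e1
  field_simp
  have e2 : (2 * κ) * (9 * κ * k5 (List.ofFn ξ) * sy (List.ofFn ξ) ω - k3 (List.ofFn ξ) * sy (List.ofFn ξ) η) = 0 := by linear_combination e1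
  have e3 := (mul_eq_zero.1 e2).resolve_left (mul_ne_zero two_ne_zero hκ)
  linear_combination e3

theorem kdv_rigid [CharZero K] (κ : K) (hκ : κ ≠ 0) {q : ℤ} (hq : Odd q) (ω η : AA K) (hω : Hm q ω) (hη : Hm (q + 2) η)
    (h : br (P κ) η = br (R κ) ω) (h0 : ell 0 ω = 0) (h1 : pderiv 1 ω = 0) : ω = 0 := by
  have key : ∀ m : ℕ, 2 ≤ m → ∃ F, St κ q ω η m F ∧ (m = 2 → F = 0) := by
    intro m hm
    induction m, hm using Nat.le_induction with
    | base =>
      obtain ⟨a1, a2⟩ := S2 κ hκ hq hω hη h h0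
      exact ⟨0, ⟨Hm.zero, fun l _ => sy_zero l, map_zero _, by rw [br_zero_right, sub_zero]; exact a1, by rw [br_zero_right, sub_zero]; exact a2⟩, fun _ => rfl⟩
    | succ m hm ih =>
      obtain ⟨F, hF, hFz⟩ := ih
      have hst := hF
      obtain ⟨hF1, hF2, hF3, hF4, hF5⟩ := hF
      have hh : br (P κ) (η - br (R κ) F) = br (R κ) (ω - br (P κ) F) := by
        rw [br_sub_right, br_sub_right, h]
        have := jacobi (P κ) (R κ) F
        rw [br_P_R, br_zero_left] at this
        linear_combination -this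
      have hHm : Hm q (ω - br (P κ) F) := by
        apply hω.sub
        have := (Hm_P κ).br hF1
        have e : (4 : ℤ) + (q - 3) - 1 = q := by ring
        rwa [e] at this
      have hHm2 : Hm (q + 2) (η - br (R κ) F) := by
        apply hη.sub
        have := (Hm_R κ).br hF1
        have e : (6 : ℤ) + (q - 3) - 1 = q + 2 := by ring
        rwa [e] at this
      have hell : ell 0 (ω - br (P κ) F) = 0 := by
        rw [map_sub, h0, ell0_br, ell0_P, hF3, br_zero_right, br_smul_left, br_X0]; simp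
      suffices hs : ∃ F', St κ q ω η (m + 1) F' by
        obtain ⟨F', hF'⟩ := hs
        exact ⟨F', hF', fun h => by omega⟩
      apply step κ hκ m hm ω η F hω h h0 hst
      · intro p hp
        rcases Nat.lt_or_ge m 4 with hm4 | hm4
        · have hm23 : m = 2 ∨ m = 3 := by omega
          rcases hm23 with rfl | rfl
          · exact dvd2 hq _ hHm hell p hp
          · exact dvd3 _ (fun a c => psi_zero κ hκ hq _ _ hHm hHm2 hh hell hF4 hF5 a c) p hp
        · exact dvd4 κ hκ m hm4 _ _ hh hF4 hF5 p hp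
      · intro hm2
        rw [hFz hm2, br_zero_right, sub_zero, h1]
  obtain ⟨F, ⟨hF1, hF2, hF3, hF4, hF5⟩, _⟩ := key (q.toNat + 2) (by omega)
  have hHm : Hm q (ω - br (P κ) F) := by
    apply hω.sub
    have := (Hm_P κ).br hF1
    have e : (4 : ℤ) + (q - 3) - 1 = q := by ring
    rwa [e] at this
  have e1 := low_big q _ hHm (q.toNat + 2) (by push_cast; omega) hF4
  have e2 : ω = br (P κ) F := sub_eq_zero.1 e1
  have e3 : F = 0 := by
    apply top_lemma κ F
    · rw [← e2, h1]
    · intro j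
      cases j with
      | zero =>
        rw [Finsupp.single_zero]
        exact hF2 [] (by simp)
      | succ j =>
        rw [ell0_eq] at hF3
        have := congrArg (coeff (Finsupp.single 0 j)) hF3
        rw [coeff_pderiv, coeff_zero, ← Finsupp.single_add] at this
        rcases mul_eq_zero.1 this with h | h
        · exact h
        · exfalso
          simp at h
          exact (by exact_mod_cast h : False)
  rw [e2, e3, br_zero_right]

end Pool.Agent.H93RH
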