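import Pool.Agent.H93RH.Rig3

open MvPolynomial

namespace Pool.Agent.H93RH

set_option linter.all false

variable {K : Type*} [Field K]

theorem pm4a (x y z t : K) (G : AA K) : sy [y, z, t, x] G = sy [x, y, z, t] G := sy_perm (List.perm_middle (l₁ := [y, z, t]) (l₂ := [])) G
theorem pm4b (x y z t : K) (G : AA K) : sy [x, z, t, y] G = sy [x, y, z, t] G := sy_perm (List.Perm.cons x (List.perm_middle (l₁ := [z, t]) (l₂ := []))) G
theorem pm4c (x y z t : K) (G : AA K) : sy [x, y, t, z] G = sy [x, y, z, t] G := sy_perm (List.Perm.cons x (List.Perm.cons y (List.perm_middle (l₁ := [t]) (l₂ := [])))) G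
theorem pm5a (x y z t s : K) (G : AA K) : sy [y, z, t, s, x] G = sy [x, y, z, t, s] G := sy_perm (List.perm_middle (l₁ := [y, z, t, s]) (l₂ := [])) G
theorem pm5b (x y z t s : K) (G : AA K) : sy [x, z, t, s, y] G = sy [x, y, z, t, s] G := sy_perm (List.Perm.cons x (List.perm_middle (l₁ := [z, t, s]) (l₂ := []))) G
theorem pm5c (x y z t s : K) (G : AA K) : sy [x, y, t, s, z] G = sy [x, y, z, t, s] G := sy_perm (List.Perm.cons x (List.Perm.cons y (List.perm_middle (l₁ := [t, s]) (l₂ := [])))) G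
theorem pm5d (x y z t s : K) (G : AA K) : sy [x, y, z, s, t] G = sy [x, y, z, t, s] G := sy_perm (List.Perm.cons x (List.Perm.cons y (List.Perm.cons z (List.perm_middle (l₁ := [s]) (l₂ := []))))) G

/-- level 3 relation. -/
theorem lev3rel [CharZero K] (κ : K) (hκ : κ ≠ 0) (ω η : AA K) (h : br (P κ) η = br (R κ) ω) (hlω : Low 3 ω) (hlη : Low 3 η) (x y z : K) :
    sy [x, y, z] η = 15 / 2 * κ * ((x + y + z) ^ 2 + (x ^ 2 + y ^ 2 + z ^ 2)) * sy [x, y, z] ω := by
  have hz : homogeneousComponent 3 η - C (15 / 2 * κ) * (D (D (homogeneousComponent 3 ω)) + Sh 2 (homogeneousComponent 3 ω)) = 0 := by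
    have e0 : homogeneousComponent 3 (homogeneousComponent 3 η - C (15 / 2 * κ) * (D (D (homogeneousComponent 3 ω)) + Sh 2 (homogeneousComponent 3 ω))) = 0 := by
      apply K3_inj 3 (by norm_num) _ (homogeneousComponent_isHomogeneous _ _)
      apply inj_all
      intro l
      rw [sy_K3]
      by_cases hl : l.length = 3
      · obtain ⟨x, y, z, rfl⟩ := List.length_eq_three.1 hl
        rw [sy_comp 3 _ _ hl, sy_sub, sy_comp 3 η _ hl, sy_C_mul, sy_add, sy_D, sy_D, sy_Sh, sy_comp 3 ω _ hl]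
        have e1 := congrArg (sy [x, y, z]) h
        rw [sy_brP_low κ 3 η hlη _ (by simp), sy_brR_low κ 3 ω hlω _ (by simp)] at e1
        simp only [k3, k5, List.sum_cons, List.sum_nil, List.map_cons, List.map_nil, add_zero] at e1 ⊢
        have e2 : (2 * κ) * (((x + (y + z)) ^ 3 - (x ^ 3 + (y ^ 3 + z ^ 3))) *
          (sy [x, y, z] η - 15 / 2 * κ * ((x + (y + z)) * ((x + (y + z)) * sy [x, y, z] ω) + (x ^ 2 + (y ^ 2 + z ^ 2)) * sy [x, y, z] ω))) = 0 := by
          linear_combination -e1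
        exact (mul_eq_zero.1 e2).resolve_left (mul_ne_zero two_ne_zero hκ)
      · rw [sy_hom_ne 3 _ (homogeneousComponent_isHomogeneous _ _) l hl, mul_zero]
    apply inj_all
    intro l
    by_cases hl : l.length = 3
    · rw [← sy_comp 3 _ l hl, e0, sy_zero]
    · rw [sy_sub, sy_hom_ne 3 _ (homogeneousComponent_isHomogeneous _ _) l hl, sy_C_mul, sy_add, sy_D, sy_D, sy_Sh,
        sy_hom_ne 3 _ (homogeneousComponent_isHomogeneous _ _) l hl]; ring
  have e := congrArg (sy [x, y, z]) hz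
  rw [sy_sub, sy_comp 3 η _ rfl, sy_C_mul, sy_add, sy_D, sy_D, sy_Sh, sy_comp 3 ω _ rfl, sy_zero] at e
  simp only [List.sum_cons, List.sum_nil, List.map_cons, List.map_nil, add_zero] at e
  linear_combination e

end Pool.Agent.H93RH
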