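import Pool.Agent.H93RH.Core
import Pool.Agent.H93RH.Defs

open MvPolynomial

namespace Pool.Agent.H93RH

set_option linter.all false

open Finset.HasAntidiagonal (antidiagonal)


theorem leib (f g : PowerSeries ℂ) (m : ℕ) : (⇑(PowerSeries.derivative ℂ))^[m] (f * g) = ∑ ij ∈ antidiagonal m, m.choose ij.1 • ((⇑(PowerSeries.derivative ℂ))^[ij.1] f * (⇑(PowerSeries.derivative ℂ))^[ij.2] g) := by
  induction m with
  | zero => simp
  | succ m ih =>
    rw [Finset.sum_antidiagonal_choose_succ_nsmul (fun i j => (⇑(PowerSeries.derivative ℂ))^[i] f * (⇑(PowerSeries.derivative ℂ))^[j] g) m, Function.iterate_succ_apply', ih, map_sum,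
      ← Finset.sum_add_distrib]
    refine Finset.sum_congr rfl fun ij hij => ?_
    have h1 : m.choose ij.1 = m.choose ij.2 := by
      rw [Finset.HasAntidiagonal.mem_antidiagonal] at hij
      exact Nat.choose_symm_of_eq_add hij.symm
    rw [map_nsmul, Derivation.leibniz, ← h1, ← smul_add]
    simp only [smul_eq_mul, Function.iterate_succ_apply']
    congr 1; ring

variable {K : Type*} [Field K] [CharZero K] (ι : PowerSeries ℂ →+* K)

noncomputable def tc (m : ℕ) (f : PowerSeries ℂ) : K := ι ((⇑(PowerSeries.derivative ℂ))^[m] f) * ((m.factorial : ℕ) : K)⁻¹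

theorem tc_mul (m : ℕ) (f g : PowerSeries ℂ) : tc ι m (f * g) = ∑ ij ∈ antidiagonal m, tc ι ij.1 f * tc ι ij.2 g := by
  unfold tc
  rw [leib, map_sum, Finset.sum_mul]
  refine Finset.sum_congr rfl fun ij hij => ?_
  rw [Finset.HasAntidiagonal.mem_antidiagonal] at hij
  rw [nsmul_eq_mul, map_mul, map_mul, map_natCast, ← hij]
  have h1 : (ij.1 + ij.2).choose ij.1 * ij.1.factorial * ij.2.factorial = (ij.1 + ij.2).factorial := by
    rw [Nat.choose_symm_add]; exact Nat.add_choose_mul_factorial_mul_factorial ij.1 ij.2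
  have h2 : (((ij.1 + ij.2).choose ij.1 : ℕ) : K) * ((ij.1.factorial : ℕ) : K) * ((ij.2.factorial : ℕ) : K) = (((ij.1 + ij.2).factorial : ℕ) : K) := by
    exact_mod_cast h1
  have n1 : ((ij.1.factorial : ℕ) : K) ≠ 0 := by exact_mod_cast Nat.factorial_ne_zero _
  have n2 : ((ij.2.factorial : ℕ) : K) ≠ 0 := by exact_mod_cast Nat.factorial_ne_zero _
  have n3 : (((ij.1 + ij.2).factorial : ℕ) : K) ≠ 0 := by exact_mod_cast Nat.factorial_ne_zero _
  rw [← h2]
  have n4 : (((ij.1 + ij.2).choose ij.1 : ℕ) : K) ≠ 0 := by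
    intro h; apply n3; rw [← h2, h]; ring
  field_simp

theorem tc_add (m : ℕ) (f g : PowerSeries ℂ) : tc ι m (f + g) = tc ι m f + tc ι m g := by
  unfold tc
  have : ∀ f g : PowerSeries ℂ, (⇑(PowerSeries.derivative ℂ))^[m] (f + g) = (⇑(PowerSeries.derivative ℂ))^[m] f + (⇑(PowerSeries.derivative ℂ))^[m] g := by
    induction m with
    | zero => intro f g; rfl
    | succ m ih => intro f g; rw [Function.iterate_succ_apply, map_add, ih]; rfl
  rw [this, map_add]; ring

theorem tc_zero (m : ℕ) : tc ι m 0 = 0 := by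
  have := tc_add ι m 0 0
  rw [add_zero] at this
  linear_combination -this

theorem tc_succ (m : ℕ) (f : PowerSeries ℂ) : ((m : K) + 1) * tc ι (m + 1) f = tc ι m ((PowerSeries.derivative ℂ) f) := by
  unfold tc
  rw [Function.iterate_succ_apply, Nat.factorial_succ]
  have n1 : ((m.factorial : ℕ) : K) ≠ 0 := by exact_mod_cast Nat.factorial_ne_zero _
  have n2 : ((m : K) + 1) ≠ 0 := by exact_mod_cast Nat.succ_ne_zero m
  push_cast
  field_simp

theorem tc_one (m : ℕ) : tc ι m 1 = if m = 0 then 1 else 0 := by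
  cases m with
  | zero => simp [tc]
  | succ m =>
    have h := tc_succ ι m 1
    have h1 : (PowerSeries.derivative ℂ) (1 : PowerSeries ℂ) = 0 := by simp
    rw [h1, tc_zero] at h
    have n2 : ((m : K) + 1) ≠ 0 := by exact_mod_cast Nat.succ_ne_zero m
    rw [if_neg (Nat.succ_ne_zero m)]
    exact (mul_eq_zero.1 h).resolve_left n2

theorem tc_zero_idx (f : PowerSeries ℂ) : tc ι 0 f = ι f := by simp [tc]

noncomputable def tay0 : PowerSeries ℂ →+* PowerSeries (AA K) where
  toFun f := PowerSeries.mk (fun m => C (tc ι m f) * X 0 ^ m)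
  map_one' := by
    ext1 m
    rw [PowerSeries.coeff_mk, tc_one, PowerSeries.coeff_one]
    split_ifs with h
    · subst h; simp
    · simp
  map_zero' := by ext1 m; simp [tc_zero]
  map_add' f g := by ext1 m; simp only [PowerSeries.coeff_mk, map_add, tc_add, C_add, add_mul]
  map_mul' f g := by
    ext1 m
    rw [PowerSeries.coeff_mk, PowerSeries.coeff_mul, tc_mul, map_sum, Finset.sum_mul]
    refine Finset.sum_congr rfl fun ij hij => ?_
    rw [Finset.HasAntidiagonal.mem_antidiagonal] at hij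
    rw [PowerSeries.coeff_mk, PowerSeries.coeff_mk, C_mul, ← hij, pow_add]; ring

noncomputable def tay : PowerSeries ℂ →+* PowerSeries (AA K) :=
  (PowerSeries.expand 2 two_ne_zero : PowerSeries (AA K) →ₐ[AA K] PowerSeries (AA K)).toRingHom.comp (tay0 ι)

theorem tay_even (m : ℕ) (f : PowerSeries ℂ) : PowerSeries.coeff (2 * m) (tay ι f) = C (tc ι m f) * X 0 ^ m := by
  show PowerSeries.coeff (2 * m) (PowerSeries.expand 2 two_ne_zero (tay0 ι f)) = _
  rw [PowerSeries.coeff_expand_mul]
  show PowerSeries.coeff m (PowerSeries.mk (fun m => (C (tc ι m f) * X 0 ^ m : AA K))) = _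
  rw [PowerSeries.coeff_mk]

theorem tay_odd (n : ℕ) (hn : Odd n) (f : PowerSeries ℂ) : PowerSeries.coeff n (tay ι f) = 0 := by
  show PowerSeries.coeff n (PowerSeries.expand 2 two_ne_zero (tay0 ι f)) = _
  apply PowerSeries.coeff_expand_of_not_dvd
  intro h
  rw [← even_iff_two_dvd] at h
  exact (Nat.not_even_iff_odd.2 hn) h

/-- the Taylor map `u ↦ u₀ + δ² X₀`, `u_k ↦ δ^{k+2} X_k`. -/
noncomputable def T : DP →+* PowerSeries (AA K) :=
  eval₂Hom (tay ι) (fun k => PowerSeries.C (X (k + 1)) * PowerSeries.X ^ (k + 3))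

theorem T_C (a : PowerSeries ℂ) : T ι (C a) = tay ι a := by simp [T]
theorem T_X (k : ℕ) : T ι (X k) = PowerSeries.C (X (k + 1)) * PowerSeries.X ^ (k + 3) := by simp [T]

theorem T_mul_X (G : DP) (k w : ℕ) : PowerSeries.coeff w (T ι (G * X k)) =
    if k + 3 ≤ w then PowerSeries.coeff (w - (k + 3)) (T ι G) * X (k + 1) else 0 := by
  rw [map_mul, T_X, ← mul_assoc, PowerSeries.coeff_mul_X_pow']
  split_ifs
  · rw [PowerSeries.coeff_mul_C]
  · rfl

/-! coefficientwise operators -/
noncomputable def Dh (A : PowerSeries (AA K)) : PowerSeries (AA K) := PowerSeries.mk (fun v => D (PowerSeries.coeff v A))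
noncomputable def P0 (A : PowerSeries (AA K)) : PowerSeries (AA K) := PowerSeries.mk (fun v => pderiv 0 (PowerSeries.coeff v A))

omit [CharZero K] in
@[simp] theorem coeff_Dh (v : ℕ) (A : PowerSeries (AA K)) : PowerSeries.coeff v (Dh A) = D (PowerSeries.coeff v A) := by simp [Dh]
omit [CharZero K] in
@[simp] theorem coeff_P0 (v : ℕ) (A : PowerSeries (AA K)) : PowerSeries.coeff v (P0 A) = pderiv 0 (PowerSeries.coeff v A) := by simp [P0]

omit [CharZero K] in
theorem Dh_add (A B : PowerSeries (AA K)) : Dh (A + B) = Dh A + Dh B := by ext1 v; simp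
omit [CharZero K] in
theorem Dh_X_mul (A : PowerSeries (AA K)) : Dh (PowerSeries.X * A) = PowerSeries.X * Dh A := by
  ext1 v
  cases v with
  | zero => simp
  | succ v => simp [PowerSeries.coeff_succ_X_mul]

omit [CharZero K] in
theorem Dh_mul (A : PowerSeries (AA K)) (x : AA K) (n : ℕ) :
    Dh (A * (PowerSeries.C x * PowerSeries.X ^ n)) = Dh A * (PowerSeries.C x * PowerSeries.X ^ n) + A * (PowerSeries.C (D x) * PowerSeries.X ^ n) := by
  ext1 v
  rw [coeff_Dh, map_add, ← mul_assoc, ← mul_assoc, ← mul_assoc, PowerSeries.coeff_mul_X_pow', PowerSeries.coeff_mul_X_pow', PowerSeries.coeff_mul_X_pow']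
  split_ifs
  · rw [PowerSeries.coeff_mul_C, PowerSeries.coeff_mul_C, PowerSeries.coeff_mul_C, Derivation.leibniz, coeff_Dh]
    simp only [smul_eq_mul]; ring
  · simp

theorem Dh_tay (a : PowerSeries ℂ) : PowerSeries.X * Dh (tay ι a) = PowerSeries.C (X 1) * PowerSeries.X ^ 3 * tay ι ((PowerSeries.derivative ℂ) a) := by
  ext1 v
  have hr : PowerSeries.C (X 1) * PowerSeries.X ^ 3 * tay ι ((PowerSeries.derivative ℂ) a) = PowerSeries.X ^ 3 * (tay ι ((PowerSeries.derivative ℂ) a) * PowerSeries.C (X 1)) := by ring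
  rw [hr]
  match v with
  | 0 => simp [PowerSeries.coeff_X_pow_mul']
  | 1 =>
    rw [PowerSeries.coeff_succ_X_mul, coeff_Dh, PowerSeries.coeff_X_pow_mul', if_neg (by norm_num)]
    have := tay_even ι 0 a
    rw [mul_zero] at this
    rw [this]; simp
  | 2 =>
    rw [PowerSeries.coeff_succ_X_mul, coeff_Dh, PowerSeries.coeff_X_pow_mul', if_neg (by norm_num), tay_odd ι 1 (by decide), map_zero]
  | v + 3 =>
    rw [PowerSeries.coeff_succ_X_mul, coeff_Dh, PowerSeries.coeff_X_pow_mul', if_pos (by omega), Nat.add_sub_cancel, PowerSeries.coeff_mul_C]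
    rcases Nat.even_or_odd' v with ⟨m, hm | hm⟩
    · subst hm
      rw [tay_even, show 2 * m + 2 = 2 * (m + 1) by ring, tay_even, Derivation.leibniz, der_C, Derivation.leibniz_pow, D_X, ← tc_succ]
      simp only [smul_eq_mul, nsmul_eq_mul, mul_zero, add_zero, Nat.add_sub_cancel, zero_add, C_mul, C_add, C_1, map_natCast]
      push_cast; ring
    · rw [tay_odd ι v ⟨m, by omega⟩, tay_odd ι (v + 2) ⟨m + 1, by omega⟩, map_zero, zero_mul]

theorem T_dx (G : DP) : T ι (dx G) = PowerSeries.X * Dh (T ι G) := by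
  induction G using MvPolynomial.induction_on with
  | C a => rw [dx_C, map_mul, T_X, T_C, T_C, Dh_tay]
  | add p q hp hq => rw [dx_add, map_add, hp, hq, map_add, Dh_add, mul_add]
  | mul_X p i hp =>
    rw [dx_mul_X, map_add, map_mul, map_mul, hp, map_mul, T_X, T_X, Dh_mul, D_X, mul_add]
    ring

theorem T_dx_iter (G : DP) (k : ℕ) : T ι (dx^[k] G) = PowerSeries.X ^ k * Dh^[k] (T ι G) := by
  induction k generalizing G with
  | zero => simp
  | succ k ih =>
    rw [Function.iterate_succ_apply, ih, T_dx, Function.iterate_succ_apply, pow_succ]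
    have : ∀ A : PowerSeries (AA K), Dh^[k] (PowerSeries.X * A) = PowerSeries.X * Dh^[k] A := by
      clear ih
      induction k with
      | zero => intro A; rfl
      | succ k ih => intro A; rw [Function.iterate_succ_apply, Dh_X_mul, ih]; rfl
    rw [this]; ring

omit [CharZero K] in
theorem coeff_Dh_iter (k v : ℕ) (A : PowerSeries (AA K)) : PowerSeries.coeff v (Dh^[k] A) = (⇑(D : Derivation K (AA K) (AA K)))^[k] (PowerSeries.coeff v A) := by
  induction k generalizing A with
  | zero => rfl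
  | succ k ih => rw [Function.iterate_succ_apply, ih, coeff_Dh]; rfl

/-- the bilinear operation. -/
noncomputable def Eh (A B : PowerSeries (AA K)) : PowerSeries (AA K) :=
  PowerSeries.mk (fun N => ∑ ij ∈ antidiagonal N, E 0 (PowerSeries.coeff ij.1 A) (PowerSeries.coeff ij.2 B))

omit [CharZero K] in
@[simp] theorem coeff_Eh (N : ℕ) (A B : PowerSeries (AA K)) : PowerSeries.coeff N (Eh A B) = ∑ ij ∈ antidiagonal N, E 0 (PowerSeries.coeff ij.1 A) (PowerSeries.coeff ij.2 B) := by simp [Eh]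

omit [CharZero K] in
theorem Eh_add (A B B' : PowerSeries (AA K)) : Eh A (B + B') = Eh A B + Eh A B' := by
  ext1 N
  simp only [coeff_Eh, map_add, Finset.sum_add_distrib]

omit [CharZero K] in
theorem Eh_X_right (A B : PowerSeries (AA K)) : Eh A (PowerSeries.X * B) = PowerSeries.X * Eh A B := by
  ext1 N
  cases N with
  | zero => simp
  | succ N =>
    rw [PowerSeries.coeff_succ_X_mul, coeff_Eh, coeff_Eh, Finset.Nat.sum_antidiagonal_succ']
    simp [PowerSeries.coeff_succ_X_mul]

omit [CharZero K] in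
theorem Eh_X_left (A B : PowerSeries (AA K)) : Eh (PowerSeries.X * A) B = PowerSeries.X * Eh A B := by
  ext1 N
  cases N with
  | zero => simp [E_zero_left]
  | succ N =>
    rw [PowerSeries.coeff_succ_X_mul, coeff_Eh, coeff_Eh, Finset.Nat.sum_antidiagonal_succ]
    simp [PowerSeries.coeff_succ_X_mul, E_zero_left]

omit [CharZero K] in
theorem Eh_Xpow_right (A B : PowerSeries (AA K)) (n : ℕ) : Eh A (PowerSeries.X ^ n * B) = PowerSeries.X ^ n * Eh A B := by
  induction n with
  | zero => simp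
  | succ n ih => rw [pow_succ', mul_assoc, Eh_X_right, ih, mul_assoc]

omit [CharZero K] in
theorem Eh_C_right (A B : PowerSeries (AA K)) (k : ℕ) : Eh A (B * PowerSeries.C (X k)) = Eh A B * PowerSeries.C (X k) + B * Dh^[k] A := by
  ext1 N
  rw [coeff_Eh, map_add, PowerSeries.coeff_mul_C, coeff_Eh, PowerSeries.coeff_mul, Finset.sum_mul]
  have h2 : ∑ p ∈ antidiagonal N, (PowerSeries.coeff p.1) B * (PowerSeries.coeff p.2) (Dh^[k] A) =
      ∑ p ∈ antidiagonal N, (PowerSeries.coeff p.2) B * (PowerSeries.coeff p.1) (Dh^[k] A) := by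
    rw [← Finset.Nat.sum_antidiagonal_swap]; rfl
  rw [h2, ← Finset.sum_add_distrib]
  refine Finset.sum_congr rfl fun ij _ => ?_
  rw [PowerSeries.coeff_mul_C, Derivation.leibniz, E_X, Dx_zero_fun, coeff_Dh_iter]
  simp only [smul_eq_mul]; ring

theorem P0_tay (a : PowerSeries ℂ) : P0 (tay ι a) = PowerSeries.X ^ 2 * tay ι ((PowerSeries.derivative ℂ) a) := by
  ext1 v
  rw [coeff_P0]
  match v with
  | 0 =>
    have := tay_even ι 0 a
    rw [mul_zero] at this
    rw [this]; simp [PowerSeries.coeff_X_pow_mul']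
  | 1 => rw [tay_odd ι 1 (by decide), map_zero, PowerSeries.coeff_X_pow_mul', if_neg (by norm_num)]
  | v + 2 =>
    rw [PowerSeries.coeff_X_pow_mul', if_pos (by omega), Nat.add_sub_cancel]
    rcases Nat.even_or_odd' v with ⟨m, hm | hm⟩
    · subst hm
      rw [tay_even, show 2 * m + 2 = 2 * (m + 1) by ring, tay_even, Derivation.leibniz, pderiv_C, Derivation.leibniz_pow, pderiv_X_self, ← tc_succ]
      simp only [smul_eq_mul, nsmul_eq_mul, mul_zero, add_zero, Nat.add_sub_cancel, C_mul, C_add, C_1, map_natCast, mul_one]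
      push_cast; ring
    · rw [tay_odd ι v ⟨m, by omega⟩, tay_odd ι (v + 2) ⟨m + 1, by omega⟩, map_zero]

theorem E_tay (Q : AA K) (a : PowerSeries ℂ) (v : ℕ) : E 0 Q (PowerSeries.coeff v (tay ι a)) = pderiv 0 (PowerSeries.coeff v (tay ι a)) * Q := by
  rcases Nat.even_or_odd' v with ⟨m, hm | hm⟩
  · subst hm
    rw [tay_even, Derivation.leibniz, der_C, Derivation.leibniz_pow, E_X, Derivation.leibniz, pderiv_C, Derivation.leibniz_pow, pderiv_X_self]
    simp only [smul_eq_mul, nsmul_eq_mul, mul_zero, add_zero, Function.iterate_zero, id, mul_one]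
    ring
  · rw [tay_odd ι v ⟨m, by omega⟩]; simp

theorem T_EE (Q G : DP) : PowerSeries.X ^ 2 * T ι (EE (fun k => dx^[k] Q) G) = Eh (T ι Q) (T ι G) := by
  induction G using MvPolynomial.induction_on with
  | C a =>
    rw [EE_C, map_mul, T_C, T_C]
    have : Eh (T ι Q) (tay ι a) = P0 (tay ι a) * T ι Q := by
      ext1 N
      rw [coeff_Eh, PowerSeries.coeff_mul, ← Finset.Nat.sum_antidiagonal_swap]
      refine Finset.sum_congr rfl fun ij _ => ?_
      rw [coeff_P0]; exact E_tay ι _ _ _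
    rw [this, P0_tay]; simp only [Function.iterate_zero, id]; ring
  | add p q hp hq => rw [EE_add, map_add, mul_add, hp, hq, map_add, Eh_add]
  | mul_X p i hp =>
    rw [EE_mul_X, map_add, map_mul, map_mul, map_mul, T_X, T_dx_iter]
    have e1 : T ι p * (PowerSeries.C (X (i + 1)) * PowerSeries.X ^ (i + 3)) = PowerSeries.X ^ (i + 3) * (T ι p * PowerSeries.C (X (i + 1))) := by ring
    rw [e1, Eh_Xpow_right, Eh_C_right, ← hp]
    ring

theorem T_brk (F G : DP) : T ι (brk (dx F) (dx G)) = Eh (Dh (T ι F)) (Dh (T ι G)) - Eh (Dh (T ι G)) (Dh (T ι F)) := by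
  have hX : (PowerSeries.X ^ 2 : PowerSeries (AA K)) ≠ 0 := pow_ne_zero 2 PowerSeries.X_ne_zero
  apply mul_left_cancel₀ hX
  rw [brk_eq, map_sub, mul_sub, T_EE, T_EE, T_dx, T_dx, Eh_X_left, Eh_X_right, Eh_X_left, Eh_X_right]
  ring

theorem T_brk_coeff (F G : DP) (N : ℕ) : PowerSeries.coeff N (T ι (brk (dx F) (dx G))) =
    D (∑ ij ∈ antidiagonal N, br (PowerSeries.coeff ij.1 (T ι F)) (PowerSeries.coeff ij.2 (T ι G))) := by
  rw [T_brk, map_sub, coeff_Eh, coeff_Eh, map_sum]
  rw [← Finset.Nat.sum_antidiagonal_swap (f := fun ij => E 0 ((PowerSeries.coeff ij.1) (Dh (T ι G))) ((PowerSeries.coeff ij.2) (Dh (T ι F)))), ← Finset.sum_sub_distrib]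
  refine Finset.sum_congr rfl fun ij _ => ?_
  rw [D_br]
  simp only [coeff_Dh, Prod.fst_swap, Prod.snd_swap]

end Pool.Agent.H93RH
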