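import Pool.Agent.H93RH.Tay1
import Pool.Agent.H93RH.Rig4

open MvPolynomial

namespace Pool.Agent.H93RH

set_option linter.all false

open Finset.HasAntidiagonal (antidiagonal)

noncomputable def dn (s : ℕ →₀ ℕ) : ℕ →₀ ℕ := s.comapDomain Nat.succ Nat.succ_injective.injOn

@[simp] theorem dn_apply (s : ℕ →₀ ℕ) (k : ℕ) : dn s k = s (k + 1) := rfl

theorem dn_decomp (s : ℕ →₀ ℕ) : s = Finsupp.single 0 (s 0) + (dn s).mapDomain Nat.succ := by
  ext k
  cases k with
  | zero =>
    rw [Finsupp.add_apply, Finsupp.single_eq_same, Finsupp.mapDomain_notin_range, add_zero]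
    rintro ⟨i, hi⟩; exact Nat.succ_ne_zero i hi
  | succ k =>
    rw [Finsupp.add_apply, Finsupp.single_eq_of_ne (Nat.succ_ne_zero k), zero_add]
    have := Finsupp.mapDomain_apply Nat.succ_injective (dn s) k
    rw [Nat.succ_eq_add_one] at this
    rw [this, dn_apply]

theorem phi_decomp (c : ℕ → ℕ) (s : ℕ →₀ ℕ) : (s.sum fun k n => n * c k) = s 0 * c 0 + (dn s).sum fun k n => n * c (k + 1) := by
  conv_lhs => rw [dn_decomp s]
  rw [Finsupp.sum_add_index', Finsupp.sum_single_index, Finsupp.sum_mapDomain_index]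
  · intro; simp
  · intro a b c; ring
  · simp
  · intro; simp
  · intro a b c; ring

def wt (s : ℕ →₀ ℕ) : ℕ := s.sum fun k n => n * (k + 2)
def dg (s : ℕ →₀ ℕ) : ℕ := s.sum fun k n => n * k

theorem wt_decomp (s : ℕ →₀ ℕ) : wt s = s 0 * 2 + (dn s).sum fun k n => n * (k + 3) := by
  unfold wt; rw [phi_decomp (fun k => k + 2)]

theorem dg_decomp (s : ℕ →₀ ℕ) : dg s = (dn s).sum fun k n => n * (k + 1) := by
  unfold dg; rw [phi_decomp (fun k => k)]; simp

theorem dg_le_wt (s : ℕ →₀ ℕ) : dg s ≤ wt s := by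
  unfold dg wt Finsupp.sum
  exact Finset.sum_le_sum fun k _ => Nat.mul_le_mul_left _ (by omega)

theorem wt_add (s t : ℕ →₀ ℕ) : wt (s + t) = wt s + wt t := by
  unfold wt; rw [Finsupp.sum_add_index']
  · intro; simp
  · intro a b c; ring
theorem wt_single (k n : ℕ) : wt (Finsupp.single k n) = n * (k + 2) := by
  unfold wt; rw [Finsupp.sum_single_index]; simp
theorem dg_add (s t : ℕ →₀ ℕ) : dg (s + t) = dg s + dg t := by
  unfold dg; rw [Finsupp.sum_add_index']
  · intro; simp
  · intro a b c; ring
theorem dg_single (k n : ℕ) : dg (Finsupp.single k n) = n * k := by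
  unfold dg; rw [Finsupp.sum_single_index]; simp

theorem dn_zero_iff (s : ℕ →₀ ℕ) (h : dn s = 0) : s = Finsupp.single 0 (s 0) := by
  conv_lhs => rw [dn_decomp s, h]
  simp

theorem dn_single0 (m : ℕ) : dn (Finsupp.single 0 m) = 0 := by
  ext k; rw [dn_apply, Finsupp.single_eq_of_ne (Nat.succ_ne_zero k)]; rfl

variable {K : Type*} [Field K] [CharZero K] (ι : PowerSeries ℂ →+* K)

theorem CF (G : DP) (s : ℕ →₀ ℕ) (w : ℕ) : coeff s (PowerSeries.coeff w (T ι G)) =
    if wt s = w then tc ι (s 0) (coeff (dn s) G) else 0 := by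
  classical
  induction G using MvPolynomial.induction_on generalizing s w with
  | C a =>
    rw [T_C, coeff_C]
    by_cases hd : dn s = 0
    · have hs := dn_zero_iff s hd
      have hw : wt s = 2 * s 0 := by rw [hs, wt_single]; simp; ring
      rw [if_pos hd.symm]
      rcases Nat.even_or_odd' w with ⟨m, hm | hm⟩
      · subst hm
        rw [tay_even, coeff_C_mul, coeff_X_pow]
        by_cases hsm : s 0 = m
        · rw [if_pos (by rw [← hsm, ← hs]), if_pos (by omega), hsm, mul_one]
        · rw [if_neg, if_neg (by omega), mul_zero]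
          intro h
          apply hsm
          rw [← h]; simp
      · rw [tay_odd ι w ⟨m, by omega⟩, if_neg (by omega), coeff_zero]
    · rw [if_neg (show ¬ (0 = dn s) from fun h => hd h.symm), tc_zero, ite_self]
      rcases Nat.even_or_odd' w with ⟨m, hm | hm⟩
      · subst hm
        rw [tay_even, coeff_C_mul, coeff_X_pow, if_neg, mul_zero]
        intro h
        apply hd
        rw [← h, dn_single0]
      · rw [tay_odd ι w ⟨m, by omega⟩, coeff_zero]
  | add p q hp hq =>
    rw [map_add, map_add, coeff_add, hp, hq, coeff_add]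
    split_ifs
    · rw [tc_add]
    · rw [add_zero]
  | mul_X p k hp =>
    rw [T_mul_X, coeff_mul_X' _ k p]
    have hmem : k ∈ (dn s).support ↔ k + 1 ∈ s.support := by
      rw [Finsupp.mem_support_iff, Finsupp.mem_support_iff, dn_apply]
    by_cases hk : k + 1 ∈ s.support
    · rw [if_pos (hmem.2 hk)]
      have hk1 : 1 ≤ s (k + 1) := Nat.one_le_iff_ne_zero.2 (Finsupp.mem_support_iff.1 hk)
      have hs : s = (s - Finsupp.single (k + 1) 1) + Finsupp.single (k + 1) 1 := by
        ext j
        rw [Finsupp.add_apply, Finsupp.tsub_apply]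
        by_cases hj : j = k + 1
        · subst hj; rw [Finsupp.single_eq_same]; omega
        · rw [Finsupp.single_eq_of_ne hj]; omega
      have hwt : wt s = wt (s - Finsupp.single (k + 1) 1) + (k + 3) := by
        conv_lhs => rw [hs]
        rw [wt_add, wt_single]; ring
      have h0 : (s - Finsupp.single (k + 1) 1 : ℕ →₀ ℕ) 0 = s 0 := by
        rw [Finsupp.tsub_apply, Finsupp.single_eq_of_ne (Nat.succ_ne_zero k).symm]; rfl
      have hdn : dn (s - Finsupp.single (k + 1) 1) = dn s - Finsupp.single k 1 := by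
        ext j
        rw [dn_apply, Finsupp.tsub_apply, Finsupp.tsub_apply, dn_apply]
        by_cases hj : j = k
        · subst hj; rw [Finsupp.single_eq_same, Finsupp.single_eq_same]
        · rw [Finsupp.single_eq_of_ne hj, Finsupp.single_eq_of_ne (by omega)]
      split_ifs with h1 h2 h2
      · rw [coeff_mul_X', if_pos hk, hp, if_pos (by omega), h0, hdn]
      · rw [coeff_mul_X', if_pos hk, hp, if_neg (by omega)]
      · omega
      · rw [coeff_zero]
    · rw [if_neg (fun h => hk (hmem.1 h)), tc_zero, ite_self]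
      split_ifs
      · rw [coeff_mul_X', if_neg hk]
      · rw [coeff_zero]

noncomputable def pp (F : EDP) (v : ℕ) : AA K :=
  ∑ i ∈ Finset.range (v + 1), PowerSeries.coeff v (T ι (PowerSeries.coeff i F))

theorem deg0_coeff {F : EDP} (hF : Deg0 F) (s : ℕ →₀ ℕ) (i : ℕ) (h : coeff (dn s) (PowerSeries.coeff i F) ≠ 0) : i = dg s := by
  have := hF i h
  rw [Finsupp.weight_apply] at this
  rw [dg_decomp, ← this]
  simp

theorem T_small {F : EDP} (hF : Deg0 F) (v i : ℕ) (hv : v < i) : PowerSeries.coeff v (T ι (PowerSeries.coeff i F)) = 0 := by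
  ext s
  rw [CF, coeff_zero]
  split_ifs with h
  · by_cases hc : coeff (dn s) (PowerSeries.coeff i F) = 0
    · rw [hc, tc_zero]
    · have := deg0_coeff hF s i hc
      have h2 := dg_le_wt s
      omega
  · rfl

theorem coeff_pp {F : EDP} (hF : Deg0 F) (s : ℕ →₀ ℕ) (v : ℕ) :
    coeff s (pp ι F v) = if wt s = v then tc ι (s 0) (coeff (dn s) (PowerSeries.coeff (dg s) F)) else 0 := by
  classical
  unfold pp
  rw [coeff_sum]
  simp only [CF]
  split_ifs with h
  · rw [Finset.sum_eq_single (dg s)]
    · intro i _ hi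
      by_cases hc : coeff (dn s) (PowerSeries.coeff i F) = 0
      · rw [hc, tc_zero]
      · exact absurd (deg0_coeff hF s i hc) hi
    · intro hn
      exfalso
      apply hn
      have := dg_le_wt s
      simp; omega
  · simp

theorem pp_ext {F : EDP} (hF : Deg0 F) (v N : ℕ) (hN : v ≤ N) :
    pp ι F v = ∑ i ∈ Finset.range (N + 1), PowerSeries.coeff v (T ι (PowerSeries.coeff i F)) := by
  unfold pp
  apply Finset.sum_subset
  · intro i hi; simp at hi ⊢; omega
  · intro i _ hi
    apply T_small ι hF
    simp at hi; omega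

omit [CharZero K] in
theorem br_sum_left {α : Type*} (t : Finset α) (f : α → AA K) (G : AA K) : br (∑ i ∈ t, f i) G = ∑ i ∈ t, br (f i) G := by
  classical
  induction t using Finset.induction_on with
  | empty => simp [br_zero_left]
  | insert a s ha ih => rw [Finset.sum_insert ha, Finset.sum_insert ha, br_add_left, ih]
omit [CharZero K] in
theorem br_sum_right {α : Type*} (t : Finset α) (f : α → AA K) (G : AA K) : br G (∑ i ∈ t, f i) = ∑ i ∈ t, br G (f i) := by
  classical
  induction t using Finset.induction_on with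
  | empty => simp [br_zero_right]
  | insert a s ha ih => rw [Finset.sum_insert ha, Finset.sum_insert ha, br_add_right, ih]

theorem D_inj (Z : AA K) (h : D Z = 0) (h0 : sy [] Z = 0) : Z = 0 := by
  have hinf : (Set.range (fun n : ℕ => ((n : K) + 1))).Infinite := by
    apply Set.infinite_range_of_injective
    intro a b hab
    have : (a : K) = b := by linear_combination hab
    exact_mod_cast this
  apply inj_gen _ hinf
  intro l hl
  cases l with
  | nil => exact h0
  | cons x l =>
    have h1 := congrArg (sy (x :: l)) h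
    rw [sy_D, sy_zero] at h1
    refine (mul_eq_zero.1 h1).resolve_left ?_
    have key : ∀ l : List K, (∀ x ∈ l, x ∈ Set.range (fun n : ℕ => ((n : K) + 1))) → ∃ n : ℕ, l.sum = n := by
      intro l
      induction l with
      | nil => intro _; exact ⟨0, by simp⟩
      | cons y l ih =>
        intro hl
        obtain ⟨n, hn⟩ := ih (fun x hx => hl x (List.mem_cons_of_mem _ hx))
        obtain ⟨m, hm⟩ := hl y (by simp)
        refine ⟨m + 1 + n, ?_⟩
        rw [List.sum_cons, hn, ← hm]; push_cast; ring
    obtain ⟨n, hn⟩ := key l (fun x hx => hl x (List.mem_cons_of_mem _ hx))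
    obtain ⟨m, hm⟩ := hl x (by simp)
    rw [List.sum_cons, hn, ← hm]
    have : ((m : K) + 1 + n) = ((m + 1 + n : ℕ) : K) := by push_cast; ring
    simp only
    rw [this]
    exact_mod_cast (by omega : m + 1 + n ≠ 0)

omit [CharZero K] in
theorem cc_br (F G : AA K) : sy [] (br F G) = 0 := by
  rw [sy_br]; simp [splits]

theorem comm_eq (F G : EDP) (h : FlowsCommute F G) (n N : ℕ) :
    ∑ ij ∈ antidiagonal n, ∑ vw ∈ antidiagonal N,
      br (PowerSeries.coeff vw.1 (T ι (PowerSeries.coeff ij.1 F))) (PowerSeries.coeff vw.2 (T ι (PowerSeries.coeff ij.2 G))) = 0 := by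
  apply D_inj
  · rw [map_sum]
    have h1 := congrArg (fun Z => PowerSeries.coeff N (T ι Z)) (h n)
    simp only [map_sum, map_zero] at h1
    rw [← h1]
    refine Finset.sum_congr rfl fun ij _ => ?_
    rw [T_brk_coeff, map_sum]
  · rw [sy_sum]
    refine Finset.sum_eq_zero fun ij _ => ?_
    rw [sy_sum]
    exact Finset.sum_eq_zero fun vw _ => cc_br _ _

theorem sum_box {M : Type*} [AddCommMonoid M] (f : ℕ → ℕ → M) (N : ℕ) (h : ∀ i j, N < i ∨ N < j → f i j = 0) :
    ∑ i ∈ Finset.range (N + 1), ∑ j ∈ Finset.range (N + 1), f i j =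
      ∑ n ∈ Finset.range (2 * N + 1), ∑ ij ∈ antidiagonal n, f ij.1 ij.2 := by
  classical
  rw [← Finset.sum_product']
  rw [← Finset.sum_fiberwise_of_maps_to (s := Finset.range (N + 1) ×ˢ Finset.range (N + 1)) (t := Finset.range (2 * N + 1)) (g := fun p => p.1 + p.2)]
  · refine Finset.sum_congr rfl fun n _ => ?_
    apply Finset.sum_subset
    · intro p hp
      simp only [Finset.mem_filter] at hp
      rw [Finset.HasAntidiagonal.mem_antidiagonal]; exact hp.2
    · intro p hp hnp
      rw [Finset.HasAntidiagonal.mem_antidiagonal] at hp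
      simp only [Finset.mem_filter, Finset.mem_product, Finset.mem_range, not_and] at hnp
      apply h
      by_contra hc
      push Not at hc
      exact hnp ⟨by omega, by omega⟩ hp
  · intro p hp
    simp only [Finset.mem_product, Finset.mem_range] at hp ⊢
    omega

theorem main_eq (F G : EDP) (hF : Deg0 F) (hG : Deg0 G) (h : FlowsCommute F G) (N : ℕ) :
    ∑ vw ∈ antidiagonal N, br (pp ι F vw.1) (pp ι G vw.2) = 0 := by
  have h1 : ∀ vw ∈ antidiagonal N, br (pp ι F vw.1) (pp ι G vw.2) =
      ∑ i ∈ Finset.range (N + 1), ∑ j ∈ Finset.range (N + 1),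
        br (PowerSeries.coeff vw.1 (T ι (PowerSeries.coeff i F))) (PowerSeries.coeff vw.2 (T ι (PowerSeries.coeff j G))) := by
    intro vw hvw
    rw [Finset.HasAntidiagonal.mem_antidiagonal] at hvw
    rw [pp_ext ι hF vw.1 N (by omega), pp_ext ι hG vw.2 N (by omega), br_sum_left]
    exact Finset.sum_congr rfl fun i _ => br_sum_right _ _ _
  rw [Finset.sum_congr rfl h1, Finset.sum_comm]
  have h2 : ∀ i ∈ Finset.range (N + 1), ∑ vw ∈ antidiagonal N, ∑ j ∈ Finset.range (N + 1),
        br (PowerSeries.coeff vw.1 (T ι (PowerSeries.coeff i F))) (PowerSeries.coeff vw.2 (T ι (PowerSeries.coeff j G))) =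
      ∑ j ∈ Finset.range (N + 1), ∑ vw ∈ antidiagonal N,
        br (PowerSeries.coeff vw.1 (T ι (PowerSeries.coeff i F))) (PowerSeries.coeff vw.2 (T ι (PowerSeries.coeff j G))) :=
    fun i _ => Finset.sum_comm
  rw [Finset.sum_congr rfl h2]
  rw [sum_box (fun i j => ∑ vw ∈ antidiagonal N,
        br (PowerSeries.coeff vw.1 (T ι (PowerSeries.coeff i F))) (PowerSeries.coeff vw.2 (T ι (PowerSeries.coeff j G))))]
  · exact Finset.sum_eq_zero fun n _ => comm_eq ι F G h n N
  · intro i j hij
    apply Finset.sum_eq_zero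
    intro vw hvw
    rw [Finset.HasAntidiagonal.mem_antidiagonal] at hvw
    rcases hij with hi | hj
    · rw [T_small ι hF vw.1 i (by omega), br_zero_left]
    · rw [T_small ι hG vw.2 j (by omega), br_zero_right]

end Pool.Agent.H93RH
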