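import Pool.Agent.H93RH.Tay2

open MvPolynomial

namespace Pool.Agent.H93RH.Rho

set_option linter.all false

open Finset.HasAntidiagonal (antidiagonal)

variable (ρ : ℕ) [NeZero ρ] {K : Type*} [Field K] [CharZero K] (ι : PowerSeries ℂ →+* K)

noncomputable def tay : PowerSeries ℂ →+* PowerSeries (AA K) :=
  (PowerSeries.expand ρ (NeZero.ne ρ) : PowerSeries (AA K) →ₐ[AA K] PowerSeries (AA K)).toRingHom.comp (tay0 ι)

theorem tay_dvd (m : ℕ) (f : PowerSeries ℂ) : PowerSeries.coeff (ρ * m) (tay ρ ι f) = C (tc ι m f) * X 0 ^ m := by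
  show PowerSeries.coeff (ρ * m) (PowerSeries.expand ρ (NeZero.ne ρ) (tay0 ι f)) = _
  rw [PowerSeries.coeff_expand_mul]
  show PowerSeries.coeff m (PowerSeries.mk (fun m => (C (tc ι m f) * X 0 ^ m : AA K))) = _
  rw [PowerSeries.coeff_mk]

theorem tay_ndvd (n : ℕ) (hn : ¬ ρ ∣ n) (f : PowerSeries ℂ) : PowerSeries.coeff n (tay ρ ι f) = 0 := by
  show PowerSeries.coeff n (PowerSeries.expand ρ (NeZero.ne ρ) (tay0 ι f)) = _
  exact PowerSeries.coeff_expand_of_not_dvd _ _ _ hn

/-- the Taylor map `u ↦ u₀ + δ^ρ X₀`, `u_k ↦ δ^{k+ρ} X_k`. -/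
noncomputable def T : DP →+* PowerSeries (AA K) :=
  eval₂Hom (tay ρ ι) (fun k => PowerSeries.C (X (k + 1)) * PowerSeries.X ^ (k + 1 + ρ))

theorem T_C (a : PowerSeries ℂ) : T ρ ι (C a) = tay ρ ι a := by simp [T]
theorem T_X (k : ℕ) : T ρ ι (X k) = PowerSeries.C (X (k + 1)) * PowerSeries.X ^ (k + 1 + ρ) := by simp [T]

theorem T_mul_X (G : DP) (k w : ℕ) : PowerSeries.coeff w (T ρ ι (G * X k)) =
    if k + 1 + ρ ≤ w then PowerSeries.coeff (w - (k + 1 + ρ)) (T ρ ι G) * X (k + 1) else 0 := by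
  rw [map_mul, T_X, ← mul_assoc, PowerSeries.coeff_mul_X_pow']
  split_ifs
  · rw [PowerSeries.coeff_mul_C]
  · rfl

theorem Dh_tay (a : PowerSeries ℂ) : PowerSeries.X * Dh (tay ρ ι a) = PowerSeries.C (X 1) * PowerSeries.X ^ (ρ + 1) * tay ρ ι (PowerSeries.derivative ℂ a) := by
  have hρ : ρ ≠ 0 := NeZero.ne ρ
  ext1 v
  have hr : PowerSeries.C (X 1) * PowerSeries.X ^ (ρ + 1) * tay ρ ι (PowerSeries.derivative ℂ a) = PowerSeries.X ^ (ρ + 1) * (tay ρ ι (PowerSeries.derivative ℂ a) * PowerSeries.C (X 1)) := by ring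
  rw [hr]
  cases v with
  | zero => simp [PowerSeries.coeff_X_pow_mul']
  | succ v =>
    rw [PowerSeries.coeff_succ_X_mul, coeff_Dh, PowerSeries.coeff_X_pow_mul']
    by_cases hd : ρ ∣ v
    · obtain ⟨m, rfl⟩ := hd
      rw [tay_dvd]
      cases m with
      | zero =>
        rw [if_neg (by simp; omega)]; simp
      | succ m =>
        have h1 : ρ + 1 ≤ ρ * (m + 1) + 1 := by nlinarith
        have h2 : ρ * (m + 1) + 1 - (ρ + 1) = ρ * m := by rw [mul_add, mul_one]; omega
        rw [if_pos h1, h2, PowerSeries.coeff_mul_C, tay_dvd, Derivation.leibniz, der_C, Derivation.leibniz_pow, D_X, ← tc_succ]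
        simp only [smul_eq_mul, nsmul_eq_mul, mul_zero, add_zero, Nat.add_sub_cancel, zero_add, C_mul, C_add, C_1, map_natCast]
        push_cast; ring
    · rw [tay_ndvd ρ ι v hd, map_zero]
      split_ifs with h
      · rw [PowerSeries.coeff_mul_C, tay_ndvd, zero_mul]
        intro h2
        apply hd
        have h3 : v = (v + 1 - (ρ + 1)) + ρ := by omega
        rw [h3]; exact Dvd.dvd.add h2 (dvd_refl ρ)
      · rfl

theorem T_dx (G : DP) : T ρ ι (dx G) = PowerSeries.X * Dh (T ρ ι G) := by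
  induction G using MvPolynomial.induction_on with
  | C a =>
    rw [dx_C, map_mul, T_X, T_C, T_C, Dh_tay]
    rw [show 0 + 1 + ρ = ρ + 1 by ring]
  | add p q hp hq => rw [dx_add, map_add, hp, hq, map_add, Dh_add, mul_add]
  | mul_X p i hp =>
    rw [dx_mul_X, map_add, map_mul, map_mul, hp, map_mul, T_X, T_X, Dh_mul, D_X, mul_add]
    ring

theorem T_dx_iter (G : DP) (k : ℕ) : T ρ ι (dx^[k] G) = PowerSeries.X ^ k * Dh^[k] (T ρ ι G) := by
  induction k generalizing G with
  | zero => simp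
  | succ k ih =>
    rw [Function.iterate_succ_apply, ih, T_dx, Function.iterate_succ_apply, pow_succ]
    have : ∀ A : PowerSeries (AA K), Dh^[k] (PowerSeries.X * A) = PowerSeries.X * Dh^[k] A := by
      clear ih
      induction k with
      | zero => intro A; rfl
      | succ k ih => intro A; rw [Function.iterate_succ_apply, Dh_X_mul, ih]; rfl
    rw [this]; ring

theorem P0_tay (a : PowerSeries ℂ) : P0 (tay ρ ι a) = PowerSeries.X ^ ρ * tay ρ ι (PowerSeries.derivative ℂ a) := by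
  have hρ : ρ ≠ 0 := NeZero.ne ρ
  ext1 v
  rw [coeff_P0, PowerSeries.coeff_X_pow_mul']
  by_cases hd : ρ ∣ v
  · obtain ⟨m, rfl⟩ := hd
    rw [tay_dvd]
    cases m with
    | zero =>
      rw [if_neg (by simp; omega)]; simp
    | succ m =>
      have h1 : ρ ≤ ρ * (m + 1) := by nlinarith
      have h2 : ρ * (m + 1) - ρ = ρ * m := by rw [mul_add, mul_one]; omega
      rw [if_pos h1, h2, tay_dvd, Derivation.leibniz, pderiv_C, Derivation.leibniz_pow, pderiv_X_self, ← tc_succ]
      simp only [smul_eq_mul, nsmul_eq_mul, mul_zero, add_zero, Nat.add_sub_cancel, C_mul, C_add, C_1, map_natCast, mul_one]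
      push_cast; ring
  · rw [tay_ndvd ρ ι v hd, map_zero]
    split_ifs with h
    · rw [tay_ndvd]
      intro h2
      apply hd
      have h3 : v = (v - ρ) + ρ := by omega
      rw [h3]; exact Dvd.dvd.add h2 (dvd_refl ρ)
    · rfl

theorem E_tay (Q : AA K) (a : PowerSeries ℂ) (v : ℕ) : E 0 Q (PowerSeries.coeff v (tay ρ ι a)) = pderiv 0 (PowerSeries.coeff v (tay ρ ι a)) * Q := by
  by_cases hd : ρ ∣ v
  · obtain ⟨m, rfl⟩ := hd
    rw [tay_dvd, Derivation.leibniz, der_C, Derivation.leibniz_pow, E_X, Derivation.leibniz, pderiv_C, Derivation.leibniz_pow, pderiv_X_self]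
    simp only [smul_eq_mul, nsmul_eq_mul, mul_zero, add_zero, Function.iterate_zero, id, mul_one]
    ring
  · rw [tay_ndvd ρ ι v hd]; simp

theorem T_EE (Q G : DP) : PowerSeries.X ^ ρ * T ρ ι (EE (fun k => dx^[k] Q) G) = Eh (T ρ ι Q) (T ρ ι G) := by
  induction G using MvPolynomial.induction_on with
  | C a =>
    rw [EE_C, map_mul, T_C, T_C]
    have : Eh (T ρ ι Q) (tay ρ ι a) = P0 (tay ρ ι a) * T ρ ι Q := by
      ext1 N
      rw [coeff_Eh, PowerSeries.coeff_mul, ← Finset.Nat.sum_antidiagonal_swap]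
      refine Finset.sum_congr rfl fun ij _ => ?_
      rw [coeff_P0]; exact E_tay ρ ι _ _ _
    rw [this, P0_tay]; simp only [Function.iterate_zero, id]; ring
  | add p q hp hq => rw [EE_add, map_add, mul_add, hp, hq, map_add, Eh_add]
  | mul_X p i hp =>
    rw [EE_mul_X, map_add, map_mul, map_mul, map_mul, T_X, T_dx_iter]
    have e1 : T ρ ι p * (PowerSeries.C (X (i + 1)) * PowerSeries.X ^ (i + 1 + ρ)) = PowerSeries.X ^ (i + 1 + ρ) * (T ρ ι p * PowerSeries.C (X (i + 1))) := by ring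
    rw [e1, Eh_Xpow_right, Eh_C_right, ← hp]
    ring

theorem T_brk (F G : DP) : PowerSeries.X ^ ρ * T ρ ι (brk (dx F) (dx G)) =
    PowerSeries.X ^ 2 * (Eh (Dh (T ρ ι F)) (Dh (T ρ ι G)) - Eh (Dh (T ρ ι G)) (Dh (T ρ ι F))) := by
  rw [brk_eq, map_sub, mul_sub, T_EE, T_EE, T_dx, T_dx, Eh_X_left, Eh_X_right, Eh_X_left, Eh_X_right]
  ring

theorem Eh_coeff (A B : PowerSeries (AA K)) (N : ℕ) : PowerSeries.coeff N (Eh (Dh A) (Dh B) - Eh (Dh B) (Dh A)) =
    D (∑ ij ∈ antidiagonal N, br (PowerSeries.coeff ij.1 A) (PowerSeries.coeff ij.2 B)) := by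
  rw [map_sub, coeff_Eh, coeff_Eh, map_sum]
  rw [← Finset.Nat.sum_antidiagonal_swap (f := fun ij => E 0 ((PowerSeries.coeff ij.1) (Dh B)) ((PowerSeries.coeff ij.2) (Dh A))), ← Finset.sum_sub_distrib]
  refine Finset.sum_congr rfl fun ij _ => ?_
  rw [D_br]
  simp only [coeff_Dh, Prod.fst_swap, Prod.snd_swap]

/-! coefficients -/

def wt (s : ℕ →₀ ℕ) : ℕ := s.sum fun k n => n * (k + ρ)

theorem dg_le_wt (s : ℕ →₀ ℕ) : dg s ≤ wt ρ s := by
  unfold dg wt Finsupp.sum
  exact Finset.sum_le_sum fun k _ => Nat.mul_le_mul_left _ (by omega)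
theorem wt_add (s t : ℕ →₀ ℕ) : wt ρ (s + t) = wt ρ s + wt ρ t := by
  unfold wt; rw [Finsupp.sum_add_index']
  · intro; simp
  · intro a b c; ring
theorem wt_single (k n : ℕ) : wt ρ (Finsupp.single k n) = n * (k + ρ) := by
  unfold wt; rw [Finsupp.sum_single_index]; simp

theorem CF (G : DP) (s : ℕ →₀ ℕ) (w : ℕ) : coeff s (PowerSeries.coeff w (T ρ ι G)) =
    if wt ρ s = w then tc ι (s 0) (coeff (dn s) G) else 0 := by
  classical
  have hρ : ρ ≠ 0 := NeZero.ne ρ
  induction G using MvPolynomial.induction_on generalizing s w with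
  | C a =>
    rw [T_C, coeff_C]
    by_cases hd : dn s = 0
    · have hs := dn_zero_iff s hd
      have hw : wt ρ s = ρ * s 0 := by rw [hs, wt_single]; simp; ring
      rw [if_pos hd.symm]
      by_cases hdv : ρ ∣ w
      · obtain ⟨m, rfl⟩ := hdv
        rw [tay_dvd, coeff_C_mul, coeff_X_pow]
        by_cases hsm : s 0 = m
        · rw [if_pos (by rw [← hsm, ← hs]), if_pos (by rw [hw, hsm]), hsm, mul_one]
        · rw [if_neg, if_neg, mul_zero]
          · rw [hw]; intro h; exact hsm (Nat.eq_of_mul_eq_mul_left (Nat.pos_of_ne_zero hρ) h)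
          · intro h
            apply hsm
            rw [← h]; simp
      · rw [tay_ndvd ρ ι w hdv, if_neg, coeff_zero]
        intro h; apply hdv; rw [← h, hw]; exact Dvd.intro _ rfl
    · rw [if_neg (show ¬ (0 = dn s) from fun h => hd h.symm), tc_zero, ite_self]
      by_cases hdv : ρ ∣ w
      · obtain ⟨m, rfl⟩ := hdv
        rw [tay_dvd, coeff_C_mul, coeff_X_pow, if_neg, mul_zero]
        intro h
        apply hd
        rw [← h, dn_single0]
      · rw [tay_ndvd ρ ι w hdv, coeff_zero]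
  | add p q hp hq =>
    rw [map_add, map_add, coeff_add, hp, hq, coeff_add]
    split_ifs
    · rw [tc_add]
    · rw [add_zero]
  | mul_X p k hp =>
    rw [T_mul_X, coeff_mul_X' _ k p]
    have hmem : k ∈ (dn s).support ↔ k + 1 ∈ s.support := by
      rw [Finsupp.mem_support_iff, Finsupp.mem_support_iff, dn_apply]
    by_cases hk : k + 1 ∈ s.support
    · rw [if_pos (hmem.2 hk)]
      have hk1 : 1 ≤ s (k + 1) := Nat.one_le_iff_ne_zero.2 (Finsupp.mem_support_iff.1 hk)
      have hs : s = (s - Finsupp.single (k + 1) 1) + Finsupp.single (k + 1) 1 := by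
        ext j
        rw [Finsupp.add_apply, Finsupp.tsub_apply]
        by_cases hj : j = k + 1
        · subst hj; rw [Finsupp.single_eq_same]; omega
        · rw [Finsupp.single_eq_of_ne hj]; omega
      have hwt : wt ρ s = wt ρ (s - Finsupp.single (k + 1) 1) + (k + 1 + ρ) := by
        conv_lhs => rw [hs]
        rw [wt_add, wt_single]; ring
      have h0 : (s - Finsupp.single (k + 1) 1 : ℕ →₀ ℕ) 0 = s 0 := by
        rw [Finsupp.tsub_apply, Finsupp.single_eq_of_ne (Nat.succ_ne_zero k).symm]; rfl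
      have hdn : dn (s - Finsupp.single (k + 1) 1) = dn s - Finsupp.single k 1 := by
        ext j
        rw [dn_apply, Finsupp.tsub_apply, Finsupp.tsub_apply, dn_apply]
        by_cases hj : j = k
        · subst hj; rw [Finsupp.single_eq_same, Finsupp.single_eq_same]
        · rw [Finsupp.single_eq_of_ne hj, Finsupp.single_eq_of_ne (by omega)]
      split_ifs with h1 h2 h2
      · rw [coeff_mul_X', if_pos hk, hp, if_pos (by omega), h0, hdn]
      · rw [coeff_mul_X', if_pos hk, hp, if_neg (by omega)]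
      · omega
      · rw [coeff_zero]
    · rw [if_neg (fun h => hk (hmem.1 h)), tc_zero, ite_self]
      split_ifs
      · rw [coeff_mul_X', if_neg hk]
      · rw [coeff_zero]

noncomputable def pp (F : EDP) (v : ℕ) : AA K :=
  ∑ i ∈ Finset.range (v + 1), PowerSeries.coeff v (T ρ ι (PowerSeries.coeff i F))

theorem T_small {F : EDP} (hF : Deg0 F) (v i : ℕ) (hv : v < i) : PowerSeries.coeff v (T ρ ι (PowerSeries.coeff i F)) = 0 := by
  ext s
  rw [CF, coeff_zero]
  split_ifs with h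
  · by_cases hc : coeff (dn s) (PowerSeries.coeff i F) = 0
    · rw [hc, tc_zero]
    · have := deg0_coeff hF s i hc
      have h2 := dg_le_wt ρ s
      omega
  · rfl

theorem coeff_pp {F : EDP} (hF : Deg0 F) (s : ℕ →₀ ℕ) (v : ℕ) :
    coeff s (pp ρ ι F v) = if wt ρ s = v then tc ι (s 0) (coeff (dn s) (PowerSeries.coeff (dg s) F)) else 0 := by
  classical
  unfold pp
  rw [coeff_sum]
  simp only [CF]
  split_ifs with h
  · rw [Finset.sum_eq_single (dg s)]
    · intro i _ hi
      by_cases hc : coeff (dn s) (PowerSeries.coeff i F) = 0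
      · rw [hc, tc_zero]
      · exact absurd (deg0_coeff hF s i hc) hi
    · intro hn
      exfalso
      apply hn
      have := dg_le_wt ρ s
      simp; omega
  · simp

theorem pp_ext {F : EDP} (hF : Deg0 F) (v N : ℕ) (hN : v ≤ N) :
    pp ρ ι F v = ∑ i ∈ Finset.range (N + 1), PowerSeries.coeff v (T ρ ι (PowerSeries.coeff i F)) := by
  unfold pp
  apply Finset.sum_subset
  · intro i hi; simp at hi ⊢; omega
  · intro i _ hi
    apply T_small ρ ι hF
    simp at hi; omega

theorem comm_eq (F G : EDP) (h : FlowsCommute F G) (n N : ℕ) :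
    ∑ ij ∈ antidiagonal n, ∑ vw ∈ antidiagonal N,
      br (PowerSeries.coeff vw.1 (T ρ ι (PowerSeries.coeff ij.1 F))) (PowerSeries.coeff vw.2 (T ρ ι (PowerSeries.coeff ij.2 G))) = 0 := by
  apply D_inj
  · have h1 := congrArg (fun Z => PowerSeries.X ^ ρ * T ρ ι Z) (h n)
    simp only [map_sum, map_zero, mul_zero, Finset.mul_sum, T_brk] at h1
    rw [← Finset.mul_sum] at h1
    have hX : (PowerSeries.X ^ 2 : PowerSeries (AA K)) ≠ 0 := pow_ne_zero 2 PowerSeries.X_ne_zero
    have h2 := (mul_eq_zero.1 h1).resolve_left hX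
    have h3 := congrArg (PowerSeries.coeff N) h2
    rw [map_sum, map_zero] at h3
    rw [map_sum, ← h3]
    exact Finset.sum_congr rfl fun ij _ => (Eh_coeff _ _ N).symm
  · rw [sy_sum]
    refine Finset.sum_eq_zero fun ij _ => ?_
    rw [sy_sum]
    exact Finset.sum_eq_zero fun vw _ => cc_br _ _

theorem main_eq (F G : EDP) (hF : Deg0 F) (hG : Deg0 G) (h : FlowsCommute F G) (N : ℕ) :
    ∑ vw ∈ antidiagonal N, br (pp ρ ι F vw.1) (pp ρ ι G vw.2) = 0 := by
  have h1 : ∀ vw ∈ antidiagonal N, br (pp ρ ι F vw.1) (pp ρ ι G vw.2) =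
      ∑ i ∈ Finset.range (N + 1), ∑ j ∈ Finset.range (N + 1),
        br (PowerSeries.coeff vw.1 (T ρ ι (PowerSeries.coeff i F))) (PowerSeries.coeff vw.2 (T ρ ι (PowerSeries.coeff j G))) := by
    intro vw hvw
    rw [Finset.HasAntidiagonal.mem_antidiagonal] at hvw
    rw [pp_ext ρ ι hF vw.1 N (by omega), pp_ext ρ ι hG vw.2 N (by omega), br_sum_left]
    exact Finset.sum_congr rfl fun i _ => br_sum_right _ _ _
  rw [Finset.sum_congr rfl h1, Finset.sum_comm]
  have h2 : ∀ i ∈ Finset.range (N + 1), ∑ vw ∈ antidiagonal N, ∑ j ∈ Finset.range (N + 1),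
        br (PowerSeries.coeff vw.1 (T ρ ι (PowerSeries.coeff i F))) (PowerSeries.coeff vw.2 (T ρ ι (PowerSeries.coeff j G))) =
      ∑ j ∈ Finset.range (N + 1), ∑ vw ∈ antidiagonal N,
        br (PowerSeries.coeff vw.1 (T ρ ι (PowerSeries.coeff i F))) (PowerSeries.coeff vw.2 (T ρ ι (PowerSeries.coeff j G))) :=
    fun i _ => Finset.sum_comm
  rw [Finset.sum_congr rfl h2]
  rw [sum_box (fun i j => ∑ vw ∈ antidiagonal N,
        br (PowerSeries.coeff vw.1 (T ρ ι (PowerSeries.coeff i F))) (PowerSeries.coeff vw.2 (T ρ ι (PowerSeries.coeff j G))))]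
  · exact Finset.sum_eq_zero fun n _ => comm_eq ρ ι F G h n N
  · intro i j hij
    apply Finset.sum_eq_zero
    intro vw hvw
    rw [Finset.HasAntidiagonal.mem_antidiagonal] at hvw
    rcases hij with hi | hj
    · rw [T_small ρ ι hF vw.1 i (by omega), br_zero_left]
    · rw [T_small ρ ι hG vw.2 j (by omega), br_zero_right]

end Pool.Agent.H93RH.Rho
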